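import Mathlib

/-! Basic facts on holomorphic maps between complex normed spaces. -/

namespace Pool.Agent.P.MP_e711b0_an

open Set Filter Metric Topology

set_option linter.unusedSectionVars false

variable {V W Z : Type*} [NormedAddCommGroup V] [NormedSpace ℂ V] [NormedAddCommGroup W]
  [NormedSpace ℂ W] [NormedAddCommGroup Z] [NormedSpace ℂ Z]

theorem mapsTo_of_bound {f : V → W} {c : V} {r M : ℝ} (hr : 0 < r)
    (hb : ∀ x ∈ ball c r, ‖f x‖ ≤ M) : MapsTo f (ball c r) (closedBall (f c) (2 * M)) := by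
  intro x hx
  rw [mem_closedBall, dist_eq_norm]
  have h1 := hb x hx
  have h2 := hb c (mem_ball_self hr)
  have := norm_sub_le (f x) (f c)
  linarith

theorem fderiv_bound {f : V → W} {c : V} {r M : ℝ} (hr : 0 < r)
    (hd : DifferentiableOn ℂ f (ball c r)) (hb : ∀ x ∈ ball c r, ‖f x‖ ≤ M) :
    ‖fderiv ℂ f c‖ ≤ 2 * M / r :=
  Complex.norm_fderiv_le_div_of_mapsTo_ball hd (mapsTo_of_bound hr hb) hr

theorem sub_bound {f : V → W} {c z : V} {r M : ℝ}
    (hd : DifferentiableOn ℂ f (ball c r)) (hb : ∀ x ∈ ball c r, ‖f x‖ ≤ M) (hz : z ∈ ball c r) :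
    ‖f z - f c‖ ≤ 2 * M / r * ‖z - c‖ := by
  have hr : 0 < r := nonempty_ball.mp ⟨_, hz⟩
  have := Complex.dist_le_div_mul_dist_of_mapsTo_ball hd (mapsTo_of_bound hr hb) hz
  simpa [dist_eq_norm] using this

theorem taylor2 {f : V → W} {c z : V} {r M : ℝ}
    (hd : DifferentiableOn ℂ f (ball c r)) (hb : ∀ x ∈ ball c r, ‖f x‖ ≤ M) (hz : z ∈ ball c r) :
    ‖f z - f c - fderiv ℂ f c (z - c)‖ ≤ 4 * M / r ^ 2 * ‖z - c‖ ^ 2 := by
  have hr : 0 < r := nonempty_ball.mp ⟨_, hz⟩
  have hM : 0 ≤ M := (norm_nonneg _).trans (hb c (mem_ball_self hr))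
  set L := fderiv ℂ f c with hL
  have hLb : ‖L‖ ≤ 2 * M / r := fderiv_bound hr hd hb
  set g : V → W := fun x => f x - L (x - c) with hg
  have hgc : g c = f c := by simp [hg]
  have hgd : DifferentiableOn ℂ g (ball c r) := by
    refine hd.sub ?_
    exact (L.differentiable.comp (differentiable_id.sub_const c)).differentiableOn
  have hmaps : MapsTo g (ball c r) (closedBall (g c) (4 * M)) := by
    intro x hx
    rw [mem_closedBall, dist_eq_norm, hgc]
    have h1 := hb x hx
    have h2 := hb c (mem_ball_self hr)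
    have h3 : ‖L (x - c)‖ ≤ 2 * M := by
      have h4 : ‖x - c‖ ≤ r := by
        have := mem_ball.mp hx
        rw [dist_eq_norm] at this
        exact this.le
      calc ‖L (x - c)‖ ≤ ‖L‖ * ‖x - c‖ := L.le_opNorm _
        _ ≤ 2 * M / r * r := by gcongr
        _ = 2 * M := by field_simp
    have h5 : g x - f c = (f x - f c) - L (x - c) := by simp only [hg]; abel
    rw [h5]
    have := norm_sub_le (f x - f c) (L (x - c))
    have := norm_sub_le (f x) (f c)
    linarith
  have hfd : HasFDerivAt f L c :=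
    (hd.differentiableAt (ball_mem_nhds c hr)).hasFDerivAt
  have ho : (fun x => g x - g c) =o[𝓝 c] (fun w => ‖w - c‖ ^ 1) := by
    have := hfd.isLittleO
    simp only [pow_one]
    refine (this.congr_left ?_).norm_right
    intro x
    simp only [hg, sub_self, map_zero, sub_zero]
    abel
  have := Complex.dist_le_mul_div_pow_of_mapsTo_ball_of_isLittleO hgd hmaps ho hz
  rw [dist_eq_norm, hgc, dist_eq_norm] at this
  have h5 : g z - f c = f z - f c - L (z - c) := by simp only [hg]; abel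
  rw [h5] at this
  refine this.trans (le_of_eq ?_)
  rw [one_add_one_eq_two, div_pow]
  ring

theorem hasFDerivAt_of_sq {G : V → W} {c : V} {L : V →L[ℂ] W} {C : ℝ}
    (h : ∀ᶠ z in 𝓝 c, ‖G z - G c - L (z - c)‖ ≤ C * ‖z - c‖ ^ 2) : HasFDerivAt G L c := by
  rw [hasFDerivAt_iff_isLittleO]
  have h1 : (fun z => G z - G c - L (z - c)) =O[𝓝 c] fun z => ‖z - c‖ ^ 2 := by
    refine Asymptotics.IsBigO.of_bound C ?_
    filter_upwards [h] with z hz
    simpa using hz
  refine h1.trans_isLittleO ?_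
  have h2 : Tendsto (fun z : V => z - c) (𝓝 c) (𝓝 0) := by
    have : Continuous fun z : V => z - c := by fun_prop
    simpa using this.tendsto c
  exact (Asymptotics.isLittleO_norm_pow_id (E' := V) (n := 2) (by norm_num)).comp_tendsto h2

theorem exists_ball_bound {f : V → W} {U : Set V} {c : V} (hU : U ∈ 𝓝 c)
    (hc : ContinuousAt f c) : ∃ r > 0, ∃ M, ball c r ⊆ U ∧ ∀ x ∈ ball c r, ‖f x‖ ≤ M := by
  have h1 : ∀ᶠ x in 𝓝 c, ‖f x‖ ≤ ‖f c‖ + 1 :=
    hc.norm.eventually (eventually_le_nhds (by linarith))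
  obtain ⟨r, hr, h⟩ := Metric.mem_nhds_iff.mp (inter_mem hU h1)
  exact ⟨r, hr, _, fun x hx => (h hx).1, fun x hx => (h hx).2⟩

/-- Uniform limits of holomorphic maps are holomorphic. -/
theorem differentiableOn_of_tendsto [CompleteSpace W] {F : ℕ → V → W} {f : V → W} {U : Set V}
    (hU : IsOpen U) (hF : ∀ n, DifferentiableOn ℂ (F n) U)
    (hlim : TendstoUniformlyOn F f atTop U) : DifferentiableOn ℂ f U := by
  intro c hc
  obtain ⟨r, hr, hsub⟩ := Metric.isOpen_iff.mp hU c hc
  have hcau : UniformCauchySeqOn (fun n x => fderiv ℂ (F n) x) atTop (ball c (r / 2)) := by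
    rw [Metric.uniformCauchySeqOn_iff]
    intro ε hε
    have h1 := hlim.uniformCauchySeqOn
    rw [Metric.uniformCauchySeqOn_iff] at h1
    obtain ⟨N, hN⟩ := h1 (ε * r / 8) (by positivity)
    refine ⟨N, fun m hm n hn x hx => ?_⟩
    have hs : ball x (r / 2) ⊆ U := by
      refine subset_trans ?_ hsub
      apply ball_subset_ball'
      have := mem_ball.mp hx
      linarith
    have hxU : U ∈ 𝓝 x := hU.mem_nhds (hs (mem_ball_self (by positivity)))
    have h2 : fderiv ℂ (fun y => F m y - F n y) x = fderiv ℂ (F m) x - fderiv ℂ (F n) x :=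
      fderiv_fun_sub ((hF m).differentiableAt hxU) ((hF n).differentiableAt hxU)
    rw [dist_eq_norm, ← h2]
    have h3 := fderiv_bound (f := fun y => F m y - F n y) (c := x) (r := r / 2) (M := ε * r / 8)
      (by positivity) (((hF m).sub (hF n)).mono hs) (fun y hy => by
        have := hN m hm n hn y (hs hy)
        rw [dist_eq_norm] at this
        exact this.le)
    refine h3.trans_lt ?_
    have : 2 * (ε * r / 8) / (r / 2) = ε / 2 := by field_simp; ring
    rw [this]
    linarith
  have hlim' : ∀ x ∈ ball c (r / 2), Tendsto (fun n => fderiv ℂ (F n) x) atTop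
      (𝓝 (limUnder atTop fun n => fderiv ℂ (F n) x)) := fun x hx =>
    (hcau.cauchySeq hx).tendsto_limUnder
  have hsub' : ball c (r / 2) ⊆ U := (ball_subset_ball (by linarith)).trans hsub
  have := hasFDerivAt_of_tendstoUniformlyOn (𝕜 := ℂ) isOpen_ball
    (hcau.tendstoUniformlyOn_of_tendsto hlim')
    (fun n x hx => ((hF n).differentiableAt (hU.mem_nhds (hsub' hx))).hasFDerivAt)
    (fun x hx => hlim.tendsto_at (hsub' hx)) (mem_ball_self (by positivity : 0 < r / 2))
  exact this.differentiableAt.differentiableWithinAt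

theorem tendsto_inv_succ : Tendsto (fun n : ℕ => (1 : ℝ) / ((n : ℝ) + 1)) atTop (𝓝 0) :=
  tendsto_one_div_add_atTop_nhds_zero_nat

theorem quot_bound {f : V → W} {c v : V} {r M : ℝ} {t : ℂ} (ht : t ≠ 0)
    (hd : DifferentiableOn ℂ f (ball c r)) (hb : ∀ x ∈ ball c r, ‖f x‖ ≤ M)
    (hz : ‖t‖ * ‖v‖ < r) :
    ‖t⁻¹ • (f (c + t • v) - f c) - fderiv ℂ f c v‖ ≤ 4 * M / r ^ 2 * ‖v‖ ^ 2 * ‖t‖ := by
  have hz' : c + t • v ∈ ball c r := by
    rw [mem_ball, dist_eq_norm]
    simpa [norm_smul] using hz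
  have h1 := taylor2 hd hb hz'
  have h2 : t⁻¹ • (f (c + t • v) - f c) - fderiv ℂ f c v =
      t⁻¹ • (f (c + t • v) - f c - fderiv ℂ f c (c + t • v - c)) := by
    simp only [add_sub_cancel_left, map_smul, smul_sub, smul_smul, inv_mul_cancel₀ ht, one_smul]
  rw [h2, norm_smul, norm_inv]
  have htn : 0 < ‖t‖ := norm_pos_iff.mpr ht
  calc ‖t‖⁻¹ * ‖f (c + t • v) - f c - fderiv ℂ f c (c + t • v - c)‖
      ≤ ‖t‖⁻¹ * (4 * M / r ^ 2 * ‖c + t • v - c‖ ^ 2) := by gcongr
    _ = 4 * M / r ^ 2 * ‖v‖ ^ 2 * ‖t‖ := by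
      rw [add_sub_cancel_left, norm_smul]
      field_simp

/-- Directional derivatives of holomorphic maps are holomorphic. -/
theorem differentiableOn_fderiv_apply [CompleteSpace W] {f : V → W} {U : Set V} (hU : IsOpen U)
    (hf : DifferentiableOn ℂ f U) (v : V) : DifferentiableOn ℂ (fun x => fderiv ℂ f x v) U := by
  intro c hc
  obtain ⟨r, hr, M, hsub, hb⟩ := exists_ball_bound (hU.mem_nhds hc)
    (hf.differentiableAt (hU.mem_nhds hc)).continuousAt
  set ρ : ℝ := r / 2 / (‖v‖ + 1) with hρ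
  have hρ0 : 0 < ρ := by positivity
  set t : ℕ → ℂ := fun n => ((ρ * (1 / ((n : ℝ) + 1)) : ℝ) : ℂ) with ht
  have htn : ∀ n, ‖t n‖ = ρ * (1 / ((n : ℝ) + 1)) := fun n => by
    simp only [ht, Complex.norm_real, Real.norm_eq_abs]
    exact abs_of_pos (by positivity)
  have ht0 : ∀ n, t n ≠ 0 := fun n => by
    rw [← norm_pos_iff, htn]; positivity
  have htv : ∀ n, ‖t n‖ * ‖v‖ < r / 2 := fun n => by
    rw [htn]
    have h1 : 1 / ((n : ℝ) + 1) ≤ 1 := by
      rw [div_le_one (by positivity)]; linarith [Nat.cast_nonneg (α := ℝ) n]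
    have h2 : ρ * (‖v‖ + 1) = r / 2 := by rw [hρ]; field_simp
    calc ρ * (1 / ((n : ℝ) + 1)) * ‖v‖ ≤ ρ * 1 * ‖v‖ := by gcongr
      _ < r / 2 := by nlinarith
  have hs : ∀ x ∈ ball c (r / 2), ball x (r / 2) ⊆ ball c r := fun x hx => by
    apply ball_subset_ball'
    have := mem_ball.mp hx
    linarith
  have key := differentiableOn_of_tendsto (U := ball c (r / 2))
    (F := fun n x => (t n)⁻¹ • (f (x + t n • v) - f x)) (f := fun x => fderiv ℂ f x v)
    isOpen_ball (fun n => by
      intro x hx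
      have hx1 : x + t n • v ∈ U := by
        apply hsub (hs x hx _)
        rw [mem_ball, dist_eq_norm]
        simpa [norm_smul] using htv n
      have hx2 : x ∈ U := hsub (hs x hx (mem_ball_self (by positivity)))
      have h1 : DifferentiableAt ℂ (fun y => f (y + t n • v)) x :=
        (hf.differentiableAt (hU.mem_nhds hx1)).comp x (by fun_prop)
      exact ((h1.sub (hf.differentiableAt (hU.mem_nhds hx2))).const_smul _).differentiableWithinAt)
    (by
      rw [Metric.tendstoUniformlyOn_iff]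
      intro ε hε
      have h1 : Tendsto (fun n : ℕ => 4 * M / (r / 2) ^ 2 * ‖v‖ ^ 2 * (ρ * (1 / ((n : ℝ) + 1))))
          atTop (𝓝 0) := by
        simpa using (tendsto_inv_succ.const_mul ρ).const_mul (4 * M / (r / 2) ^ 2 * ‖v‖ ^ 2)
      filter_upwards [h1.eventually (gt_mem_nhds hε)] with n hn x hx
      rw [dist_comm, dist_eq_norm]
      have := quot_bound (ht0 n) (hf.mono ((hs x hx).trans hsub)) (fun y hy => hb y (hs x hx hy))
        (htv n)
      rw [htn] at this
      exact this.trans_lt hn)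
  exact (key.differentiableAt (ball_mem_nhds c (by positivity))).differentiableWithinAt

theorem differentiableAt_clm_of_apply {X : Type*} [NormedAddCommGroup X] [NormedSpace ℂ X]
    [FiniteDimensional ℂ V] {L : X → V →L[ℂ] W} {x : X}
    (h : ∀ v, DifferentiableAt ℂ (fun y => L y v) x) : DifferentiableAt ℂ L x := by
  classical
  let b := Module.finBasis ℂ V
  have h1 : L = fun y => ∑ i, (ContinuousLinearMap.smulRightL ℂ V W
      (LinearMap.toContinuousLinearMap (b.coord i))) (L y (b i)) := by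
    funext y
    ext v
    have h0 : L y v = L y (∑ i, b.repr v i • b i) := by rw [b.sum_repr v]
    rw [h0, map_sum]
    simp
  rw [h1]
  refine DifferentiableAt.fun_sum fun i _ => ?_
  exact (ContinuousLinearMap.differentiableAt _).comp x (h (b i))

/-- Holomorphy along a filter. -/
abbrev Hol (f : V → W) (l : Filter V) : Prop := ∀ᶠ y in l, DifferentiableAt ℂ f y

theorem Hol.exists_open {f : V → W} {x : V} (h : Hol f (𝓝 x)) :
    ∃ U, IsOpen U ∧ x ∈ U ∧ DifferentiableOn ℂ f U := by
  obtain ⟨U, h1, h2, h3⟩ := _root_.eventually_nhds_iff.mp h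
  exact ⟨U, h2, h3, fun y hy => (h1 y hy).differentiableWithinAt⟩

theorem Hol.of_on {f : V → W} {U : Set V} {x : V} (hU : IsOpen U) (hx : x ∈ U)
    (h : DifferentiableOn ℂ f U) : Hol f (𝓝 x) := by
  filter_upwards [hU.mem_nhds hx] with y hy using h.differentiableAt (hU.mem_nhds hy)

theorem Hol.fderiv_apply [CompleteSpace W] {f : V → W} {x : V} (h : Hol f (𝓝 x)) (v : V) :
    Hol (fun y => fderiv ℂ f y v) (𝓝 x) := by
  obtain ⟨U, h1, h2, h3⟩ := h.exists_open
  exact Hol.of_on h1 h2 (differentiableOn_fderiv_apply h1 h3 v)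

theorem differentiableOn_fderiv [CompleteSpace W] [FiniteDimensional ℂ V] {f : V → W} {U : Set V}
    (hU : IsOpen U) (hf : DifferentiableOn ℂ f U) : DifferentiableOn ℂ (fderiv ℂ f) U :=
  fun _ hx => (differentiableAt_clm_of_apply fun v =>
    (differentiableOn_fderiv_apply hU hf v).differentiableAt (hU.mem_nhds hx)).differentiableWithinAt

theorem Hol.fderiv [CompleteSpace W] [FiniteDimensional ℂ V] {f : V → W} {x : V}
    (h : Hol f (𝓝 x)) : Hol (fderiv ℂ f) (𝓝 x) := by
  obtain ⟨U, h1, h2, h3⟩ := h.exists_open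
  exact Hol.of_on h1 h2 (differentiableOn_fderiv h1 h3)

theorem Hol.contDiffAt [CompleteSpace W] [FiniteDimensional ℂ V] {f : V → W} {x : V}
    (h : Hol f (𝓝 x)) : ContDiffAt ℂ 1 f x := by
  have h1 : (1 : WithTop ℕ∞) = ((0 : ℕ) : WithTop ℕ∞) + 1 := by simp
  rw [h1, contDiffAt_succ_iff_hasFDerivAt]
  refine ⟨_root_.fderiv ℂ f, ⟨{y | DifferentiableAt ℂ f y}, h, fun y hy => hy.hasFDerivAt⟩, ?_⟩
  obtain ⟨U, h1, h2, h3⟩ := h.fderiv.exists_open
  rw [Nat.cast_zero, contDiffAt_zero]
  exact ⟨U, h1.mem_nhds h2, h3.continuousOn⟩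

theorem Hol.comp {f : V → W} {g : Z → V} {x : Z} (hf : Hol f (𝓝 (g x))) (hg : Hol g (𝓝 x)) :
    Hol (fun y => f (g y)) (𝓝 x) := by
  have hc : ContinuousAt g x := hg.self_of_nhds.continuousAt
  filter_upwards [hc.eventually hf, hg] with y h1 h2 using h1.comp y h2

theorem Hol.congr {f g : V → W} {x : V} (hf : Hol f (𝓝 x)) (h : ∀ᶠ y in 𝓝 x, f y = g y) :
    Hol g (𝓝 x) := by
  filter_upwards [hf, h.eventually_nhds] with y h1 h2
  exact h1.congr_of_eventuallyEq (EventuallyEq.symm h2)

/-- A jointly continuous family of holomorphic maps is holomorphic with values in `C(X, W)`. -/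
theorem differentiableOn_mkD {X : Type*} [TopologicalSpace X] [CompactSpace X] {Φ : Z → X → W}
    {O : Set Z} (hO : IsOpen O) (hc : ContinuousOn (fun p : Z × X => Φ p.1 p.2) (O ×ˢ univ))
    (hd : ∀ x, DifferentiableOn ℂ (fun z => Φ z x) O) :
    DifferentiableOn ℂ (fun z => ContinuousMap.mkD (Φ z) (0 : C(X, W))) O := by
  intro c hc0
  have hcont : ∀ z ∈ O, Continuous (Φ z) := fun z hz => by
    have : ContinuousOn (fun x : X => Φ z x) univ :=
      hc.comp (f := fun x : X => (z, x)) (by fun_prop) (fun x _ => ⟨hz, trivial⟩)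
    exact continuousOn_univ.mp this
  obtain ⟨M, hM⟩ : ∃ M, ∀ x, ‖Φ c x‖ < M := by
    obtain ⟨M, hM⟩ := (isCompact_range (hcont c hc0).norm).bddAbove
    exact ⟨M + 1, fun x => by have := hM ⟨x, rfl⟩; simp only at this; linarith⟩
  have hev : ∀ᶠ z in 𝓝 c, ∀ x ∈ (univ : Set X), ‖Φ z x‖ < M := by
    refine isCompact_univ.eventually_forall_of_forall_eventually fun x _ => ?_
    have h1 : ContinuousAt (fun p : Z × X => Φ p.1 p.2) (c, x) :=
      hc.continuousAt ((hO.prod isOpen_univ).mem_nhds ⟨hc0, trivial⟩)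
    exact h1.norm.eventually (gt_mem_nhds (hM x))
  obtain ⟨r, hr, hball⟩ := Metric.mem_nhds_iff.mp (inter_mem (hO.mem_nhds hc0) hev)
  have hsub : ball c r ⊆ O := fun z hz => (hball hz).1
  have hb : ∀ x, ∀ z ∈ ball c r, ‖Φ z x‖ ≤ M := fun x z hz => ((hball hz).2 x trivial).le
  have hM0 : ∀ x : X, 0 ≤ M := fun x => (norm_nonneg _).trans (hM x).le
  have hDc : ∀ v, Continuous fun x => fderiv ℂ (fun z => Φ z x) c v := fun v => by
    set ρ : ℝ := r / 2 / (‖v‖ + 1) with hρ
    have hρ0 : 0 < ρ := by positivity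
    set t : ℕ → ℂ := fun n => ((ρ * (1 / ((n : ℝ) + 1)) : ℝ) : ℂ) with ht
    have htn : ∀ n, ‖t n‖ = ρ * (1 / ((n : ℝ) + 1)) := fun n => by
      simp only [ht, Complex.norm_real, Real.norm_eq_abs]
      exact abs_of_pos (by positivity)
    have ht0 : ∀ n, t n ≠ 0 := fun n => by
      rw [← norm_pos_iff, htn]; positivity
    have htv : ∀ n, ‖t n‖ * ‖v‖ < r := fun n => by
      rw [htn]
      have h1 : 1 / ((n : ℝ) + 1) ≤ 1 := by
        rw [div_le_one (by positivity)]; linarith [Nat.cast_nonneg (α := ℝ) n]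
      have h2 : ρ * (‖v‖ + 1) = r / 2 := by rw [hρ]; field_simp
      calc ρ * (1 / ((n : ℝ) + 1)) * ‖v‖ ≤ ρ * 1 * ‖v‖ := by gcongr
        _ < r := by nlinarith
    have hu : TendstoUniformly (fun n x => (t n)⁻¹ • (Φ (c + t n • v) x - Φ c x))
        (fun x => fderiv ℂ (fun z => Φ z x) c v) atTop := by
      rw [Metric.tendstoUniformly_iff]
      intro ε hε
      have h1 : Tendsto (fun n : ℕ => 4 * M / r ^ 2 * ‖v‖ ^ 2 * (ρ * (1 / ((n : ℝ) + 1))))
          atTop (𝓝 0) := by
        simpa using (tendsto_inv_succ.const_mul ρ).const_mul (4 * M / r ^ 2 * ‖v‖ ^ 2)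
      filter_upwards [h1.eventually (gt_mem_nhds hε)] with n hn x
      rw [dist_comm, dist_eq_norm]
      have := quot_bound (ht0 n) ((hd x).mono hsub) (hb x) (htv n)
      rw [htn] at this
      exact this.trans_lt hn
    refine hu.continuous (Eventually.frequently (Eventually.of_forall fun n => ?_))
    have hz : c + t n • v ∈ O := by
      apply hsub
      rw [mem_ball, dist_eq_norm]
      simpa [norm_smul] using htv n
    exact ((hcont _ hz).sub (hcont c hc0)).const_smul _
  let L0 : Z →ₗ[ℂ] C(X, W) :=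
    { toFun := fun v => ⟨fun x => fderiv ℂ (fun z => Φ z x) c v, hDc v⟩
      map_add' := fun v w => by ext x; simp
      map_smul' := fun a v => by ext x; simp }
  have hL0 : ∀ v, ‖L0 v‖ ≤ |2 * M / r| * ‖v‖ := fun v => by
    rw [ContinuousMap.norm_le _ (by positivity)]
    intro x
    have h1 := fderiv_bound hr ((hd x).mono hsub) (hb x)
    calc ‖L0 v x‖ ≤ ‖fderiv ℂ (fun z => Φ z x) c‖ * ‖v‖ := ContinuousLinearMap.le_opNorm _ _
      _ ≤ |2 * M / r| * ‖v‖ := by gcongr; exact h1.trans (le_abs_self _)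
  refine (hasFDerivAt_of_sq (L := L0.mkContinuous _ hL0) (C := |4 * M / r ^ 2|)
    ?_).differentiableAt.differentiableWithinAt
  filter_upwards [ball_mem_nhds c hr] with z hz
  rw [ContinuousMap.norm_le _ (by positivity)]
  intro x
  rw [ContinuousMap.mkD_of_continuous (hcont z (hsub hz)),
    ContinuousMap.mkD_of_continuous (hcont c hc0)]
  have h1 := taylor2 ((hd x).mono hsub) (hb x) hz
  refine le_trans (le_of_eq ?_) (h1.trans ?_)
  · rfl
  · gcongr; exact le_abs_self _

/-- Parametric interval integrals of holomorphic families are holomorphic. -/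
theorem differentiableOn_integral [CompleteSpace W] {Φ : Z → ℝ → W} {O : Set Z} {a b : ℝ}
    (hO : IsOpen O) (hc : ContinuousOn (fun p : Z × ℝ => Φ p.1 p.2) (O ×ˢ uIcc a b))
    (hd : ∀ t ∈ uIcc a b, DifferentiableOn ℂ (fun z => Φ z t) O) :
    DifferentiableOn ℂ (fun z => ∫ t in a..b, Φ z t) O := by
  wlog hab : a ≤ b generalizing a b
  · have := this (a := b) (b := a) (by rwa [uIcc_comm]) (by rwa [uIcc_comm]) (le_of_not_ge hab)
    simp only [intervalIntegral.integral_symm b a]
    exact this.neg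
  rw [uIcc_of_le hab] at hc hd
  have h1 := differentiableOn_mkD (X := Icc a b) (Φ := fun z t => Φ z t) hO
    (hc.comp (f := fun p : Z × Icc a b => (p.1, (p.2 : ℝ))) (by fun_prop)
      (fun p hp => ⟨hp.1, p.2.2⟩)) (fun t => hd t t.2)
  let L0 : C(Icc a b, W) →ₗ[ℂ] W :=
    { toFun := fun g => ∫ t in a..b, g (projIcc a b hab t)
      map_add' := fun g h => by
        simp only [ContinuousMap.add_apply]
        exact intervalIntegral.integral_add
          ((g.continuous.comp continuous_projIcc).intervalIntegrable _ _)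
          ((h.continuous.comp continuous_projIcc).intervalIntegrable _ _)
      map_smul' := fun c g => by
        simp only [ContinuousMap.smul_apply, RingHom.id_apply]
        exact intervalIntegral.integral_smul c _ }
  have hL0 : ∀ g, ‖L0 g‖ ≤ |b - a| * ‖g‖ := fun g => by
    rw [mul_comm]
    exact intervalIntegral.norm_integral_le_of_norm_le_const fun t _ => g.norm_coe_le_norm _
  have h2 := (L0.mkContinuous _ hL0).differentiable.comp_differentiableOn h1
  refine h2.congr fun z hz => ?_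
  have hcont : Continuous fun t : Icc a b => Φ z t := by
    have : ContinuousOn (fun t : Icc a b => Φ z t) univ :=
      hc.comp (f := fun t : Icc a b => (z, (t : ℝ))) (by fun_prop) (fun t _ => ⟨hz, t.2⟩)
    exact continuousOn_univ.mp this
  simp only [Function.comp_apply, LinearMap.mkContinuous_apply,
    ContinuousMap.mkD_of_continuous hcont]
  refine intervalIntegral.integral_congr fun t ht => ?_
  rw [uIcc_of_le hab] at ht
  simp [projIcc_of_mem hab ht]

/-- Parametric integrals along a path of class `C^0` with continuous weight. -/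
theorem differentiableOn_path_integral [CompleteSpace W] {h : Z × ℂ → W} {O : Set Z} {a b : ℝ}
    {γ γ' : ℝ → ℂ} (hO : IsOpen O) (hγ : Continuous γ) (hγ' : Continuous γ')
    (hd : ∀ z ∈ O, ∀ t ∈ uIcc a b, DifferentiableAt ℂ h (z, γ t)) :
    DifferentiableOn ℂ (fun z => ∫ t in a..b, γ' t • h (z, γ t)) O := by
  refine differentiableOn_integral hO ?_ ?_
  · intro p hp
    have h1 : ContinuousAt (fun p : Z × ℝ => h (p.1, γ p.2)) p :=
      (hd p.1 hp.1 p.2 hp.2).continuousAt.comp (f := fun p : Z × ℝ => (p.1, γ p.2)) (by fun_prop)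
    exact (ContinuousAt.smul (by fun_prop) h1).continuousWithinAt
  · intro t ht z hz
    have h1 : DifferentiableAt ℂ (fun z : Z => h (z, γ t)) z :=
      (hd z hz t ht).comp z (f := fun z : Z => (z, γ t)) (by fun_prop)
    exact (h1.const_smul _).differentiableWithinAt

theorem differentiableOn_circleIntegral [CompleteSpace W] {h : Z × ℂ → W} {O : Set Z} {c : ℂ}
    {R : ℝ} (hO : IsOpen O) (hR : 0 ≤ R)
    (hd : ∀ z ∈ O, ∀ ζ ∈ sphere c R, DifferentiableAt ℂ h (z, ζ)) :
    DifferentiableOn ℂ (fun z => ∮ ζ in C(c, R), h (z, ζ)) O := by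
  have := differentiableOn_path_integral (h := h) (a := 0) (b := 2 * Real.pi)
    (γ := circleMap c R) (γ' := fun t => circleMap 0 R t * Complex.I) hO
    (continuous_circleMap c R) ((continuous_circleMap 0 R).mul continuous_const)
    (fun z hz t _ => hd z hz _ (circleMap_mem_sphere c hR t))
  simpa only [circleIntegral, deriv_circleMap] using this

/-- Identity theorem on balls. -/
theorem eq_zero_of_lines [CompleteSpace W] {f : V → W} {c : V} {r : ℝ}
    (hf : DifferentiableOn ℂ f (ball c r))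
    (h : ∀ v, ∀ᶠ t in 𝓝 (0 : ℂ), f (c + t • v) = 0) : ∀ x ∈ ball c r, f x = 0 := by
  intro x hx
  set v := x - c with hv
  have hvr : ‖v‖ < r := by simpa [hv, dist_eq_norm] using hx
  set s : Set ℂ := {t | c + t • v ∈ ball c r} with hs
  have hso : IsOpen s := isOpen_ball.preimage (by fun_prop)
  have hsc : Convex ℝ s := by
    have : s = (fun t : ℂ => t • v) ⁻¹' ball 0 r := by
      ext t; simp [hs, dist_eq_norm]
    rw [this]
    exact (convex_ball (0 : V) r).is_linear_preimage
      ((ContinuousLinearMap.toSpanSingleton ℂ v).restrictScalars ℝ).toLinearMap.isLinear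
  have han : AnalyticOnNhd ℂ (fun t : ℂ => f (c + t • v)) s := by
    refine DifferentiableOn.analyticOnNhd ?_ hso
    exact hf.comp (by fun_prop) fun t ht => ht
  have h0 : (0 : ℂ) ∈ s := by
    simp only [hs, mem_ofPred_eq, zero_smul, add_zero]
    exact mem_ball_self ((norm_nonneg _).trans_lt hvr)
  have h1 : (1 : ℂ) ∈ s := by simpa [hs, hv, dist_eq_norm] using hx
  have := han.eqOn_zero_of_preconnected_of_eventuallyEq_zero hsc.isPreconnected h0 (h v) h1
  simpa [hv] using this

end Pool.Agent.P.MP_e711b0_an
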