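import Pool.Agent.P.MP_e711b0_an.Basic

/-! Weierstrass division by Cauchy integrals and the preparation theorem. -/

namespace Pool.Agent.P.MP_e711b0_an

open Set Filter Metric Topology Complex

set_option linter.unusedSectionVars false

variable {V Z : Type*} [NormedAddCommGroup V] [NormedSpace ℂ V] [NormedAddCommGroup Z]
  [NormedSpace ℂ Z]

theorem diffAt_div {f g : V → ℂ} {x : V} (hf : DifferentiableAt ℂ f x)
    (hg : DifferentiableAt ℂ g x) (h : g x ≠ 0) : DifferentiableAt ℂ (fun y => f y / g y) x := by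
  simp only [div_eq_mul_inv]
  exact hf.mul (hg.inv h)

/-- The polynomial of degree at most `k` with coefficients `φ`. -/
noncomputable def pl (k : ℕ) (φ : ℕ → ℂ) (w : ℂ) : ℂ := ∑ l ∈ Finset.range (k + 1), φ l * w ^ l

/-- Coefficients of the difference quotient of `pl k φ`. -/
noncomputable def dl (k : ℕ) (φ : ℕ → ℂ) (ζ : ℂ) (l : ℕ) : ℂ :=
  ∑ l' ∈ Finset.range (k + 1), if l < l' then φ l' * ζ ^ (l' - 1 - l) else 0

theorem dl_spec (k : ℕ) (φ : ℕ → ℂ) (ζ w : ℂ) :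
    (ζ - w) * ∑ l ∈ Finset.range k, w ^ l * dl k φ ζ l = pl k φ ζ - pl k φ w := by
  unfold dl pl
  simp only [Finset.mul_sum]
  rw [Finset.sum_comm, ← Finset.sum_sub_distrib]
  refine Finset.sum_congr rfl fun l' hl' => ?_
  have h1 : l' ≤ k := Nat.lt_succ_iff.mp (Finset.mem_range.mp hl')
  have h2 : ∑ l ∈ Finset.range k, (ζ - w) * (w ^ l * if l < l' then φ l' * ζ ^ (l' - 1 - l) else 0)
      = ∑ l ∈ Finset.range l', (ζ - w) * (w ^ l * (φ l' * ζ ^ (l' - 1 - l))) := by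
    rw [← Finset.sum_subset (Finset.range_subset_range.mpr h1)]
    · exact Finset.sum_congr rfl fun l hl => by rw [if_pos (Finset.mem_range.mp hl)]
    · intro l _ hl
      rw [if_neg (by simpa using hl)]
      simp
  rw [h2]
  have h3 := geom_sum₂_mul w ζ l'
  have h4 : ∑ l ∈ Finset.range l', (ζ - w) * (w ^ l * (φ l' * ζ ^ (l' - 1 - l))) =
      - φ l' * ((∑ i ∈ Finset.range l', w ^ i * ζ ^ (l' - 1 - i)) * (w - ζ)) := by
    rw [Finset.sum_mul, Finset.mul_sum]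
    exact Finset.sum_congr rfl fun l _ => by ring
  rw [h4, h3]
  ring

theorem pl_diffAt {X : Type*} [NormedAddCommGroup X] [NormedSpace ℂ X] {k : ℕ} {φ : X → ℕ → ℂ}
    {w : X → ℂ} {x : X} (hφ : ∀ l, DifferentiableAt ℂ (fun y => φ y l) x)
    (hw : DifferentiableAt ℂ w x) : DifferentiableAt ℂ (fun y => pl k (φ y) (w y)) x := by
  unfold pl
  exact DifferentiableAt.fun_sum fun l _ => (hφ l).mul (hw.pow l)

theorem dl_diffAt {X : Type*} [NormedAddCommGroup X] [NormedSpace ℂ X] {k : ℕ} {φ : X → ℕ → ℂ}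
    {w : X → ℂ} {x : X} (hφ : ∀ l, DifferentiableAt ℂ (fun y => φ y l) x)
    (hw : DifferentiableAt ℂ w x) (l : ℕ) : DifferentiableAt ℂ (fun y => dl k (φ y) (w y) l) x := by
  unfold dl
  refine DifferentiableAt.fun_sum fun l' _ => ?_
  split_ifs
  · exact (hφ l').mul (hw.pow _)
  · exact differentiableAt_const _

theorem pl_diff (k : ℕ) (φ : ℕ → ℂ) : Differentiable ℂ (pl k φ) := fun _ =>
  pl_diffAt (φ := fun _ => φ) (fun _ => differentiableAt_const _) differentiableAt_id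

theorem dl_diff (k : ℕ) (φ : ℕ → ℂ) (l : ℕ) : Differentiable ℂ (fun ζ => dl k φ ζ l) := fun _ =>
  dl_diffAt (φ := fun _ => φ) (fun _ => differentiableAt_const _) differentiableAt_id l

/-- The Cauchy quotient operator. -/
noncomputable def cq (c : ℂ) (ε : ℝ) (P a : ℂ → ℂ) (w : ℂ) : ℂ :=
  (2 * Real.pi * I)⁻¹ * ∮ ζ in C(c, ε), a ζ / ((ζ - w) * P ζ)

/-- The Cauchy remainder operator. -/
noncomputable def cr (c : ℂ) (ε : ℝ) (P a : ℂ → ℂ) : ℂ :=
  (2 * Real.pi * I)⁻¹ * ∮ ζ in C(c, ε), a ζ / P ζ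

section one
variable {c w : ℂ} {ε : ℝ} {P a : ℂ → ℂ}

theorem sphere_ne (hw : w ∈ ball c ε) {ζ : ℂ} (hζ : ζ ∈ sphere c ε) : ζ - w ≠ 0 := by
  intro h
  rw [sub_eq_zero.mp h] at hζ
  exact (mem_ball.mp hw).ne (mem_sphere.mp hζ)

theorem cq_int (hw : w ∈ ball c ε) (hP : ContinuousOn P (sphere c ε))
    (hP0 : ∀ ζ ∈ sphere c ε, P ζ ≠ 0) (ha : ContinuousOn a (sphere c ε)) :
    CircleIntegrable (fun ζ => a ζ / ((ζ - w) * P ζ)) c ε :=
  (ha.div ((continuousOn_id.sub continuousOn_const).mul hP) fun ζ hζ =>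
    mul_ne_zero (sphere_ne hw hζ) (hP0 ζ hζ)).circleIntegrable (pos_of_mem_ball hw).le

theorem cq_congr (hε : 0 ≤ ε) {b : ℂ → ℂ} (h : ∀ ζ ∈ sphere c ε, a ζ = b ζ) :
    cq c ε P a w = cq c ε P b w := by
  unfold cq
  rw [circleIntegral.integral_congr hε (g := fun ζ => b ζ / ((ζ - w) * P ζ))
    fun ζ hζ => by simp only [h ζ hζ]]

theorem cr_congr (hε : 0 ≤ ε) {b : ℂ → ℂ} (h : ∀ ζ ∈ sphere c ε, a ζ = b ζ) :
    cr c ε P a = cr c ε P b := by
  unfold cr
  rw [circleIntegral.integral_congr hε (g := fun ζ => b ζ / P ζ)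
    fun ζ hζ => by simp only [h ζ hζ]]

theorem cq_sum {ι : Type*} {s : Finset ι} {b : ι → ℂ → ℂ} (hw : w ∈ ball c ε)
    (hP : ContinuousOn P (sphere c ε)) (hP0 : ∀ ζ ∈ sphere c ε, P ζ ≠ 0)
    (hb : ∀ i ∈ s, ContinuousOn (b i) (sphere c ε)) :
    cq c ε P (fun ζ => ∑ i ∈ s, b i ζ) w = ∑ i ∈ s, cq c ε P (b i) w := by
  unfold cq
  simp only [Finset.sum_div]
  rw [circleIntegral.integral_fun_sum fun i hi => cq_int hw hP hP0 (hb i hi), Finset.mul_sum]

theorem cq_mul_self (hw : w ∈ ball c ε) (hP0 : ∀ ζ ∈ sphere c ε, P ζ ≠ 0)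
    (ha : DifferentiableOn ℂ a (closedBall c ε)) : cq c ε P (fun ζ => a ζ * P ζ) w = a w := by
  unfold cq
  rw [circleIntegral.integral_congr (pos_of_mem_ball hw).le (g := fun ζ => (ζ - w)⁻¹ • a ζ)
    fun ζ hζ => by
      have := hP0 ζ hζ
      have := sphere_ne hw hζ
      simp only [smul_eq_mul]
      field_simp,
    ha.circleIntegral_sub_inv_smul hw, smul_eq_mul, ← mul_assoc,
    inv_mul_cancel₀ two_pi_I_ne_zero, one_mul]

theorem cr_mul_self (hε : 0 ≤ ε) (hP0 : ∀ ζ ∈ sphere c ε, P ζ ≠ 0)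
    (ha : DifferentiableOn ℂ a (closedBall c ε)) : cr c ε P (fun ζ => a ζ * P ζ) = 0 := by
  unfold cr
  rw [circleIntegral.integral_congr hε (g := a) fun ζ hζ => by
      have := hP0 ζ hζ
      simp only
      field_simp,
    (ha.mono closure_ball_subset_closedBall).diffContOnCl.circleIntegral_eq_zero hε, mul_zero]

theorem cr_sub (hε : 0 ≤ ε) (hP : ContinuousOn P (sphere c ε))
    (hP0 : ∀ ζ ∈ sphere c ε, P ζ ≠ 0) {b : ℂ → ℂ} (ha : ContinuousOn a (sphere c ε))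
    (hb : ContinuousOn b (sphere c ε)) :
    cr c ε P (fun ζ => a ζ - b ζ) = cr c ε P a - cr c ε P b := by
  unfold cr
  simp only [sub_div]
  rw [circleIntegral.integral_sub (f := fun ζ => a ζ / P ζ) (g := fun ζ => b ζ / P ζ)
    ((ha.div hP hP0).circleIntegrable hε) ((hb.div hP hP0).circleIntegrable hε), mul_sub]

theorem cr_const_mul (t : ℂ) : cr c ε P (fun ζ => t * a ζ) = t * cr c ε P a := by
  unfold cr
  simp only [mul_div_assoc]
  rw [circleIntegral.integral_const_mul]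
  ring

theorem cd_psi (hw : w ∈ ball c ε) (hP : ContinuousOn P (sphere c ε))
    (hP0 : ∀ ζ ∈ sphere c ε, P ζ ≠ 0) (ha : ContinuousOn a (sphere c ε)) (k : ℕ) (ψ : ℕ → ℂ) :
    ∑ l ∈ Finset.range k, w ^ l * cr c ε P (fun ζ => a ζ * dl k ψ ζ l) =
      cq c ε P (fun ζ => a ζ * pl k ψ ζ) w - cq c ε P a w * pl k ψ w := by
  have hε := (pos_of_mem_ball hw).le
  unfold cr cq
  have h1 : ∑ l ∈ Finset.range k, w ^ l * ((2 * Real.pi * I)⁻¹ *
      ∮ ζ in C(c, ε), a ζ * dl k ψ ζ l / P ζ) = (2 * Real.pi * I)⁻¹ *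
      ∮ ζ in C(c, ε), ∑ l ∈ Finset.range k, w ^ l * (a ζ * dl k ψ ζ l / P ζ) := by
    rw [circleIntegral.integral_fun_sum, Finset.mul_sum]
    · refine Finset.sum_congr rfl fun l _ => ?_
      rw [circleIntegral.integral_const_mul]
      ring
    · intro l _
      exact (continuousOn_const.mul ((ha.mul (dl_diff k ψ l).continuous.continuousOn).div hP
        hP0)).circleIntegrable hε
  rw [h1, mul_assoc _ _ (pl k ψ w), ← mul_sub, mul_comm _ (pl k ψ w),
    ← circleIntegral.integral_const_mul (pl k ψ w), ← circleIntegral.integral_sub]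
  · congr 1
    refine circleIntegral.integral_congr hε fun ζ hζ => ?_
    have h2 := hP0 ζ hζ
    have h3 := sphere_ne hw hζ
    have h4 := dl_spec k ψ ζ w
    have h5 : ∑ l ∈ Finset.range k, w ^ l * (a ζ * dl k ψ ζ l / P ζ) =
        a ζ / P ζ * ∑ l ∈ Finset.range k, w ^ l * dl k ψ ζ l := by
      rw [Finset.mul_sum]
      exact Finset.sum_congr rfl fun l _ => by ring
    simp only
    rw [h5, eq_div_of_mul_eq h3 ((mul_comm _ _).trans h4)]
    field_simp
  · exact cq_int hw hP hP0 (ha.mul (pl_diff k ψ).continuous.continuousOn)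
  · exact (continuousOn_const.mul (ha.div ((continuousOn_id.sub continuousOn_const).mul hP)
      fun ζ hζ => mul_ne_zero (sphere_ne hw hζ) (hP0 ζ hζ))).circleIntegrable hε

theorem cd_div {k : ℕ} {φ : ℕ → ℂ} (hw : w ∈ ball c ε) (hP0 : ∀ ζ ∈ sphere c ε, pl k φ ζ ≠ 0)
    (ha : DifferentiableOn ℂ a (closedBall c ε)) :
    a w = cq c ε (pl k φ) a w * pl k φ w +
      ∑ l ∈ Finset.range k, w ^ l * cr c ε (pl k φ) (fun ζ => a ζ * dl k φ ζ l) := by
  rw [cd_psi hw (pl_diff k φ).continuous.continuousOn hP0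
    (ha.continuousOn.mono sphere_subset_closedBall), cq_mul_self hw hP0 ha]
  ring

end one

theorem cr_diffOn {c : ℂ} {ε : ℝ} (hε : 0 ≤ ε) {O : Set Z} (hO : IsOpen O) {P a : Z → ℂ → ℂ}
    (hP : ∀ z ∈ O, ∀ ζ ∈ sphere c ε, DifferentiableAt ℂ (fun p : Z × ℂ => P p.1 p.2) (z, ζ))
    (hP0 : ∀ z ∈ O, ∀ ζ ∈ sphere c ε, P z ζ ≠ 0)
    (ha : ∀ z ∈ O, ∀ ζ ∈ sphere c ε, DifferentiableAt ℂ (fun p : Z × ℂ => a p.1 p.2) (z, ζ)) :
    DifferentiableOn ℂ (fun z => cr c ε (P z) (a z)) O := by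
  unfold cr
  exact (differentiableOn_circleIntegral (h := fun p : Z × ℂ => a p.1 p.2 / P p.1 p.2) hO hε
    fun z hz ζ hζ => diffAt_div (ha z hz ζ hζ) (hP z hz ζ hζ) (hP0 z hz ζ hζ)).const_mul _

theorem cq_diffOn {c : ℂ} {ε : ℝ} (hε : 0 ≤ ε) {O : Set Z} (hO : IsOpen O) {P a : Z → ℂ → ℂ}
    (hP : ∀ z ∈ O, ∀ ζ ∈ sphere c ε, DifferentiableAt ℂ (fun p : Z × ℂ => P p.1 p.2) (z, ζ))
    (hP0 : ∀ z ∈ O, ∀ ζ ∈ sphere c ε, P z ζ ≠ 0)
    (ha : ∀ z ∈ O, ∀ ζ ∈ sphere c ε, DifferentiableAt ℂ (fun p : Z × ℂ => a p.1 p.2) (z, ζ)) :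
    DifferentiableOn ℂ (fun p : Z × ℂ => cq c ε (P p.1) (a p.1) p.2) (O ×ˢ ball c ε) := by
  unfold cq
  refine (differentiableOn_circleIntegral
    (h := fun p : (Z × ℂ) × ℂ => a p.1.1 p.2 / ((p.2 - p.1.2) * P p.1.1 p.2))
    (hO.prod isOpen_ball) hε fun z hz ζ hζ => ?_).const_mul _
  have h1 : DifferentiableAt ℂ (fun p : (Z × ℂ) × ℂ => a p.1.1 p.2) (z, ζ) :=
    (ha z.1 hz.1 ζ hζ).comp (z, ζ) (f := fun p : (Z × ℂ) × ℂ => (p.1.1, p.2)) (by fun_prop)
  have h2 : DifferentiableAt ℂ (fun p : (Z × ℂ) × ℂ => P p.1.1 p.2) (z, ζ) :=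
    (hP z.1 hz.1 ζ hζ).comp (z, ζ) (f := fun p : (Z × ℂ) × ℂ => (p.1.1, p.2)) (by fun_prop)
  have h3 : DifferentiableAt ℂ (fun p : (Z × ℂ) × ℂ => p.2 - p.1.2) (z, ζ) := by fun_prop
  exact diffAt_div h1 (h3.mul h2)
    (mul_ne_zero (sphere_ne hz.2 hζ) (hP0 z.1 hz.1 ζ hζ))

theorem circle_ne {X : Type*} [TopologicalSpace X] {k : ℕ} {φ : X → ℕ → ℂ} {b : X} {c : ℂ} {ε : ℝ}
    (hφ : ∀ l, ContinuousAt (fun y => φ y l) b) (h : ∀ ζ ∈ sphere c ε, pl k (φ b) ζ ≠ 0) :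
    ∀ᶠ z in 𝓝 b, ∀ ζ ∈ sphere c ε, pl k (φ z) ζ ≠ 0 := by
  refine (isCompact_sphere c ε).eventually_forall_of_forall_eventually fun ζ hζ => ?_
  have h1 : ContinuousAt (fun p : X × ℂ => pl k (φ p.1) p.2) (b, ζ) := by
    unfold pl
    refine tendsto_finsetSum _ fun l _ => ?_
    have h2 : ContinuousAt (fun p : X × ℂ => φ p.1 l) (b, ζ) :=
      ContinuousAt.comp (f := Prod.fst) (g := fun y => φ y l) (x := (b, ζ)) (hφ l) continuousAt_fst
    exact h2.mul (continuousAt_snd.pow l)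
  exact h1.eventually_ne (h ζ hζ)

theorem poly_zero {k : ℕ} : ∀ {p : ℕ → ℂ} {h : ℂ → ℂ}, ContinuousAt h 0 →
    (∀ᶠ w in 𝓝[≠] (0 : ℂ), ∑ l ∈ Finset.range k, p l * w ^ l = w ^ k * h w) →
    ∀ l < k, p l = 0 := by
  induction k with
  | zero => intro p h _ _ l hl; omega
  | succ k ih =>
    intro p h hh hev
    have h0 : p 0 = 0 := by
      have h1 : Tendsto (fun w : ℂ => ∑ l ∈ Finset.range (k + 1), p l * w ^ l) (𝓝[≠] 0)
          (𝓝 (∑ l ∈ Finset.range (k + 1), p l * 0 ^ l)) :=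
        (Continuous.tendsto (by fun_prop) 0).mono_left nhdsWithin_le_nhds
      have h2 : Tendsto (fun w : ℂ => w ^ (k + 1) * h w) (𝓝[≠] 0) (𝓝 (0 ^ (k + 1) * h 0)) :=
        (((continuous_pow (k + 1)).continuousAt.mul hh).tendsto).mono_left nhdsWithin_le_nhds
      have := tendsto_nhds_unique_of_eventuallyEq h1 h2 hev
      simpa [Finset.sum_range_succ'] using this
    have h1 := ih (p := fun l => p (l + 1)) (h := h) hh (by
      filter_upwards [hev, self_mem_nhdsWithin] with w hw hw0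
      have hw0' : w ≠ 0 := hw0
      rw [Finset.sum_range_succ', h0] at hw
      apply mul_right_cancel₀ hw0'
      rw [Finset.sum_mul]
      simp only [pow_succ, zero_mul, add_zero, ← mul_assoc] at hw
      rw [hw]; ring)
    intro l hl
    rcases l with _ | l
    · exact h0
    · exact h1 l (by omega)

/-- Monic coefficient vector attached to lower coefficients. -/
noncomputable def mon {k : ℕ} (p : Fin k → ℂ) (l : ℕ) : ℂ := if h : l < k then p ⟨l, h⟩ else 1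

theorem mon_diff {k : ℕ} (l : ℕ) : Differentiable ℂ (fun p : Fin k → ℂ => mon p l) := by
  unfold mon
  split_ifs
  · fun_prop
  · fun_prop

theorem pl_of_monic {k : ℕ} {φ : ℕ → ℂ} (h : φ k = 1) (w : ℂ) :
    pl k φ w = ∑ l ∈ Finset.range k, φ l * w ^ l + w ^ k := by
  simp [pl, Finset.sum_range_succ, h]

theorem mon_self {k : ℕ} (p : Fin k → ℂ) : mon p k = 1 := by simp [mon]

theorem pl_zero_coeff {k : ℕ} {φ : ℕ → ℂ} (h : φ k = 1) (h0 : ∀ l < k, φ l = 0) (w : ℂ) :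
    pl k φ w = w ^ k := by
  rw [pl_of_monic h, Finset.sum_eq_zero fun l hl => by rw [h0 l (Finset.mem_range.mp hl), zero_mul],
    zero_add]

theorem hPd {k : ℕ} {X : Type*} [NormedAddCommGroup X] [NormedSpace ℂ X] (π : X → Fin k → ℂ)
    (x : X) (ζ : ℂ) (hπ : DifferentiableAt ℂ π x) :
    DifferentiableAt ℂ (fun p : X × ℂ => pl k (mon (π p.1)) p.2) (x, ζ) ∧
      ∀ l, DifferentiableAt ℂ (fun p : X × ℂ => dl k (mon (π p.1)) p.2 l) (x, ζ) := by
  have h1 : ∀ l, DifferentiableAt ℂ (fun p : X × ℂ => mon (π p.1) l) (x, ζ) := fun l =>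
    (mon_diff l _).comp (x, ζ) (hπ.comp (x, ζ) differentiableAt_fst)
  exact ⟨pl_diffAt h1 differentiableAt_snd, dl_diffAt h1 differentiableAt_snd⟩

theorem isInvertible_of_injective {F : Type*} [NormedAddCommGroup F] [NormedSpace ℂ F]
    [FiniteDimensional ℂ F] {L : F →L[ℂ] F} (h : ∀ p, L p = 0 → p = 0) : L.IsInvertible := by
  have hi : Function.Injective (L : F →ₗ[ℂ] F) := (injective_iff_map_eq_zero _).mpr h
  exact ⟨(LinearEquiv.ofInjectiveEndo (L : F →ₗ[ℂ] F) hi).toContinuousLinearEquiv, by ext; simp⟩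

/-- The Weierstrass preparation theorem. -/
theorem weierstrass_prep [FiniteDimensional ℂ V] {f : V × ℂ → ℂ} (hf : Hol f (𝓝 0))
    (hne : ¬ ∀ᶠ t in 𝓝 (0 : ℂ), f (0, t) = 0) :
    ∃ (k : ℕ) (φ : V → ℕ → ℂ) (e : V × ℂ → ℂ), (∀ l, Hol (fun z => φ z l) (𝓝 0)) ∧
      (∀ z, φ z k = 1) ∧ (∀ l < k, φ 0 l = 0) ∧ Hol e (𝓝 0) ∧ e 0 ≠ 0 ∧
      ∀ᶠ p in 𝓝 (0 : V × ℂ), f p = e p * pl k (φ p.1) p.2 := by
  have : CompleteSpace V := FiniteDimensional.complete ℂ V
  have hg : AnalyticAt ℂ (fun t : ℂ => f (0, t)) 0 :=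
    analyticAt_iff_eventually_differentiableAt.mpr
      (Hol.comp (g := fun t : ℂ => ((0 : V), t)) hf (Eventually.of_forall fun _ => by fun_prop))
  obtain ⟨k, u, hu, hu0, hfu⟩ := hg.exists_eventuallyEq_pow_smul_nonzero_iff.mpr hne
  have hu' := analyticAt_iff_eventually_differentiableAt.mp hu
  obtain ⟨δ, hδ, hδf⟩ := Metric.mem_nhds_iff.mp hf
  obtain ⟨δ', hδ', hδu⟩ := Metric.mem_nhds_iff.mp (hu'.and hfu)
  set ρ := min δ δ' / 2 with hρ
  have hρ0 : 0 < ρ := by positivity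
  have hρ1 : ρ < δ := by have := min_le_left δ δ'; linarith
  have hρ2 : ρ < δ' := by have := min_le_right δ δ'; linarith
  have hfd : ∀ z ∈ ball (0 : V) δ, ∀ ζ ∈ closedBall (0 : ℂ) ρ, DifferentiableAt ℂ f (z, ζ) := by
    intro z hz ζ hζ
    apply hδf
    rw [← Prod.mk_zero_zero, ← ball_prod_same]
    exact ⟨hz, closedBall_subset_ball hρ1 hζ⟩
  have hud : DifferentiableOn ℂ u (closedBall 0 ρ) := fun ζ hζ =>
    (hδu (closedBall_subset_ball hρ2 hζ)).1.differentiableWithinAt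
  have hfu' : ∀ ζ ∈ closedBall (0 : ℂ) ρ, f (0, ζ) = ζ ^ k * u ζ := fun ζ hζ => by
    simpa using (hδu (closedBall_subset_ball hρ2 hζ)).2
  have hm0 : ∀ l < k, mon (0 : Fin k → ℂ) l = 0 := fun l hl => by simp [mon, hl]
  have hp0 : ∀ w, pl k (mon (0 : Fin k → ℂ)) w = w ^ k := pl_zero_coeff (mon_self _) hm0
  have hsph : ∀ ζ ∈ sphere (0 : ℂ) ρ, pl k (mon (0 : Fin k → ℂ)) ζ ≠ 0 := fun ζ hζ => by
    rw [hp0]
    refine pow_ne_zero _ ?_
    rintro rfl
    simp at hζ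
    exact hρ0.ne hζ
  obtain ⟨O₂, hO₂, hO₂o, hO₂0⟩ := _root_.eventually_nhds_iff.mp
    (circle_ne (φ := fun p : Fin k → ℂ => mon p) (fun l => (mon_diff l).continuous.continuousAt)
      hsph)
  set Φ : V × (Fin k → ℂ) → Fin k → ℂ := fun q l =>
    cr 0 ρ (pl k (mon q.2)) (fun ζ => f (q.1, ζ) * dl k (mon q.2) ζ l) with hΦ
  have hΦd : DifferentiableOn ℂ Φ (ball 0 δ ×ˢ O₂) := by
    refine differentiableOn_pi.mpr fun l => ?_
    refine cr_diffOn (P := fun q : V × (Fin k → ℂ) => pl k (mon q.2))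
      (a := fun q ζ => f (q.1, ζ) * dl k (mon q.2) ζ l) hρ0.le (isOpen_ball.prod hO₂o)
      (fun q _ ζ _ => (hPd Prod.snd q ζ differentiableAt_snd).1) (fun q hq => hO₂ _ hq.2)
      fun q hq ζ hζ => ?_
    refine DifferentiableAt.mul ?_ ((hPd Prod.snd q ζ differentiableAt_snd).2 l)
    exact (hfd q.1 hq.1 ζ (sphere_subset_closedBall hζ)).comp (q, ζ)
      (f := fun p : (V × (Fin k → ℂ)) × ℂ => (p.1.1, p.2)) (by fun_prop)
  have hΦh : Hol Φ (𝓝 (0, 0)) :=
    Hol.of_on (isOpen_ball.prod hO₂o) ⟨mem_ball_self hδ, hO₂0⟩ hΦd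
  have hΦ0 : ∀ (p : Fin k → ℂ) (t : ℂ), t • p ∈ O₂ → ∀ l : Fin k, Φ (0, t • p) l =
      -t * cr 0 ρ (pl k (mon (t • p))) (fun ζ =>
        (∑ j ∈ Finset.range k, mon p j * ζ ^ j) * u ζ * dl k (mon (t • p)) ζ l) := by
    intro p t ht l
    have h1 : ∀ ζ, ∑ j ∈ Finset.range k, mon (t • p) j * ζ ^ j =
        t * ∑ j ∈ Finset.range k, mon p j * ζ ^ j := fun ζ => by
      rw [Finset.mul_sum]
      refine Finset.sum_congr rfl fun j hj => ?_
      simp [mon, Finset.mem_range.mp hj, mul_assoc]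
    have hc1 : ContinuousOn (fun ζ => u ζ * dl k (mon (t • p)) ζ l) (sphere 0 ρ) :=
      (hud.continuousOn.mono sphere_subset_closedBall).mul (dl_diff _ _ _).continuous.continuousOn
    simp only [hΦ]
    rw [cr_congr hρ0.le (b := fun ζ => u ζ * dl k (mon (t • p)) ζ l * pl k (mon (t • p)) ζ -
      t * ((∑ j ∈ Finset.range k, mon p j * ζ ^ j) * u ζ * dl k (mon (t • p)) ζ l))
      (fun ζ hζ => by
        rw [hfu' ζ (sphere_subset_closedBall hζ), pl_of_monic (mon_self _), h1]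
        ring),
      cr_sub (a := fun ζ => u ζ * dl k (mon (t • p)) ζ l * pl k (mon (t • p)) ζ) hρ0.le
        (pl_diff _ _).continuous.continuousOn (hO₂ _ ht)
        (hc1.mul (pl_diff _ _).continuous.continuousOn),
      cr_mul_self (a := fun ζ => u ζ * dl k (mon (t • p)) ζ l) hρ0.le (hO₂ _ ht)
        (hud.mul (dl_diff _ _ _).differentiableOn), cr_const_mul]
    · ring
    · refine continuousOn_const.mul ?_
      simp only [mul_assoc]
      exact ContinuousOn.mul (by fun_prop) hc1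
  have hinv : (fderiv ℂ Φ (0, 0) ∘L .inr ℂ V (Fin k → ℂ)).IsInvertible := by
    refine isInvertible_of_injective fun p hp => ?_
    have hO₃ : IsOpen {t : ℂ | t • p ∈ O₂} := hO₂o.preimage (by fun_prop)
    have hO₃0 : (0 : ℂ) ∈ {t : ℂ | t • p ∈ O₂} := by simpa using hO₂0
    have hβ : ∀ l : Fin k, cr 0 ρ (pl k (mon (0 : Fin k → ℂ))) (fun ζ =>
        (∑ j ∈ Finset.range k, mon p j * ζ ^ j) * u ζ * dl k (mon (0 : Fin k → ℂ)) ζ l) = 0 := by
      intro l
      set β : ℂ → ℂ := fun t => cr 0 ρ (pl k (mon (t • p))) (fun ζ =>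
        (∑ j ∈ Finset.range k, mon p j * ζ ^ j) * u ζ * dl k (mon (t • p)) ζ l) with hβ
      have h1 : DifferentiableOn ℂ β {t : ℂ | t • p ∈ O₂} := by
        refine cr_diffOn (P := fun t : ℂ => pl k (mon (t • p))) (a := fun t ζ =>
          (∑ j ∈ Finset.range k, mon p j * ζ ^ j) * u ζ * dl k (mon (t • p)) ζ l) hρ0.le hO₃
          (fun t _ ζ _ => (hPd (fun t : ℂ => t • p) t ζ (by fun_prop)).1) (fun t ht => hO₂ _ ht)
          fun t _ ζ hζ => ?_
        have h0 : DifferentiableAt ℂ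
            (fun q : ℂ × ℂ => ∑ j ∈ Finset.range k, mon p j * q.2 ^ j) (t, ζ) := by fun_prop
        refine DifferentiableAt.mul (DifferentiableAt.mul h0 ?_)
          ((hPd (fun t : ℂ => t • p) t ζ (by fun_prop)).2 l)
        exact (hδu (closedBall_subset_ball hρ2 (sphere_subset_closedBall hζ))).1.comp (t, ζ)
          differentiableAt_snd
      have h2 : HasDerivAt (fun t : ℂ => -t * β t) (- β 0) 0 := by
        have := (hasDerivAt_neg (0 : ℂ)).mul
          (h1.differentiableAt (hO₃.mem_nhds hO₃0)).hasDerivAt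
        refine this.congr_deriv ?_
        simp
      have h3 : HasDerivAt (fun t : ℂ => Φ (0, t • p) l) (- β 0) 0 := by
        refine h2.congr_of_eventuallyEq ?_
        filter_upwards [hO₃.mem_nhds hO₃0] with t ht using hΦ0 p t ht l
      have h4 : HasDerivAt (fun t : ℂ => Φ (0, t • p)) (fderiv ℂ Φ (0, 0) (0, p)) 0 := by
        have h5 : HasDerivAt (fun t : ℂ => ((0 : V), t • p)) (0, p) 0 := by
          simpa using (hasDerivAt_const (0 : ℂ) (0 : V)).prodMk ((hasDerivAt_id (0 : ℂ)).smul_const p)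
        refine HasFDerivAt.comp_hasDerivAt_of_eq 0 hΦh.self_of_nhds.hasFDerivAt h5 (by simp)
      have h6 : fderiv ℂ Φ (0, 0) (0, p) = 0 := by simpa using hp
      rw [h6] at h4
      have h7 := h3.unique (hasDerivAt_pi.mp h4 l)
      simpa [hβ] using h7
    set a : ℂ → ℂ := fun ζ => (∑ j ∈ Finset.range k, mon p j * ζ ^ j) * u ζ with ha
    have had : DifferentiableOn ℂ a (closedBall 0 ρ) := DifferentiableOn.mul (by fun_prop) hud
    have hQ : ContinuousAt (fun w => cq 0 ρ (pl k (mon (0 : Fin k → ℂ))) a w) 0 := by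
      have h1 := cq_diffOn (Z := ℂ) (O := univ) (c := 0) (P := fun _ => pl k (mon (0 : Fin k → ℂ)))
        (a := fun _ => a) hρ0.le isOpen_univ
        (fun t _ ζ _ => (pl_diff _ _ _).comp (t, ζ) differentiableAt_snd) (fun _ _ => hsph)
        (fun t _ ζ hζ => DifferentiableAt.mul (by fun_prop)
          ((hδu (closedBall_subset_ball hρ2 (sphere_subset_closedBall hζ))).1.comp (t, ζ)
            differentiableAt_snd))
      exact (h1.differentiableAt ((isOpen_univ.prod isOpen_ball).mem_nhds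
        ⟨trivial, mem_ball_self hρ0⟩)).continuousAt.comp (f := fun w : ℂ => ((0 : ℂ), w))
          (by fun_prop)
    have h8 := poly_zero (k := k) (p := mon p)
      (h := fun w => cq 0 ρ (pl k (mon (0 : Fin k → ℂ))) a w / u w) (hQ.div hu.continuousAt hu0) (by
        refine nhdsWithin_le_nhds ?_
        filter_upwards [ball_mem_nhds 0 hρ0, hu.continuousAt.eventually_ne hu0] with w hw hw0
        have h9 := cd_div hw hsph had
        rw [Finset.sum_eq_zero (fun l hl => by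
          rw [show (fun ζ => a ζ * dl k (mon (0 : Fin k → ℂ)) ζ l) = fun ζ =>
            (∑ j ∈ Finset.range k, mon p j * ζ ^ j) * u ζ *
              dl k (mon (0 : Fin k → ℂ)) ζ (⟨l, Finset.mem_range.mp hl⟩ : Fin k) from rfl, hβ,
            mul_zero]), add_zero, hp0] at h9
        rw [← mul_div_assoc, eq_div_iff hw0, mul_comm (w ^ k), ← h9])
    funext l
    simpa [mon, l.2] using h8 l l.2
  have hcd := hΦh.contDiffAt
  set p := hcd.implicitFunction one_ne_zero hinv with hp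
  have hp1 : p 0 = 0 := hcd.implicitFunction_apply_self one_ne_zero hinv
  have hp2 : ∀ᶠ z in 𝓝 (0 : V), Φ (z, p z) = Φ (0, 0) :=
    hcd.eventually_apply_implicitFunction one_ne_zero hinv
  have hp3 : Hol p (𝓝 0) := by
    have := (hcd.contDiffAt_implicitFunction one_ne_zero hinv).eventually (by simp)
    filter_upwards [this] with z hz using hz.differentiableAt one_ne_zero
  have hΦ00 : Φ (0, 0) = 0 := by
    funext l
    have := hΦ0 0 0 (by simpa using hO₂0) l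
    simpa using this
  have hp4 : ∀ᶠ z in 𝓝 (0 : V), p z ∈ O₂ :=
    hp3.self_of_nhds.continuousAt.eventually (hO₂o.mem_nhds (hp1 ▸ hO₂0))
  obtain ⟨O, hO, hOo, hO0⟩ := _root_.eventually_nhds_iff.mp
    (hp2.and (hp3.and (hp4.and (ball_mem_nhds (0 : V) hδ))))
  have hmem : O ×ˢ ball (0 : ℂ) ρ ∈ 𝓝 (0 : V × ℂ) :=
    (hOo.prod isOpen_ball).mem_nhds ⟨hO0, mem_ball_self hρ0⟩
  refine ⟨k, fun z => mon (p z), fun q => cq 0 ρ (pl k (mon (p q.1))) (fun ζ => f (q.1, ζ)) q.2,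
    fun l => ?_, fun z => mon_self _, fun l hl => by simp only [hp1, hm0 l hl], ?_, ?_, ?_⟩
  · filter_upwards [hp3] with z hz using (mon_diff l _).comp z hz
  · refine Hol.of_on (hOo.prod isOpen_ball) ⟨hO0, mem_ball_self hρ0⟩ ?_
    exact cq_diffOn (P := fun z => pl k (mon (p z))) (a := fun z ζ => f (z, ζ)) hρ0.le hOo
      (fun z hz ζ _ => (hPd p z ζ (hO z hz).2.1).1) (fun z hz => hO₂ _ (hO z hz).2.2.1)
      fun z hz ζ hζ => hfd z (hO z hz).2.2.2 ζ (sphere_subset_closedBall hζ)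
  · simp only [Prod.fst_zero, Prod.snd_zero, hp1]
    rw [cq_congr hρ0.le (b := fun ζ => u ζ * pl k (mon (0 : Fin k → ℂ)) ζ) (fun ζ hζ => by
      rw [hfu' ζ (sphere_subset_closedBall hζ), hp0, mul_comm]),
      cq_mul_self (mem_ball_self hρ0) hsph hud]
    exact hu0
  · filter_upwards [hmem] with q hq
    have h1 := cd_div (a := fun ζ => f (q.1, ζ)) hq.2 (hO₂ _ (hO _ hq.1).2.2.1) fun ζ hζ =>
      ((hfd q.1 (hO _ hq.1).2.2.2 ζ hζ).comp ζ (f := fun ζ => (q.1, ζ))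
        (by fun_prop)).differentiableWithinAt
    rw [Finset.sum_eq_zero (fun l hl => by
      have := congrFun ((hO _ hq.1).1.trans hΦ00) ⟨l, Finset.mem_range.mp hl⟩
      simp only [hΦ, Pi.zero_apply] at this
      rw [this, mul_zero]), add_zero] at h1
    exact h1

end Pool.Agent.P.MP_e711b0_an
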