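import Pool.Agent.P.MP_e711b0_an.Cub

/-! Division on linear slices of cuboids. -/

namespace Pool.Agent.P.MP_e711b0_an

open Set Filter Metric Topology Complex

set_option linter.unusedSectionVars false

variable {X N W Θ Θ' F : Type} [NormedAddCommGroup X] [NormedSpace ℂ X] [NormedAddCommGroup N]
  [NormedSpace ℂ N] [NormedAddCommGroup W] [NormedSpace ℂ W] [NormedAddCommGroup Θ]
  [NormedSpace ℂ Θ] [NormedAddCommGroup Θ'] [NormedSpace ℂ Θ'] [NormedAddCommGroup F]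
  [NormedSpace ℂ F]

theorem hasDerivAt_curve {a : X → W} {γ : ℝ → X} {γ' : X} {t : ℝ}
    (ha : DifferentiableAt ℂ a (γ t)) (hγ : HasDerivAt γ γ' t) :
    HasDerivAt (fun s => a (γ s)) (fderiv ℂ a (γ t) γ') t :=
  (ha.hasFDerivAt.restrictScalars ℝ).comp_hasDerivAt t hγ

theorem hasDerivAt_line (x v : X) (t : ℝ) : HasDerivAt (fun s : ℝ => x + (s : ℂ) • v) v t := by
  simpa using (Complex.ofRealCLM.hasDerivAt (x := t)).smul_const v |>.const_add x

theorem hadamard [FiniteDimensional ℂ N] [CompleteSpace W] {a : N → W} {π : N →L[ℂ] N} {w₀ : N}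
    (hw : π w₀ = w₀) (ha : Hol a (𝓝 w₀)) :
    ∃ H : N → N →L[ℂ] W, Hol H (𝓝 w₀) ∧ ∀ᶠ w in 𝓝 w₀, a w = a (π w) + H w (w - π w) := by
  obtain ⟨r, hr, hb⟩ := Metric.mem_nhds_iff.mp ha
  have hd : DifferentiableOn ℂ (fderiv ℂ a) (ball w₀ r) :=
    differentiableOn_fderiv isOpen_ball fun x hx => (hb hx).differentiableWithinAt
  have hO : IsOpen (ball w₀ r ∩ π ⁻¹' ball w₀ r) := isOpen_ball.inter (isOpen_ball.preimage π.2)
  have h0 : w₀ ∈ ball w₀ r ∩ π ⁻¹' ball w₀ r := ⟨mem_ball_self hr, by simpa [hw] using hr⟩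
  have hin : ∀ w ∈ ball w₀ r ∩ π ⁻¹' ball w₀ r, ∀ t ∈ uIcc (0 : ℝ) 1,
      π w + (t : ℂ) • (w - π w) ∈ ball w₀ r := fun w hw t ht => by
    rw [uIcc_of_le zero_le_one] at ht
    simpa using (convex_ball w₀ r).add_smul_sub_mem hw.2 hw.1 ht
  have key := differentiableOn_path_integral (a := 0) (b := 1)
    (h := fun z : N × ℂ => fderiv ℂ a (π z.1 + z.2 • (z.1 - π z.1))) (γ := fun t : ℝ => (t : ℂ))
    (γ' := fun _ => 1) hO continuous_ofReal continuous_const fun w hw t ht =>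
      (hd.differentiableAt (isOpen_ball.mem_nhds (hin w hw t ht))).comp (w, (t : ℂ))
        (f := fun z : N × ℂ => π z.1 + z.2 • (z.1 - π z.1)) (by fun_prop)
  simp only [one_smul] at key
  refine ⟨_, Hol.of_on hO h0 key, ?_⟩
  filter_upwards [hO.mem_nhds h0] with w hw
  have hc : ContinuousOn (fun t : ℝ => fderiv ℂ a (π w + (t : ℂ) • (w - π w))) (uIcc 0 1) :=
    hd.continuousOn.comp (by fun_prop) (hin w hw)
  rw [ContinuousLinearMap.intervalIntegral_apply hc.intervalIntegrable,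
    intervalIntegral.integral_eq_sub_of_hasDerivAt
      (f := fun t : ℝ => a (π w + (t : ℂ) • (w - π w)))
      (fun t ht => hasDerivAt_curve (hb (hin w hw t ht)) (hasDerivAt_line _ _ t))
      (hc.clm_apply continuousOn_const).intervalIntegrable]
  simp

variable {ι : X →L[ℂ] N} {p : N →L[ℂ] X}

theorem ev_ne {w₀ : N} (h : ι (p w₀) ≠ w₀) : ∀ᶠ w in 𝓝 w₀, ι (p w) ≠ w :=
  (isOpen_ne_fun (by fun_prop) continuous_id).mem_nhds h

theorem ev_ext {E : Set N} {P : X → Prop} (h : ∀ x, ι x ∈ E → ∀ᶠ y in 𝓝 x, P y) :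
    ∀ᶠ w in 𝓝ˢ E, ι (p w) = w → P (p w) := by
  refine eventually_nhdsSet_iff_forall.mpr fun w hw => ?_
  by_cases h0 : ι (p w) = w
  · exact ((p.continuous.tendsto w).eventually (h _ (h0.symm ▸ hw))).mono fun _ hy _ => hy
  · exact (ev_ne h0).mono fun _ hy h1 => (hy h1).elim

open Classical in
theorem locFG_ext [FiniteDimensional ℂ N] [FiniteDimensional ℂ W] (hp : ∀ x, p (ι x) = x)
    {R : X → Submodule ℂ W} {w₀ : N} (h : ι (p w₀) = w₀ → LocFG R (p w₀)) :
    LocFG (fun w => if ι (p w) = w then R (p w) else ⊤) w₀ := by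
  have : CompleteSpace W := FiniteDimensional.complete ℂ W
  by_cases h0 : ι (p w₀) = w₀
  swap
  · exact (LocFG.top w₀).congr ((ev_ne h0).mono fun w hw a => by simp [hw])
  obtain ⟨Λ, _, _, _, S, hS, hG⟩ := h h0
  refine ⟨Λ × (N →L[ℂ] W), _, _, inferInstance, fun w => (S (p w)).coprod
    (ContinuousLinearMap.apply ℂ W (w - ι (p w))), Hol.clm_of_apply fun c => ?_, ?_⟩
  · exact ((hS.comp (Hol.of_diff p.differentiable _)).app (Hol.const _ _)).add
      (Hol.of_diff (f := fun w => c.2 (w - ι (p w))) (by fun_prop) _)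
  filter_upwards [(p.continuous.tendsto w₀).eventually hG] with w hw
  refine ⟨fun c => ?_, fun a ha haR => ?_⟩
  · split_ifs with h1
    · simpa [h1] using hw.1 c.1
    · trivial
  by_cases h1 : ι (p w) = w
  · have ht : Tendsto ι (𝓝 (p w)) (𝓝 w) := by simpa [h1] using ι.continuous.tendsto (p w)
    obtain ⟨c, hc, hc'⟩ := hw.2 (fun x => a (ι x))
      (Hol.comp (h1.symm ▸ ha) (Hol.of_diff ι.differentiable _))
      ((ht.eventually haR).mono fun x hx => by simpa [hp] using hx)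
    obtain ⟨H, hH, hH'⟩ := hadamard (π := ι.comp p) h1 ha
    refine ⟨fun w => (c (p w), H w), (hc.comp (Hol.of_diff p.differentiable _)).prodMk hH, ?_⟩
    filter_upwards [(p.continuous.tendsto w).eventually hc', hH'] with z h2 h3
    simp [h2, h3]
  · obtain ⟨g, -, hg⟩ := exists_dual_vector ℂ (w - ι (p w))
      (norm_ne_zero_iff.mpr (sub_ne_zero.mpr (Ne.symm h1)))
    have h2 : ∀ᶠ z in 𝓝 w, g (z - ι (p z)) ≠ 0 := ContinuousAt.eventually_ne (by fun_prop) (by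
      rw [hg]
      exact RCLike.ofReal_ne_zero.mpr (norm_ne_zero_iff.mpr (sub_ne_zero.mpr (Ne.symm h1))))
    refine ⟨fun z => (0, g.smulRight ((g (z - ι (p z)))⁻¹ • a z)),
      (Hol.const _ _).prodMk (Hol.clm_of_apply fun v => ?_), ?_⟩
    · filter_upwards [h2, ha] with z h3 h4
      simp only [ContinuousLinearMap.smulRight_apply]
      have h5 : DifferentiableAt ℂ (fun z => g (z - ι (p z))) z := by fun_prop
      exact ((h5.inv h3).smul h4).const_smul _
    · filter_upwards [h2] with z h3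
      simp only [ContinuousLinearMap.coprod_apply, map_zero, zero_add,
        ContinuousLinearMap.apply_apply, ContinuousLinearMap.smulRight_apply, smul_smul,
        mul_inv_cancel₀ h3, one_smul]

theorem Cub.poly3 [FiniteDimensional ℂ N] [FiniteDimensional ℂ W] {E : Set N} (hE : Cub E)
    (hp : ∀ x, p (ι x) = x) {R : X → Submodule ℂ W} {T : X → Set W}
    (hR : ∀ x, ι x ∈ E → LocFG R x) (hT : ∀ x, ∀ u ∈ T x, ∀ v, v ∈ T x ↔ v - u ∈ R x)
    (hloc : ∀ x, ι x ∈ E → ∃ σ : X → W, Hol σ (𝓝 x) ∧ ∀ᶠ y in 𝓝 x, σ y ∈ T y) :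
    ∃ σ : N → W, Hol σ (𝓝ˢ E) ∧ ∀ᶠ w in 𝓝ˢ E, ι (p w) = w → σ w ∈ T (p w) := by
  classical
  obtain ⟨σ, hσ⟩ := hE.syz.2 W (fun w => if ι (p w) = w then R (p w) else ⊤)
    (fun w => {u | ι (p w) = w → u ∈ T (p w)})
    (fun w hw => locFG_ext hp fun h => hR _ (h.symm ▸ hw)) (fun w u hu v => by
      by_cases h : ι (p w) = w
      · simpa [h] using hT _ u (hu h) v
      · simp [h]) (fun w hw => by
      by_cases h : ι (p w) = w
      · obtain ⟨σ, h1, h2⟩ := hloc _ (h.symm ▸ hw)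
        exact ⟨fun w => σ (p w), h1.comp (Hol.of_diff p.differentiable _),
          ((p.continuous.tendsto w).eventually h2).mono fun _ hy _ => hy⟩
      · exact ⟨fun _ => 0, Hol.const _ _, (ev_ne h).mono fun _ hy h1 => (hy h1).elim⟩)
  exact ⟨σ, eventually_nhdsSet_iff_forall.mpr fun x hx => (hσ x hx).1,
    eventually_nhdsSet_iff_forall.mpr fun x hx => (hσ x hx).2⟩

/-- `J` has the same kernels as a holomorphic family of linear maps. -/
def HolKer (J : X → Θ →L[ℂ] F) (x : X) : Prop :=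
  ∃ J' : X → Θ →L[ℂ] F, Hol J' (𝓝 x) ∧ ∀ᶠ y in 𝓝 x, ∀ c, J y c = 0 ↔ J' y c = 0

theorem Cub.div [FiniteDimensional ℂ X] [FiniteDimensional ℂ N] [FiniteDimensional ℂ Θ]
    [FiniteDimensional ℂ Θ'] [FiniteDimensional ℂ F] {E : Set N} (hE : Cub E)
    (hp : ∀ x, p (ι x) = x) {J : X → Θ →L[ℂ] F} {u : X → Θ' →L[ℂ] F}
    (hJ : ∀ x, ι x ∈ E → HolKer J x)
    (hloc : ∀ x, ι x ∈ E → ∀ v, ∃ c : X → Θ, Hol c (𝓝 x) ∧ ∀ᶠ y in 𝓝 x, J y (c y) = u y v) :
    ∃ L : N → Θ' →L[ℂ] Θ, ∀ᶠ w in 𝓝ˢ E, DifferentiableAt ℂ L w ∧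
      (ι (p w) = w → ∀ v, J (p w) (L w v) = u (p w) v) := by
  obtain ⟨L, h1, h2⟩ := exists_op (J := fun w => J (p w)) (u := fun w => u (p w)) (ι := id)
    (l := 𝓝ˢ E) (l' := 𝓝ˢ E ⊓ 𝓟 {w | ι (p w) = w}) fun v => by
      obtain ⟨σ, h1, h2⟩ := hE.poly3 hp (R := fun y => (J y).ker) (T := fun y => {c | J y c = u y v})
        (fun x hx => by
          obtain ⟨J', h1, h2⟩ := hJ x hx
          exact (oka_coherence h1).congr h2) (fun x c hc v => by
          simp only [mem_ofPred_eq] at hc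
          simp [hc, sub_eq_zero]) fun x hx => hloc x hx v
      exact ⟨σ, h1, eventually_inf_principal.mpr h2⟩
  exact ⟨L, h1.and (eventually_inf_principal.mp h2)⟩

end Pool.Agent.P.MP_e711b0_an
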