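import Pool.Agent.P.MP_e711b0_an.Bun

/-! The bump step: extending a good spray across a small convex cap. -/

namespace Pool.Agent.P.MP_e711b0_an

open Set Filter Metric Topology Complex
open scoped Manifold

set_option linter.unusedSectionVars false

theorem ev_thick {X : Type*} [PseudoMetricSpace X] {K : Set X} (hK : IsCompact K) {P : X → Prop}
    (h : ∀ᶠ x in 𝓝ˢ K, P x) : ∀ᶠ ρ in 𝓝[>] (0 : ℝ), ∀ x ∈ thickening (3 * ρ) K, P x := by
  obtain ⟨δ, hδ, h1⟩ := (hasBasis_nhdsSet_thickening hK).eventually_iff.mp h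
  filter_upwards [Ioo_mem_nhdsGT (show 0 < δ / 3 by positivity)] with ρ hρ x hx
  exact h1 (thickening_mono (by linarith [hρ.2]) _ hx)

theorem thick_prod {X X' : Type*} [PseudoMetricSpace X] [PseudoMetricSpace X'] {K : Set X}
    {L : Set X'} {ρ ρ₁ ρ₂ : ℝ} {x : X} {y : X'} (hx : x ∈ thickening ρ₁ K) (hy : y ∈ thickening ρ₂ L)
    (h1 : ρ₁ ≤ ρ) (h2 : ρ₂ ≤ ρ) : (x, y) ∈ thickening ρ (K ×ˢ L) := by
  obtain ⟨a, ha, ha'⟩ := mem_thickening_iff.mp hx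
  obtain ⟨b, hb, hb'⟩ := mem_thickening_iff.mp hy
  exact mem_thickening_iff.mpr ⟨(a, b), ⟨ha, hb⟩, max_lt (ha'.trans_le h1) (hb'.trans_le h2)⟩

theorem thick0 {X : Type*} [NormedAddCommGroup X] {x : X} {ρ : ℝ} (h : ‖x‖ < ρ) :
    x ∈ thickening ρ ({0} : Set X) := by simpa using h

variable {V N Γ Θ W : Type} [NormedAddCommGroup V] [NormedSpace ℂ V] [NormedAddCommGroup N]
  [NormedSpace ℂ N] [NormedAddCommGroup Γ] [NormedSpace ℂ Γ] [NormedAddCommGroup Θ]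
  [NormedSpace ℂ Θ] [NormedAddCommGroup W] [NormedSpace ℂ W]
variable {F : Type} [NormedAddCommGroup F] [NormedSpace ℂ F] {Y : Type} [TopologicalSpace Y]
  [ChartedSpace F Y] {E A : Type}

theorem ev_bound {K : Set V} (hK : IsCompact K) {a : V → W} {P : V → Prop}
    (h : ∀ᶠ x in 𝓝ˢ K, DifferentiableAt ℂ a x ∧ P x) :
    ∃ M > 0, ∀ᶠ x in 𝓝ˢ K, (DifferentiableAt ℂ a x ∧ ‖a x‖ ≤ M) ∧ P x := by
  obtain ⟨C, hC⟩ := hK.exists_bound_of_continuousOn (f := a) fun x hx =>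
    (h.self_of_nhdsSet x hx).1.continuousAt.continuousWithinAt
  refine ⟨|C| + 1, by positivity, ?_⟩
  have : ∀ᶠ x in 𝓝ˢ K, ‖a x‖ ≤ |C| + 1 := eventually_nhdsSet_iff_forall.mpr fun x hx =>
    (h.self_of_nhdsSet x hx).1.continuousAt.norm.eventually
      (eventually_le_nhds (by linarith [hC x hx, le_abs_self C]))
  exact (h.and this).mono fun x hx => ⟨⟨hx.1.1, hx.2⟩, hx.1.2⟩

variable [IsManifold 𝓘(ℂ, F) 1 Y] [FiniteDimensional ℂ F] [FiniteDimensional ℂ V]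
  [FiniteDimensional ℂ N] [FiniteDimensional ℂ Γ] [FiniteDimensional ℂ Θ]

theorem exists_track {ι : V →L[ℂ] N} {p : N →L[ℂ] V} (hp : ∀ x, p (ι x) = x) {Bx : Set N}
    (hBx : Cub Bx) {f : V × (ℂ × Θ) → Y}
    (hf : ∀ z, ι z ∈ Bx → ∀ s ∈ I01, ∀ᶠ x in 𝓝 (z, (s, 0)), LocP F f x) {g : Γ → Equiv.Perm Y}
    (hg : GenOn F g f ((ι ⁻¹' Bx) ×ˢ (I01 ×ˢ {0}))) {Q : Set N} (hQ : IsCompact Q) :
    ∀ᶠ ρ in 𝓝[>] (0 : ℝ), ∀ ε > 0, ∃ (κ : ℝ) (m : ℕ) (cs : ℕ → N × (ℂ × Θ) → Γ)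
      (γ : (N × (ℂ × Θ)) × Γ → Θ), 0 < κ ∧ κ < ρ ∧
      (∀ k, Differentiable ℂ (cs k)) ∧ (∀ k w, cs k (w, 0) = 0) ∧
      (∀ k < m, ∀ w ∈ Q, ∀ η ∈ thickening ρ I01 ×ˢ ball (0 : Θ) ρ, ‖cs k (w, η)‖ < ρ) ∧
      (∀ w ∈ thickening ρ Bx, γ ((w, 0), 0) = 0) ∧
      ∀ w ∈ thickening ρ Bx, ∀ η ∈ thickening ρ I01 ×ˢ ball (0 : Θ) ρ, ∀ c ∈ ball (0 : Γ) 1,
        DifferentiableAt ℂ γ ((w, η), c) ∧ ‖γ ((w, η), c) - η.2‖ ≤ ε ∧
        (ι (p w) = w → f (p w, (η.1, γ ((w, η), c))) =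
          eul g cs m (w, η) (g ((κ : ℂ) • c) (f (p w, 0)))) := by
  have : CompleteSpace Γ := FiniteDimensional.complete ℂ Γ
  have : ProperSpace (N × (ℂ × Θ)) := FiniteDimensional.proper ℂ _
  have hS : Cub (I01 ×ˢ ({0} : Set Θ)) := cub_I01.prod_single subsingleton_singleton
  have hE1 := hBx.prod hS
  have hE2 := hE1.prod_single (subsingleton_singleton (a := (0 : Γ)))
  set ι₁ := ι.prodMap (ContinuousLinearMap.id ℂ (ℂ × Θ)) with hι₁
  set p₁ := p.prodMap (ContinuousLinearMap.id ℂ (ℂ × Θ)) with hp₁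
  have hp1 : ∀ x, p₁ (ι₁ x) = x := fun x => by simp [hι₁, hp₁, Prod.map, hp]
  have hf1 : ∀ q, ι₁ q ∈ Bx ×ˢ (I01 ×ˢ {0}) → ∀ᶠ x in 𝓝 q, LocP F f x := by
    rintro ⟨z, s, θ⟩ ⟨h1, h2, rfl⟩
    exact hf z h1 s h2
  obtain ⟨a, ha⟩ := hE1.div hp1 (J := fun q => Pd F g 0 (f q))
    (u := fun q => (D F f q).comp (ContinuousLinearMap.inr ℂ V (ℂ × Θ))) (fun q hq => by
      have h1 : ∀ᶠ x in 𝓝 (q, (0 : Γ)), MD F f x.1 ∧ FamP F g x.2 :=
        ((continuous_fst.tendsto _).eventually ((hf1 q hq).mono fun _ h => h.1)).and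
          ((continuous_snd.tendsto _).eventually hg.1)
      refine holKer_D (H := fun x : (V × (ℂ × Θ)) × Γ => g x.2 (f x.1)) (σ := fun q => (q, 0))
        (Hol.of_diff (by fun_prop) _) (h1.mono fun x hx => FamP.md (u := Prod.snd) hx.2
          differentiableAt_snd (hx.1.comp differentiableAt_fst))
        (ContinuousLinearMap.inr ℂ _ Γ) ((hf1 q hq).mono fun x hx c => ?_)
      have h2 : MD F (fun x : (V × (ℂ × Θ)) × Γ => f x.1) (x, 0) := hx.1.comp differentiableAt_fst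
      rw [CH (u := Prod.snd) (x := (x, 0)) hg.1.self differentiableAt_snd h2,
        D_comp (ρ := Prod.fst) (z := (x, (0 : Γ))) hx.1 differentiableAt_fst, fderiv_fst, fderiv_snd]
      simp)
    fun q hq v => (hg.2.2 q hq).self_of_nhds.solve ((hf1 q hq).self_of_nhds.2.1.solve v)
  obtain ⟨Λ, hΛ⟩ := hE2.div (ι := ι₁.prodMap (ContinuousLinearMap.id ℂ Γ))
    (p := p₁.prodMap (ContinuousLinearMap.id ℂ Γ)) (fun x => by simp [Prod.map, hp1])
    (J := fun x => (D F f x.1).comp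
      ((ContinuousLinearMap.inr ℂ V (ℂ × Θ)).comp (ContinuousLinearMap.inr ℂ ℂ Θ)))
    (u := fun x => Pd F g x.2 ((g x.2)⁻¹ (f x.1)))
    (fun x hx => holKer_D (H := f) (σ := Prod.fst) (Hol.of_diff differentiable_fst _)
      ((hf1 x.1 hx.1).mono fun _ h => h.1) _ (Eventually.of_forall fun _ _ => rfl))
    fun x hx v => (Dom.comp (ρ := Prod.fst) (hf1 x.1 hx.1).self_of_nhds.2.2
      (Hol.of_diff differentiable_fst _)).solve
      ((InD.fam (fun x : (V × (ℂ × Θ)) × Γ => (g x.2)⁻¹ (f x.1)) (c := Prod.snd)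
        ((show x.2 = 0 from hx.2).symm ▸ hg.1) (Hol.of_diff differentiable_snd _)
        (Hol.const v _)).congr (Eventually.of_forall fun _ => ⟨by simp, rfl⟩))
  obtain ⟨M, hM, ha'⟩ := ev_bound hE1.isCompact
    ((ha.and (ev_ext (p := p₁) fun x hx => (hf1 x hx).mono fun _ h => h.1)).mono
      fun _ h => and_assoc.mp h)
  obtain ⟨M', hM', hΛ'⟩ := ev_bound hE2.isCompact hΛ
  have hg' : ∀ᶠ c in 𝓝ˢ ({0} : Set Γ), FamAt F g c := by simpa using hg.1.ev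
  filter_upwards [ev_thick hE1.isCompact ha', ev_thick hE2.isCompact hΛ',
    ev_thick isCompact_singleton hg', self_mem_nhdsWithin] with ρ h1 h2 h3 hρ ε hε
  have hρ0 : 0 < ρ := hρ
  have hsub : thickening ρ (thickening ρ I01 ×ˢ ball (0 : Θ) ρ) ⊆
      thickening (ρ + ρ) (I01 ×ˢ {0}) := (thickening_subset_of_subset _ fun η hη =>
    thick_prod hη.1 (thick0 (by simpa using hη.2)) le_rfl le_rfl).trans
      (thickening_thickening_subset _ _ _)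
  have k1 := fun w hw η hη => h1 (w, η) (thick_prod (ρ₁ := ρ) hw (hsub hη) (by linarith)
    (by linarith))
  have k2 := fun w hw η hη c (hc : ‖c‖ < ρ) => h2 ((w, η), c) (thick_prod (ρ₁ := ρ + ρ)
    (thick_prod (ρ₁ := ρ) hw (hsub hη) (by linarith) le_rfl) (thick0 hc) (by linarith) (by linarith))
  obtain ⟨R, -, hR⟩ := ((cub_I01.isCompact.isBounded.thickening (δ := ρ)).prod
    (isBounded_ball (x := (0 : Θ)) (r := ρ))).exists_pos_norm_le
  refine track (M := M + M') isOpen_thickening hρ0 (by positivity)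
    ((cub_I01.convex.thickening ρ).prod (convex_ball 0 ρ))
    ⟨self_subset_thickening hρ0 _ zero_mem_I01, mem_ball_self hρ0⟩ hR
    (fun w hw η hη => ⟨(k1 w hw η hη).1.1, (k1 w hw η hη).1.2.trans (by linarith)⟩)
    (fun w hw η hη c hc => ⟨(k2 w hw η hη c (by simpa using hc)).1.1,
      (k2 w hw η hη c (by simpa using hc)).1.2.trans (by linarith)⟩) (fun ε' hε' => ?_)
    (f := fun w η => f (p w, η)) (Z := {w | ι (p w) = w}) (fun w hw c d η hc hη hZ => ?_) hQ hε hρ0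
  · obtain ⟨a', h4, h5⟩ := runge (hE1.isCompact.cthickening (r := ρ + ρ))
      (hE1.convex.cthickening _) (f := a) (isOpen_thickening.mem_nhdsSet.mpr
        (cthickening_subset_thickening' (δ₂ := 3 * ρ) (by linarith) (by linarith) _) |>
        fun h => Filter.mem_of_superset h fun x hx => (h1 x hx).1.1) hε'
    exact ⟨a', h4, fun w hw η hη => h5 _ (thickening_subset_cthickening _ _ (thick_prod (ρ₁ := ρ)
      hw (hsub (self_subset_thickening hρ0 _ hη)) (by linarith) le_rfl))⟩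
  · refine step_rel (F := F) (w := w) (a := a) (Λ := Λ) (d := d) hg.2.1 fun r hr => ?_
    have hrc : ‖(r : ℂ) • c‖ < ρ := by
      rw [norm_smul, Complex.norm_real, Real.norm_of_nonneg hr.1]
      nlinarith [hr.1, hr.2, norm_nonneg c]
    have e1 : ι₁ (p₁ (w, η r)) = (w, η r) := Prod.ext hZ rfl
    refine ⟨(hη r hr).2, (k1 w hw _ (hη r hr).1).2.2 e1, h3 _ (thick0 (by linarith)),
      (k1 w hw _ (hη r hr).1).2.1 e1 d, fun c' hc' v => (k2 w hw _ (hη r hr).1 c' ?_).2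
        (Prod.ext e1 rfl) v⟩
    rcases hc' with rfl | rfl
    · exact hrc
    · simpa using hρ0

theorem good_bump {B : Bun F (V × ℂ) Y E A} {G : V → E} {K : Set V} {C : V × ℂ → E → Prop}
    {ι : V →L[ℂ] N} {p : N →L[ℂ] V} (hp : ∀ x, p (ι x) = x) {E' : Set N} (hE' : Cub E')
    (hT : IsCompact (ι ⁻¹' E')) (hK : IsCompact K) (hKT : K ⊆ ι ⁻¹' E') {ℓ : V →L[ℂ] ℂ} {t0 t1 : ℝ}
    (ht : t0 < t1) (hKt : ∀ z ∈ K, (ℓ z).re ≤ t0) {α : A}
    (hα : ∀ z ∈ ι ⁻¹' E', t0 ≤ (ℓ z).re → ∀ s ∈ I01, (z, s) ∈ B.Ω α)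
    (hG : ∀ z ∈ ι ⁻¹' E', Sec B G 0 z) (h : Good B G K C (ι ⁻¹' E' ∩ {z | (ℓ z).re ≤ t1})) :
    Good B G K C (ι ⁻¹' E') := by
  obtain ⟨Θ, _, _, _, H, hH1, hH2, hH3⟩ := h
  obtain ⟨M, hM0, hM⟩ := (hT.image ℓ.continuous).isBounded.exists_pos_norm_le
  have hMi : ∀ z ∈ ι ⁻¹' E', -M ≤ (ℓ z).im ∧ (ℓ z).im ≤ M := fun z hz =>
    abs_le.mp ((abs_im_le_norm _).trans (hM _ ⟨z, hz, rfl⟩))
  set Bx : Set (N × ℂ) := E' ×ˢ (Icc t0 t1 ×ℂ Icc (-M - 1) (M + 1)) with hBxd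
  have hBx : Cub Bx := hE'.prod (cub_rect ht.le (by linarith))
  set ι' := ι.prod ℓ with hι'
  set p' := p.comp (ContinuousLinearMap.fst ℂ N ℂ) with hp'
  have hp1 : ∀ x, p' (ι' x) = x := hp
  have hre : Continuous fun z => (ℓ z).re := by fun_prop
  have hCc : IsCompact (ι ⁻¹' E' ∩ {z | t0 ≤ (ℓ z).re}) :=
    hT.inter_right (isClosed_le continuous_const hre)
  have hAc : IsCompact (ι ⁻¹' E' ∩ {z | (ℓ z).re ≤ t1}) :=
    hT.inter_right (isClosed_le hre continuous_const)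
  have hDc : IsCompact (ι' ⁻¹' Bx) := hT.of_isClosed_subset
    (hBx.isCompact.isClosed.preimage ι'.continuous) fun z hz => hz.1
  set f : V × (ℂ × Θ) → Y := fun q => B.φ α (bs q) (H q) with hf
  set y : V → Y := fun z => B.φ α (z, 0) (G z) with hy
  have hf1 : ∀ z, ι' z ∈ Bx → ∀ s ∈ I01, ∀ᶠ x in 𝓝 (z, (s, (0 : Θ))),
      H x = B.ψ α (bs x) (f x) ∧ LocP F f x := fun z hz s hs =>
    (hH1 z ⟨hz.1, hz.2.1.2⟩ s hs).chart (hα z hz.1 hz.2.1.1 s hs)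
  have hy1 : ∀ z ∈ ι ⁻¹' E' ∩ {z | t0 ≤ (ℓ z).re}, ∀ᶠ x in 𝓝 z,
      G x = B.ψ α (x, 0) (y x) ∧ MD F y x := fun z hz =>
    (hG z hz.1).chart (hα z hz.1 hz.2 0 zero_mem_I01)
  obtain ⟨Γ₁, _, _, _, g₁, hg₁⟩ := gen_compact (F := F) (G := f)
    (hDc.prod (cub_I01.isCompact.prod (isCompact_singleton (x := (0 : Θ))))) (by
      rintro ⟨z, s, θ⟩ ⟨h1, h2, rfl⟩
      exact (hf1 z h1 s h2).mono fun _ h => h.2.1)
  obtain ⟨Γ₂, _, _, _, g₂, hg₂⟩ := gen_compact hCc fun z hz => (hy1 z hz).mono fun _ h => h.2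
  obtain ⟨Γ, _, _, _, g, hgf, hgy⟩ : ∃ (Γ : Type) (_ : NormedAddCommGroup Γ) (_ : NormedSpace ℂ Γ)
      (_ : FiniteDimensional ℂ Γ) (g : Γ → Equiv.Perm Y),
      GenOn F g f ((ι' ⁻¹' Bx) ×ˢ (I01 ×ˢ {0})) ∧ GenOn F g y (ι ⁻¹' E' ∩ {z | t0 ≤ (ℓ z).re}) :=
    ⟨Γ₁ × Γ₂, _, _, inferInstance, _, hg₁.prod hg₂⟩
  have : CompleteSpace Θ := FiniteDimensional.complete ℂ Θ
  have : CompleteSpace Γ := FiniteDimensional.complete ℂ Γ
  have hS : IsCompact (I01 ×ˢ ({0} : Set Θ)) := cub_I01.isCompact.prod isCompact_singleton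
  have c1 : ∀ᶠ w in 𝓝ˢ (Bx ×ˢ (I01 ×ˢ ({0} : Set Θ))),
      ι'.prodMap (ContinuousLinearMap.id ℂ (ℂ × Θ))
        (p'.prodMap (ContinuousLinearMap.id ℂ (ℂ × Θ)) w) = w →
      (fun x => H x = B.ψ α (bs x) (f x)) (p'.prodMap (ContinuousLinearMap.id ℂ (ℂ × Θ)) w) :=
    ev_ext (P := fun x => H x = B.ψ α (bs x) (f x)) (by
      rintro ⟨z, s, θ⟩ ⟨h1, h2, rfl⟩
      exact (hf1 z h1 s h2).mono fun _ h => h.1)
  have c2 : ∀ᶠ w in 𝓝ˢ Bx, ι' (p' w) = w → (fun z => f (z, 0) = y z) (p' w) :=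
    ev_ext (P := fun z => f (z, 0) = y z) fun z hz => (hH2 z ⟨hz.1, hz.2.1.2⟩).mono fun x hx => by
      simp only [hf, hy, hx]
      rfl
  have c3 : ∀ᶠ q in 𝓝ˢ ((ι ⁻¹' E' ∩ {z | (ℓ z).re ≤ t1}) ×ˢ (I01 ×ˢ ({0} : Set Θ))), Loc B H q :=
    eventually_nhdsSet_iff_forall.mpr (by
      rintro ⟨z, s, θ⟩ ⟨h1, h2, rfl⟩
      exact (hH1 z h1 s h2).ev)
  have c4 : ∀ᶠ q in 𝓝ˢ (K ×ˢ (({1} : Set ℂ) ×ˢ ({0} : Set Θ))), ∀ᶠ x in 𝓝 q, C (bs x) (H x) :=
    eventually_nhdsSet_iff_forall.mpr (by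
      rintro ⟨z, s, θ⟩ ⟨h1, rfl, rfl⟩
      exact (hH3 z h1).eventually_nhds)
  have c5 : ∀ᶠ q in 𝓝ˢ ((ι ⁻¹' E' ∩ {z | t0 ≤ (ℓ z).re}) ×ˢ ({0} : Set Γ)), ∀ᶠ x in 𝓝 q,
      Dom F (fun p => g p.2 (y p.1)) (fun p => Pd F g p.2 (y p.1)) x :=
    eventually_nhdsSet_iff_forall.mpr (by
      rintro ⟨z, c⟩ ⟨h1, rfl⟩
      exact (Dom.add hgy.1 hgy.2.1 (hgy.2.2 z h1)).eventually_nhds)
  have c6 : ∀ᶠ c in 𝓝ˢ ({0} : Set Γ), FamAt F g c := by simpa using hgf.1.ev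
  obtain ⟨ρ, ⟨hρ0, hρ1⟩, htr, k1, k2, k3, k4, k5, k6⟩ := (Eventually.and (Ioo_mem_nhdsGT one_pos)
    ((exists_track hp1 hBx (fun z hz s hs => (hf1 z hz s hs).mono fun _ h => h.2) hgf
      (hCc.image ι'.continuous)).and ((ev_thick (hBx.isCompact.prod hS) c1).and
      ((ev_thick hBx.isCompact c2).and ((ev_thick (hAc.prod hS) c3).and
      ((ev_thick (hK.prod (isCompact_singleton.prod isCompact_singleton)) c4).and
      ((ev_thick (hCc.prod isCompact_singleton) c5).and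
      (ev_thick isCompact_singleton c6)))))))).exists
  set δ := min (1 / 2) ((t1 - t0) / 3) with hδ
  have hδ1 : δ ≤ 1 / 2 := min_le_left _ _
  have hδ2 : δ ≤ (t1 - t0) / 3 := min_le_right _ _
  have hδ0 : 0 < δ := lt_min (by norm_num) (by linarith)
  obtain ⟨K₀, hK₀, hsplit⟩ := split_nonlin (t0 := t0) (t1 := t1) (g0 := -M - 1) (g1 := M + 1) hδ0
    (by linarith) (by linarith)
  set ε := min ρ (ρ / (8 * K₀)) with hε
  have hε0 : 0 < ε := by positivity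
  have hε1 : ε ≤ ρ := min_le_left _ _
  have hKε : K₀ * ε ≤ ρ / 8 := by
    have := (le_div_iff₀ (by positivity)).mp (min_le_right _ _ : ε ≤ _)
    linarith
  obtain ⟨κ, m, cs, γ, hκ0, hκρ, hcs, hcs0, hcsb, hγ0, hγ⟩ := htr ε hε0
  set U : Set ((N × ℂ) × (ℂ × (Θ × Γ))) :=
    (thickening ρ E' ×ˢ univ) ×ˢ (thickening (ρ / 2) I01 ×ˢ ball 0 (ρ / 2)) with hU
  have hUo : IsOpen U := (isOpen_thickening.prod isOpen_univ).prod
    (isOpen_thickening.prod isOpen_ball)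
  set L : ((N × ℂ) × (ℂ × (Θ × Γ))) →L[ℂ] ℂ :=
    (ContinuousLinearMap.snd ℂ N ℂ).comp (ContinuousLinearMap.fst ℂ _ _) with hL
  have hmem : ∀ x ∈ strip U L (Ioo t0 t1) (Ioo (-M - 1) (M + 1)), ∀ b ∈ ball (0 : Θ × Γ) (ρ / 2),
      x.1 ∈ thickening ρ Bx ∧ (x.2.1, (x.2.2 + b).1) ∈ thickening ρ I01 ×ˢ ball (0 : Θ) ρ ∧
        (x.2.2 + b).2 ∈ ball (0 : Γ) 1 := fun x hx b hb => by
    have h1 : ‖x.2.2 + b‖ < ρ := by
      have h2 : ‖x.2.2‖ < ρ / 2 := by simpa using hx.1.2.2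
      have h3 : ‖b‖ < ρ / 2 := by simpa using hb
      linarith [norm_add_le x.2.2 b]
    refine ⟨thick_prod hx.1.1.1 (self_subset_thickening hρ0 _
      ⟨Ioo_subset_Icc_self hx.2.1, Ioo_subset_Icc_self hx.2.2⟩) le_rfl le_rfl,
      ⟨thickening_mono (by linarith) _ hx.1.2.1, mem_ball_zero_iff.mpr ?_⟩,
      mem_ball_zero_iff.mpr ?_⟩
    · exact (norm_fst_le _).trans_lt h1
    · exact (norm_snd_le _).trans_lt (h1.trans hρ1)
  obtain ⟨a, b, ha, hb, hab, hbb, hab'⟩ := hsplit L ((0, 1), 0) U {x | x.2 = 0}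
    (fun u => (γ ((u.1.1, (u.1.2.1, (u.1.2.2 + u.2).1)), (u.1.2.2 + u.2).2) - (u.1.2.2 + u.2).1, 0))
    (ρ / 2) ε (by simp [hL]) hUo (fun x hx ζ => ⟨⟨by simpa using hx.1.1, trivial⟩,
      by simpa using hx.2⟩) (fun x hx ζ => by simpa using hx) hε0 (by linarith)
    (fun x hx b hb => by
      obtain ⟨h1, h2, h3⟩ := hmem x hx b hb
      obtain ⟨h4, h5, -⟩ := hγ _ h1 _ h2 _ h3
      refine ⟨((h4.comp (x, b) (f := fun u : ((N × ℂ) × (ℂ × (Θ × Γ))) × (Θ × Γ) =>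
        ((u.1.1, (u.1.2.1, (u.1.2.2 + u.2).1)), (u.1.2.2 + u.2).2)) (by fun_prop)).sub
        (by fun_prop)).prodMk (differentiableAt_const _), by simpa using h5⟩)
    (fun x hx hZ => by
      have h1 : x.2 = 0 := hZ
      have h2 := hγ0 _ (hmem x hx 0 (mem_ball_self (by positivity))).1
      simpa [h1, Prod.mk_zero_zero] using h2)
  set j : V × (ℂ × (Θ × Γ)) → (N × ℂ) × (ℂ × (Θ × Γ)) := fun q => (ι' q.1, q.2) with hj
  have hjd : Differentiable ℂ j := by fun_prop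
  set FB : V × (ℂ × (Θ × Γ)) → E := fun q => B.ψ α (bs q)
    (eul g cs m (ι' q.1, (q.2.1, q.2.2.1)) (g ((κ : ℂ) • q.2.2.2) (y q.1))) with hFB
  have hjm : ∀ z ∈ ι ⁻¹' E', ∀ s ∈ I01, ∀ θ ∈ ball (0 : Θ × Γ) (ρ / 2), ∀ I : Set ℝ, (ℓ z).re ∈ I →
      j (z, (s, θ)) ∈ strip U L I (Ioo (-M - 1 + δ) (M + 1 - δ)) := fun z hz s hs θ hθ I hI =>
    ⟨⟨⟨self_subset_thickening hρ0 _ hz, trivial⟩, self_subset_thickening (by positivity) _ hs, hθ⟩,
      hI, show _ < (ℓ z).im by linarith [(hMi z hz).1], show (ℓ z).im < _ by linarith [(hMi z hz).2]⟩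
  have h0 : (0 : Θ × Γ) ∈ ball (0 : Θ × Γ) (ρ / 2) := mem_ball_self (by positivity)
  have hgl : ∀ z ∈ ι ⁻¹' E', ∀ s ∈ I01, _ := fun z hz s hs =>
    glue (u := fun q : V × (ℂ × (Θ × Γ)) => (ℓ q.1).re) (by fun_prop) (t := (t0 + t1) / 2)
      (x := (z, (s, 0))) (f := fun q => H (q.1, (q.2.1, (q.2.2 + a (j q)).1)))
      (g := fun q => FB (q.1, (q.2.1, q.2.2 + b (j q)))) fun hxt => by
      filter_upwards [(hjd.continuous.tendsto _).eventually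
        ((isOpen_strip hUo L isOpen_Ioo isOpen_Ioo).mem_nhds (hjm z hz s hs 0 h0
          (Ioo (t0 + δ) (t1 - δ)) ⟨by linarith, by linarith⟩))] with q hq
      have hb1 := (hbb _ (strip_mono Ioo_subset_Ioi_self subset_rfl hq)).1
      obtain ⟨h1, h2, h3⟩ := hmem _ (strip_mono (Ioo_subset_Ioo (by linarith) (by linarith))
        (Ioo_subset_Ioo (by linarith) (by linarith)) hq) (b (j q))
        (mem_ball_zero_iff.mpr (by linarith))
      obtain ⟨-, h5, h6⟩ := hγ _ h1 _ h2 _ h3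
      have e0 : ι' (p' (ι' q.1)) = ι' q.1 := by rw [hp1]
      have e1 : (q.2.2 + a (j q)).1 =
          γ ((ι' q.1, (q.2.1, (q.2.2 + b (j q)).1)), (q.2.2 + b (j q)).2) := by
        rw [hab' _ hq]
        simp [hj, ← add_assoc]
      have e2 := k1 (ι' q.1, (q.2.1, (q.2.2 + a (j q)).1)) (thick_prod h1 (thick_prod h2.1
        (thick0 (ρ := 3 * ρ) (by
          have h7 : ‖(q.2.2 + b (j q)).1‖ < ρ := mem_ball_zero_iff.mp h2.2
          rw [e1]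
          linarith [norm_le_norm_add_norm_sub' (γ ((ι' q.1, (q.2.1, (q.2.2 + b (j q)).1)),
            (q.2.2 + b (j q)).2)) (q.2.2 + b (j q)).1, show ‖γ ((ι' q.1, (q.2.1,
            (q.2.2 + b (j q)).1)), (q.2.2 + b (j q)).2) - (q.2.2 + b (j q)).1‖ ≤ ε from h5]))
        (by linarith) le_rfl) (by linarith) le_rfl) (Prod.ext e0 rfl)
      have e3 := k2 _ (thickening_mono (by linarith) _ h1) e0
      have e4 := h6 e0
      simp only [hj, hp1, ContinuousLinearMap.coe_prodMap', Prod.map, ContinuousLinearMap.coe_id',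
        id] at e2 e3 e4
      simp only [hj] at e1
      simp only [hj, hFB]
      rw [e2, e1, e4, e3]
      rfl
  have hcaseA : ∀ z ∈ ι ⁻¹' E', ∀ s ∈ I01, (ℓ z).re ≤ (t0 + t1) / 2 → ∀ θ ∈ ball (0 : Θ × Γ) (ρ / 2),
      Hol (fun q => a (j q)) (𝓝 (z, (s, θ))) ∧ ‖a (j (z, (s, θ)))‖ ≤ K₀ * ε :=
    fun z hz s hs hle θ hθ => by
      have hm := hjm z hz s hs θ hθ (Iio (t1 - δ)) (show (ℓ z).re < t1 - δ by linarith)
      exact ⟨(Hol.of_on (isOpen_strip hUo L isOpen_Iio isOpen_Ioo) hm ha).comp (Hol.of_diff hjd _),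
        (hab _ hm).1⟩
  have hcaseB : ∀ z ∈ ι ⁻¹' E', ∀ s ∈ I01, (t0 + t1) / 2 ≤ (ℓ z).re → ∀ θ ∈ ball (0 : Θ × Γ) (ρ / 2),
      Hol (fun q => b (j q)) (𝓝 (z, (s, θ))) ∧ ‖b (j (z, (s, θ)))‖ ≤ K₀ * ε :=
    fun z hz s hs hle θ hθ => by
      have hm := hjm z hz s hs θ hθ (Ioi (t0 + δ)) (show t0 + δ < (ℓ z).re by linarith)
      exact ⟨(Hol.of_on (isOpen_strip hUo L isOpen_Ioi isOpen_Ioo) hm hb).comp (Hol.of_diff hjd _),
        (hbb _ hm).1⟩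
  have hθd : Differentiable ℂ fun q : V × (ℂ × (Θ × Γ)) => q.2.2 := by fun_prop
  have hz0 : ∀ z : V, Tendsto (fun x : V => (x, (0 : ℂ × (Θ × Γ)))) (𝓝 z) (𝓝 (z, (0, 0))) :=
    fun z => (by fun_prop : Continuous fun x : V => (x, (0 : ℂ × (Θ × Γ)))).tendsto z
  refine ⟨Θ × Γ, _, _, inferInstance, fun q => if (ℓ q.1).re ≤ (t0 + t1) / 2 then
    H (q.1, (q.2.1, (q.2.2 + a (j q)).1)) else FB (q.1, (q.2.1, q.2.2 + b (j q))),
    fun z hz s hs => ?_, fun z hz => ?_, fun z hz => ?_⟩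
  · rcases le_total (ℓ z).re ((t0 + t1) / 2) with hle | hle
    · obtain ⟨La, hLa, hLa'⟩ := reparam_small (by positivity) (by linarith) (hcaseA z hz s hs hle)
      obtain ⟨h1, h2⟩ := hcaseA z hz s hs hle 0 h0
      have h3 := (Hol.of_diff hθd _).add h1
      have hzA : z ∈ ι ⁻¹' E' ∩ {z | (ℓ z).re ≤ t1} := ⟨hz, show (ℓ z).re ≤ t1 by linarith⟩
      refine (Loc.reparam (θ := fun q => (q.2.2 + a (j q)).1) (q := (z, (s, 0))) (k3 _ (thick_prod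
        (self_subset_thickening hρ0 _ hzA) (thick_prod
          (self_subset_thickening hρ0 _ hs) (thick0 (ρ := ρ) ?_) le_rfl le_rfl) (by linarith)
          (by linarith))) (h3.mono fun _ h => h.fst)
        (hLa.ccomp (Hol.const (ContinuousLinearMap.inl ℂ Θ Γ) _)) ?_).congr ((hgl z hz s hs).1 hle)
      · refine (norm_fst_le _).trans_lt ?_
        rw [zero_add]
        linarith
      · filter_upwards [hLa', h3] with x h4 h5 c
        rw [h5.hasFDerivAt.fst.fderiv]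
        exact congrArg Prod.fst (h4 (c, 0))
    · obtain ⟨Lb, hLb, hLb'⟩ := reparam_small (by positivity) (by linarith) (hcaseB z hz s hs hle)
      obtain ⟨h1, h2⟩ := hcaseB z hz s hs hle 0 h0
      have hzC : z ∈ ι ⁻¹' E' ∩ {z | t0 ≤ (ℓ z).re} := ⟨hz, show t0 ≤ (ℓ z).re by linarith⟩
      refine (Loc.reparam (G := FB) (θ := fun q => q.2.2 + b (j q)) ?_ ((Hol.of_diff hθd _).add h1)
        hLb hLb').congr ((hgl z hz s hs).2 hle)
      have h3 : ‖0 + b (j (z, (s, 0)))‖ < ρ := by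
        rw [zero_add]
        linarith
      have h4 : ‖(κ : ℂ) • (0 + b (j (z, (s, 0)))).2‖ < 3 * ρ := by
        rw [norm_smul, Complex.norm_real, Real.norm_of_nonneg hκ0.le]
        nlinarith [norm_snd_le (0 + b (j (z, (s, 0)))), norm_nonneg (0 + b (j (z, (s, 0)))).2]
      have hκ : (κ : ℂ) ≠ 0 := by exact_mod_cast hκ0.ne'
      refine ⟨α, _, hα z hz hzC.2 s hs, (locP_fam (y := y) (g := g) (Ψ := eul g cs m)
        (q := (z, (s, 0 + b (j (z, (s, 0))))))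
        (π := ι'.prodMap ((ContinuousLinearMap.id ℂ ℂ).prodMap (ContinuousLinearMap.fst ℂ Θ Γ)))
        (P := (κ : ℂ) • ContinuousLinearMap.snd ℂ Θ Γ)
        (L := (κ : ℂ)⁻¹ • ContinuousLinearMap.inr ℂ Θ Γ) (fun c => by simp [smul_smul, hκ])
        (fun c => by simp [Prod.mk_zero_zero]) (eul_fam hcs fun k hk => k6 _ (thick0
          ((hcsb k hk _ ⟨z, hzC, rfl⟩ _ ⟨self_subset_thickening hρ0 _ hs, mem_ball_zero_iff.mpr
            ((norm_fst_le _).trans_lt h3)⟩).trans (by linarith)))) (k6 _ (thick0 h4))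
        ((hy1 z hzC).mono fun _ h => h.2) (k5 _ (thick_prod (self_subset_thickening hρ0 _ hzC)
          (thick0 h4) (by linarith) le_rfl))).mono fun x hx => ⟨rfl, hx⟩⟩
  · rcases le_total (ℓ z).re ((t0 + t1) / 2) with hle | hle
    · filter_upwards [(hz0 z).eventually ((hgl z hz 0 zero_mem_I01).1 hle),
        ((hjd.continuous.tendsto _).comp (hz0 z)).eventually
          ((isOpen_strip hUo L isOpen_Iio isOpen_Ioo).mem_nhds (hjm z hz 0 zero_mem_I01 0 h0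
          (Iio (t1 - δ)) (show (ℓ z).re < t1 - δ by linarith))), 
        hH2 z ⟨hz, show (ℓ z).re ≤ t1 by linarith⟩] with
        x h1 h2 h3
      rw [h1, show a (j (x, 0)) = 0 from (hab _ h2).2 rfl, ← h3, add_zero]
      rfl
    · filter_upwards [(hz0 z).eventually ((hgl z hz 0 zero_mem_I01).2 hle),
        ((hjd.continuous.tendsto _).comp (hz0 z)).eventually
          ((isOpen_strip hUo L isOpen_Ioi isOpen_Ioo).mem_nhds (hjm z hz 0 zero_mem_I01 0 h0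
          (Ioi (t0 + δ)) (show t0 + δ < (ℓ z).re by linarith))), 
        hy1 z ⟨hz, show t0 ≤ (ℓ z).re by linarith⟩] with
        x h1 h2 h3
      rw [h1, show b (j (x, 0)) = 0 from (hbb _ h2).2 rfl, h3.1, add_zero]
      have := eul_one hgf.2.1 (fun k => hcs0 k (ι' x)) m
      simp only [hFB, Prod.fst_zero, Prod.snd_zero, Prod.mk_zero_zero, this, smul_zero, hgf.2.1,
        Equiv.Perm.coe_one, id, bs_apply]
  · have hle : (ℓ z).re ≤ (t0 + t1) / 2 := by linarith [hKt z hz]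
    obtain ⟨h1, h2⟩ := hcaseA z (hKT hz) 1 one_mem_I01 hle 0 h0
    have h3 : Hol (fun q : V × (ℂ × (Θ × Γ)) => (q.1, (q.2.1, (q.2.2 + a (j q)).1)))
        (𝓝 (z, (1, 0))) := (Hol.of_diff differentiable_fst _).prodMk
      ((Hol.of_diff differentiable_snd.fst _).prodMk
        (((Hol.of_diff hθd _).add h1).mono fun _ h => h.fst))
    filter_upwards [(hgl z (hKT hz) 1 one_mem_I01).1 hle, h3.tendsto.eventually (k4 _ (thick_prod
      (self_subset_thickening hρ0 _ hz) (thick_prod (self_subset_thickening hρ0 _ rfl)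
        (thick0 (ρ := ρ) ((norm_fst_le _).trans_lt (by rw [zero_add]; linarith))) le_rfl le_rfl)
      (by linarith) (by linarith)))] with q h4 h5
    rw [h4]
    exact h5

end Pool.Agent.P.MP_e711b0_an
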