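import Pool.Agent.P.MP_e711b0_an.Man

/-! Bundles over open sets of `V × ℂ` and dominating leafwise sprays of sections. -/

namespace Pool.Agent.P.MP_e711b0_an

open Set Filter Metric Topology Complex
open scoped Manifold

set_option linter.unusedSectionVars false

variable {V X Γ Θ Θ' : Type} [NormedAddCommGroup V] [NormedSpace ℂ V] [NormedAddCommGroup X]
  [NormedSpace ℂ X] [NormedAddCommGroup Γ] [NormedSpace ℂ Γ] [NormedAddCommGroup Θ]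
  [NormedSpace ℂ Θ] [NormedAddCommGroup Θ'] [NormedSpace ℂ Θ']
variable {F : Type} [NormedAddCommGroup F] [NormedSpace ℂ F] {Y : Type} [TopologicalSpace Y]
  [ChartedSpace F Y] {E A : Type}

/-- A holomorphic fibre bundle with fibre `Y` over an open subset of `X`. -/
structure Bun (F : Type) [NormedAddCommGroup F] [NormedSpace ℂ F] (X : Type) [NormedAddCommGroup X]
    [NormedSpace ℂ X] (Y : Type) [TopologicalSpace Y] [ChartedSpace F Y] (E A : Type) : Type where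
  Ω : A → Set X
  ψ : A → X → Y → E
  φ : A → X → E → Y
  op : ∀ α, IsOpen (Ω α)
  inv : ∀ α, ∀ x ∈ Ω α, ∀ y, φ α x (ψ α x y) = y
  tr : ∀ α β, ∀ x ∈ Ω α, x ∈ Ω β → ∃ τ : X → Equiv.Perm Y, FamAt F τ x ∧
    ∀ᶠ x' in 𝓝 x, ∀ y, ψ α x' y = ψ β x' (τ x' y)

/-- The base point of a point of the parameter space. -/
def bs (q : V × (ℂ × Θ)) : V × ℂ := (q.1, q.2.1)

theorem bs_apply (q : V × (ℂ × Θ)) : bs q = (q.1, q.2.1) := rfl

theorem bs_diff : Differentiable ℂ (bs : V × (ℂ × Θ) → V × ℂ) :=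
  differentiable_fst.prodMk differentiable_snd.fst

theorem bs_tendsto (q : V × (ℂ × Θ)) : Tendsto bs (𝓝 q) (𝓝 (bs q)) := bs_diff.continuous.tendsto q

theorem bs_fderiv (q : V × (ℂ × Θ)) (c : Θ) : fderiv ℂ bs q (0, (0, c)) = 0 := by
  have : HasFDerivAt (bs : V × (ℂ × Θ) → V × ℂ) _ q :=
    (hasFDerivAt_fst (𝕜 := ℂ)).prodMk hasFDerivAt_snd.fst
  rw [this.fderiv]
  rfl

variable (F) in
/-- A leafwise dominating spray in a trivialisation. -/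
def LocP (f : V × (ℂ × Θ) → Y) (q : V × (ℂ × Θ)) : Prop :=
  MD F f q ∧ Rng F f (fun q => (D F f q).comp (ContinuousLinearMap.inr ℂ V (ℂ × Θ))) q ∧
    Dom F f (fun q => (D F f q).comp
      ((ContinuousLinearMap.inr ℂ V (ℂ × Θ)).comp (ContinuousLinearMap.inr ℂ ℂ Θ))) q

theorem LocP.congr {f f' : V × (ℂ × Θ) → Y} {q : V × (ℂ × Θ)} (h : LocP F f q)
    (h' : ∀ᶠ x in 𝓝 q, f' x = f x) : LocP F f' q :=
  ⟨h.1.congr h', Rng.comp (ρ := id) h.2.1 (Hol.of_diff differentiable_id _)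
    (Hol.const (ContinuousLinearMap.id ℂ _) _) (h'.eventually_nhds.mono fun x hx =>
      ⟨hx.self_of_nhds, fun c => by rw [D_congr hx]; rfl⟩),
    h.2.2.mono (Hol.const (ContinuousLinearMap.id ℂ _) _) (h'.eventually_nhds.mono fun x hx =>
      ⟨hx.self_of_nhds.symm, fun c => by rw [D_congr hx]; rfl⟩)⟩

theorem LocP.act {f : V × (ℂ × Θ) → Y} {q : V × (ℂ × Θ)} (h : ∀ᶠ x in 𝓝 q, LocP F f x)
    {τ : V × ℂ → Equiv.Perm Y} (hτ : FamAt F τ (bs q)) :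
    ∀ᶠ x in 𝓝 q, LocP F (fun q => τ (bs q) (f q)) x := by
  have hτ' : FamAt F (fun q : V × (ℂ × Θ) => τ (bs q)) q :=
    hτ.comp (Hol.of_diff bs_diff _)
  filter_upwards [h.eventually_nhds, hτ'.ev,
    ((bs_tendsto q).eventually hτ).eventually_nhds] with x h1 h2 h3
  refine ⟨h3.self_of_nhds.md (bs_diff x) h1.self_of_nhds.1,
    Rng.act (h1.mono fun _ h => h.1) h1.self_of_nhds.2.1 h2,
    (h1.self_of_nhds.2.2.act h2).mono (Hol.const (ContinuousLinearMap.id ℂ _) _) ?_⟩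
  filter_upwards [h1, h3] with y h4 h5
  refine ⟨rfl, fun c => ?_⟩
  simpa [bs_fderiv] using CH h5 (bs_diff y) h4.1 (0, (0, c))

theorem LocP.reparam [FiniteDimensional ℂ V] [FiniteDimensional ℂ Θ'] [FiniteDimensional ℂ Θ]
    {f : V × (ℂ × Θ) → Y} {θ : V × (ℂ × Θ') → Θ} {q : V × (ℂ × Θ')}
    (h : ∀ᶠ x in 𝓝 (q.1, (q.2.1, θ q)), LocP F f x) (hθ : Hol θ (𝓝 q))
    {L : V × (ℂ × Θ') → Θ →L[ℂ] Θ'} (hL : Hol L (𝓝 q))
    (hL' : ∀ᶠ x in 𝓝 q, ∀ c, fderiv ℂ θ x (0, (0, L x c)) = c) :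
    ∀ᶠ x in 𝓝 q, LocP F (fun q => f (q.1, (q.2.1, θ q))) x := by
  have : CompleteSpace Θ := FiniteDimensional.complete ℂ Θ
  have hρ : Hol (fun q : V × (ℂ × Θ') => (q.1, (q.2.1, θ q))) (𝓝 q) :=
    (Hol.of_diff differentiable_fst _).prodMk ((Hol.of_diff differentiable_snd.fst _).prodMk hθ)
  have hD : ∀ᶠ x in 𝓝 q, ∀ v, D F (fun q => f (q.1, (q.2.1, θ q))) x v =
      D F f (x.1, (x.2.1, θ x)) (v.1, (v.2.1, fderiv ℂ θ x v)) := by
    filter_upwards [hρ.tendsto.eventually h, hρ, hθ] with x h1 h2 h3 v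
    rw [D_comp (ρ := fun q : V × (ℂ × Θ') => (q.1, (q.2.1, θ q))) h1.1 h2, (hasFDerivAt_fst.prodMk (hasFDerivAt_snd.fst.prodMk h3.hasFDerivAt)).fderiv]
    rfl
  filter_upwards [hρ.tendsto.eventually h, hρ.eventually_nhds, hθ.eventually_nhds,
    hL.eventually_nhds, (hD.and hL').eventually_nhds] with x h1 h2 h3 h4 h5
  refine ⟨MD.comp (ρ := fun q : V × (ℂ × Θ') => (q.1, (q.2.1, θ q))) h1.1 h2.self_of_nhds,
    Rng.comp (ρ := fun q : V × (ℂ × Θ') => (q.1, (q.2.1, θ q))) h1.2.1 h2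
    (L := fun x => (ContinuousLinearMap.fst ℂ ℂ Θ').prod
      ((fderiv ℂ θ x).comp (ContinuousLinearMap.inr ℂ V (ℂ × Θ'))))
    (Hol.clm_of_apply fun v => (Hol.const v.1 _).prodMk (Hol.fderiv_apply h3 (0, v)))
    (h5.mono fun y hy => ⟨rfl, fun c => hy.1 _⟩),
    (Dom.comp (ρ := fun q : V × (ℂ × Θ') => (q.1, (q.2.1, θ q))) h1.2.2 h2).mono h4
      (h5.mono fun y hy => ⟨rfl, fun c => ?_⟩)⟩
  simpa [hy.2] using hy.1 (0, (0, L y c))

theorem locP_fam {y : V → Y} {g : Γ → Equiv.Perm Y} {Ψ : X → Equiv.Perm Y}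
    {π : (V × (ℂ × Θ)) →L[ℂ] X} {P : Θ →L[ℂ] Γ} {L : Γ →L[ℂ] Θ} (hP : ∀ c, P (L c) = c)
    (hπ : ∀ c, π (0, (0, L c)) = 0) {q : V × (ℂ × Θ)} (hΨ : FamAt F Ψ (π q))
    (hg : FamAt F g (P q.2.2)) (hy : ∀ᶠ z in 𝓝 q.1, MD F y z) (hD : ∀ᶠ p in 𝓝 (q.1, P q.2.2),
      Dom F (fun p => g p.2 (y p.1)) (fun p => Pd F g p.2 (y p.1)) p) :
    ∀ᶠ x in 𝓝 q, LocP F (fun q => Ψ (π q) (g (P q.2.2) (y q.1))) x := by
  have hP' : Differentiable ℂ fun q : V × (ℂ × Θ) => P q.2.2 := by fun_prop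
  have hρ : Differentiable ℂ fun q : V × (ℂ × Θ) => (q.1, P q.2.2) := by fun_prop
  have hy' : ∀ᶠ x in 𝓝 q, MD F (fun q : V × (ℂ × Θ) => y q.1) x ∧
      ∀ w, D F (fun q : V × (ℂ × Θ) => y q.1) x (0, w) = 0 := by
    filter_upwards [(continuous_fst.tendsto q).eventually hy] with x hx
    refine ⟨hx.comp differentiableAt_fst, fun w => ?_⟩
    rw [D_comp hx differentiableAt_fst, fderiv_fst]
    simp
  filter_upwards [(hΨ.comp (Hol.of_diff π.differentiable _)).ev,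
    (FamAt.comp (u := fun q : V × (ℂ × Θ) => P q.2.2) hg (Hol.of_diff hP' _)).ev,
    (hy'.and (((π.continuous.tendsto q).eventually hΨ).and
      ((hP'.continuous.tendsto q).eventually hg))).eventually_nhds,
    (hρ.continuous.tendsto q).eventually hD] with x h1 h2 h3 h4
  have h5 := Rng.act (G := fun q : V × (ℂ × Θ) => y q.1)
    (L := ContinuousLinearMap.inr ℂ V (ℂ × Θ)) (h3.mono fun _ h => h.1.1)
    (Rng.zero (h3.mono fun _ h => h.1.2)) (h1.mul h2)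
  refine ⟨h3.self_of_nhds.2.1.md π.differentiableAt
    (FamP.md (u := fun q : V × (ℂ × Θ) => P q.2.2) h3.self_of_nhds.2.2 (hP' x)
      h3.self_of_nhds.1.1), h5,
    ((Dom.comp (ρ := fun q : V × (ℂ × Θ) => (q.1, P q.2.2)) h4 (Hol.of_diff hρ _)).act h1).mono
      (Hol.const L _) (h3.mono fun z hz => ⟨rfl, fun c => ?_⟩)⟩
  have e1 := CH (u := fun q : V × (ℂ × Θ) => P q.2.2) hz.2.2 (hP' z) hz.1.1 (0, (0, L c))
  have e2 := CH hz.2.1 π.differentiableAt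
    (FamP.md (u := fun q : V × (ℂ × Θ) => P q.2.2) hz.2.2 (hP' z) hz.1.1) (0, (0, L c))
  have e3 : fderiv ℂ (fun q : V × (ℂ × Θ) => P q.2.2) z (0, (0, L c)) = c := by
    have : HasFDerivAt (fun q : V × (ℂ × Θ) => P q.2.2) _ z :=
      P.hasFDerivAt.comp z hasFDerivAt_snd.snd
    rw [this.fderiv]
    exact hP c
  rw [hz.1.2, map_zero, zero_add, e3] at e1
  rw [e1, π.fderiv, hπ, map_zero, add_zero] at e2
  exact e2

theorem reparam_small [FiniteDimensional ℂ V] [FiniteDimensional ℂ Θ] {a : V × (ℂ × Θ) → Θ} {z : V}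
    {s : ℂ} {r m : ℝ} (hr : 0 < r) (hm : 2 * m < r)
    (ha : ∀ θ ∈ ball (0 : Θ) r, Hol a (𝓝 (z, (s, θ))) ∧ ‖a (z, (s, θ))‖ ≤ m) :
    ∃ L : V × (ℂ × Θ) → Θ →L[ℂ] Θ, Hol L (𝓝 (z, (s, 0))) ∧ ∀ᶠ x in 𝓝 (z, (s, (0 : Θ))),
      ∀ c, fderiv ℂ (fun q : V × (ℂ × Θ) => q.2.2 + a q) x (0, (0, L x c)) = c := by
  have : CompleteSpace Θ := FiniteDimensional.complete ℂ Θ
  have h0 := (ha 0 (mem_ball_self hr)).1
  have hi : ∀ θ : Θ, HasFDerivAt (fun θ => (z, (s, θ)))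
      ((ContinuousLinearMap.inr ℂ V (ℂ × Θ)).comp (ContinuousLinearMap.inr ℂ ℂ Θ)) θ := fun θ =>
    (hasFDerivAt_prodMk_right z (s, θ)).comp θ (hasFDerivAt_prodMk_right s θ)
  obtain ⟨L, hL, hL'⟩ := hol_inv (a := fun x => (fderiv ℂ a x).comp
    ((ContinuousLinearMap.inr ℂ V (ℂ × Θ)).comp (ContinuousLinearMap.inr ℂ ℂ Θ)))
    (h0.fderiv.ccomp (Hol.const _ _)) (by
      rw [← (h0.self_of_nhds.hasFDerivAt.comp 0 (hi 0)).fderiv]
      refine (fderiv_bound hr (fun θ hθ => ((ha θ hθ).1.self_of_nhds.comp θ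
        (hi θ).differentiableAt).differentiableWithinAt) fun θ hθ => (ha θ hθ).2).trans_lt ?_
      rwa [div_lt_one hr])
  refine ⟨L, hL, ?_⟩
  filter_upwards [hL', h0] with x h1 h2 c
  have h3 : HasFDerivAt (fun q : V × (ℂ × Θ) => q.2.2 + a q) _ x :=
    hasFDerivAt_snd.snd.add h2.hasFDerivAt
  rw [h3.fderiv]
  exact h1 c

theorem eul_fam {g : Γ → Equiv.Perm Y} {cs : ℕ → X → Γ} (hcs : ∀ k, Differentiable ℂ (cs k)) {x : X}
    {m : ℕ} (h : ∀ k < m, FamAt F g (cs k x)) : FamAt F (eul g cs m) x := by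
  induction m with
  | zero => exact FamAt.one _
  | succ m ih =>
    exact ((h m (Nat.lt_succ_self m)).comp (Hol.of_diff (hcs m) _)).mul
      (ih fun k hk => h k (Nat.lt_succ_of_lt hk))

theorem eul_one {g : Γ → Equiv.Perm Y} (hg : g 0 = 1) {cs : ℕ → X → Γ} {x : X}
    (h : ∀ k, cs k x = 0) (m : ℕ) : eul g cs m x = 1 := by
  induction m with
  | zero => rfl
  | succ m ih => simp [eul, ih, h, hg]

theorem step_rel [IsManifold 𝓘(ℂ, F) 1 Y] {f : V × (ℂ × Θ) → Y} {g : Γ → Equiv.Perm Y}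
    (hg0 : g 0 = 1) {z : V} {w : X} {a : X × (ℂ × Θ) → (ℂ × Θ) →L[ℂ] Γ}
    {Λ : (X × (ℂ × Θ)) × Γ → Γ →L[ℂ] Θ} {c : Γ} {d : ℂ × Θ} {η : ℝ → ℂ × Θ}
    (h : ∀ r ∈ Icc (0 : ℝ) 1, HasDerivAt η (fld a Λ w c d r (η r)) r ∧ MD F f (z, η r) ∧
      FamAt F g ((r : ℂ) • c) ∧ Pd F g 0 (f (z, η r)) (a (w, η r) d) = D F f (z, η r) (0, d) ∧
      ∀ c' ∈ ({(r : ℂ) • c, 0} : Set Γ), ∀ v, D F f (z, η r) (0, (0, Λ ((w, η r), c') v)) =
        Pd F g c' ((g c')⁻¹ (f (z, η r))) v) : f (z, η 1) = g c (f (z, η 0)) := by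
  have := const_path (F := F) (H := fun x : (ℂ × Θ) × Γ => (g x.2)⁻¹ (f (z, x.1)))
    (γ := fun r => (η r, (r : ℂ) • c)) (γ' := fun r => (fld a Λ w c d r (η r), c)) fun r hr => by
      obtain ⟨h1, h2, h3, h4, h5⟩ := h r hr
      have hi : HasFDerivAt (fun x : (ℂ × Θ) × Γ => (z, x.1)) ((ContinuousLinearMap.inr ℂ V
          (ℂ × Θ)).comp (ContinuousLinearMap.fst ℂ _ Γ)) (η r, (r : ℂ) • c) :=
        (hasFDerivAt_prodMk_right z (η r)).comp _ hasFDerivAt_fst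
      have hm := h3.self.inv.md (u := Prod.snd) (x := (η r, (r : ℂ) • c)) differentiableAt_snd
        (MD.comp (ρ := fun x : (ℂ × Θ) × Γ => (z, x.1)) h2 hi.differentiableAt)
      refine ⟨h1.prodMk (by simpa using hasDerivAt_line 0 c r), hm, ?_⟩
      have e1 := CH (u := Prod.snd) (x := (η r, (r : ℂ) • c)) h3.self differentiableAt_snd hm
        (fld a Λ w c d r (η r), c)
      have e2 := D_comp (ρ := fun x : (ℂ × Θ) × Γ => (z, x.1)) h2 hi.differentiableAt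
        (fld a Λ w c d r (η r), c)
      have e3 : ((0 : V), fld a Λ w c d r (η r)) = (0, d) + (0, (0, Λ ((w, η r), (r : ℂ) • c) c)) -
          (0, (0, Λ ((w, η r), 0) (a (w, η r) d))) := by
        simp [fld, add_sub_assoc]
      simp only [Equiv.Perm.coe_inv, Equiv.apply_symm_apply, fderiv_snd,
        ContinuousLinearMap.coe_snd'] at e1
      rw [hi.fderiv, e1] at e2
      simp only [ContinuousLinearMap.comp_apply, ContinuousLinearMap.coe_fst',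
        ContinuousLinearMap.inr_apply] at e2
      rw [e3, map_sub, map_add, h5 _ (by simp), h5 _ (by simp), ← h4, hg0] at e2
      simp only [inv_one, Equiv.Perm.coe_one, id, Equiv.Perm.coe_inv, add_sub_cancel_left,
        add_eq_right] at e2
      have e4 := h3.self.cancel ((g ((r : ℂ) • c)).symm (f (z, η r)))
        (D F (fun x : (ℂ × Θ) × Γ => (g x.2).symm (f (z, x.1))) (η r, (r : ℂ) • c)
          (fld a Λ w c d r (η r), c))
      rw [e2, map_zero] at e4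
      exact e4.symm
  simp only [ofReal_one, one_smul, ofReal_zero, zero_smul, hg0, inv_one, Equiv.Perm.coe_one,
    id] at this
  rw [← this]
  simp

variable (B : Bun F (V × ℂ) Y E A)

/-- A leafwise dominating spray of sections near a point. -/
def Loc (G : V × (ℂ × Θ) → E) (q : V × (ℂ × Θ)) : Prop :=
  ∃ α f, bs q ∈ B.Ω α ∧ ∀ᶠ x in 𝓝 q, G x = B.ψ α (bs x) (f x) ∧ LocP F f x

/-- A holomorphic section at level `s` near `z`. -/
def Sec (G : V → E) (s : ℂ) (z : V) : Prop :=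
  ∃ α f, (z, s) ∈ B.Ω α ∧ ∀ᶠ x in 𝓝 z, G x = B.ψ α (x, s) (f x) ∧ MD F f x

variable {B}

theorem Loc.ev {G : V × (ℂ × Θ) → E} {q : V × (ℂ × Θ)} (h : Loc B G q) :
    ∀ᶠ x in 𝓝 q, Loc B G x := by
  obtain ⟨α, f, h1, h2⟩ := h
  filter_upwards [(bs_tendsto q).eventually ((B.op α).mem_nhds h1),
    h2.eventually_nhds] with x h3 h4 using ⟨α, f, h3, h4⟩

theorem Loc.congr {G G' : V × (ℂ × Θ) → E} {q : V × (ℂ × Θ)} (h : Loc B G q)
    (h' : ∀ᶠ x in 𝓝 q, G' x = G x) : Loc B G' q := by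
  obtain ⟨α, f, h1, h2⟩ := h
  exact ⟨α, f, h1, (h2.and h').mono fun x hx => ⟨hx.2.trans hx.1.1, hx.1.2⟩⟩

theorem Loc.chart {G : V × (ℂ × Θ) → E} {q : V × (ℂ × Θ)} (h : Loc B G q) {β : A}
    (hβ : bs q ∈ B.Ω β) : ∀ᶠ x in 𝓝 q, G x = B.ψ β (bs x) (B.φ β (bs x) (G x)) ∧
      LocP F (fun x => B.φ β (bs x) (G x)) x := by
  obtain ⟨α, f, h1, h2⟩ := h
  obtain ⟨τ, h3, h4⟩ := B.tr α β _ h1 hβ
  have h5 : ∀ᶠ x in 𝓝 q, G x = B.ψ β (bs x) (B.φ β (bs x) (G x)) ∧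
      B.φ β (bs x) (G x) = τ (bs x) (f x) := by
    filter_upwards [h2, (bs_tendsto q).eventually h4,
      (bs_tendsto q).eventually ((B.op β).mem_nhds hβ)] with x h6 h7 h8
    rw [h6.1, h7, B.inv β _ h8]
    exact ⟨rfl, rfl⟩
  filter_upwards [h5.eventually_nhds, LocP.act (h2.mono fun _ h => h.2) h3] with x h6 h7
  exact ⟨h6.self_of_nhds.1, h7.congr (h6.mono fun _ h => h.2)⟩

theorem Loc.reparam [FiniteDimensional ℂ V] [FiniteDimensional ℂ Θ'] [FiniteDimensional ℂ Θ]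
    {G : V × (ℂ × Θ) → E} {θ : V × (ℂ × Θ') → Θ} {q : V × (ℂ × Θ')}
    (h : Loc B G (q.1, (q.2.1, θ q))) (hθ : Hol θ (𝓝 q))
    {L : V × (ℂ × Θ') → Θ →L[ℂ] Θ'} (hL : Hol L (𝓝 q))
    (hL' : ∀ᶠ x in 𝓝 q, ∀ c, fderiv ℂ θ x (0, (0, L x c)) = c) :
    Loc B (fun q => G (q.1, (q.2.1, θ q))) q := by
  obtain ⟨α, f, h1, h2⟩ := h
  have hρ : Hol (fun q : V × (ℂ × Θ') => (q.1, (q.2.1, θ q))) (𝓝 q) :=
    (Hol.of_diff differentiable_fst _).prodMk ((Hol.of_diff differentiable_snd.fst _).prodMk hθ)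
  exact ⟨α, fun q => f (q.1, (q.2.1, θ q)), h1, ((hρ.tendsto.eventually h2).and
    (LocP.reparam (h2.mono fun _ h => h.2) hθ hL hL')).mono fun x hx => ⟨hx.1.1, hx.2⟩⟩

theorem Sec.ev {G : V → E} {s : ℂ} {z : V} (h : Sec B G s z) : ∀ᶠ x in 𝓝 z, Sec B G s x := by
  obtain ⟨α, f, h1, h2⟩ := h
  filter_upwards [((by fun_prop : Continuous fun x : V => (x, s)).tendsto z).eventually
    ((B.op α).mem_nhds h1), h2.eventually_nhds] with x h3 h4 using ⟨α, f, h3, h4⟩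

theorem Sec.chart {G : V → E} {s : ℂ} {z : V} (h : Sec B G s z) {β : A} (hβ : (z, s) ∈ B.Ω β) :
    ∀ᶠ x in 𝓝 z, G x = B.ψ β (x, s) (B.φ β (x, s) (G x)) ∧
      MD F (fun x => B.φ β (x, s) (G x)) x := by
  obtain ⟨α, f, h1, h2⟩ := h
  obtain ⟨τ, h3, h4⟩ := B.tr α β _ h1 hβ
  have ht := (by fun_prop : Continuous fun x : V => (x, s)).tendsto z
  have h5 : ∀ᶠ x in 𝓝 z, G x = B.ψ β (x, s) (B.φ β (x, s) (G x)) ∧
      B.φ β (x, s) (G x) = τ (x, s) (f x) := by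
    filter_upwards [h2, ht.eventually h4, ht.eventually ((B.op β).mem_nhds hβ)] with x h6 h7 h8
    rw [h6.1, h7, B.inv β _ h8]
    exact ⟨rfl, rfl⟩
  filter_upwards [h5.eventually_nhds, h2, ht.eventually h3] with x h6 h7 h8
  exact ⟨h6.self_of_nhds.1, (h8.md (u := fun x => (x, s)) (by fun_prop) h7.2).congr
    (h6.mono fun _ h => h.2)⟩

theorem Loc.sec {G : V × (ℂ × Θ) → E} {z : V} {s : ℂ} (h : Loc B G (z, (s, 0))) :
    Sec B (fun x => G (x, (s, 0))) s z := by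
  obtain ⟨α, f, h1, h2⟩ := h
  refine ⟨α, fun x => f (x, (s, 0)), h1, ?_⟩
  filter_upwards [((by fun_prop : Continuous fun x : V => (x, (s, (0 : Θ)))).tendsto z).eventually
    h2] with x hx
  exact ⟨hx.1, hx.2.1.comp (ρ := fun x : V => (x, (s, (0 : Θ)))) (by fun_prop)⟩

/-- The unit interval in the complex plane. -/
def I01 : Set ℂ := Icc 0 1 ×ℂ Icc 0 0

theorem cub_I01 : Cub I01 := cub_rect zero_le_one le_rfl

theorem zero_mem_I01 : (0 : ℂ) ∈ I01 := by simp [I01, mem_reProdIm]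

theorem one_mem_I01 : (1 : ℂ) ∈ I01 := by simp [I01, mem_reProdIm]

variable (B) in
/-- There is a good spray over `T`. -/
def Good (G : V → E) (K : Set V) (C : V × ℂ → E → Prop) (T : Set V) : Prop :=
  ∃ (Θ : Type) (_ : NormedAddCommGroup Θ) (_ : NormedSpace ℂ Θ) (_ : FiniteDimensional ℂ Θ)
    (H : V × (ℂ × Θ) → E), (∀ z ∈ T, ∀ s ∈ I01, Loc B H (z, (s, 0))) ∧
    (∀ z ∈ T, ∀ᶠ x in 𝓝 z, H (x, 0) = G x) ∧
    ∀ z ∈ K, ∀ᶠ q in 𝓝 (z, ((1 : ℂ), (0 : Θ))), C (bs q) (H q)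

theorem good_base [IsManifold 𝓘(ℂ, F) 1 Y] [FiniteDimensional ℂ F] [FiniteDimensional ℂ V]
    {G : V → E} {K T : Set V} (hT : IsCompact T) (hK : K ⊆ T) {α : A}
    (hα : ∀ z ∈ T, ∀ s ∈ I01, (z, s) ∈ B.Ω α) (hG : ∀ z ∈ T, Sec B G 0 z) {W : Set (V × Y)}
    (hW : IsOpen W) (hGW : ∀ z ∈ K, (z, B.φ α (z, 0) (G z)) ∈ W) :
    Good B G K (fun x e => (x.1, B.φ α x e) ∈ W) T := by
  have hy := fun z hz => (hG z hz).chart (hα z hz 0 zero_mem_I01)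
  obtain ⟨Γ, _, _, _, g, h1, h2, h3⟩ := gen_compact hT fun z hz => (hy z hz).mono fun _ h => h.2
  have key : ∀ z ∈ T, ∀ s : ℂ, ∀ᶠ x in 𝓝 (z, (s, (0 : Γ))),
      LocP F (fun q => g q.2.2 (B.φ α (q.1, 0) (G q.1))) x := fun z hz s =>
    locP_fam (y := fun z => B.φ α (z, 0) (G z)) (g := g) (q := (z, (s, (0 : Γ))))
      (Ψ := fun _ : ℂ => 1) (π := 0) (P := ContinuousLinearMap.id ℂ Γ)
      (L := ContinuousLinearMap.id ℂ Γ) (fun _ => rfl) (fun _ => rfl) (FamAt.one _) h1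
      ((hy z hz).mono fun _ h => h.2) (Dom.add h1 h2 (h3 z hz))
  refine ⟨Γ, _, _, inferInstance, fun q => B.ψ α (bs q) (g q.2.2 (B.φ α (q.1, 0) (G q.1))),
    fun z hz s hs => ⟨α, _, hα z hz s hs, (key z hz s).mono fun x hx => ⟨rfl, hx⟩⟩,
    fun z hz => (hy z hz).mono fun x hx => ?_, fun z hz => ?_⟩
  · simpa [h2, bs_apply] using hx.1.symm
  · have := (continuousAt_fst.prodMk (key z (hK hz) 1).self_of_nhds.1.cont).eventually
      (hW.mem_nhds (by simpa [h2] using hGW z hz))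
    filter_upwards [this, (bs_tendsto (z, ((1 : ℂ), (0 : Γ)))).eventually
      ((B.op α).mem_nhds (hα z (hK hz) 1 one_mem_I01))] with x h4 h5
    rw [B.inv α _ h5]
    exact h4

end Pool.Agent.P.MP_e711b0_an
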