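import Pool.Agent.P.MP_e711b0_an.Bump

/-! Polytopes, cap cutting and the transport theorem for sections. -/

namespace Pool.Agent.P.MP_e711b0_an

open Set Filter Metric Topology Complex
open scoped Manifold

set_option linter.unusedSectionVars false

section poly
variable {V : Type} [NormedAddCommGroup V] [NormedSpace ℂ V]

/-- Linear slices of cuboids. -/
def Poly (T : Set V) : Prop :=
  ∃ (N : Type) (_ : NormedAddCommGroup N) (_ : NormedSpace ℂ N) (_ : FiniteDimensional ℂ N)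
    (ι : V →L[ℂ] N) (p : N →L[ℂ] V) (E : Set N), (∀ x, p (ι x) = x) ∧ Cub E ∧ T = ι ⁻¹' E

theorem Poly.isCompact {T : Set V} (h : Poly T) : IsCompact T := by
  obtain ⟨N, _, _, _, ι, p, E, h1, h2, rfl⟩ := h
  exact (h2.isCompact.image p.continuous).of_isClosed_subset
    (h2.isCompact.isClosed.preimage ι.continuous) fun x hx => ⟨_, hx, h1 x⟩

theorem Poly.cut {T : Set V} (h : Poly T) (ℓ : V →L[ℂ] ℂ) (t : ℝ) :
    Poly (T ∩ {z | (ℓ z).re ≤ t}) := by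
  obtain ⟨M, hM0, hM⟩ := (h.isCompact.image ℓ.continuous).isBounded.exists_pos_norm_le
  obtain ⟨N, _, _, _, ι, p, E, h1, h2, rfl⟩ := h
  refine ⟨N × ℂ, _, _, inferInstance, ι.prod ℓ, p.comp (ContinuousLinearMap.fst ℂ N ℂ),
    E ×ˢ (Icc (min (-M) t) t ×ℂ Icc (-M) M), h1, h2.prod (cub_rect (min_le_right _ _) (by linarith)),
    Set.ext fun z => ⟨fun hz => ⟨hz.1, ⟨?_, hz.2⟩, ?_⟩, fun hz => ⟨hz.1, hz.2.1.2⟩⟩⟩
  · exact (min_le_left _ _).trans (abs_le.mp ((abs_re_le_norm _).trans (hM _ ⟨z, hz.1, rfl⟩))).1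
  · exact abs_le.mp ((abs_im_le_norm _).trans (hM _ ⟨z, hz.1, rfl⟩))

theorem exists_poly [FiniteDimensional ℂ V] {K : Set V} (hK : IsCompact K) :
    ∃ T, Poly T ∧ K ⊆ T := by
  classical
  let b := Module.finBasis ℂ V
  have key : ∀ s : Finset (Fin (Module.finrank ℂ V)), ∃ (N : Type) (_ : NormedAddCommGroup N)
      (_ : NormedSpace ℂ N) (_ : FiniteDimensional ℂ N) (ι : V →L[ℂ] N) (E : Set N), Cub E ∧
      K ⊆ ι ⁻¹' E ∧ ∀ x, ι x = 0 → ∀ i ∈ s, b.coord i x = 0 := fun s => by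
    induction s using Finset.induction_on with
    | empty => exact ⟨ℂ, _, _, inferInstance, 0, {0}, Cub.sub subsingleton_singleton,
        fun _ _ => rfl, by simp⟩
    | insert i s _ ih =>
      obtain ⟨N, _, _, _, ι, E, h1, h2, h3⟩ := ih
      let ℓ := LinearMap.toContinuousLinearMap (b.coord i)
      obtain ⟨M, hM0, hM⟩ := (hK.image ℓ.continuous).isBounded.exists_pos_norm_le
      refine ⟨N × ℂ, _, _, inferInstance, ι.prod ℓ, E ×ˢ (Icc (-M) M ×ℂ Icc (-M) M),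
        h1.prod (cub_rect (by linarith) (by linarith)), fun z hz => ⟨h2 hz,
          abs_le.mp ((abs_re_le_norm _).trans (hM _ ⟨z, hz, rfl⟩)),
          abs_le.mp ((abs_im_le_norm _).trans (hM _ ⟨z, hz, rfl⟩))⟩, fun x hx j hj => ?_⟩
      rcases Finset.mem_insert.mp hj with rfl | hj
      · exact congrArg Prod.snd hx
      · exact h3 x (congrArg Prod.fst hx) j hj
  obtain ⟨N, _, _, _, ι, E, h1, h2, h3⟩ := key Finset.univ
  obtain ⟨p, hp⟩ := LinearMap.exists_leftInverse_of_injective (ι : V →ₗ[ℂ] N)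
    (LinearMap.ker_eq_bot'.mpr fun x hx => b.ext_elem fun i => by
      simpa using h3 x hx i (Finset.mem_univ _))
  exact ⟨_, ⟨N, _, _, inferInstance, ι, LinearMap.toContinuousLinearMap p, E,
    fun x => LinearMap.congr_fun hp x, h1, rfl⟩, h2⟩

end poly

variable {V : Type} [NormedAddCommGroup V] [InnerProductSpace ℂ V]

theorem exists_cut {K T : Set V} (hK : IsCompact K) (hKc : Convex ℝ K) (hKn : K.Nonempty)
    (hT : IsCompact T) (hTn : T.Nonempty) {ε : ℝ} (hε : 0 < ε) :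
    ∃ x ∈ T, ∃ p ∈ K, ∃ ℓ : V →L[ℂ] ℂ, (∀ v, (ℓ v).re ≤ (2 * ‖x - p‖ + 2 * ε * ‖x‖) * ‖v‖) ∧
      (∀ y ∈ T, ε * ‖y - x‖ ^ 2 ≤ (ℓ x).re - (ℓ y).re) ∧
      ∀ y ∈ K, ∀ x' ∈ T, infDist x' K ^ 2 - ε * ‖y‖ ^ 2 ≤ (ℓ x).re - (ℓ y).re := by
  let : InnerProductSpace ℝ V := InnerProductSpace.complexToReal
  obtain ⟨x, hx, hmax⟩ := hT.exists_isMaxOn hTn (f := fun y => infDist y K ^ 2 + ε * ‖y‖ ^ 2)
    (((continuous_infDist_pt K).pow 2).add (by fun_prop)).continuousOn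
  obtain ⟨p, hp, hpx⟩ := hK.exists_infDist_eq_dist hKn x
  have hvar := (norm_eq_iInf_iff_real_inner_le_zero hKc (u := x) hp).mp (by
    rw [← dist_eq_norm, ← hpx, infDist_eq_iInf]
    simp only [dist_eq_norm])
  set ξ : V := (2 : ℝ) • (x - p) + (2 * ε) • x with hξ
  have key : ∀ y, infDist x K ^ 2 + ε * ‖x‖ ^ 2 + inner ℝ ξ (y - x) + ε * ‖y - x‖ ^ 2 ≤
      infDist y K ^ 2 + ε * ‖y‖ ^ 2 := fun y => by
    obtain ⟨q, hq, hqy⟩ := hK.exists_infDist_eq_dist hKn y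
    have e1 := norm_add_sq_real (x - p) ((y - q) - (x - p))
    have e2 := norm_add_sq_real x (y - x)
    have e3 : inner ℝ (x - p) ((y - q) - (x - p)) =
        inner ℝ (x - p) (y - x) - inner ℝ (x - p) (q - p) := by
      rw [← inner_sub_right]
      congr 1
      abel
    rw [add_sub_cancel] at e1 e2
    rw [hpx, hqy, dist_eq_norm, dist_eq_norm, hξ, inner_add_left, real_inner_smul_left,
      real_inner_smul_left, e1, e2, e3]
    nlinarith [hvar q hq, sq_nonneg ‖(y - q) - (x - p)‖]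
  have hℓ : ∀ v, (innerSL ℂ ξ v).re = inner ℝ ξ v := fun v => rfl
  refine ⟨x, hx, p, hp, innerSL ℂ ξ, fun v => ?_, fun y hy => ?_, fun y hy x' hx' => ?_⟩
  · rw [hℓ]
    refine (real_inner_le_norm _ _).trans (mul_le_mul_of_nonneg_right ((norm_add_le _ _).trans
      (le_of_eq ?_)) (norm_nonneg _))
    rw [norm_smul, norm_smul, Real.norm_of_nonneg zero_le_two, Real.norm_of_nonneg (by positivity)]
  · have h1 := key y
    have h2 : infDist y K ^ 2 + ε * ‖y‖ ^ 2 ≤ infDist x K ^ 2 + ε * ‖x‖ ^ 2 := hmax hy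
    rw [inner_sub_right] at h1
    rw [hℓ, hℓ]
    linarith
  · have h1 := key y
    have h2 : infDist x' K ^ 2 + ε * ‖x'‖ ^ 2 ≤ infDist x K ^ 2 + ε * ‖x‖ ^ 2 := hmax hx'
    rw [inner_sub_right, infDist_zero_of_mem hy] at h1
    rw [hℓ, hℓ]
    nlinarith [sq_nonneg ‖x'‖, sq_nonneg ‖y - x‖]

theorem cap_ind {K O T₀ : Set V} (hK : IsCompact K) (hKc : Convex ℝ K) (hKn : K.Nonempty)
    (hO : IsOpen O) (hKO : K ⊆ O) (hT₀ : Poly T₀) (hKT : K ⊆ T₀) {δ : ℝ} (hδ : 0 < δ)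
    {P : Set V → Prop} (base : ∀ T, Poly T → K ⊆ T → T ⊆ T₀ → T ⊆ O → P T)
    (step : ∀ T, Poly T → K ⊆ T → T ⊆ T₀ → ∀ (ℓ : V →L[ℂ] ℂ) (t0 t1 : ℝ), ∀ x ∈ T, t0 < t1 →
      (∀ z ∈ K, (ℓ z).re ≤ t0) → (∀ z ∈ T, t0 ≤ (ℓ z).re → z ∈ ball x δ) →
      P (T ∩ {z | (ℓ z).re ≤ t1}) → P T) : P T₀ := by
  classical
  obtain ⟨R, hR0, hR⟩ := hT₀.isCompact.isBounded.exists_pos_norm_le
  obtain ⟨d, hd0, hd⟩ := hK.exists_thickening_subset_open hO hKO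
  set ε := d ^ 2 / (2 * R ^ 2) with hε
  have hε0 : 0 < ε := by positivity
  have hεR : ε * R ^ 2 = d ^ 2 / 2 := by rw [hε]; field_simp
  set h := min (d ^ 2 / 2) (ε * δ ^ 2 / 2) with hh
  have hh0 : 0 < h := by positivity
  set κ := h / (2 * (4 * R + 2 * ε * R)) with hκ
  have hκ0 : 0 < κ := by positivity
  have hκh : (4 * R + 2 * ε * R) * κ = h / 2 := by rw [hκ]; field_simp
  obtain ⟨s, -, hs, hcov⟩ := finite_cover_balls_of_compact hT₀.isCompact (half_pos hκ0)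
  have key : ∀ s : Finset V, ∀ T, Poly T → K ⊆ T → T ⊆ T₀ → (∀ x ∈ T, ∃ c ∈ s, x ∈ ball c (κ / 2)) →
      P T := fun s => by
    induction s using Finset.strongInductionOn with
    | _ s ih =>
    intro T h1 h2 h3 h4
    by_cases hTO : T ⊆ O
    · exact base T h1 h2 h3 hTO
    obtain ⟨x', hx', hx'O⟩ := not_subset.mp hTO
    obtain ⟨x, hx, p, hp, ℓ, h5, h6, h7⟩ := exists_cut hK hKc hKn h1.isCompact ⟨x', hx'⟩ hε0
    have hd' : d ≤ infDist x' K := not_lt.mp fun h => hx'O (hd ((mem_thickening_iff_infDist_lt hKn).mpr h))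
    have hKt : ∀ z ∈ K, (ℓ z).re ≤ (ℓ x).re - h := fun z hz => by
      have h8 := h7 z hz x' hx'
      have h9 : ‖z‖ ^ 2 ≤ R ^ 2 := pow_le_pow_left₀ (norm_nonneg _) (hR z (hKT hz)) 2
      have h10 : d ^ 2 ≤ infDist x' K ^ 2 := pow_le_pow_left₀ hd0.le hd' 2
      nlinarith [min_le_left (d ^ 2 / 2) (ε * δ ^ 2 / 2)]
    obtain ⟨c, hc, hxc⟩ := h4 x hx
    refine step T h1 h2 h3 ℓ ((ℓ x).re - h) ((ℓ x).re - h / 2) x hx (by linarith) hKt
      (fun z hz h8 => ?_) (ih _ (Finset.erase_ssubset hc) _ (h1.cut _ _)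
      (fun z hz => ⟨h2 hz, show (ℓ z).re ≤ _ by linarith [hKt z hz]⟩) (inter_subset_left.trans h3)
      fun y hy => ?_)
    · rw [mem_ball, dist_eq_norm]
      refine lt_of_pow_lt_pow_left₀ 2 hδ.le (lt_of_mul_lt_mul_left ?_ hε0.le)
      have : 0 < ε * δ ^ 2 := by positivity
      linarith [h6 z hz, min_le_right (d ^ 2 / 2) (ε * δ ^ 2 / 2)]
    · obtain ⟨c', hc', hyc⟩ := h4 y hy.1
      refine ⟨c', Finset.mem_erase.mpr ⟨?_, hc'⟩, hyc⟩
      rintro rfl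
      have h8 : ‖x - y‖ < κ := by
        rw [← dist_eq_norm]
        linarith [dist_triangle_right x y c', mem_ball.mp hxc, mem_ball.mp hyc]
      have h9 := h5 (x - y)
      have h10 : (ℓ y).re ≤ (ℓ x).re - h / 2 := hy.2
      have h11 : 2 * ‖x - p‖ + 2 * ε * ‖x‖ ≤ 4 * R + 2 * ε * R := by
        nlinarith [norm_sub_le x p, hR x (h3 hx), hR p (hKT hp)]
      rw [map_sub, sub_re] at h9
      have h12 := mul_le_mul_of_nonneg_right h11 (norm_nonneg (x - y))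
      have h13 := mul_lt_mul_of_pos_left h8 (by positivity : 0 < 4 * R + 2 * ε * R)
      linarith
  exact key hs.toFinset T₀ hT₀ hKT subset_rfl fun x hx => by simpa using hcov hx

variable [FiniteDimensional ℂ V]

theorem poly_between {K O : Set V} (hK : IsCompact K) (hKc : Convex ℝ K) (hKn : K.Nonempty)
    (hO : IsOpen O) (hKO : K ⊆ O) : ∃ T, Poly T ∧ K ⊆ T ∧ T ⊆ O := by
  obtain ⟨T₀, h1, h2⟩ := exists_poly hK
  exact cap_ind hK hKc hKn hO hKO h1 h2 one_pos (P := fun _ => ∃ T, Poly T ∧ K ⊆ T ∧ T ⊆ O)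
    (fun T h3 h4 _ h5 => ⟨T, h3, h4, h5⟩) fun _ _ _ _ _ _ _ _ _ _ _ _ h => h

variable {F : Type} [NormedAddCommGroup F] [NormedSpace ℂ F] {Y : Type} [TopologicalSpace Y]
  [ChartedSpace F Y] {E A : Type} [IsManifold 𝓘(ℂ, F) 1 Y] [FiniteDimensional ℂ F]

theorem short_time {B : Bun F (V × ℂ) Y E A} {K T : Set V} (hK : IsCompact K) (hKc : Convex ℝ K)
    (hKn : K.Nonempty) (hT : Poly T) (hKT : K ⊆ T) {α₀ : A}
    (hα₀ : ∀ z ∈ K, ∀ s ∈ I01, (z, s) ∈ B.Ω α₀) (hcov : ∀ z ∈ T, ∃ α, ∀ s ∈ I01, (z, s) ∈ B.Ω α)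
    {G : V → E} (hG : ∀ z ∈ T, Sec B G 0 z) {W : Set (V × Y)} (hW : IsOpen W)
    (hGW : ∀ z ∈ K, (z, B.φ α₀ (z, 0) (G z)) ∈ W) :
    ∃ G' : V → E, (∀ z ∈ T, Sec B G' 1 z) ∧ ∀ z ∈ K, (z, B.φ α₀ (z, 1) (G' z)) ∈ W := by
  have hop : ∀ α, IsOpen {z | ∀ s ∈ I01, (z, s) ∈ B.Ω α} := fun α =>
    isOpen_iff_mem_nhds.mpr fun z hz => cub_I01.isCompact.eventually_forall_of_forall_eventually
      (P := fun z s => (z, s) ∈ B.Ω α) fun s hs => (B.op α).mem_nhds (hz s hs)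
  obtain ⟨δ, hδ, hL⟩ := lebesgue_number_lemma_of_metric hT.isCompact hop
    fun z hz => mem_iUnion.mpr (hcov z hz)
  obtain ⟨Θ, _, _, _, H, h1, -, h3⟩ := cap_ind hK hKc hKn (hop α₀) hα₀ hT hKT hδ
    (P := Good B G K fun x e => (x.1, B.φ α₀ x e) ∈ W)
    (fun T' h1 h2 h3 h4 => good_base h1.isCompact h2 h4 (fun z hz => hG z (h3 hz)) hW hGW)
    fun T' h1 h2 h3 ℓ t0 t1 x hx ht h4 h5 h6 => by
      obtain ⟨α, hα⟩ := hL x (h3 hx)
      have hc := h1.isCompact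
      obtain ⟨N, _, _, _, ι, p, E', h7, h8, rfl⟩ := h1
      exact good_bump h7 h8 hc hK h2 ht h4 (fun z hz h9 => hα (h5 z hz h9))
        (fun z hz => hG z (h3 hz)) h6
  exact ⟨fun x => H (x, (1, 0)), fun z hz => (h1 z hz 1 one_mem_I01).sec,
    fun z hz => (h3 z hz).self_of_nhds⟩

/-- Pullback of a bundle. -/
def Bun.comap {X X' : Type} [NormedAddCommGroup X] [NormedSpace ℂ X] [NormedAddCommGroup X']
    [NormedSpace ℂ X'] (B : Bun F X Y E A) (ρ : X' → X) (hρ : Differentiable ℂ ρ) :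
    Bun F X' Y E A where
  Ω α := ρ ⁻¹' B.Ω α
  ψ α x := B.ψ α (ρ x)
  φ α x := B.φ α (ρ x)
  op α := (B.op α).preimage hρ.continuous
  inv α x hx := B.inv α _ hx
  tr α β x h1 h2 := by
    obtain ⟨τ, h3, h4⟩ := B.tr α β _ h1 h2
    exact ⟨fun x => τ (ρ x), h3.comp (Hol.of_diff hρ _), (hρ.continuous.tendsto x).eventually h4⟩

/-- The transport theorem. -/
theorem transport {B : Bun F (V × ℂ) Y E A} {K T : Set V} (hK : IsCompact K) (hKc : Convex ℝ K)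
    (hKn : K.Nonempty) (hT : Poly T) (hKT : K ⊆ T) {α₀ : A}
    (hα₀ : ∀ z ∈ K, ∀ s ∈ Icc (0 : ℝ) 1, (z, (s : ℂ)) ∈ B.Ω α₀)
    (hcov : ∀ z ∈ T, ∀ s ∈ Icc (0 : ℝ) 1, ∃ α, (z, (s : ℂ)) ∈ B.Ω α)
    {G : V → E} (hG : ∀ z ∈ T, Sec B G 0 z) {W : Set (V × Y)} (hW : IsOpen W)
    (hGW : ∀ z ∈ K, (z, B.φ α₀ (z, 0) (G z)) ∈ W) :
    ∃ G' : V → E, (∀ z ∈ T, Sec B G' 1 z) ∧ ∀ z ∈ K, (z, B.φ α₀ (z, 1) (G' z)) ∈ W := by
  have := real_ind (P := fun u v => ∀ G : V → E, (∀ z ∈ T, Sec B G (u : ℂ) z) →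
    (∀ z ∈ K, (z, B.φ α₀ (z, (u : ℂ)) (G z)) ∈ W) → ∃ G' : V → E, (∀ z ∈ T, Sec B G' (v : ℂ) z) ∧
      ∀ z ∈ K, (z, B.φ α₀ (z, (v : ℂ)) (G' z)) ∈ W) zero_le_one (fun t ht => ?_)
    fun u v w _ _ _ _ h1 h2 G h3 h4 => by
      obtain ⟨G', h5, h6⟩ := h1 G h3 h4
      exact h2 G' h5 h6
  · exact this G hG hGW
  obtain ⟨δ, hδ, hL⟩ := lebesgue_number_lemma_of_metric
    (hT.isCompact.prod (isCompact_singleton (x := (t : ℂ)))) B.op (by
      rintro ⟨z, s⟩ ⟨hz, rfl⟩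
      exact mem_iUnion.mpr (hcov z hz t ht))
  refine ⟨δ, hδ, fun u v hu huv hv h1 h2 G h3 h4 => ?_⟩
  have hs : ∀ s ∈ I01, ∃ r ∈ Icc u v, (u : ℂ) + s * (v - u) = r := fun s hs =>
    ⟨u + s.re * (v - u), ⟨by nlinarith [hs.1.1], by nlinarith [hs.1.2]⟩, by
      have : s = (s.re : ℂ) := Complex.ext rfl (by simpa using hs.2)
      rw [this]
      simp⟩
  have := short_time (B := B.comap (fun x : V × ℂ => (x.1, (u : ℂ) + x.2 * (v - u))) (by fun_prop))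
    hK hKc hKn hT hKT (α₀ := α₀) (fun z hz s h => by
      obtain ⟨r, hr, e⟩ := hs s h
      simpa [Bun.comap, e] using hα₀ z hz r ⟨hu.trans hr.1, hr.2.trans hv⟩) (fun z hz => by
      obtain ⟨α, hα⟩ := hL (z, t) ⟨hz, rfl⟩
      refine ⟨α, fun s h => ?_⟩
      obtain ⟨r, hr, e⟩ := hs s h
      have : (z, (r : ℂ)) ∈ B.Ω α := hα (by
        rw [mem_ball, Prod.dist_eq, dist_self, Complex.isometry_ofReal.dist_eq, Real.dist_eq]
        exact max_lt hδ (abs_lt.mpr ⟨by linarith [hr.1], by linarith [hr.2]⟩))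
      simpa [Bun.comap, e] using this) (G := G) (by simpa [Sec, Bun.comap] using h3) hW
    (by simpa [Bun.comap] using h4)
  simpa [Sec, Bun.comap] using this

end Pool.Agent.P.MP_e711b0_an
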