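import Pool.Agent.P.MP_e711b0_an.Noether

/-! Oka's coherence theorem: kernels of holomorphic matrices are locally finitely generated. -/

namespace Pool.Agent.P.MP_e711b0_an

open Set Filter Metric Topology Complex

set_option linter.unusedSectionVars false

variable {V V' W W' Λ : Type} [NormedAddCommGroup V] [NormedSpace ℂ V] [NormedAddCommGroup V']
  [NormedSpace ℂ V'] [NormedAddCommGroup W] [NormedSpace ℂ W] [NormedAddCommGroup W']
  [NormedSpace ℂ W'] [NormedAddCommGroup Λ] [NormedSpace ℂ Λ]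

theorem Hol.clm_of_apply [FiniteDimensional ℂ Λ] {S : V → Λ →L[ℂ] W} {l : Filter V}
    (h : ∀ v, Hol (fun y => S y v) l) : Hol S l := by
  let b := Module.finBasis ℂ Λ
  filter_upwards [Filter.eventually_all.mpr fun i => h (b i)] with y hy
  refine differentiableAt_clm_of_apply fun v => ?_
  have : (fun y => S y v) = fun y => ∑ i, b.repr v i • S y (b i) := by
    funext y
    conv_lhs => rw [← b.sum_repr v, map_sum]
    simp only [map_smul]
  rw [this]
  exact DifferentiableAt.fun_sum fun i _ => (hy i).const_smul _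

theorem Hol.app {S : V → Λ →L[ℂ] W} {c : V → Λ} {l : Filter V} (h : Hol S l) (hc : Hol c l) :
    Hol (fun y => S y (c y)) l := by
  filter_upwards [h, hc] with y h1 h2 using h1.clm_apply h2

theorem Hol.ccomp {S : V → Λ →L[ℂ] W} {T : V → W' →L[ℂ] Λ} {l : Filter V} (h : Hol S l)
    (hc : Hol T l) : Hol (fun y => (S y).comp (T y)) l := by
  filter_upwards [h, hc] with y h1 h2 using h1.clm_comp h2

theorem Hol.const (c : W) (l : Filter V) : Hol (fun _ => c) l :=
  Eventually.of_forall fun _ => differentiableAt_const c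

theorem Hol.of_diff {f : V → W} (h : Differentiable ℂ f) (l : Filter V) : Hol f l :=
  Eventually.of_forall h

theorem Hol.add {f g : V → W} {l : Filter V} (hf : Hol f l) (hg : Hol g l) :
    Hol (fun y => f y + g y) l := by
  filter_upwards [hf, hg] with y h1 h2 using h1.add h2

theorem Hol.sub {f g : V → W} {l : Filter V} (hf : Hol f l) (hg : Hol g l) :
    Hol (fun y => f y - g y) l := by
  filter_upwards [hf, hg] with y h1 h2 using h1.sub h2

theorem Hol.prodMk {f : V → W} {g : V → W'} {l : Filter V} (hf : Hol f l) (hg : Hol g l) :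
    Hol (fun y => (f y, g y)) l := by
  filter_upwards [hf, hg] with y h1 h2 using h1.prodMk h2

theorem Hol.smul {f : V → ℂ} {g : V → W} {l : Filter V} (hf : Hol f l) (hg : Hol g l) :
    Hol (fun y => f y • g y) l := by
  filter_upwards [hf, hg] with y h1 h2 using h1.smul h2

theorem Hol.tendsto {f : V → W} {x : V} (hf : Hol f (𝓝 x)) : Tendsto f (𝓝 x) (𝓝 (f x)) :=
  hf.self_of_nhds.continuousAt

/-- `S` generates the germs at `x` of sections of `R`. -/
def Gen (R : V → Submodule ℂ W) (S : V → Λ →L[ℂ] W) (x : V) : Prop :=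
  ∀ a : V → W, Hol a (𝓝 x) → (∀ᶠ y in 𝓝 x, a y ∈ R y) →
    ∃ c : V → Λ, Hol c (𝓝 x) ∧ ∀ᶠ y in 𝓝 x, S y (c y) = a y

/-- `S` is a holomorphic system of generators of `R` near `x`. -/
def GenNear (R : V → Submodule ℂ W) (S : V → Λ →L[ℂ] W) (x : V) : Prop :=
  Hol S (𝓝 x) ∧ ∀ᶠ y in 𝓝 x, (∀ c, S y c ∈ R y) ∧ Gen R S y

/-- The sections of `R` are locally finitely generated near `x`. -/
def LocFG (R : V → Submodule ℂ W) (x : V) : Prop :=
  ∃ (Λ : Type) (_ : NormedAddCommGroup Λ) (_ : NormedSpace ℂ Λ) (_ : FiniteDimensional ℂ Λ)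
    (S : V → Λ →L[ℂ] W), GenNear R S x

theorem LocFG.transfer {R : V → Submodule ℂ W} {R' : V → Submodule ℂ W'} {x : V}
    {M : V → W →L[ℂ] W'} {N : V → W' →L[ℂ] W} (hM : Hol M (𝓝 x)) (hN : Hol N (𝓝 x))
    (h : ∀ᶠ y in 𝓝 x, (∀ a ∈ R' y, N y a ∈ R y) ∧ ∀ a ∈ R y, M y a ∈ R' y ∧ N y (M y a) = a)
    (h' : LocFG R' x) : LocFG R x := by
  obtain ⟨Λ, _, _, _, S, hS, hG⟩ := h'
  refine ⟨Λ, _, _, inferInstance, fun y => (N y).comp (S y), hN.ccomp hS, ?_⟩
  filter_upwards [hG, h.eventually_nhds, hM.eventually_nhds] with y h1 h2 h3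
  refine ⟨fun c => h2.self_of_nhds.1 _ (h1.1 c), fun a ha haR => ?_⟩
  obtain ⟨c, hc, hc'⟩ := h1.2 (fun z => M z (a z)) (Hol.app h3 ha) (by
    filter_upwards [h2, haR] with z h4 h5 using (h4.2 _ h5).1)
  refine ⟨c, hc, ?_⟩
  filter_upwards [hc', h2, haR] with z h4 h5 h6
  simp [h4, (h5.2 _ h6).2]

theorem LocFG.congr {R R' : V → Submodule ℂ W} {x : V} (h' : LocFG R' x)
    (h : ∀ᶠ y in 𝓝 x, ∀ a, a ∈ R y ↔ a ∈ R' y) : LocFG R x :=
  LocFG.transfer (M := fun _ => ContinuousLinearMap.id ℂ W) (N := fun _ => ContinuousLinearMap.id ℂ W)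
    (Hol.const _ _) (Hol.const _ _)
    (h.mono fun _ hy => ⟨fun a ha => (hy a).2 ha, fun a ha => ⟨(hy a).1 ha, rfl⟩⟩) h'

theorem LocFG.top [FiniteDimensional ℂ W] (x : V) : LocFG (fun _ => (⊤ : Submodule ℂ W)) x :=
  ⟨W, _, _, inferInstance, fun _ => ContinuousLinearMap.id ℂ W, Hol.const _ _,
    Eventually.of_forall fun _ => ⟨fun _ => trivial, fun a ha _ =>
      ⟨a, ha, Eventually.of_forall fun _ => rfl⟩⟩⟩

theorem LocFG.transport {R : V → Submodule ℂ W} {e : V' → V} {e' : V → V'} {y₀ : V'}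
    (he : Differentiable ℂ e) (he' : Differentiable ℂ e') (h1 : ∀ x, e (e' x) = x)
    (h2 : ∀ y, e' (e y) = y) (h : LocFG (fun y => R (e y)) y₀) : LocFG R (e y₀) := by
  obtain ⟨Λ, _, _, _, S, hS, hG⟩ := h
  have ht : ∀ y, Tendsto e' (𝓝 (e y)) (𝓝 y) := fun y => by
    simpa [h2] using he'.continuous.tendsto (e y)
  have ht' : ∀ x, Tendsto e (𝓝 (e' x)) (𝓝 x) := fun x => by
    simpa [h1] using he.continuous.tendsto (e' x)
  refine ⟨Λ, _, _, inferInstance, fun x => S (e' x),
    Hol.comp (by simpa [h2] using hS) (Hol.of_diff he' _), ?_⟩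
  filter_upwards [(ht y₀).eventually hG] with x hx
  refine ⟨fun c => by simpa [h1] using hx.1 c, fun a ha haR => ?_⟩
  obtain ⟨c, hc, hc'⟩ := hx.2 (fun y => a (e y))
    (Hol.comp (by simpa [h1] using ha) (Hol.of_diff he _)) ((ht' x).eventually haR)
  refine ⟨fun x => c (e' x), Hol.comp hc (Hol.of_diff he' _), ?_⟩
  filter_upwards [(he'.continuous.tendsto x).eventually hc'] with z hz
  simpa [h1] using hz

/-- Coherence for maps into `W'` at the point `x`. -/
def OCAt (W' : Type) [NormedAddCommGroup W'] [NormedSpace ℂ W'] (x : V) : Prop :=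
  ∀ (W : Type) [NormedAddCommGroup W] [NormedSpace ℂ W] [FiniteDimensional ℂ W]
    (A : V → W →L[ℂ] W'), Hol A (𝓝 x) → LocFG (fun y => (A y).ker) x

theorem LocFG.inter {R : V → Submodule ℂ W} {x : V} (h : LocFG R x) (h' : OCAt W' x)
    {A : V → W →L[ℂ] W'} (hA : Hol A (𝓝 x)) : LocFG (fun y => R y ⊓ (A y).ker) x := by
  obtain ⟨Λ, _, _, _, S, hS, hG⟩ := h
  obtain ⟨Λ', _, _, _, S', hS', hG'⟩ := h' Λ _ (hA.ccomp hS)
  refine ⟨Λ', _, _, inferInstance, fun y => (S y).comp (S' y), hS.ccomp hS', ?_⟩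
  filter_upwards [hG, hG'] with y h1 h2
  refine ⟨fun c => ⟨h1.1 _, h2.1 c⟩, fun a ha haR => ?_⟩
  obtain ⟨c, hc, hc'⟩ := h1.2 a ha (haR.mono fun z hz => hz.1)
  obtain ⟨c', hd, hd'⟩ := h2.2 c hc (by
    filter_upwards [hc', haR] with z h3 h4
    have : A z (a z) = 0 := h4.2
    simp [h3, this])
  refine ⟨c', hd, ?_⟩
  filter_upwards [hc', hd'] with z h3 h4
  simp [h3, h4]

theorem OCAt.all {x : V} (h : OCAt ℂ x) (W' : Type) [NormedAddCommGroup W'] [NormedSpace ℂ W']
    [FiniteDimensional ℂ W'] : OCAt W' x := by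
  classical
  intro W _ _ _ A hA
  let b := Module.finBasis ℂ W'
  let π : Fin (Module.finrank ℂ W') → W' →L[ℂ] ℂ := fun i => LinearMap.toContinuousLinearMap (b.coord i)
  have key : ∀ s : Finset (Fin (Module.finrank ℂ W')),
      LocFG (fun y => s.inf fun i => ((π i).comp (A y)).ker) x := fun s => by
    induction s using Finset.induction_on with
    | empty => simpa using LocFG.top x
    | insert i s _ ih =>
      refine (ih.inter h ((Hol.const (π i) _).ccomp hA)).congr (Eventually.of_forall fun y a => ?_)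
      rw [Finset.inf_insert, inf_comm]
  refine (key Finset.univ).congr (Eventually.of_forall fun y a => ?_)
  simp only [Submodule.mem_finsetInf, Finset.mem_univ, LinearMap.mem_ker, forall_const]
  refine ⟨fun h1 i => ?_, fun h1 => b.ext_elem fun i => ?_⟩
  · have : A y a = 0 := h1
    simp [this]
  · simpa [π] using h1 i

theorem entire_zero {f : ℂ → ℂ} (hf : Differentiable ℂ f) {c : ℂ} (h : ∀ᶠ w in 𝓝 c, f w = 0)
    (w : ℂ) : f w = 0 :=
  (hf.differentiableOn.analyticOnNhd isOpen_univ).eqOn_zero_of_preconnected_of_eventuallyEq_zero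
    isPreconnected_univ (mem_univ c) h (mem_univ w)

theorem exists_circle {k : ℕ} {φ : ℕ → ℂ} (h : φ k = 1) (c : ℂ) {δ : ℝ} (hδ : 0 < δ) :
    ∃ ρ, 0 < ρ ∧ ρ < δ ∧ ∀ ζ ∈ sphere c ρ, pl k φ ζ ≠ 0 := by
  rcases ((pl_diff k φ).analyticAt c).eventually_eq_zero_or_eventually_ne_zero with h1 | h1
  · have := poly_zero (k := k + 1) (p := φ) (h := fun _ => 0) continuousAt_const
      (Eventually.of_forall fun w => by simpa [pl] using entire_zero (pl_diff k φ) h1 w) k
      (Nat.lt_succ_self k)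
    simp [h] at this
  · obtain ⟨ε, hε, h2⟩ := Metric.mem_nhdsWithin_iff.mp h1
    refine ⟨min ε δ / 2, by positivity, by linarith [min_le_right ε δ, lt_min hε hδ],
      fun ζ hζ => h2 ⟨?_, ?_⟩⟩
    · exact sphere_subset_ball (by linarith [min_le_left ε δ, lt_min hε hδ]) hζ
    · rintro rfl
      have : 0 < min ε δ / 2 := by positivity
      simp at hζ
      exact this.ne hζ

variable {J : Type} [Fintype J] [DecidableEq J]

/-- The linear form with coefficients `f`. -/
noncomputable def lform (f : J → ℂ) : (J → ℂ) →L[ℂ] ℂ := ∑ j, f j • ContinuousLinearMap.proj j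

theorem lform_apply (f a : J → ℂ) : lform f a = ∑ j, f j * a j := by
  simp [lform]

theorem lform_diffAt {f : V → J → ℂ} {x : V} (h : ∀ j, DifferentiableAt ℂ (fun y => f y j) x) :
    DifferentiableAt ℂ (fun y => lform (f y)) x :=
  DifferentiableAt.fun_sum fun j _ => (h j).smul_const _

/-- Evaluation of a vector of polynomials of degree less than `k`. -/
noncomputable def evp (k : ℕ) (w : ℂ) : (J → Fin k → ℂ) →L[ℂ] J → ℂ :=
  ContinuousLinearMap.pi fun j => (lform fun l : Fin k => w ^ (l : ℕ)).comp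
    (ContinuousLinearMap.proj j)

theorem evp_apply (k : ℕ) (w : ℂ) (α : J → Fin k → ℂ) (j : J) :
    evp k w α j = ∑ l : Fin k, w ^ (l : ℕ) * α j l := by
  simp [evp, lform_apply]

theorem evp_diff (k : ℕ) : Differentiable ℂ (evp (J := J) k) := fun w =>
  differentiableAt_clm_of_apply fun α => differentiableAt_pi.mpr fun j => by
    simp only [evp_apply]
    fun_prop

attribute [irreducible] lform evp

theorem rel_zero {k : ℕ} {φ : J → ℕ → ℂ} {α : J → Fin k → ℂ}
    (h : ∀ m : Fin (2 * k + 1), lform (fun j => pl k (φ j) (m : ℕ)) (evp k (m : ℕ) α) = 0) (w : ℂ) :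
    lform (fun j => pl k (φ j) w) (evp k w α) = 0 := by
  let Q : Polynomial ℂ := ∑ j, (∑ l ∈ Finset.range (k + 1), Polynomial.monomial l (φ j l)) *
    ∑ l : Fin k, Polynomial.monomial l (α j l)
  have hQ : ∀ w, Q.eval w = lform (fun j => pl k (φ j) w) (evp k w α) := fun w => by
    simp only [Q, lform_apply, evp_apply, pl, Polynomial.eval_finsetSum, Polynomial.eval_mul,
      Polynomial.eval_monomial]
    exact Finset.sum_congr rfl fun j _ => by simp [mul_comm]
  have hd : Q.natDegree ≤ 2 * k := Polynomial.natDegree_sum_le_of_forall_le _ _ fun j _ => by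
    refine Polynomial.natDegree_mul_le.trans ?_
    have h1 : (∑ l ∈ Finset.range (k + 1), Polynomial.monomial l (φ j l)).natDegree ≤ k :=
      Polynomial.natDegree_sum_le_of_forall_le _ _ fun l hl =>
        (Polynomial.natDegree_monomial_le _).trans (Nat.lt_succ_iff.mp (Finset.mem_range.mp hl))
    have h2 : (∑ l : Fin k, Polynomial.monomial l (α j l)).natDegree ≤ k :=
      Polynomial.natDegree_sum_le_of_forall_le _ _ fun l _ =>
        (Polynomial.natDegree_monomial_le _).trans l.2.le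
    omega
  have h0 : Q = 0 := Polynomial.eq_zero_of_natDegree_lt_card_of_eval_eq_zero Q
    (f := fun m : Fin (2 * k + 1) => ((m : ℕ) : ℂ))
    (fun a b hab => Fin.ext (Nat.cast_injective hab)) (fun m => by rw [hQ, h m]) (by simp; omega)
  rw [← hQ, h0, Polynomial.eval_zero]

theorem locFG_poly (IH : ∀ k, OCAt (Fin k → ℂ) (0 : V')) {k : ℕ} {φ : J → V' → ℕ → ℂ} {j₀ : J}
    (hφ : ∀ᶠ z in 𝓝 (0 : V'), ∀ j l, DifferentiableAt ℂ (fun z => φ j z l) z)
    (h1 : ∀ z, φ j₀ z k = 1) :
    LocFG (fun p : V' × ℂ => (lform fun j => pl k (φ j p.1) p.2).ker) 0 := by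
  set A : V' × ℂ → (J → ℂ) →L[ℂ] ℂ := fun p => lform fun j => pl k (φ j p.1) p.2 with hA
  have hFd : ∀ z : V', (∀ j l, DifferentiableAt ℂ (fun z => φ j z l) z) → ∀ (w : ℂ) j l,
      DifferentiableAt ℂ (fun p : V' × ℂ => φ j p.1 l) (z, w) := fun z hz w j l =>
    DifferentiableAt.comp (g := fun z => φ j z l) (z, w) (hz j l) differentiableAt_fst
  have hAd : ∀ z : V', (∀ j l, DifferentiableAt ℂ (fun z => φ j z l) z) → ∀ w : ℂ,
      DifferentiableAt ℂ A (z, w) := fun z hz w =>
    lform_diffAt fun j => pl_diffAt (hFd z hz w j) differentiableAt_snd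
  obtain ⟨Λ, _, _, _, S, hS, hG⟩ := IH (2 * k + 1) (J → Fin k → ℂ)
    (fun z => ContinuousLinearMap.pi fun m : Fin (2 * k + 1) =>
      (A (z, (m : ℕ))).comp (evp k (m : ℕ))) (Hol.clm_of_apply fun α => by
        filter_upwards [hφ] with z hz
        refine differentiableAt_pi.mpr fun m => ?_
        exact ((hAd z hz _).comp z (f := fun z => (z, ((m : ℕ) : ℂ))) (by fun_prop)).clm_apply
          (differentiableAt_const _))
  set T : V' × ℂ → (J → ℂ) →L[ℂ] J → ℂ := fun p =>
    pl k (φ j₀ p.1) p.2 • ContinuousLinearMap.id ℂ _ - (A p).smulRight (Pi.single j₀ 1) with hT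
  have hAT : ∀ p t, A p (T p t) = 0 := fun p t => by
    simp only [hT, sub_apply, smul_apply, ContinuousLinearMap.id_apply,
      ContinuousLinearMap.smulRight_apply, map_sub, map_smul, smul_eq_mul]
    have : A p (Pi.single j₀ 1) = pl k (φ j₀ p.1) p.2 := by
      simp [hA, lform_apply, Pi.single_apply]
    rw [this]; ring
  have hfst : Tendsto (Prod.fst : V' × ℂ → V') (𝓝 0) (𝓝 0) := continuous_fst.tendsto (0 : V' × ℂ)
  refine ⟨Λ × (J → ℂ), _, _, inferInstance, fun p => ((evp k p.2).comp (S p.1)).coprod (T p),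
    Hol.clm_of_apply fun c => ?_, ?_⟩
  · filter_upwards [hfst.eventually hS, hfst.eventually hφ] with p hp1 hp2
    simp only [ContinuousLinearMap.coprod_apply, ContinuousLinearMap.comp_apply, hT,
      sub_apply, smul_apply, ContinuousLinearMap.id_apply,
      ContinuousLinearMap.smulRight_apply]
    have h0 : DifferentiableAt ℂ (fun p : V' × ℂ => evp (J := J) k p.2) p :=
      (evp_diff k p.2).comp p differentiableAt_snd
    refine (h0.clm_apply
      ((hp1.comp p differentiableAt_fst).clm_apply (differentiableAt_const _))).add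
      (((pl_diffAt (hFd p.1 hp2 p.2 j₀) differentiableAt_snd).smul_const _).sub
        (((hAd p.1 hp2 p.2).clm_apply (differentiableAt_const _)).smul_const _))
  filter_upwards [hfst.eventually hG, hfst.eventually hφ.eventually_nhds] with ⟨b, c⟩ hp1 hp2
  refine ⟨fun t => ?_, fun a ha haR => ?_⟩
  · change A (b, c) _ = 0
    simp only [ContinuousLinearMap.coprod_apply, map_add, hAT, add_zero]
    refine rel_zero (fun m => ?_) c
    have h0 := congrFun (LinearMap.mem_ker.mp (hp1.1 t.1)) m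
    simpa [hA] using h0
  obtain ⟨δ, hδ, hball⟩ := Metric.mem_nhds_iff.mp (ha.and haR)
  obtain ⟨ρ, hρ0, hρδ, hsph⟩ := exists_circle (h1 b) c hδ
  obtain ⟨O, hO, hOo, hOb⟩ := _root_.eventually_nhds_iff.mp (hp2.and
    ((circle_ne (fun l => (hp2.self_of_nhds j₀ l).continuousAt) hsph).and (ball_mem_nhds b hδ)))
  have hin : ∀ z ∈ O, ∀ ζ ∈ closedBall c ρ, (z, ζ) ∈ ball (b, c) δ := fun z hz ζ hζ => by
    rw [← ball_prod_same]
    exact ⟨(hO z hz).2.2, closedBall_subset_ball hρδ hζ⟩
  have had : ∀ z ∈ O, ∀ ζ ∈ closedBall c ρ, ∀ j,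
      DifferentiableAt ℂ (fun p : V' × ℂ => a (p.1, p.2) j) (z, ζ) := fun z hz ζ hζ j =>
    differentiableAt_pi.mp (hball (hin z hz ζ hζ)).1 j
  have hcr : ∀ i j l, DifferentiableOn ℂ (fun z => cr c ρ (pl k (φ j₀ z))
      fun ζ => a (z, ζ) i * dl k (φ j z) ζ l) O := fun i j l =>
    cr_diffOn (P := fun z => pl k (φ j₀ z)) (a := fun z ζ => a (z, ζ) i * dl k (φ j z) ζ l)
      hρ0.le hOo (fun z hz ζ _ => pl_diffAt (hFd z (hO z hz).1 ζ j₀) differentiableAt_snd)
      (fun z hz => (hO z hz).2.1) fun z hz ζ hζ => (had z hz ζ (sphere_subset_closedBall hζ) i).mul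
        (dl_diffAt (hFd z (hO z hz).1 ζ j) differentiableAt_snd l)
  set α : V' → J → Fin k → ℂ := fun z j l =>
    cr c ρ (pl k (φ j₀ z)) (fun ζ => a (z, ζ) j * dl k (φ j₀ z) ζ l) -
      if j = j₀ then ∑ i, cr c ρ (pl k (φ j₀ z)) (fun ζ => a (z, ζ) i * dl k (φ i z) ζ l) else 0
    with hα
  set t : V' × ℂ → J → ℂ := fun p j => cq c ρ (pl k (φ j₀ p.1)) (fun ζ => a (p.1, ζ) j) p.2 with ht
  have hαd : DifferentiableOn ℂ α O :=
    differentiableOn_pi.mpr fun j => differentiableOn_pi.mpr fun l => by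
      refine (hcr j j₀ l).sub ?_
      split_ifs
      · exact DifferentiableOn.fun_sum fun i _ => hcr i i l
      · exact differentiableOn_const _
  have htd : DifferentiableOn ℂ t (O ×ˢ ball c ρ) := differentiableOn_pi.mpr fun j =>
    cq_diffOn (P := fun z => pl k (φ j₀ z)) (a := fun z ζ => a (z, ζ) j)
      hρ0.le hOo (fun z hz ζ _ => pl_diffAt (hFd z (hO z hz).1 ζ j₀) differentiableAt_snd)
      (fun z hz => (hO z hz).2.1) fun z hz ζ hζ => had z hz ζ (sphere_subset_closedBall hζ) j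
  have key : ∀ z ∈ O, ∀ w ∈ ball c ρ, a (z, w) = evp k w (α z) + T (z, w) (t (z, w)) := by
    intro z hz w hw
    have hd : ∀ j, DifferentiableOn ℂ (fun ζ => a (z, ζ) j) (closedBall c ρ) := fun j ζ hζ =>
      ((had z hz ζ hζ j).comp ζ (f := fun ζ => (z, ζ)) (by fun_prop)).differentiableWithinAt
    have hP : ContinuousOn (pl k (φ j₀ z)) (sphere c ρ) := (pl_diff _ _).continuous.continuousOn
    have hs : ∑ i, cq c ρ (pl k (φ j₀ z)) (fun ζ => a (z, ζ) i * pl k (φ i z) ζ) w = 0 := by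
      rw [← cq_sum (b := fun i ζ => a (z, ζ) i * pl k (φ i z) ζ) hw hP (hO z hz).2.1 fun i _ =>
        ((hd i).continuousOn.mono sphere_subset_closedBall).mul (pl_diff _ _).continuous.continuousOn,
        cq_congr (b := fun _ => 0) hρ0.le fun ζ hζ => ?_]
      · simp [cq, circleIntegral]
      · have : A (z, ζ) (a (z, ζ)) = 0 := (hball (hin z hz ζ (sphere_subset_closedBall hζ))).2
        simpa [hA, lform_apply, mul_comm] using this
    funext j
    have e1 := cd_div hw (hO z hz).2.1 (hd j)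
    have e2 := fun i => cd_psi hw hP (hO z hz).2.1
      ((hd i).continuousOn.mono sphere_subset_closedBall) k (φ i z)
    simp only [Pi.add_apply, evp_apply, hα, hT, sub_apply, smul_apply,
      ContinuousLinearMap.id_apply, ContinuousLinearMap.smulRight_apply, Pi.sub_apply,
      Pi.smul_apply, smul_eq_mul, mul_sub, Finset.sum_sub_distrib, ht, hA, lform_apply]
    rw [Finset.sum_range] at e1
    simp only [Finset.sum_range] at e2
    rw [e1]
    by_cases hj : j = j₀
    · subst hj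
      simp only [if_true, Finset.mul_sum, Pi.single_eq_same, mul_one]
      rw [Finset.sum_comm]
      simp only [e2, Finset.sum_sub_distrib, hs, mul_comm]
      ring
    · simp [hj]
      ring
  obtain ⟨c', hc', hc''⟩ := hp1.2 α (Hol.of_on hOo hOb hαd) (by
    filter_upwards [hOo.mem_nhds hOb] with z hz
    have h0 : ∀ w, A (z, w) (evp k w (α z)) = 0 := entire_zero (c := c)
      (fun w => ((hAd z (hO z hz).1 w).comp w (f := fun w => (z, w)) (by fun_prop)).clm_apply
        ((evp_diff k w).clm_apply (differentiableAt_const _))) (by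
      filter_upwards [ball_mem_nhds c hρ0] with w hw
      have : A (z, w) (a (z, w)) = 0 := (hball (hin z hz w (ball_subset_closedBall hw))).2
      rwa [key z hz w hw, map_add, hAT, add_zero] at this)
    exact funext fun m => h0 _)
  have hmem : O ×ˢ ball c ρ ∈ 𝓝 (b, c) := prod_mem_nhds (hOo.mem_nhds hOb) (ball_mem_nhds c hρ0)
  refine ⟨fun p => (c' p.1, t p), (Hol.comp hc' (Hol.of_diff differentiable_fst _)).prodMk
    (Hol.of_on (hOo.prod isOpen_ball) ⟨hOb, mem_ball_self hρ0⟩ htd), ?_⟩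
  filter_upwards [hmem, (continuous_fst.tendsto (b, c)).eventually hc''] with p h2 h3
  simp only [ContinuousLinearMap.coprod_apply, ContinuousLinearMap.comp_apply, h3]
  exact (key p.1 h2.1 p.2 h2.2).symm

theorem locFG_main [FiniteDimensional ℂ V'] (IH : ∀ k, OCAt (Fin k → ℂ) (0 : V'))
    {f : J → V' × ℂ → ℂ} (hf : ∀ j, Hol (f j) (𝓝 0)) {j₀ : J}
    (hne : ¬ ∀ᶠ t in 𝓝 (0 : ℂ), f j₀ (0, t) = 0) :
    LocFG (fun p : V' × ℂ => (lform fun j => f j p).ker) 0 := by
  obtain ⟨k, φ, e, hφ, hφk, hφ0, he, he0, hfe⟩ := weierstrass_prep (hf j₀) hne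
  obtain ⟨δ, hδ, hball⟩ := Metric.mem_nhds_iff.mp (Filter.eventually_all.mpr hf)
  obtain ⟨ρ, hρ0, hρδ, hsph⟩ := exists_circle (hφk 0) 0 hδ
  have hφ' : ∀ᶠ z in 𝓝 (0 : V'), ∀ l ∈ Finset.range (k + 1), DifferentiableAt ℂ (fun z => φ z l) z :=
    (Finset.eventually_all _).mpr fun l _ => hφ l
  set ψ : V' → ℕ → ℂ := fun z l => if l ≤ k then φ z l else 0 with hψ
  have hpl : ∀ z w, pl k (ψ z) w = pl k (φ z) w := fun z w =>
    Finset.sum_congr rfl fun l hl => by
      simp [hψ, Nat.lt_succ_iff.mp (Finset.mem_range.mp hl)]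
  obtain ⟨O, hO, hOo, hO0⟩ := _root_.eventually_nhds_iff.mp (hφ'.and
    ((circle_ne (fun l => (hφ l).self_of_nhds.continuousAt) hsph).and (ball_mem_nhds (0 : V') hδ)))
  have hψd : ∀ z ∈ O, ∀ l, DifferentiableAt ℂ (fun z => ψ z l) z := fun z hz l => by
    simp only [hψ]
    split_ifs with h
    · exact (hO z hz).1 l (Finset.mem_range.mpr (Nat.lt_succ_of_le h))
    · exact differentiableAt_const _
  have hψd' : ∀ z ∈ O, ∀ (w : ℂ) l, DifferentiableAt ℂ (fun p : V' × ℂ => ψ p.1 l) (z, w) :=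
    fun z hz w l => DifferentiableAt.comp (g := fun z => ψ z l) (z, w) (hψd z hz l)
      differentiableAt_fst
  have hψ0 : ∀ z ∈ O, ∀ ζ ∈ sphere (0 : ℂ) ρ, pl k (ψ z) ζ ≠ 0 := fun z hz ζ hζ => by
    rw [hpl]; exact (hO z hz).2.1 ζ hζ
  have hin : ∀ z ∈ O, ∀ ζ ∈ closedBall (0 : ℂ) ρ, ∀ j, DifferentiableAt ℂ (f j) (z, ζ) :=
    fun z hz ζ hζ => hball (by
      rw [← Prod.mk_zero_zero, ← ball_prod_same]
      exact ⟨(hO z hz).2.2, closedBall_subset_ball hρδ hζ⟩)
  set r : J → V' → ℕ → ℂ := fun j z l => if j = j₀ then ψ z l else if l < k then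
    cr 0 ρ (pl k (ψ z)) (fun ζ => f j (z, ζ) * dl k (ψ z) ζ l) else 0 with hr
  set q : V' × ℂ → J → ℂ := fun p j => if j = j₀ then e p else
    cq 0 ρ (pl k (ψ p.1)) (fun ζ => f j (p.1, ζ)) p.2 with hq
  have hrd : ∀ᶠ z in 𝓝 (0 : V'), ∀ j l, DifferentiableAt ℂ (fun z => r j z l) z := by
    filter_upwards [hOo.mem_nhds hO0] with z hz j l
    simp only [hr]
    split_ifs
    · exact hψd z hz l
    · exact (cr_diffOn (P := fun z => pl k (ψ z)) (a := fun z ζ => f j (z, ζ) * dl k (ψ z) ζ l)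
        hρ0.le hOo (fun z hz ζ _ => pl_diffAt (hψd' z hz ζ) differentiableAt_snd) hψ0
        fun z hz ζ hζ => (hin z hz ζ (sphere_subset_closedBall hζ) j).mul
          (dl_diffAt (hψd' z hz ζ) differentiableAt_snd l)).differentiableAt (hOo.mem_nhds hz)
    · exact differentiableAt_const _
  have hmem : O ×ˢ ball (0 : ℂ) ρ ∈ 𝓝 (0 : V' × ℂ) :=
    prod_mem_nhds (hOo.mem_nhds hO0) (ball_mem_nhds 0 hρ0)
  have hqd : Hol (fun p => lform (q p)) (𝓝 0) := by
    filter_upwards [hmem, he] with p hp hp'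
    refine lform_diffAt fun j => ?_
    simp only [hq]
    split_ifs
    · exact hp'
    · exact (cq_diffOn (P := fun z => pl k (ψ z)) (a := fun z ζ => f j (z, ζ))
        hρ0.le hOo (fun z hz ζ _ => pl_diffAt (hψd' z hz ζ) differentiableAt_snd) hψ0
        fun z hz ζ hζ => hin z hz ζ (sphere_subset_closedBall hζ) j).differentiableAt
        ((hOo.prod isOpen_ball).mem_nhds hp)
  have hene := he.self_of_nhds.continuousAt.eventually_ne he0
  have hei : Hol (fun p => (e p)⁻¹) (𝓝 0) := by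
    filter_upwards [he, hene] with p h1 h2 using h1.inv h2
  refine (locFG_poly IH (k := k) (φ := r) (j₀ := j₀) hrd fun z => by simp [hr, hψ, hφk]).transfer
    (M := fun p => ContinuousLinearMap.id ℂ _ +
      (lform (q p) - ContinuousLinearMap.proj j₀).smulRight (Pi.single j₀ 1))
    (N := fun p => ContinuousLinearMap.id ℂ _ +
      ((e p)⁻¹ • (ContinuousLinearMap.proj j₀ - lform (q p))).smulRight (Pi.single j₀ 1))
    (Hol.clm_of_apply fun a => ?_) (Hol.clm_of_apply fun a => ?_) ?_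
  · exact (Hol.const a _).add (((hqd.app (Hol.const a _)).sub (Hol.const (a j₀) _)).smul
      (Hol.const _ _))
  · exact (Hol.const a _).add ((hei.smul ((Hol.const (a j₀) _).sub (hqd.app (Hol.const a _)))).smul
      (Hol.const _ _))
  filter_upwards [hmem, hene, hfe] with ⟨z, w⟩ hp h1 h2
  have hdiv : ∀ j, f j (z, w) = q (z, w) j * pl k (ψ z) w + pl k (r j z) w -
      if j = j₀ then pl k (ψ z) w else 0 := fun j => by
    by_cases hj : j = j₀
    · subst hj
      simp [hq, hr, h2, hpl]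
    · have := cd_div (a := fun ζ => f j (z, ζ)) hp.2 (hψ0 z hp.1) fun ζ hζ =>
        ((hin z hp.1 ζ hζ j).comp ζ (f := fun ζ => (z, ζ)) (by fun_prop)).differentiableWithinAt
      simp only [hq, hr, if_neg hj, sub_zero]
      rw [this, add_right_inj]
      conv_rhs => rw [pl, Finset.sum_range_succ]
      simp only [lt_irrefl, if_false, zero_mul, add_zero]
      exact Finset.sum_congr rfl fun l hl => by rw [if_pos (Finset.mem_range.mp hl), mul_comm]
  have hA : ∀ a : J → ℂ, lform (fun j => f j (z, w)) a = lform (fun j => pl k (r j z) w) a +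
      (lform (q (z, w)) a - a j₀) * pl k (ψ z) w := fun a => by
    simp only [lform_apply, hdiv, sub_mul, add_mul, Finset.sum_sub_distrib, Finset.sum_add_distrib,
      ite_mul, zero_mul, Finset.sum_ite_eq', Finset.mem_univ, if_true, Finset.sum_mul]
    have : ∑ j, q (z, w) j * pl k (ψ z) w * a j = ∑ j, q (z, w) j * a j * pl k (ψ z) w :=
      Finset.sum_congr rfl fun j _ => by ring
    rw [this]; ring
  have hq0 : lform (q (z, w)) (Pi.single j₀ 1) = e (z, w) := by
    simp [lform_apply, Pi.single_apply, hq]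
  have hr0 : lform (fun j => pl k (r j z) w) (Pi.single j₀ 1) = pl k (ψ z) w := by
    simp [lform_apply, Pi.single_apply, hr]
  refine ⟨fun a ha => ?_, fun a ha => ⟨?_, ?_⟩⟩
  · have ha' : lform (fun j => pl k (r j z) w) a = 0 := ha
    change lform (fun j => f j (z, w)) _ = 0
    rw [hA]
    simp [ha', hq0, hr0]
    field_simp
    ring
  · have ha' : lform (fun j => f j (z, w)) a = 0 := ha
    change lform (fun j => pl k (r j z) w) _ = 0
    rw [hA] at ha'
    simpa [hr0] using ha'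
  · simp only [add_apply, ContinuousLinearMap.id_apply, ContinuousLinearMap.smulRight_apply,
      sub_apply, smul_apply, ContinuousLinearMap.proj_apply, map_add, map_smul, hq0, smul_eq_mul,
      Pi.single_eq_same]
    match_scalars
    · rfl
    · field_simp
      ring

theorem ocAt_all : ∀ (n : ℕ) (V : Type) [NormedAddCommGroup V] [NormedSpace ℂ V]
    [FiniteDimensional ℂ V], Module.finrank ℂ V = n → ∀ x₀ : V, OCAt ℂ x₀ := by
  intro n
  induction n using Nat.strong_induction_on with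
  | _ n IH =>
  intro V _ _ _ hn x₀ W _ _ _ A hA
  by_cases h0 : ∃ a, A x₀ a ≠ 0
  · obtain ⟨a₀, ha₀⟩ := h0
    have h1 := hA.app (Hol.const a₀ _)
    have h2 := h1.self_of_nhds.continuousAt.eventually_ne ha₀
    have h3 : Hol (fun y => (A y a₀)⁻¹) (𝓝 x₀) := by
      filter_upwards [h1, h2] with p h1 h2 using h1.inv h2
    refine (LocFG.top x₀).transfer (M := fun _ => ContinuousLinearMap.id ℂ W)
      (N := fun y => ContinuousLinearMap.id ℂ W - ((A y a₀)⁻¹ • A y).smulRight a₀) (Hol.const _ _)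
      (Hol.clm_of_apply fun a => (Hol.const a _).sub
        ((h3.smul (hA.app (Hol.const a _))).smul (Hol.const _ _))) ?_
    filter_upwards [h2] with y hy
    refine ⟨fun a _ => ?_, fun a ha => ⟨trivial, ?_⟩⟩
    · change A y _ = 0
      simp
      field_simp
      ring
    · have : A y a = 0 := ha
      simp [this]
  by_cases hB : ∃ v, ¬ ∀ᶠ t in 𝓝 (0 : ℂ), A (x₀ + t • v) = 0
  · obtain ⟨v, hv⟩ := hB
    have hv0 : v ≠ 0 := by
      rintro rfl
      push Not at h0
      exact hv (Eventually.of_forall fun t => by ext a; simp [h0])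
    obtain ⟨V', _, _, _, hdim, e, he⟩ := exists_split hv0
    let b := Module.finBasis ℂ W
    let E := b.equivFun.toContinuousLinearEquiv
    have hb : ∀ y a, lform (fun j => A y (b j)) (E a) = A y a := fun y a => by
      conv_rhs => rw [← b.sum_repr a, map_sum]
      simp [lform_apply, E, mul_comm]
    obtain ⟨j₀, hj₀⟩ : ∃ j, ¬ ∀ᶠ t in 𝓝 (0 : ℂ), A (x₀ + t • v) (b j) = 0 := by
      by_contra hcon
      push Not at hcon
      refine hv ((Filter.eventually_all.mpr hcon).mono fun t ht => ?_)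
      ext a
      rw [← hb, lform_apply]
      simp [ht]
    have h1 := LocFG.transport (R := fun y => (lform fun j => A y (b j)).ker)
      (e := fun p => x₀ + e p) (e' := fun x => e.symm (x - x₀)) (y₀ := 0) (by fun_prop)
      (by fun_prop) (by simp) (by simp)
      (locFG_main (j₀ := j₀) (f := fun j p => A (x₀ + e p) (b j))
        (fun k => (IH _ (by omega) V' rfl 0).all _)
        (fun j => Hol.comp (f := fun y => A y (b j)) (by simpa using hA.app (Hol.const _ _))
          (Hol.of_diff (by fun_prop) _)) (by simpa [he] using hj₀))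
    simp only [map_zero, add_zero] at h1
    refine h1.transfer (M := fun _ => (E : W →L[ℂ] _)) (N := fun _ => (E.symm : _ →L[ℂ] W))
      (Hol.const _ _) (Hol.const _ _) (Eventually.of_forall fun y => ⟨fun a ha => ?_, fun a ha =>
        ⟨(hb y a).trans ha, by simp⟩⟩)
    change A y (E.symm a) = 0
    rw [← hb, E.apply_symm_apply]
    exact ha
  · push Not at hB
    obtain ⟨U, hU, hx, hd⟩ := hA.exists_open
    obtain ⟨r, hr, hball⟩ := Metric.isOpen_iff.mp hU x₀ hx
    refine (LocFG.top x₀).congr ?_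
    filter_upwards [ball_mem_nhds x₀ hr] with y hy a
    simp [eq_zero_of_lines (hd.mono hball) hB y hy]

/-- Oka's coherence theorem. -/
theorem oka_coherence [FiniteDimensional ℂ V] [FiniteDimensional ℂ W] [FiniteDimensional ℂ W']
    {A : V → W →L[ℂ] W'} {x : V} (hA : Hol A (𝓝 x)) : LocFG (fun y => (A y).ker) x :=
  (ocAt_all _ V rfl x).all W' W A hA

end Pool.Agent.P.MP_e711b0_an
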