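import Pool.Agent.P.MP_e711b0_an.Basic

/-! Runge approximation on compact convex sets. -/

namespace Pool.Agent.P.MP_e711b0_an

open Set Filter Metric Topology

set_option linter.unusedSectionVars false

variable {V W : Type*} [NormedAddCommGroup V] [NormedSpace ℂ V] [NormedAddCommGroup W]
  [NormedSpace ℂ W] [CompleteSpace W]

theorem differentiable_taylor_term {f : V → W} {z₀ : V} (hf : Hol f (𝓝 z₀)) (n : ℕ) :
    Differentiable ℂ fun x => iteratedDeriv n (fun t : ℂ => f (z₀ + t • (x - z₀))) 0 := by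
  intro x₁
  obtain ⟨r, hr, hball⟩ := Metric.mem_nhds_iff.mp hf
  set ρ : ℝ := r / (‖x₁ - z₀‖ + 2) with hρ
  have hρ0 : 0 < ρ := by positivity
  have hin : ∀ x ∈ ball x₁ 1, ∀ ζ ∈ closedBall (0 : ℂ) ρ,
      DifferentiableAt ℂ f (z₀ + ζ • (x - z₀)) := by
    intro x hx ζ hζ
    apply hball
    rw [mem_ball, dist_eq_norm, add_sub_cancel_left, norm_smul]
    have h1 : ‖x - z₀‖ < ‖x₁ - z₀‖ + 1 := by
      have h2 : ‖x - x₁‖ < 1 := by simpa [dist_eq_norm] using hx
      have h3 := norm_add_le (x - x₁) (x₁ - z₀)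
      rw [sub_add_sub_cancel] at h3
      linarith
    have h2 : ‖ζ‖ ≤ ρ := by simpa using hζ
    have h3 : ρ * (‖x₁ - z₀‖ + 2) = r := by rw [hρ]; field_simp
    calc ‖ζ‖ * ‖x - z₀‖ ≤ ρ * (‖x₁ - z₀‖ + 1) := by gcongr
      _ < r := by nlinarith
  have h1 := differentiableOn_circleIntegral (O := ball x₁ 1) (c := 0) (R := ρ)
    (h := fun p : V × ℂ => (1 / (p.2 - 0) ^ (n + 1)) • f (z₀ + p.2 • (p.1 - z₀))) isOpen_ball
    hρ0.le (fun x hx ζ hζ => by
      have hζ0 : ζ ≠ 0 := by
        rintro rfl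
        simp at hζ
        exact hρ0.ne hζ
      have h2 : DifferentiableAt ℂ (fun p : V × ℂ => f (z₀ + p.2 • (p.1 - z₀))) (x, ζ) :=
        (hin x hx ζ (sphere_subset_closedBall hζ)).comp (x, ζ)
          (f := fun p : V × ℂ => z₀ + p.2 • (p.1 - z₀)) (by fun_prop)
      refine DifferentiableAt.smul ?_ h2
      have h3 : ((x, ζ).2 - 0) ^ (n + 1) ≠ 0 := pow_ne_zero _ (by simpa using hζ0)
      fun_prop (disch := exact h3))
  have hc : (2 * Real.pi * Complex.I / n.factorial : ℂ) ≠ 0 :=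
    div_ne_zero Complex.two_pi_I_ne_zero (by exact_mod_cast n.factorial_ne_zero)
  have h2 := (h1.const_smul (2 * Real.pi * Complex.I / n.factorial : ℂ)⁻¹).congr
    (f₁ := fun x => iteratedDeriv n (fun t : ℂ => f (z₀ + t • (x - z₀))) 0) (fun x hx => by
      have h3 : DifferentiableOn ℂ (fun t : ℂ => f (z₀ + t • (x - z₀))) (closedBall 0 ρ) :=
        fun ζ hζ => ((hin x hx ζ hζ).comp ζ (f := fun t : ℂ => z₀ + t • (x - z₀))
          (by fun_prop)).differentiableWithinAt
      have h4 := h3.circleIntegral_one_div_sub_center_pow_smul hρ0 n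
      simp only [Pi.smul_apply]
      rw [h4, smul_smul, inv_mul_cancel₀ hc, one_smul])
  exact h2.differentiableAt (ball_mem_nhds x₁ one_pos)

/-- Runge approximation by entire maps on compact convex sets. -/
theorem runge {K : Set V} (hK : IsCompact K) (hc : Convex ℝ K) {f : V → W} (hf : Hol f (𝓝ˢ K))
    {ε : ℝ} (hε : 0 < ε) : ∃ g : V → W, Differentiable ℂ g ∧ ∀ x ∈ K, ‖g x - f x‖ ≤ ε := by
  rcases K.eq_empty_or_nonempty with rfl | ⟨z₀, hz₀⟩
  · exact ⟨0, differentiable_const _, by simp⟩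
  have : CompactSpace K := isCompact_iff_compactSpace.mp hK
  obtain ⟨U, hUo, hKU, hU⟩ := mem_nhdsSet_iff_exists.mp hf
  set N : Set ℂ := {t | ∀ x ∈ K, z₀ + t • (x - z₀) ∈ U} with hN
  have hNo : IsOpen N := by
    rw [isOpen_iff_mem_nhds]
    intro t ht
    refine hK.eventually_forall_of_forall_eventually (P := fun t x => z₀ + t • (x - z₀) ∈ U)
      fun x hx => ?_
    have h1 : Continuous fun p : ℂ × V => z₀ + p.1 • (p.2 - z₀) := by fun_prop
    exact h1.continuousAt.eventually (hUo.mem_nhds (ht x hx))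
  set s : Set ℂ := (fun t : ℝ => (t : ℂ)) '' Icc 0 1 with hs
  have hsN : s ⊆ N := by
    rintro _ ⟨t, ht, rfl⟩ x hx
    apply hKU
    have := hc.add_smul_sub_mem hz₀ hx ht
    simpa using this
  have hsp : IsPreconnected s := isPreconnected_Icc.image _ (by fun_prop)
  set G : ℂ → C(K, W) := fun t =>
    ContinuousMap.mkD (fun x : K => f (z₀ + t • ((x : V) - z₀))) 0 with hG
  have hGc : ContinuousOn (fun p : ℂ × K => f (z₀ + p.1 • ((p.2 : V) - z₀))) (N ×ˢ univ) := by
    intro p hp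
    have h1 : ContinuousAt f (z₀ + p.1 • ((p.2 : V) - z₀)) := (hU (hp.1 p.2 p.2.2)).continuousAt
    exact (h1.comp (f := fun p : ℂ × K => z₀ + p.1 • ((p.2 : V) - z₀))
      (by fun_prop)).continuousWithinAt
  have hGd : DifferentiableOn ℂ G N := by
    refine differentiableOn_mkD (Φ := fun t (x : K) => f (z₀ + t • ((x : V) - z₀))) hNo hGc ?_
    intro x t ht
    exact ((hU (ht x x.2)).comp t (f := fun t : ℂ => z₀ + t • ((x : V) - z₀))
      (by fun_prop)).differentiableWithinAt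
  have hGx : ∀ t ∈ N, ∀ x : K, G t x = f (z₀ + t • ((x : V) - z₀)) := fun t ht x => by
    have : ContinuousOn (fun x : K => f (z₀ + t • ((x : V) - z₀))) univ :=
      hGc.comp (f := fun x : K => (t, x)) (by fun_prop) (fun x _ => ⟨ht, trivial⟩)
    simp only [hG]
    rw [ContinuousMap.mkD_of_continuous (continuousOn_univ.mp this)]
    rfl
  let S : Submodule ℂ C(K, W) :=
    { carrier := {u | ∃ g : V → W, Differentiable ℂ g ∧ ∀ x : K, u x = g x}
      add_mem' := by
        rintro u v ⟨g, hg, hu⟩ ⟨h, hh, hv⟩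
        exact ⟨g + h, hg.add hh, fun x => by simp [hu, hv]⟩
      zero_mem' := ⟨0, differentiable_const _, fun x => rfl⟩
      smul_mem' := by
        rintro a u ⟨g, hg, hu⟩
        exact ⟨a • g, hg.const_smul a, fun x => by simp [hu]⟩ }
  set T := S.topologicalClosure with hT
  have hTc : IsClosed (T : Set C(K, W)) := S.isClosed_topologicalClosure
  have h0s : (0 : ℂ) ∈ s := ⟨0, by simp, by simp⟩
  have h1s : (1 : ℂ) ∈ s := ⟨1, by simp, by simp⟩
  have h0N : N ∈ 𝓝 (0 : ℂ) := hNo.mem_nhds (hsN h0s)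
  have hcoef : ∀ n, iteratedDeriv n G 0 ∈ S := fun n => by
    refine ⟨_, differentiable_taylor_term (z₀ := z₀) (f := f)
      (Hol.of_on hUo (hKU hz₀) fun y hy => (hU hy).differentiableWithinAt) n, fun x => ?_⟩
    have h1 : ContDiffAt ℂ n G 0 := (hGd.analyticAt h0N).contDiffAt
    have h2 := (ContinuousMap.evalCLM ℂ x).iteratedFDeriv_comp_left h1 (i := n) le_rfl
    have h3 : (ContinuousMap.evalCLM ℂ x) ∘ G =ᶠ[𝓝 0]
        fun t : ℂ => f (z₀ + t • ((x : V) - z₀)) := by
      filter_upwards [h0N] with t ht using hGx t ht x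
    rw [← h3.iteratedDeriv_eq n, iteratedDeriv_eq_iteratedFDeriv, iteratedDeriv_eq_iteratedFDeriv,
      h2]
    rfl
  have hnear : ∀ᶠ t in 𝓝 (0 : ℂ), T.mkQL (G t) = 0 := by
    obtain ⟨r, hr, hball⟩ := Metric.mem_nhds_iff.mp h0N
    filter_upwards [ball_mem_nhds (0 : ℂ) hr] with t ht
    have h1 := Complex.hasSum_taylorSeries_on_ball (hGd.mono hball) ht
    have h2 : G t ∈ T := by
      refine hTc.mem_of_tendsto h1 (Eventually.of_forall fun u => ?_)
      refine T.sum_mem fun n _ => T.smul_mem _ (T.smul_mem _ ?_)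
      exact S.le_topologicalClosure (hcoef n)
    simpa using h2
  have han : AnalyticOnNhd ℂ (fun t => T.mkQL (G t)) s := by
    have : DifferentiableOn ℂ (fun t => T.mkQL (G t)) N :=
      T.mkQL.differentiable.comp_differentiableOn hGd
    exact (this.analyticOnNhd hNo).mono hsN
  have h1 := han.eqOn_zero_of_preconnected_of_eventuallyEq_zero hsp h0s hnear h1s
  have h2' : G 1 ∈ T := by simpa using h1
  have h2 : G 1 ∈ closure (S : Set C(K, W)) := h2'
  obtain ⟨u, ⟨g, hg, hu⟩, hd⟩ := Metric.mem_closure_iff.mp h2 ε hε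
  refine ⟨g, hg, fun x hx => ?_⟩
  have h3 := (ContinuousMap.dist_apply_le_dist (f := G 1) (g := u) ⟨x, hx⟩).trans hd.le
  rw [hGx 1 (hsN h1s), hu, dist_comm, dist_eq_norm] at h3
  simpa using h3

end Pool.Agent.P.MP_e711b0_an
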