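import Pool.Agent.P.MP_e711b0_an.Rect

/-! Additive and nonlinear splitting along one complex direction. -/

namespace Pool.Agent.P.MP_e711b0_an

open Set Filter Metric Topology Complex

set_option linter.unusedSectionVars false

variable {V W : Type*} [NormedAddCommGroup V] [NormedSpace ℂ V] [NormedAddCommGroup W]
  [NormedSpace ℂ W] [CompleteSpace W]

/-- Points of `U` whose `ℓ`-coordinate has real part in `s` and imaginary part in `g`. -/
def strip (U : Set V) (ℓ : V →L[ℂ] ℂ) (s g : Set ℝ) : Set V :=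
  {x | x ∈ U ∧ (ℓ x).re ∈ s ∧ (ℓ x).im ∈ g}

theorem isOpen_strip {U : Set V} (hU : IsOpen U) (ℓ : V →L[ℂ] ℂ) {s g : Set ℝ} (hs : IsOpen s)
    (hg : IsOpen g) : IsOpen (strip U ℓ s g) :=
  hU.inter ((hs.preimage (continuous_re.comp ℓ.continuous)).inter
    (hg.preimage (continuous_im.comp ℓ.continuous)))

theorem strip_mono {U : Set V} {ℓ : V →L[ℂ] ℂ} {s g s' g' : Set ℝ} (hs : s ⊆ s') (hg : g ⊆ g') :
    strip U ℓ s g ⊆ strip U ℓ s' g' := fun _ h => ⟨h.1, hs h.2.1, hg h.2.2⟩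

/-- The weighted Cauchy operator. -/
noncomputable def TW (t0 t1 g0 g1 : ℝ) (ℓ : V →L[ℂ] ℂ) (e : V) (ω : ℝ → ℝ) (u : V → W) (x : V) : W :=
  (2 * Real.pi * I : ℂ)⁻¹ •
    RI t0 t1 g0 g1 fun ζ => (ω ζ.re : ℂ) • (ζ - ℓ x)⁻¹ • u (x + (ζ - ℓ x) • e)

section
variable {t0 t1 g0 g1 : ℝ} {ℓ : V →L[ℂ] ℂ} {e : V} {U : Set V} {u : V → W}

theorem shift_mem (he : ℓ e = 1) (hinv : ∀ x ∈ U, ∀ ζ : ℂ, x + ζ • e ∈ U) {x : V} (hx : x ∈ U)
    {ζ : ℂ} {s g : Set ℝ} (h1 : ζ.re ∈ s) (h2 : ζ.im ∈ g) :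
    x + (ζ - ℓ x) • e ∈ strip U ℓ s g := by
  have : ℓ (x + (ζ - ℓ x) • e) = ζ := by simp [he]
  exact ⟨hinv x hx _, by rwa [this], by rwa [this]⟩

theorem TW_diff (ht : t0 ≤ t1) (hg : g0 ≤ g1) (he : ℓ e = 1) (hU : IsOpen U)
    (hinv : ∀ x ∈ U, ∀ ζ : ℂ, x + ζ • e ∈ U) {ω : ℝ → ℝ} (hω : Continuous ω) {N : Set ℝ}
    (hN : IsOpen N) (hωN : ∀ r ∈ N, ω r = 0)
    (hu : ∀ x ∈ strip U ℓ (Icc t0 t1) (Icc g0 g1), DifferentiableAt ℂ u x) :
    DifferentiableOn ℂ (TW t0 t1 g0 g1 ℓ e ω u) (strip U ℓ (Ioo t0 t1 ∪ N) (Ioo g0 g1)) := by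
  have hne : ∀ x ∈ strip U ℓ (Ioo t0 t1 ∪ N) (Ioo g0 g1), ∀ ζ ∈ Bd t0 t1 g0 g1, ζ.re ∉ N →
      ζ - ℓ x ≠ 0 := by
    intro x hx ζ hζ hζN h
    have h' : ζ = ℓ x := sub_eq_zero.mp h
    rcases hx.2.1 with h1 | h1
    · exact Bd_ne h1.1 h1.2 hx.2.2.1 hx.2.2.2 hζ h'
    · exact hζN (h' ▸ h1)
  have hdu : ∀ x ∈ U, ∀ ζ ∈ Bd t0 t1 g0 g1,
      DifferentiableAt ℂ (fun p : V × ℂ => u (p.1 + (p.2 - ℓ p.1) • e)) (x, ζ) := by
    intro x hx ζ hζ
    exact (hu _ (shift_mem he hinv hx hζ.1 hζ.2.1)).comp (x, ζ)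
      (f := fun p : V × ℂ => p.1 + (p.2 - ℓ p.1) • e) (by fun_prop)
  refine DifferentiableOn.const_smul (differentiableOn_RI ht hg
    (isOpen_strip hU ℓ (isOpen_Ioo.union hN) isOpen_Ioo) ?_ ?_) _
  · rintro ⟨x, ζ⟩ ⟨hx, hζ⟩
    by_cases hζN : ζ.re ∈ N
    · refine ContinuousAt.continuousWithinAt ?_
      refine (continuousAt_const (y := (0 : W))).congr ?_
      have : ∀ᶠ p : V × ℂ in 𝓝 (x, ζ), p.2.re ∈ N :=
        (continuous_re.comp continuous_snd).continuousAt.eventually (hN.mem_nhds hζN)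
      filter_upwards [this] with p hp
      simp [hωN _ hp]
    · refine ContinuousAt.continuousWithinAt ?_
      have h1 := (hdu x hx.1 ζ hζ).continuousAt
      have h2 : ContinuousAt (fun p : V × ℂ => (p.2 - ℓ p.1)⁻¹) (x, ζ) :=
        ContinuousAt.inv₀ (by fun_prop) (hne x hx ζ hζ hζN)
      have h3 : ContinuousAt (fun p : V × ℂ => (ω p.2.re : ℂ)) (x, ζ) := by fun_prop
      exact h3.smul (h2.smul h1)
  · intro ζ hζ x hx
    by_cases hζN : ζ.re ∈ N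
    · simp only [hωN _ hζN, ofReal_zero, zero_smul]
      exact differentiableWithinAt_const _
    · have h1 : DifferentiableAt ℂ (fun x => u (x + (ζ - ℓ x) • e)) x :=
        (hdu x hx.1 ζ hζ).comp x (f := fun x : V => (x, ζ)) (by fun_prop)
      have h2 : DifferentiableAt ℂ (fun x => (ζ - ℓ x)⁻¹) x :=
        DifferentiableAt.inv (by fun_prop) (hne x hx ζ hζ hζN)
      exact ((h2.smul h1).const_smul _).differentiableWithinAt

theorem cont_aux (he : ℓ e = 1) (hinv : ∀ x ∈ U, ∀ ζ : ℂ, x + ζ • e ∈ U)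
    (hu : ∀ x ∈ strip U ℓ (Icc t0 t1) (Icc g0 g1), DifferentiableAt ℂ u x) {x : V}
    (hx : x ∈ strip U ℓ (Ioo t0 t1) (Ioo g0 g1)) {ω : ℝ → ℝ} (hω : Continuous ω) :
    ContinuousOn (fun ζ : ℂ => (ω ζ.re : ℂ) • (ζ - ℓ x)⁻¹ • u (x + (ζ - ℓ x) • e))
      (Bd t0 t1 g0 g1) := by
  intro ζ hζ
  have h1 : ContinuousAt (fun ζ : ℂ => u (x + (ζ - ℓ x) • e)) ζ :=
    (hu _ (shift_mem he hinv hx.1 hζ.1 hζ.2.1)).continuousAt.comp
      (f := fun ζ : ℂ => x + (ζ - ℓ x) • e) (by fun_prop)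
  have h2 : ContinuousAt (fun ζ : ℂ => (ζ - ℓ x)⁻¹) ζ :=
    ContinuousAt.inv₀ (by fun_prop)
      (sub_ne_zero.mpr (Bd_ne hx.2.1.1 hx.2.1.2 hx.2.2.1 hx.2.2.2 hζ))
  have h3 : ContinuousAt (fun ζ : ℂ => (ω ζ.re : ℂ)) ζ := by fun_prop
  exact (h3.smul (h2.smul h1)).continuousWithinAt

theorem TW_one (he : ℓ e = 1) (hinv : ∀ x ∈ U, ∀ ζ : ℂ, x + ζ • e ∈ U)
    (hu : ∀ x ∈ strip U ℓ (Icc t0 t1) (Icc g0 g1), DifferentiableAt ℂ u x) {x : V}
    (hx : x ∈ strip U ℓ (Ioo t0 t1) (Ioo g0 g1)) (c : ℝ) :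
    TW t0 t1 g0 g1 ℓ e (fun _ => c) u x = (c : ℂ) • u x := by
  unfold TW
  rw [RI_smul, RI_cauchy hx.2.1.1 hx.2.1.2 hx.2.2.1 hx.2.2.2
    (u := fun ζ => u (x + (ζ - ℓ x) • e))]
  · rw [smul_comm (c : ℂ), smul_smul, inv_mul_cancel₀ two_pi_I_ne_zero]
    simp
  · intro ζ hζ
    exact ((hu _ (shift_mem he hinv hx.1 hζ.1 hζ.2)).comp ζ
      (f := fun ζ : ℂ => x + (ζ - ℓ x) • e) (by fun_prop)).differentiableWithinAt

theorem TW_add (he : ℓ e = 1) (hinv : ∀ x ∈ U, ∀ ζ : ℂ, x + ζ • e ∈ U)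
    (hu : ∀ x ∈ strip U ℓ (Icc t0 t1) (Icc g0 g1), DifferentiableAt ℂ u x) {x : V}
    (hx : x ∈ strip U ℓ (Ioo t0 t1) (Ioo g0 g1)) {ω ω' : ℝ → ℝ} (hω : Continuous ω)
    (hω' : Continuous ω') :
    TW t0 t1 g0 g1 ℓ e (fun r => ω r + ω' r) u x =
      TW t0 t1 g0 g1 ℓ e ω u x + TW t0 t1 g0 g1 ℓ e ω' u x := by
  unfold TW
  rw [← smul_add, ← RI_add (hx.2.1.1.trans hx.2.1.2).le (hx.2.2.1.trans hx.2.2.2).le
    (cont_aux he hinv hu hx hω) (cont_aux he hinv hu hx hω')]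
  congr 2
  funext ζ
  rw [← add_smul]
  simp

theorem TW_lip (ht : t0 ≤ t1) (hg : g0 ≤ g1) (he : ℓ e = 1)
    (hinv : ∀ x ∈ U, ∀ ζ : ℂ, x + ζ • e ∈ U) {m L : ℝ} (hL : 0 ≤ L) (_hm : 0 ≤ m)
    (hb : ∀ x ∈ strip U ℓ (Icc t0 t1) (Icc g0 g1), ‖u x‖ ≤ m) {x : V} (hx : x ∈ U)
    {ω : ℝ → ℝ} (hω : ∀ r, |ω r| ≤ L * |r - (ℓ x).re|) :
    ‖TW t0 t1 g0 g1 ℓ e ω u x‖ ≤ ((t1 - t0) + (g1 - g0)) * L * m := by
  unfold TW
  have h1 := RI_norm_le ht hg (C := L * m)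
    (f := fun ζ => (ω ζ.re : ℂ) • (ζ - ℓ x)⁻¹ • u (x + (ζ - ℓ x) • e)) (fun ζ hζ => by
      have h2 := hb _ (shift_mem he hinv hx hζ.1 hζ.2.1)
      have h3 : ‖(ω ζ.re : ℂ)‖ * ‖(ζ - ℓ x)⁻¹‖ ≤ L := by
        rcases eq_or_ne (ζ - ℓ x) 0 with h | h
        · simp [h, hL]
        · rw [norm_inv, Complex.norm_real, Real.norm_eq_abs, ← div_eq_mul_inv,
            div_le_iff₀ (norm_pos_iff.mpr h)]
          refine (hω _).trans ?_
          gcongr
          rw [← sub_re]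
          exact abs_re_le_norm _
      rw [norm_smul, norm_smul, ← mul_assoc]
      gcongr)
  rw [norm_smul]
  have h2 : ‖(2 * Real.pi * I : ℂ)⁻¹‖ ≤ 1 / 2 := by
    rw [norm_inv, norm_mul, norm_mul, norm_I, mul_one, Complex.norm_real, Real.norm_eq_abs,
      abs_of_pos Real.pi_pos, Complex.norm_ofNat, one_div]
    refine inv_anti₀ (by norm_num) ?_
    linarith [Real.pi_gt_three]
  calc _ ≤ 1 / 2 * (2 * ((t1 - t0) + (g1 - g0)) * (L * m)) := by gcongr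
    _ = _ := by ring

theorem TW_bound (ht : t0 ≤ t1) (hg : g0 ≤ g1) (he : ℓ e = 1)
    (hinv : ∀ x ∈ U, ∀ ζ : ℂ, x + ζ • e ∈ U) {m L : ℝ} (hL : 0 ≤ L) (hm : 0 ≤ m)
    (hu : ∀ x ∈ strip U ℓ (Icc t0 t1) (Icc g0 g1), DifferentiableAt ℂ u x)
    (hb : ∀ x ∈ strip U ℓ (Icc t0 t1) (Icc g0 g1), ‖u x‖ ≤ m) {ω : ℝ → ℝ} (hω : Continuous ω)
    (hω1 : ∀ r, |ω r| ≤ 1) (hωL : ∀ r s, |ω r - ω s| ≤ L * |r - s|) {N : Set ℝ}
    (hωN : ∀ r ∈ N, ω r = 0) {x : V} (hx : x ∈ strip U ℓ (Ioo t0 t1 ∪ N) (Ioo g0 g1)) :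
    ‖TW t0 t1 g0 g1 ℓ e ω u x‖ ≤ (1 + ((t1 - t0) + (g1 - g0)) * L) * m := by
  rcases hx.2.1 with h1 | h1
  · have hx' : x ∈ strip U ℓ (Ioo t0 t1) (Ioo g0 g1) := ⟨hx.1, h1, hx.2.2⟩
    have h2 := TW_add he hinv hu hx' (ω := fun _ => ω (ℓ x).re)
      (ω' := fun r => ω r - ω (ℓ x).re) continuous_const (hω.sub continuous_const)
    simp only [add_sub_cancel] at h2
    rw [h2, TW_one he hinv hu hx']
    have h3 := TW_lip ht hg he hinv hL hm hb hx.1 (ω := fun r => ω r - ω (ℓ x).re)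
      fun r => hωL r _
    have h4 : ‖(ω (ℓ x).re : ℂ) • u x‖ ≤ m := by
      rw [norm_smul, Complex.norm_real, Real.norm_eq_abs]
      have := hb x (strip_mono Ioo_subset_Icc_self Ioo_subset_Icc_self hx')
      calc _ ≤ 1 * m := mul_le_mul (hω1 _) this (norm_nonneg _) zero_le_one
        _ = m := one_mul m
    have := norm_add_le ((ω (ℓ x).re : ℂ) • u x)
      (TW t0 t1 g0 g1 ℓ e (fun r => ω r - ω (ℓ x).re) u x)
    nlinarith
  · have h3 := TW_lip ht hg he hinv hL hm hb hx.1 (ω := ω) fun r => by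
      simpa [hωN _ h1] using hωL r (ℓ x).re
    nlinarith

theorem TW_vanish (ht : t0 ≤ t1) (hg : g0 ≤ g1) (he : ℓ e = 1)
    (hinv : ∀ x ∈ U, ∀ ζ : ℂ, x + ζ • e ∈ U) {Z : Set V}
    (hZ : ∀ x ∈ Z, ∀ ζ : ℂ, x + ζ • e ∈ Z)
    (hu : ∀ x ∈ strip U ℓ (Icc t0 t1) (Icc g0 g1), x ∈ Z → u x = 0) {x : V} (hx : x ∈ U)
    (hxZ : x ∈ Z) (ω : ℝ → ℝ) : TW t0 t1 g0 g1 ℓ e ω u x = 0 := by
  unfold TW
  rw [RI_congr ht hg (g := fun _ => (0 : ℂ) • (0 : W)) (fun ζ hζ => by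
    rw [hu _ (shift_mem he hinv hx hζ.1 hζ.2.1) (hZ x hxZ _)]
    simp), RI_smul]
  simp

/-- The cutoff function. -/
noncomputable def cut (p q r : ℝ) : ℝ := max 0 (min 1 ((q - r) / (q - p)))

theorem cut_cont (p q : ℝ) : Continuous (cut p q) := by unfold cut; fun_prop

theorem cut_nonneg (p q r : ℝ) : 0 ≤ cut p q r := le_max_left _ _

theorem cut_le_one (p q r : ℝ) : cut p q r ≤ 1 := max_le zero_le_one (min_le_left _ _)

theorem cut_zero {p q r : ℝ} (h : p < q) (hr : q < r) : cut p q r = 0 := by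
  have : (q - r) / (q - p) ≤ 0 := div_nonpos_of_nonpos_of_nonneg (by linarith) (by linarith)
  exact max_eq_left ((min_le_right _ _).trans this)

theorem cut_one {p q r : ℝ} (h : p < q) (hr : r < p) : cut p q r = 1 := by
  have : 1 ≤ (q - r) / (q - p) := by rw [le_div_iff₀ (by linarith)]; linarith
  unfold cut
  rw [min_eq_left this, max_eq_right zero_le_one]

theorem cut_lip {p q : ℝ} (h : p < q) (r s : ℝ) :
    |cut p q r - cut p q s| ≤ 1 / (q - p) * |r - s| := by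
  unfold cut
  refine (abs_max_sub_max_le_max _ _ _ _).trans ?_
  rw [sub_self, abs_zero]
  refine max_le (by have : 0 < q - p := by linarith
                    positivity) ?_
  refine (abs_min_sub_min_le_max _ _ _ _).trans ?_
  rw [sub_self, abs_zero]
  refine max_le (by have : 0 < q - p := by linarith
                    positivity) (le_of_eq ?_)
  rw [← sub_div, abs_div, abs_of_pos (by linarith : 0 < q - p), abs_sub_comm r s]
  have : q - r - (q - s) = s - r := by ring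
  rw [this]
  ring

theorem split_lin {p q : ℝ} (h0 : t0 < p) (hpq : p < q) (h1 : q < t1) (hg : g0 ≤ g1)
    (he : ℓ e = 1) (hU : IsOpen U) (hinv : ∀ x ∈ U, ∀ ζ : ℂ, x + ζ • e ∈ U) {m : ℝ} (hm : 0 ≤ m)
    (hu : ∀ x ∈ strip U ℓ (Icc t0 t1) (Icc g0 g1), DifferentiableAt ℂ u x)
    (hb : ∀ x ∈ strip U ℓ (Icc t0 t1) (Icc g0 g1), ‖u x‖ ≤ m) {Z : Set V}
    (hZ : ∀ x ∈ Z, ∀ ζ : ℂ, x + ζ • e ∈ Z)
    (huZ : ∀ x ∈ strip U ℓ (Icc t0 t1) (Icc g0 g1), x ∈ Z → u x = 0) :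
    ∃ a b : V → W, DifferentiableOn ℂ a (strip U ℓ (Iio t1) (Ioo g0 g1)) ∧
      DifferentiableOn ℂ b (strip U ℓ (Ioi t0) (Ioo g0 g1)) ∧
      (∀ x ∈ strip U ℓ (Iio t1) (Ioo g0 g1),
        ‖a x‖ ≤ (1 + ((t1 - t0) + (g1 - g0)) * (1 / (q - p))) * m) ∧
      (∀ x ∈ strip U ℓ (Ioi t0) (Ioo g0 g1),
        ‖b x‖ ≤ (1 + ((t1 - t0) + (g1 - g0)) * (1 / (q - p))) * m) ∧
      (∀ x ∈ strip U ℓ (Ioo t0 t1) (Ioo g0 g1), a x - b x = u x) ∧
      (∀ x ∈ U, x ∈ Z → a x = 0 ∧ b x = 0) := by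
  have ht : t0 ≤ t1 := by linarith
  have hL : 0 ≤ 1 / (q - p) := by
    have : 0 < q - p := by linarith
    positivity
  have s1 : Iio t1 ⊆ Ioo t0 t1 ∪ Iio p := fun r hr => by
    by_cases h : r < p
    · exact Or.inr h
    · exact Or.inl ⟨by linarith [not_lt.mp h], hr⟩
  have s2 : Ioi t0 ⊆ Ioo t0 t1 ∪ Ioi q := fun r hr => by
    by_cases h : q < r
    · exact Or.inr h
    · exact Or.inl ⟨hr, by linarith [not_lt.mp h]⟩
  have c1 : Continuous fun r => 1 - cut p q r := continuous_const.sub (cut_cont p q)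
  have z1 : ∀ r ∈ Iio p, 1 - cut p q r = 0 := fun r hr => by rw [cut_one hpq hr, sub_self]
  have z2 : ∀ r ∈ Ioi q, cut p q r = 0 := fun r hr => cut_zero hpq hr
  refine ⟨TW t0 t1 g0 g1 ℓ e (fun r => 1 - cut p q r) u,
    fun x => - TW t0 t1 g0 g1 ℓ e (cut p q) u x,
    (TW_diff ht hg he hU hinv c1 isOpen_Iio z1 hu).mono (strip_mono s1 subset_rfl),
    ((TW_diff ht hg he hU hinv (cut_cont p q) isOpen_Ioi z2 hu).mono
      (strip_mono s2 subset_rfl)).neg, fun x hx => ?_, fun x hx => ?_, fun x hx => ?_,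
    fun x hx hxZ => ?_⟩
  · refine TW_bound ht hg he hinv hL hm hu hb c1 (fun r => ?_) (fun r s => ?_) z1
      (strip_mono s1 subset_rfl hx)
    · rw [abs_le]; constructor <;> linarith [cut_nonneg p q r, cut_le_one p q r]
    · have := cut_lip hpq r s
      rwa [sub_sub_sub_cancel_left, abs_sub_comm]
  · rw [norm_neg]
    refine TW_bound ht hg he hinv hL hm hu hb (cut_cont p q) (fun r => ?_) (cut_lip hpq) z2
      (strip_mono s2 subset_rfl hx)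
    rw [abs_le]; constructor <;> linarith [cut_nonneg p q r, cut_le_one p q r]
  · rw [sub_neg_eq_add, ← TW_add he hinv hu hx c1 (cut_cont p q)]
    simp only [sub_add_cancel]
    rw [TW_one he hinv hu hx]
    simp
  · simp only [TW_vanish ht hg he hinv hZ huZ hx hxZ, neg_zero, and_self]

end

theorem exists_seq_dep {α : Type*} (P : ℕ → α → Prop) (R : ℕ → α → α → Prop) (a₀ : α)
    (h0 : P 0 a₀) (hs : ∀ n a, P n a → ∃ b, P (n + 1) b ∧ R n a b) :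
    ∃ f : ℕ → α, f 0 = a₀ ∧ ∀ n, P n (f n) ∧ R n (f n) (f (n + 1)) := by
  choose g hg using hs
  let f : (n : ℕ) → {a // P n a} := fun n =>
    Nat.rec ⟨a₀, h0⟩ (fun n a => ⟨g n a.1 a.2, (hg n a.1 a.2).1⟩) n
  exact ⟨fun n => (f n).1, rfl, fun n => ⟨(f n).2, (hg n (f n).1 (f n).2).2⟩⟩

theorem geo_limit {X : Type*} {F : ℕ → X → W} {U : Set X} {C : ℝ}
    (h : ∀ k, ∀ x ∈ U, ‖F (k + 1) x - F k x‖ ≤ C / 2 ^ k) :
    ∃ f : X → W, TendstoUniformlyOn F f atTop U := by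
  have h1 : ∀ x ∈ U, ∀ k, dist (F k x) (F (k + 1) x) ≤ 2 * C / 2 / 2 ^ k := fun x hx k => by
    rw [dist_comm, dist_eq_norm, mul_div_cancel_left₀ _ two_ne_zero]
    exact h k x hx
  refine ⟨fun x => limUnder atTop fun k => F k x, ?_⟩
  rw [Metric.tendstoUniformlyOn_iff]
  intro ε hε
  have h2 : Tendsto (fun k : ℕ => 2 * C / 2 ^ k) atTop (𝓝 0) :=
    tendsto_const_nhds.div_atTop (tendsto_pow_atTop_atTop_of_one_lt one_lt_two)
  filter_upwards [h2.eventually (gt_mem_nhds hε)] with k hk x hx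
  have h3 := dist_le_of_le_geometric_two_of_tendsto (h1 x hx)
    (cauchySeq_of_le_geometric_two (h1 x hx)).tendsto_limUnder k
  rw [dist_comm]
  exact h3.trans_lt hk

/-- Nonlinear splitting. -/
theorem split_nonlin {t0 t1 g0 g1 δ : ℝ} (hδ : 0 < δ) (ht : t0 + δ < t1 - δ)
    (hg : g0 + δ < g1 - δ) : ∃ K > 0, ∀ {V W : Type} [NormedAddCommGroup V] [NormedSpace ℂ V]
    [NormedAddCommGroup W] [NormedSpace ℂ W] [CompleteSpace W] (ℓ : V →L[ℂ] ℂ) (e : V) (U Z : Set V)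
    (η : V × W → W) (r ε : ℝ), ℓ e = 1 → IsOpen U → (∀ x ∈ U, ∀ ζ : ℂ, x + ζ • e ∈ U) →
    (∀ x ∈ Z, ∀ ζ : ℂ, x + ζ • e ∈ Z) → 0 < ε → 4 * K * ε ≤ r →
    (∀ x ∈ strip U ℓ (Ioo t0 t1) (Ioo g0 g1), ∀ b ∈ ball (0 : W) r,
      DifferentiableAt ℂ η (x, b) ∧ ‖η (x, b)‖ ≤ ε) →
    (∀ x ∈ strip U ℓ (Ioo t0 t1) (Ioo g0 g1), x ∈ Z → η (x, 0) = 0) →
    ∃ a b : V → W,
      DifferentiableOn ℂ a (strip U ℓ (Iio (t1 - δ)) (Ioo (g0 + δ) (g1 - δ))) ∧
      DifferentiableOn ℂ b (strip U ℓ (Ioi (t0 + δ)) (Ioo (g0 + δ) (g1 - δ))) ∧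
      (∀ x ∈ strip U ℓ (Iio (t1 - δ)) (Ioo (g0 + δ) (g1 - δ)),
        ‖a x‖ ≤ K * ε ∧ (x ∈ Z → a x = 0)) ∧
      (∀ x ∈ strip U ℓ (Ioi (t0 + δ)) (Ioo (g0 + δ) (g1 - δ)),
        ‖b x‖ ≤ K * ε ∧ (x ∈ Z → b x = 0)) ∧
      ∀ x ∈ strip U ℓ (Ioo (t0 + δ) (t1 - δ)) (Ioo (g0 + δ) (g1 - δ)),
        a x = b x + η (x, b x) := by
  set L : ℝ := 1 / ((t1 - δ) - (t0 + δ)) with hL
  have hL0 : 0 < L := by
    have : 0 < (t1 - δ) - (t0 + δ) := by linarith
    positivity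
  set K : ℝ := 1 + ((t1 - t0) + (g1 - g0)) * L with hK
  have hK1 : 1 ≤ K := by
    have : 0 ≤ ((t1 - t0) + (g1 - g0)) * L := mul_nonneg (by linarith) hL0.le
    linarith
  refine ⟨2 * K, by linarith, ?_⟩
  intro V W _ _ _ _ _ ℓ e U Z η r ε he hU hinv hZ hε hr hη hηZ
  have hr0 : 0 < r := by nlinarith
  set d : ℕ → ℝ := fun k => δ * (1 - 1 / 2 ^ k) with hd
  have d0 : d 0 = 0 := by simp [hd]
  have dlt : ∀ k, d k < δ := fun k => by
    have : (0 : ℝ) < 1 / 2 ^ k := by positivity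
    simp only [hd]; nlinarith
  have dmono : ∀ k, d k < d (k + 1) := fun k => by
    have h1 : (0 : ℝ) < 1 / 2 ^ k := by positivity
    have h2 : (1 : ℝ) / 2 ^ (k + 1) = 1 / 2 ^ k / 2 := by rw [pow_succ]; field_simp
    simp only [hd, h2]; nlinarith
  have dnn : ∀ k, 0 ≤ d k := fun k => by
    induction k with
    | zero => exact d0.ge
    | succ k ih => exact ih.trans (dmono k).le
  set A : ℕ → Set V := fun k => strip U ℓ (Iio (t1 - d k)) (Ioo (g0 + d k) (g1 - d k)) with hA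
  set B : ℕ → Set V := fun k => strip U ℓ (Ioi (t0 + d k)) (Ioo (g0 + d k) (g1 - d k)) with hB
  set C : ℕ → Set V := fun k =>
    strip U ℓ (Ioo (t0 + d k) (t1 - d k)) (Ioo (g0 + d k) (g1 - d k)) with hC
  have hAo : ∀ k, IsOpen (A k) := fun k => isOpen_strip hU ℓ isOpen_Iio isOpen_Ioo
  have hBo : ∀ k, IsOpen (B k) := fun k => isOpen_strip hU ℓ isOpen_Ioi isOpen_Ioo
  have hCA : ∀ k, C k ⊆ A k := fun k => strip_mono Ioo_subset_Iio_self subset_rfl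
  have hCB : ∀ k, C k ⊆ B k := fun k => strip_mono Ioo_subset_Ioi_self subset_rfl
  have hC0 : ∀ k, C k ⊆ strip U ℓ (Ioo t0 t1) (Ioo g0 g1) := fun k =>
    strip_mono (Ioo_subset_Ioo (by linarith [dnn k]) (by linarith [dnn k]))
      (Ioo_subset_Ioo (by linarith [dnn k]) (by linarith [dnn k]))
  have hA1 : ∀ k, A (k + 1) ⊆ A k := fun k =>
    strip_mono (Iio_subset_Iio (by linarith [dmono k]))
      (Ioo_subset_Ioo (by linarith [dmono k]) (by linarith [dmono k]))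
  have hB1 : ∀ k, B (k + 1) ⊆ B k := fun k =>
    strip_mono (Ioi_subset_Ioi (by linarith [dmono k]))
      (Ioo_subset_Ioo (by linarith [dmono k]) (by linarith [dmono k]))
  have hC1 : ∀ k, strip U ℓ (Icc (t0 + d (k + 1)) (t1 - d (k + 1)))
      (Icc (g0 + d (k + 1)) (g1 - d (k + 1))) ⊆ C k := fun k =>
    strip_mono (Icc_subset_Ioo (by linarith [dmono k]) (by linarith [dmono k]))
      (Icc_subset_Ioo (by linarith [dmono k]) (by linarith [dmono k]))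
  have hC2 : ∀ k, C (k + 1) ⊆ C k := fun k =>
    (strip_mono Ioo_subset_Icc_self Ioo_subset_Icc_self).trans (hC1 k)
  have hpow : ∀ k : ℕ, (0 : ℝ) < 1 / 2 ^ k := fun k => by positivity
  have hKε : 0 < K * ε := by positivity
  have hKr : 8 * (K * ε) ≤ r := by linarith
  obtain ⟨f, -, hf⟩ := exists_seq_dep
    (fun k (p : (V → W) × (V → W)) => DifferentiableOn ℂ p.1 (A k) ∧ DifferentiableOn ℂ p.2 (B k) ∧
      (∀ x ∈ A k, ‖p.1 x‖ ≤ 2 * (K * ε) * (1 - 1 / 2 ^ k) ∧ (x ∈ Z → p.1 x = 0)) ∧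
      (∀ x ∈ B k, ‖p.2 x‖ ≤ 2 * (K * ε) * (1 - 1 / 2 ^ k) ∧ (x ∈ Z → p.2 x = 0)) ∧
      ∀ x ∈ C k, ‖η (x, p.2 x) - p.1 x + p.2 x‖ ≤ ε * (1 / 2 ^ k))
    (fun k p q => (∀ x ∈ A (k + 1), ‖q.1 x - p.1 x‖ ≤ K * ε / 2 ^ k) ∧
      ∀ x ∈ B (k + 1), ‖q.2 x - p.2 x‖ ≤ K * ε / 2 ^ k) (0, 0)
    ⟨differentiableOn_const _, differentiableOn_const _, by simp, by simp, fun x hx => by
      simpa using (hη x (hC0 0 hx) 0 (mem_ball_self hr0)).2⟩
    (by
      rintro k ⟨a, b⟩ ⟨ha, hb, hab, hbb, hres⟩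
      simp only at ha hb hab hbb hres
      have hbr : ∀ x ∈ B k, ‖b x‖ ≤ r / 4 := fun x hx => by
        have := (hbb x hx).1
        nlinarith [hpow k]
      have hbball : ∀ x ∈ B k, b x ∈ ball (0 : W) r := fun x hx => by
        rw [mem_ball_zero_iff]; linarith [hbr x hx]
      obtain ⟨a', b', ha', hb', hab', hbb', heq, hz⟩ := split_lin (W := W)
        (t0 := t0 + d (k + 1)) (t1 := t1 - d (k + 1)) (g0 := g0 + d (k + 1))
        (g1 := g1 - d (k + 1)) (p := t0 + δ) (q := t1 - δ)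
        (u := fun x => η (x, b x) - a x + b x) (by linarith [dlt (k + 1)]) ht
        (by linarith [dlt (k + 1)]) (by linarith [dlt (k + 1)]) he hU hinv
        (m := ε * (1 / 2 ^ k)) (by positivity)
        (fun x hx => by
          have hx' := hC1 k hx
          have h1 := hb.differentiableAt ((hBo k).mem_nhds (hCB k hx'))
          have h2 := ha.differentiableAt ((hAo k).mem_nhds (hCA k hx'))
          have h3 : DifferentiableAt ℂ (fun x => η (x, b x)) x :=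
            (hη x (hC0 k hx') _ (hbball x (hCB k hx'))).1.comp x
              (f := fun x => (x, b x)) (differentiableAt_id.prodMk h1)
          exact (h3.sub h2).add h1)
        (fun x hx => hres x (hC1 k hx)) hZ
        (fun x hx hxZ => by
          have hx' := hC1 k hx
          rw [(hab x (hCA k hx')).2 hxZ, (hbb x (hCB k hx')).2 hxZ, hηZ x (hC0 k hx') hxZ]
          simp)
      have hKK : (1 + ((t1 - d (k + 1) - (t0 + d (k + 1))) + (g1 - d (k + 1) - (g0 + d (k + 1)))) *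
          (1 / (t1 - δ - (t0 + δ)))) * (ε * (1 / 2 ^ k)) ≤ K * ε / 2 ^ k := by
        have h1 : K * ε / 2 ^ k = K * (ε * (1 / 2 ^ k)) := by ring
        rw [h1]
        gcongr
        rw [hK]
        have := dnn (k + 1)
        nlinarith
      have hp2 : (1 : ℝ) / 2 ^ (k + 1) = 1 / 2 ^ k / 2 := by rw [pow_succ]; field_simp
      have hq : K * ε / 2 ^ k = K * ε * (1 / 2 ^ k) := by ring
      refine ⟨(fun x => a x + a' x, fun x => b x + b' x), ⟨(ha.mono (hA1 k)).add ha',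
        (hb.mono (hB1 k)).add hb', fun x hx => ⟨?_, fun hxZ => ?_⟩, fun x hx => ⟨?_, fun hxZ => ?_⟩,
        fun x hx => ?_⟩, fun x hx => ?_, fun x hx => ?_⟩
      · have h1 := (hab x (hA1 k hx)).1
        have h2 := (hab' x hx).trans hKK
        have := norm_add_le (a x) (a' x)
        simp only
        rw [hp2]; rw [hq] at h2; nlinarith
      · simp [(hab x (hA1 k hx)).2 hxZ, (hz x hx.1 hxZ).1]
      · have h1 := (hbb x (hB1 k hx)).1
        have h2 := (hbb' x hx).trans hKK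
        have := norm_add_le (b x) (b' x)
        simp only
        rw [hp2]; rw [hq] at h2; nlinarith
      · simp [(hbb x (hB1 k hx)).2 hxZ, (hz x hx.1 hxZ).2]
      · have h1 := heq x hx
        have h2 : η (x, b x + b' x) - (a x + a' x) + (b x + b' x) =
            η (x, b x + b' x) - η (x, b x) := by
          have : a' x = η (x, b x) - a x + b x + b' x := by rw [← h1]; abel
          rw [this]; abel
        simp only
        rw [h2]
        have hx' := hC2 k hx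
        have h3 := (hbb' x (hCB _ hx)).trans hKK
        have hb4 := hbr x (hCB k hx')
        have hsub : ball (b x) (r / 2) ⊆ ball 0 r := by
          apply ball_subset_ball'
          rw [dist_zero_right]; linarith
        have h5 : 1 / (2 : ℝ) ^ k ≤ 1 := by
          rw [div_le_one (by positivity)]; exact one_le_pow₀ one_le_two
        have h4 := sub_bound (f := fun w => η (x, w)) (c := b x) (z := b x + b' x) (r := r / 2)
          (M := ε) (fun w hw => ((hη x (hC0 k hx') w (hsub hw)).1.comp w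
            (f := fun w => (x, w)) (by fun_prop)).differentiableWithinAt)
          (fun w hw => (hη x (hC0 k hx') w (hsub hw)).2)
          (by rw [mem_ball, dist_eq_norm, add_sub_cancel_left]; rw [hq] at h3; nlinarith)
        rw [add_sub_cancel_left] at h4
        refine h4.trans ?_
        rw [hp2]
        rw [hq] at h3
        have h6 : 2 * ε / (r / 2) * (K * ε) ≤ ε / 2 := by
          rw [div_mul_eq_mul_div, div_le_iff₀ (by positivity)]
          nlinarith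
        calc 2 * ε / (r / 2) * ‖b' x‖ ≤ 2 * ε / (r / 2) * (K * ε * (1 / 2 ^ k)) := by gcongr
          _ = 2 * ε / (r / 2) * (K * ε) * (1 / 2 ^ k) := by ring
          _ ≤ ε / 2 * (1 / 2 ^ k) := by gcongr
          _ = _ := by ring
      · simpa using (hab' x hx).trans hKK
      · simpa using (hbb' x hx).trans hKK)
  have hAi : ∀ k, strip U ℓ (Iio (t1 - δ)) (Ioo (g0 + δ) (g1 - δ)) ⊆ A k := fun k =>
    strip_mono (Iio_subset_Iio (by linarith [dlt k]))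
      (Ioo_subset_Ioo (by linarith [dlt k]) (by linarith [dlt k]))
  have hBi : ∀ k, strip U ℓ (Ioi (t0 + δ)) (Ioo (g0 + δ) (g1 - δ)) ⊆ B k := fun k =>
    strip_mono (Ioi_subset_Ioi (by linarith [dlt k]))
      (Ioo_subset_Ioo (by linarith [dlt k]) (by linarith [dlt k]))
  have hCi : ∀ k, strip U ℓ (Ioo (t0 + δ) (t1 - δ)) (Ioo (g0 + δ) (g1 - δ)) ⊆ C k := fun k =>
    strip_mono (Ioo_subset_Ioo (by linarith [dlt k]) (by linarith [dlt k]))
      (Ioo_subset_Ioo (by linarith [dlt k]) (by linarith [dlt k]))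
  obtain ⟨a, ha⟩ := geo_limit (F := fun k => (f k).1) (C := K * ε)
    fun k x hx => (hf k).2.1 x (hAi _ hx)
  obtain ⟨b, hb⟩ := geo_limit (F := fun k => (f k).2) (C := K * ε)
    fun k x hx => (hf k).2.2 x (hBi _ hx)
  have hbn : ∀ x ∈ strip U ℓ (Ioi (t0 + δ)) (Ioo (g0 + δ) (g1 - δ)), ‖b x‖ ≤ 2 * K * ε :=
    fun x hx => le_of_tendsto' (hb.tendsto_at hx).norm fun k => by
      have := ((hf k).1.2.2.2.1 x (hBi k hx)).1
      nlinarith [hpow k]
  refine ⟨a, b, differentiableOn_of_tendsto (isOpen_strip hU ℓ isOpen_Iio isOpen_Ioo)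
    (fun k => (hf k).1.1.mono (hAi k)) ha,
    differentiableOn_of_tendsto (isOpen_strip hU ℓ isOpen_Ioi isOpen_Ioo)
    (fun k => (hf k).1.2.1.mono (hBi k)) hb, fun x hx => ⟨?_, fun hxZ => ?_⟩,
    fun x hx => ⟨hbn x hx, fun hxZ => ?_⟩, fun x hx => ?_⟩
  · refine le_of_tendsto' (ha.tendsto_at hx).norm fun k => ?_
    have := ((hf k).1.2.2.1 x (hAi k hx)).1
    nlinarith [hpow k]
  · refine tendsto_nhds_unique (ha.tendsto_at hx) ?_
    simp only [fun k => ((hf k).1.2.2.1 x (hAi k hx)).2 hxZ]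
    exact tendsto_const_nhds
  · refine tendsto_nhds_unique (hb.tendsto_at hx) ?_
    simp only [fun k => ((hf k).1.2.2.2.1 x (hBi k hx)).2 hxZ]
    exact tendsto_const_nhds
  · have hxa := strip_mono Ioo_subset_Iio_self subset_rfl hx
    have hxb := strip_mono Ioo_subset_Ioi_self subset_rfl hx
    have h1 := ha.tendsto_at hxa
    have h2 := hb.tendsto_at hxb
    have h3 : ContinuousAt η (x, b x) :=
      (hη x (hC0 0 (hCi 0 hx)) _ (by
        rw [mem_ball_zero_iff]; nlinarith [hbn x hxb])).1.continuousAt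
    have h4 := ((h3.tendsto.comp (tendsto_const_nhds.prodMk_nhds h2)).sub h1).add h2
    have h5 : Tendsto (fun k : ℕ => ε * (1 / 2 ^ k)) atTop (𝓝 (ε * 0)) :=
      (tendsto_const_nhds.div_atTop (tendsto_pow_atTop_atTop_of_one_lt one_lt_two)).const_mul ε
    have h6 := le_of_tendsto_of_tendsto' h4.norm h5 fun k => (hf k).1.2.2.2.2 x (hCi k hx)
    rw [mul_zero, norm_le_zero_iff] at h6
    have : a x = b x + η (x, b x) - (η (x, b x) - a x + b x) := by abel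
    rw [this, h6, sub_zero]

end Pool.Agent.P.MP_e711b0_an
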