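import Pool.Agent.P.MP_e711b0_an.Coh
import Pool.Agent.P.MP_e711b0_an.Split
import Pool.Agent.P.MP_e711b0_an.Runge

/-! Cuboids and Oka's syzygy theorem on cuboids. -/

namespace Pool.Agent.P.MP_e711b0_an

open Set Filter Metric Topology Complex

set_option linter.unusedSectionVars false

variable {V V' W W' Λ : Type} [NormedAddCommGroup V] [NormedSpace ℂ V] [NormedAddCommGroup V']
  [NormedSpace ℂ V'] [NormedAddCommGroup W] [NormedSpace ℂ W] [NormedAddCommGroup W']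
  [NormedSpace ℂ W'] [NormedAddCommGroup Λ] [NormedSpace ℂ Λ]

theorem real_ind {P : ℝ → ℝ → Prop} {a b : ℝ} (hab : a ≤ b)
    (loc : ∀ t ∈ Icc a b, ∃ δ > 0, ∀ u v, a ≤ u → u ≤ v → v ≤ b → t - δ < u → v < t + δ → P u v)
    (merge : ∀ u v w, a ≤ u → u ≤ v → v ≤ w → w ≤ b → P u v → P v w → P u w) : P a b := by
  set S := {v | v ∈ Icc a b ∧ P a v} with hS
  have ha : a ∈ S := by
    obtain ⟨δ, hδ, h⟩ := loc a ⟨le_rfl, hab⟩
    exact ⟨⟨le_rfl, hab⟩, h a a le_rfl le_rfl hab (by linarith) (by linarith)⟩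
  have hbd : BddAbove S := ⟨b, fun v hv => hv.1.2⟩
  have ht : sSup S ∈ Icc a b := ⟨le_csSup hbd ha, csSup_le ⟨a, ha⟩ fun v hv => hv.1.2⟩
  obtain ⟨δ, hδ, h⟩ := loc _ ht
  obtain ⟨u, hu, hu'⟩ := exists_lt_of_lt_csSup ⟨a, ha⟩ (show sSup S - δ < sSup S by linarith)
  have hut := le_csSup hbd hu
  have huv : u ≤ min b (sSup S + δ / 2) := le_min hu.1.2 (by linarith)
  have hv : min b (sSup S + δ / 2) ∈ S := ⟨⟨hu.1.1.trans huv, min_le_left _ _⟩,
    merge a u _ le_rfl hu.1.1 huv (min_le_left _ _) hu.2 (h u _ hu.1.1 huv (min_le_left _ _) hu'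
      ((min_le_right _ _).trans_lt (by linarith)))⟩
  have := le_csSup hbd hv
  rcases le_total b (sSup S + δ / 2) with h1 | h1
  · simpa [min_eq_left h1] using hv.2
  · rw [min_eq_right h1] at this
    linarith

theorem glue {X α : Type*} [TopologicalSpace X] {f g : X → α} {u : X → ℝ} (hu : Continuous u)
    {t : ℝ} {x : X} (hx : u x = t → ∀ᶠ y in 𝓝 x, f y = g y) :
    (u x ≤ t → ∀ᶠ y in 𝓝 x, (if u y ≤ t then f y else g y) = f y) ∧
      (t ≤ u x → ∀ᶠ y in 𝓝 x, (if u y ≤ t then f y else g y) = g y) := by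
  constructor
  · intro h
    rcases h.lt_or_eq with h | h
    · filter_upwards [hu.continuousAt.eventually_lt continuousAt_const h] with y hy
      rw [if_pos hy.le]
    · filter_upwards [hx h] with y hy
      simp [hy]
  · intro h
    rcases h.lt_or_eq with h | h
    · filter_upwards [continuousAt_const.eventually_lt hu.continuousAt h] with y hy
      rw [if_neg (not_le.mpr hy)]
    · filter_upwards [hx h.symm] with y hy
      simp [hy]

/-- A cylinder over `E₀` in the direction `e`. -/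
def cyl (E₀ : Set V) (ℓ : V →L[ℂ] ℂ) (e : V) (s g : Set ℝ) : Set V :=
  strip {x | x - ℓ x • e ∈ E₀} ℓ s g

theorem mem_cyl {E₀ : Set V} {ℓ : V →L[ℂ] ℂ} {e x : V} {s g : Set ℝ} :
    x ∈ cyl E₀ ℓ e s g ↔ x - ℓ x • e ∈ E₀ ∧ (ℓ x).re ∈ s ∧ (ℓ x).im ∈ g := Iff.rfl

theorem cyl_mono {E₀ E₁ : Set V} {ℓ : V →L[ℂ] ℂ} {e : V} {s g s' g' : Set ℝ} (h : E₀ ⊆ E₁)
    (hs : s ⊆ s') (hg : g ⊆ g') : cyl E₀ ℓ e s g ⊆ cyl E₁ ℓ e s' g' :=
  fun _ hx => ⟨h hx.1, hs hx.2.1, hg hx.2.2⟩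

theorem cyl_compact {E₀ : Set V} (h : IsCompact E₀) (ℓ : V →L[ℂ] ℂ) (e : V) (a b g0 g1 : ℝ) :
    IsCompact (cyl E₀ ℓ e (Icc a b) (Icc g0 g1)) := by
  have h1 := (h.prod (isCompact_Icc.reProdIm isCompact_Icc : IsCompact (Icc a b ×ℂ Icc g0 g1))).image
    (f := fun p : V × ℂ => p.1 + p.2 • e) (by fun_prop)
  refine h1.of_isClosed_subset ?_ fun x hx => ⟨(x - ℓ x • e, ℓ x), ⟨hx.1, hx.2⟩, by simp⟩
  exact (h.isClosed.preimage (f := fun x => x - ℓ x • e) (by fun_prop)).inter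
    ((isClosed_Icc.preimage (f := fun x => (ℓ x).re) (by fun_prop)).inter
      (isClosed_Icc.preimage (f := fun x => (ℓ x).im) (by fun_prop)))

theorem cyl_convex {E₀ : Set V} (h : Convex ℝ E₀) (ℓ : V →L[ℂ] ℂ) (e : V) {s g : Set ℝ}
    (hs : Convex ℝ s) (hg : Convex ℝ g) : Convex ℝ (cyl E₀ ℓ e s g) := by
  refine (h.is_linear_preimage (f := fun x => x - ℓ x • e) ⟨fun x y => ?_, fun c x => ?_⟩).inter
    ((hs.is_linear_preimage (f := fun x => (ℓ x).re) ⟨by simp, by simp⟩).inter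
      (hg.is_linear_preimage (f := fun x => (ℓ x).im) ⟨by simp, by simp⟩))
  · simp only [map_add, add_smul]
    abel
  · simp only [ContinuousLinearMap.map_smul_of_tower, smul_sub, smul_assoc]

theorem cyl_inv {E₀ : Set V} {ℓ : V →L[ℂ] ℂ} {e : V} (he : ℓ e = 1) :
    ∀ x ∈ {x | x - ℓ x • e ∈ E₀}, ∀ ζ : ℂ, x + ζ • e ∈ {x | x - ℓ x • e ∈ E₀} := fun x hx ζ => by
  have : x + ζ • e - ℓ (x + ζ • e) • e = x - ℓ x • e := by
    simp [he, add_smul]
  simpa only [mem_ofPred_eq, this] using hx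

theorem cyl_thick [FiniteDimensional ℂ V] {E₀ : Set V} (h : IsCompact E₀) {ℓ : V →L[ℂ] ℂ} {e : V}
    {a b g0 g1 : ℝ} {P : V → Prop} (hP : ∀ x ∈ cyl E₀ ℓ e (Icc a b) (Icc g0 g1), ∀ᶠ y in 𝓝 x, P y) :
    ∃ δ > 0, ∀ x ∈ cyl (cthickening δ E₀) ℓ e (Icc (a - δ) (b + δ)) (Icc (g0 - δ) (g1 + δ)),
      P x := by
  have : ProperSpace V := FiniteDimensional.proper ℂ V
  have : Nonempty {δ : ℝ // 0 < δ} := ⟨⟨1, one_pos⟩⟩
  have hm : ∀ δ δ' : ℝ, δ ≤ δ' →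
      cyl (cthickening δ E₀) ℓ e (Icc (a - δ) (b + δ)) (Icc (g0 - δ) (g1 + δ)) ⊆
      cyl (cthickening δ' E₀) ℓ e (Icc (a - δ') (b + δ')) (Icc (g0 - δ') (g1 + δ')) :=
    fun δ δ' hδ => cyl_mono (cthickening_mono hδ _) (Icc_subset_Icc (by linarith) (by linarith))
      (Icc_subset_Icc (by linarith) (by linarith))
  obtain ⟨δ, hδ⟩ := exists_subset_nhds_of_isCompact (V := fun δ : {δ : ℝ // 0 < δ} =>
    cyl (cthickening δ E₀) ℓ e (Icc (a - δ) (b + δ)) (Icc (g0 - δ) (g1 + δ)))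
    (fun δ δ' => ⟨⟨min δ δ', lt_min δ.2 δ'.2⟩, hm _ _ (min_le_left _ _), hm _ _ (min_le_right _ _)⟩)
    (fun δ => cyl_compact h.cthickening _ _ _ _ _ _) (U := {y | P y}) fun x hx => hP x (by
      simp only [mem_iInter, Subtype.forall] at hx
      refine ⟨?_, ⟨le_of_forall_pos_le_add fun δ hδ => ?_, le_of_forall_pos_le_add fun δ hδ => ?_⟩,
        ⟨le_of_forall_pos_le_add fun δ hδ => ?_, le_of_forall_pos_le_add fun δ hδ => ?_⟩⟩
      · rw [mem_ofPred_eq, ← h.isClosed.closure_eq, closure_eq_iInter_cthickening]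
        simp only [mem_iInter]
        exact fun δ hδ => (hx δ hδ).1
      · linarith [(hx δ hδ).2.1.1]
      · exact (hx δ hδ).2.1.2
      · linarith [(hx δ hδ).2.2.1]
      · exact (hx δ hδ).2.2.2)
  exact ⟨δ, δ.2, fun x hx => hδ hx⟩

/-- Cuboids, described by successive sweeps. -/
inductive Cub : Set V → Prop
  | sub {E : Set V} : E.Subsingleton → Cub E
  | step (ℓ : V →L[ℂ] ℂ) (e : V) (E₀ : Set V) (a b g0 g1 : ℝ) : ℓ e = 1 → IsCompact E₀ →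
      Convex ℝ E₀ → a ≤ b → g0 ≤ g1 → (∀ t, t ∈ Icc a b → Cub (cyl E₀ ℓ e (Icc t t) (Icc g0 g1))) →
      Cub (cyl E₀ ℓ e (Icc a b) (Icc g0 g1))

theorem Cub.isCompact {E : Set V} (h : Cub E) : IsCompact E := by
  cases h with
  | sub h => exact h.finite.isCompact
  | step ℓ e E₀ a b g0 g1 _ h _ _ _ _ => exact cyl_compact h _ _ _ _ _ _

theorem Cub.convex {E : Set V} (h : Cub E) : Convex ℝ E := by
  cases h with
  | sub h => exact h.convex
  | step ℓ e E₀ a b g0 g1 _ _ h _ _ _ => exact cyl_convex h _ _ (convex_Icc _ _) (convex_Icc _ _)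

theorem Cub.prod_single {E : Set V} (h : Cub E) {P : Set V'} (hP : P.Subsingleton) :
    Cub (E ×ˢ P) := by
  have key : ∀ (ℓ : V →L[ℂ] ℂ) (e : V) (E₀ : Set V) (s g : Set ℝ), cyl E₀ ℓ e s g ×ˢ P =
      cyl (E₀ ×ˢ P) (ℓ.comp (ContinuousLinearMap.fst ℂ V V')) (e, 0) s g := fun ℓ e E₀ s g => by
    ext x
    simp [mem_cyl]
    tauto
  induction h with
  | sub h => exact Cub.sub (h.prod hP)
  | step ℓ e E₀ a b g0 g1 h1 h2 h3 h4 h5 _ ih =>
    rw [key]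
    exact Cub.step _ _ _ _ _ _ _ (by simpa using h1) (h2.prod hP.finite.isCompact)
      (h3.prod hP.convex) h4 h5 fun t ht => key ℓ e E₀ _ _ ▸ ih t ht

theorem Cub.prod {E : Set V} (h : Cub E) {P : Set V'} (hP : Cub P) : Cub (E ×ˢ P) := by
  have key : ∀ (ℓ : V' →L[ℂ] ℂ) (e : V') (E₀ : Set V') (s g : Set ℝ), E ×ˢ cyl E₀ ℓ e s g =
      cyl (E ×ˢ E₀) (ℓ.comp (ContinuousLinearMap.snd ℂ V V')) (0, e) s g := fun ℓ e E₀ s g => by
    ext x
    simp [mem_cyl]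
    tauto
  induction hP with
  | sub hP => exact h.prod_single hP
  | step ℓ e E₀ a b g0 g1 h1 h2 h3 h4 h5 _ ih =>
    rw [key]
    exact Cub.step _ _ _ _ _ _ _ (by simpa using h1) (h.isCompact.prod h2)
      (h.convex.prod h3) h4 h5 fun t ht => key ℓ e E₀ _ _ ▸ ih t ht

theorem cub_rect {a b g0 g1 : ℝ} (hab : a ≤ b) (hg : g0 ≤ g1) : Cub (Icc a b ×ℂ Icc g0 g1) := by
  have k1 : ∀ s g : Set ℝ, s ×ℂ g = cyl {0} (ContinuousLinearMap.id ℂ ℂ) 1 s g := fun s g => by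
    ext x
    simp [mem_cyl, mem_reProdIm]
  have k2 : ∀ (t : ℝ) (g : Set ℝ), cyl {0} (ContinuousLinearMap.id ℂ ℂ) 1 (Icc t t) g =
      cyl {0} (-I • ContinuousLinearMap.id ℂ ℂ) I g (Icc (-t) (-t)) := fun t g => by
    ext x
    have : x + I * x * I = 0 := by
      rw [mul_comm I x, mul_assoc, I_mul_I]; ring
    simp [mem_cyl, this]
    tauto
  rw [k1]
  refine Cub.step _ _ _ _ _ _ _ rfl isCompact_singleton (convex_singleton _) hab hg fun t _ => ?_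
  rw [k2]
  refine Cub.step _ _ _ _ _ _ _ (by simp) isCompact_singleton (convex_singleton _) hg le_rfl
    fun u _ => Cub.sub fun x hx y hy => ?_
  rw [← k2] at hx hy
  simp only [mem_cyl, Icc_self, mem_singleton_iff, ContinuousLinearMap.id_apply] at hx hy
  exact Complex.ext (hx.2.1.trans hy.2.1.symm) (hx.2.2.trans hy.2.2.symm)

theorem GenNear.ev {R : V → Submodule ℂ W} {S : V → Λ →L[ℂ] W} {x : V} (h : GenNear R S x) :
    ∀ᶠ y in 𝓝 x, GenNear R S y :=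
  (h.1.eventually_nhds.and h.2.eventually_nhds).mono fun _ hy => hy

theorem GenNear.of_comp {R : V → Submodule ℂ W} {S : V → Λ →L[ℂ] W} {S' : V → W' →L[ℂ] W} {x : V}
    (h : GenNear R S x) {B : V → W' →L[ℂ] Λ} {L : V → Λ →L[ℂ] W'} (hB : Hol B (𝓝 x))
    (hL : Hol L (𝓝 x)) (hS' : ∀ᶠ y in 𝓝 x, S' y = (S y).comp (B y))
    (hBL : ∀ᶠ y in 𝓝 x, ∀ c, B y (L y c) = c) : GenNear R S' x := by
  refine ⟨(h.1.ccomp hB).congr (hS'.mono fun y hy => hy.symm), ?_⟩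
  filter_upwards [h.2, hL.eventually_nhds, hS'.eventually_nhds, hBL.eventually_nhds] with
    y h1 h2 h3 h4
  refine ⟨fun c => by rw [h3.self_of_nhds]; exact h1.1 _, fun a ha haR => ?_⟩
  obtain ⟨c, hc, hc'⟩ := h1.2 a ha haR
  refine ⟨fun z => L z (c z), Hol.app h2 hc, ?_⟩
  filter_upwards [hc', h3, h4] with z h5 h6 h7
  simp [h6, h7, h5]

theorem hol_inv [CompleteSpace W] {a : V → W →L[ℂ] W} {x : V} (ha : Hol a (𝓝 x)) (h : ‖a x‖ < 1) :
    ∃ L : V → W →L[ℂ] W, Hol L (𝓝 x) ∧ ∀ᶠ y in 𝓝 x, ∀ v, L y v + a y (L y v) = v := by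
  have h1 : ∀ᶠ y in 𝓝 x, IsUnit (1 + a y) := by
    filter_upwards [ha.tendsto.norm.eventually (eventually_lt_nhds h)] with y hy
    have := (Units.oneSub (-a y) (by simpa using hy)).isUnit
    rwa [Units.val_oneSub, sub_neg_eq_add] at this
  refine ⟨fun y => Ring.inverse (1 + a y), ?_, ?_⟩
  · filter_upwards [ha, h1] with y h2 h3 using (h2.const_add 1).inverse h3
  · filter_upwards [h1] with y hy v
    have := congrArg (fun T : W →L[ℂ] W => T v) (Ring.mul_inverse_cancel _ hy)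
    simpa using this

theorem exists_op [FiniteDimensional ℂ Λ] {X F : Type} [NormedAddCommGroup F] [NormedSpace ℂ F]
    {J : X → W →L[ℂ] F} {u : X → Λ →L[ℂ] F} {ι : X → V} {l : Filter V} {l' : Filter X}
    (h : ∀ v, ∃ σ : V → W, Hol σ l ∧ ∀ᶠ x in l', J x (σ (ι x)) = u x v) :
    ∃ L : V → Λ →L[ℂ] W, Hol L l ∧ ∀ᶠ x in l', ∀ v, J x (L (ι x) v) = u x v := by
  choose σ h1 h2 using h
  let b := Module.finBasis ℂ Λ
  refine ⟨fun y => ∑ i, (LinearMap.toContinuousLinearMap (b.coord i)).smulRight (σ (b i) y),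
    Hol.clm_of_apply fun v => ?_, ?_⟩
  · filter_upwards [Filter.eventually_all.mpr fun i => h1 (b i)] with y hy
    simp only [sum_apply, ContinuousLinearMap.smulRight_apply]
    exact DifferentiableAt.fun_sum fun i _ => (hy i).const_smul _
  · filter_upwards [Filter.eventually_all.mpr fun i => h2 (b i)] with y hy v
    conv_rhs => rw [← b.sum_repr v, map_sum]
    simp [hy]

/-- Global generators on `E`. -/
def Syz1 (E : Set V) : Prop :=
  ∀ (W : Type) [NormedAddCommGroup W] [NormedSpace ℂ W] [FiniteDimensional ℂ W]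
    (R : V → Submodule ℂ W), (∀ x ∈ E, LocFG R x) →
    ∃ (Λ : Type) (_ : NormedAddCommGroup Λ) (_ : NormedSpace ℂ Λ) (_ : FiniteDimensional ℂ Λ)
      (S : V → Λ →L[ℂ] W), ∀ x ∈ E, GenNear R S x

/-- Global sections of torsors on `E`. -/
def Syz3 (E : Set V) : Prop :=
  ∀ (W : Type) [NormedAddCommGroup W] [NormedSpace ℂ W] [FiniteDimensional ℂ W]
    (R : V → Submodule ℂ W) (T : V → Set W), (∀ x ∈ E, LocFG R x) →
    (∀ x, ∀ u ∈ T x, ∀ v, v ∈ T x ↔ v - u ∈ R x) →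
    (∀ x ∈ E, ∃ σ : V → W, Hol σ (𝓝 x) ∧ ∀ᶠ y in 𝓝 x, σ y ∈ T y) →
    ∃ σ : V → W, ∀ x ∈ E, Hol σ (𝓝 x) ∧ ∀ᶠ y in 𝓝 x, σ y ∈ T y

variable [FiniteDimensional ℂ V] [FiniteDimensional ℂ W] [FiniteDimensional ℂ W']
  [FiniteDimensional ℂ Λ]

theorem Syz3.solve {E : Set V} (h : Syz3 E) {J : V → Λ →L[ℂ] W} {u : V → W}
    (hJ : ∀ x ∈ E, Hol J (𝓝 x))
    (hloc : ∀ x ∈ E, ∃ σ : V → Λ, Hol σ (𝓝 x) ∧ ∀ᶠ y in 𝓝 x, J y (σ y) = u y) :
    ∃ σ : V → Λ, Hol σ (𝓝ˢ E) ∧ ∀ᶠ y in 𝓝ˢ E, J y (σ y) = u y := by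
  obtain ⟨σ, hσ⟩ := h Λ (fun y => (J y).ker) (fun y => {c | J y c = u y})
    (fun x hx => oka_coherence (hJ x hx)) (fun x c hc v => by
      simp only [mem_ofPred_eq] at hc
      simp [hc, sub_eq_zero]) hloc
  exact ⟨σ, eventually_nhdsSet_iff_forall.mpr fun x hx => (hσ x hx).1,
    eventually_nhdsSet_iff_forall.mpr fun x hx => (hσ x hx).2⟩

theorem Syz3.factor {E : Set V} (h : Syz3 E) {R : V → Submodule ℂ W} {S : V → Λ →L[ℂ] W}
    {S' : V → W' →L[ℂ] W} (hS : ∀ x ∈ E, GenNear R S x) (hS' : ∀ x ∈ E, GenNear R S' x) :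
    ∃ L : V → W' →L[ℂ] Λ, ∀ x ∈ E, ∀ᶠ y in 𝓝 x, Hol L (𝓝 y) ∧ ∀ v, S y (L y v) = S' y v := by
  obtain ⟨L, h1, h2⟩ := exists_op (J := S) (u := S') (ι := id) (l := 𝓝ˢ E) (l' := 𝓝ˢ E) fun v =>
    h.solve (fun x hx => (hS x hx).1) fun x hx => (hS x hx).2.self_of_nhds.2 _
      ((hS' x hx).1.app (Hol.const v _)) ((hS' x hx).2.mono fun y hy => hy.1 v)
  exact ⟨L, fun x hx => (eventually_nhdsSet_iff_forall.mp h1 x hx).eventually_nhds.and
    (eventually_nhdsSet_iff_forall.mp h2 x hx)⟩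

section merge
variable {ℓ : V →L[ℂ] ℂ} {e : V} {E₀ : Set V} {a t b g0 g1 : ℝ}

theorem isOpen_base (δ : ℝ) : IsOpen {x | x - ℓ x • e ∈ thickening δ E₀} :=
  isOpen_thickening.preimage (f := fun x => x - ℓ x • e) (by fun_prop)

theorem merge1 (he : ℓ e = 1) (hE : IsCompact E₀) (hc : Convex ℝ E₀) (hg : g0 ≤ g1) (hat : a ≤ t)
    (htb : t ≤ b) (h3 : Syz3 (cyl E₀ ℓ e (Icc t t) (Icc g0 g1))) {R : V → Submodule ℂ W}
    {S' : V → Λ →L[ℂ] W} {S'' : V → W' →L[ℂ] W}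
    (h' : ∀ x ∈ cyl E₀ ℓ e (Icc a t) (Icc g0 g1), GenNear R S' x)
    (h'' : ∀ x ∈ cyl E₀ ℓ e (Icc t b) (Icc g0 g1), GenNear R S'' x) :
    ∃ S : V → (Λ × W') →L[ℂ] W, ∀ x ∈ cyl E₀ ℓ e (Icc a b) (Icc g0 g1), GenNear R S x := by
  have : ProperSpace V := FiniteDimensional.proper ℂ V
  have : CompleteSpace Λ := FiniteDimensional.complete ℂ Λ
  have : CompleteSpace W' := FiniteDimensional.complete ℂ W'
  have k' := fun x hx => h' x (cyl_mono subset_rfl (Icc_subset_Icc hat le_rfl) subset_rfl hx)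
  have k'' := fun x hx => h'' x (cyl_mono subset_rfl (Icc_subset_Icc le_rfl htb) subset_rfl hx)
  obtain ⟨L', hL'⟩ := h3.factor k' k''
  obtain ⟨L'', hL''⟩ := h3.factor k'' k'
  obtain ⟨δ, hδ, hQ⟩ := cyl_thick hE fun x hx => (hL' x hx).and (hL'' x hx)
  set Q := cyl (cthickening δ E₀) ℓ e (Icc (t - δ) (t + δ)) (Icc (g0 - δ) (g1 + δ)) with hQd
  have hQc : IsCompact Q := cyl_compact hE.cthickening _ _ _ _ _ _
  obtain ⟨K, hK, hsplit⟩ := split_nonlin (t0 := t - δ) (t1 := t + δ) (g0 := g0 - δ) (g1 := g1 + δ)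
    (half_pos hδ) (by linarith) (by linarith)
  obtain ⟨C, hC⟩ := hQc.exists_bound_of_continuousOn (f := L') fun x hx =>
    (hQ x hx).1.1.self_of_nhds.continuousAt.continuousWithinAt
  set ε := 1 / (8 * K) with hε
  have hε0 : 0 < ε := by positivity
  set ρ := ε / (3 * (|C| + 1)) with hρ
  have hρ0 : 0 < ρ := by positivity
  obtain ⟨L, hL, hLL⟩ := runge hQc (cyl_convex (hc.cthickening δ) _ _ (convex_Icc _ _)
    (convex_Icc _ _)) (f := L'') (eventually_nhdsSet_iff_forall.mpr fun x hx => (hQ x hx).2.1) hρ0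
  set B : V → (Λ × W') →L[ℂ] W' := fun x => (L x).comp (ContinuousLinearMap.fst ℂ Λ W') +
    (ρ : ℂ) • ContinuousLinearMap.snd ℂ Λ W' with hB
  set η : V → (Λ × W') →L[ℂ] (Λ × W') := fun x => (ContinuousLinearMap.inl ℂ Λ W').comp
    ((L' x).comp (B x - (L'' x).comp (ContinuousLinearMap.fst ℂ Λ W'))) with hη
  have hBd : Differentiable ℂ B := (hL.clm_comp (differentiable_const _)).add_const _
  have hsub : strip {x | x - ℓ x • e ∈ thickening δ E₀} ℓ (Ioo (t - δ) (t + δ))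
      (Ioo (g0 - δ) (g1 + δ)) ⊆ Q :=
    cyl_mono (thickening_subset_cthickening _ _) Ioo_subset_Icc_self Ioo_subset_Icc_self
  have hηb : ∀ x ∈ Q, ‖η x‖ ≤ 2 * ε / 3 := fun x hx => by
    refine ContinuousLinearMap.opNorm_le_bound _ (by positivity) fun v => ?_
    have e1 : ‖η x v‖ = ‖L' x ((L x - L'' x) v.1 + (ρ : ℂ) • v.2)‖ := by
      simp only [hη, hB, ContinuousLinearMap.comp_apply, ContinuousLinearMap.inl_apply,
        Prod.norm_mk, norm_zero, sub_apply, add_apply, smul_apply, ContinuousLinearMap.coe_fst',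
        ContinuousLinearMap.coe_snd', max_eq_left (norm_nonneg _)]
      congr 2
      abel
    have e2 : ‖(L x - L'' x) v.1 + (ρ : ℂ) • v.2‖ ≤ 2 * ρ * ‖v‖ := by
      refine (norm_add_le _ _).trans ?_
      have h1 := ((L x - L'' x).le_opNorm v.1).trans
        (mul_le_mul (hLL x hx) (norm_fst_le v) (norm_nonneg _) hρ0.le)
      have h2 : ‖(ρ : ℂ) • v.2‖ ≤ ρ * ‖v‖ := by
        rw [norm_smul, Complex.norm_real, Real.norm_of_nonneg hρ0.le]
        exact mul_le_mul_of_nonneg_left (norm_snd_le v) hρ0.le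
      linarith
    rw [e1]
    refine ((L' x).le_opNorm _).trans ((mul_le_mul ((hC x hx).trans
      ((le_abs_self C).trans (le_add_of_nonneg_right zero_le_one))) e2 (norm_nonneg _)
      (by positivity)).trans (le_of_eq ?_))
    rw [hρ]
    field_simp
  obtain ⟨p, q, hp, hq, hpb, hqb, hpq⟩ := hsplit ℓ e {x | x - ℓ x • e ∈ thickening δ E₀} ∅
    (fun z : V × ((Λ × W') →L[ℂ] (Λ × W')) => (η z.1).comp (1 + z.2)) (1 / 2) ε he (isOpen_base δ)
    (cyl_inv he) (by simp) hε0 (by rw [hε]; field_simp; norm_num) (fun x hx b hb => by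
      have h1 := hQ x (hsub hx)
      have h2 : DifferentiableAt ℂ η x := (differentiableAt_const _).clm_comp
        (h1.1.1.self_of_nhds.clm_comp ((hBd x).sub
          (h1.2.1.self_of_nhds.clm_comp (differentiableAt_const _))))
      refine ⟨(DifferentiableAt.comp (g := η) (x, b) h2 differentiableAt_fst).clm_comp
        (differentiableAt_snd.const_add _), ?_⟩
      have h3 : ‖1 + b‖ ≤ 3 / 2 := by
        refine (norm_add_le _ _).trans ?_
        have h4 : ‖(1 : (Λ × W') →L[ℂ] (Λ × W'))‖ ≤ 1 := ContinuousLinearMap.norm_id_le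
        have h5 : ‖b‖ < 1 / 2 := by simpa using hb
        linarith
      refine (ContinuousLinearMap.opNorm_comp_le _ _).trans
        ((mul_le_mul (hηb x (hsub hx)) h3 (norm_nonneg _) (by positivity)).trans (le_of_eq ?_))
      ring) (by simp)
  have hKε : K * ε < 1 := by rw [hε]; field_simp; norm_num
  refine ⟨fun x => if (ℓ x).re ≤ t then
    (S' x).comp ((ContinuousLinearMap.fst ℂ Λ W').comp (1 + p x)) else
    (S'' x).comp ((B x).comp (1 + q x)), fun x hx => ?_⟩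
  have hx0 : x - ℓ x • e ∈ thickening δ E₀ := self_subset_thickening hδ _ hx.1
  have hxg : (ℓ x).im ∈ Ioo (g0 - δ + δ / 2) (g1 + δ - δ / 2) :=
    ⟨by linarith [hx.2.2.1], by linarith [hx.2.2.2]⟩
  have hgl := glue (u := fun x => (ℓ x).re) (by fun_prop) (t := t) (x := x)
    (f := fun x => (S' x).comp ((ContinuousLinearMap.fst ℂ Λ W').comp (1 + p x)))
    (g := fun x => (S'' x).comp ((B x).comp (1 + q x))) fun hxt => by
      filter_upwards [(isOpen_strip (isOpen_base δ) ℓ isOpen_Ioo isOpen_Ioo).mem_nhds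
        (show x ∈ strip _ ℓ (Ioo (t - δ + δ / 2) (t + δ - δ / 2)) _ from
          ⟨hx0, ⟨by linarith, by linarith⟩, hxg⟩)] with y hy
      have h1 := hQ y (hsub (strip_mono (Ioo_subset_Ioo (by linarith) (by linarith))
        (Ioo_subset_Ioo (by linarith) (by linarith)) hy))
      refine ContinuousLinearMap.ext fun v => ?_
      rw [hpq y hy]
      simp [hη, h1.1.2, h1.2.2]
      abel
  rcases le_total (ℓ x).re t with hxt | hxt
  · have hm : x ∈ strip {x | x - ℓ x • e ∈ thickening δ E₀} ℓ (Iio (t + δ - δ / 2)) _ :=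
      ⟨hx0, show (ℓ x).re < _ by linarith, hxg⟩
    have hpH := Hol.of_on (isOpen_strip (isOpen_base δ) ℓ isOpen_Iio isOpen_Ioo) hm hp
    obtain ⟨M, hM, hM'⟩ := hol_inv hpH ((hpb x hm).1.trans_lt hKε)
    refine (h' x ⟨hx.1, ⟨hx.2.1.1, hxt⟩, hx.2.2⟩).of_comp
      (L := fun y => (M y).comp (ContinuousLinearMap.inl ℂ Λ W'))
      ((Hol.const _ _).ccomp ((Hol.const 1 _).add hpH)) (hM.ccomp (Hol.const _ _)) (hgl.1 hxt) ?_
    filter_upwards [hM'] with y hy c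
    simpa using congrArg Prod.fst (hy (c, 0))
  · have hm : x ∈ strip {x | x - ℓ x • e ∈ thickening δ E₀} ℓ (Ioi (t - δ + δ / 2)) _ :=
      ⟨hx0, show _ < (ℓ x).re by linarith, hxg⟩
    have hqH := Hol.of_on (isOpen_strip (isOpen_base δ) ℓ isOpen_Ioi isOpen_Ioo) hm hq
    obtain ⟨M, hM, hM'⟩ := hol_inv hqH ((hqb x hm).1.trans_lt hKε)
    refine (h'' x ⟨hx.1, ⟨hxt, hx.2.1.2⟩, hx.2.2⟩).of_comp
      (L := fun y => (M y).comp ((ρ : ℂ)⁻¹ • ContinuousLinearMap.inr ℂ Λ W'))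
      ((Hol.of_diff hBd _).ccomp ((Hol.const 1 _).add hqH)) (hM.ccomp (Hol.const _ _))
      (hgl.2 hxt) ?_
    filter_upwards [hM'] with y hy c
    have h1 : (ρ : ℂ) ≠ 0 := by exact_mod_cast hρ0.ne'
    have h2 := hy ((ρ : ℂ)⁻¹ • (0, c))
    simp only [ContinuousLinearMap.comp_apply, add_apply, one_apply_eq_self, smul_apply,
      ContinuousLinearMap.inr_apply, h2]
    simp [hB, smul_smul, h1]

theorem merge3 (he : ℓ e = 1) (hE : IsCompact E₀) (hg : g0 ≤ g1) (hat : a ≤ t)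
    (htb : t ≤ b) (h3 : Syz3 (cyl E₀ ℓ e (Icc t t) (Icc g0 g1))) {R : V → Submodule ℂ W}
    {T : V → Set W} (hT : ∀ x, ∀ u ∈ T x, ∀ v, v ∈ T x ↔ v - u ∈ R x) {S : V → Λ →L[ℂ] W}
    (hS : ∀ x ∈ cyl E₀ ℓ e (Icc a b) (Icc g0 g1), GenNear R S x) {σ' σ'' : V → W}
    (h' : ∀ x ∈ cyl E₀ ℓ e (Icc a t) (Icc g0 g1), Hol σ' (𝓝 x) ∧ ∀ᶠ y in 𝓝 x, σ' y ∈ T y)
    (h'' : ∀ x ∈ cyl E₀ ℓ e (Icc t b) (Icc g0 g1), Hol σ'' (𝓝 x) ∧ ∀ᶠ y in 𝓝 x, σ'' y ∈ T y) :
    ∃ σ : V → W, ∀ x ∈ cyl E₀ ℓ e (Icc a b) (Icc g0 g1), Hol σ (𝓝 x) ∧ ∀ᶠ y in 𝓝 x, σ y ∈ T y := by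
  have : ProperSpace V := FiniteDimensional.proper ℂ V
  have : CompleteSpace Λ := FiniteDimensional.complete ℂ Λ
  have k := fun x hx => hS x (cyl_mono subset_rfl (Icc_subset_Icc hat htb) subset_rfl hx)
  have k' := fun x hx => h' x (cyl_mono subset_rfl (Icc_subset_Icc hat le_rfl) subset_rfl hx)
  have k'' := fun x hx => h'' x (cyl_mono subset_rfl (Icc_subset_Icc le_rfl htb) subset_rfl hx)
  obtain ⟨c, hc, hc'⟩ := h3.solve (J := S) (u := fun y => σ' y - σ'' y) (fun x hx => (k x hx).1)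
    fun x hx => (k x hx).2.self_of_nhds.2 _ ((k' x hx).1.sub (k'' x hx).1) (by
      filter_upwards [(k' x hx).2, (k'' x hx).2] with y h1 h2 using (hT y _ h2 _).1 h1)
  obtain ⟨δ, hδ, hQ⟩ := cyl_thick hE (eventually_nhdsSet_iff_forall.mp (hc.and hc'))
  set Q := cyl (cthickening δ E₀) ℓ e (Icc (t - δ) (t + δ)) (Icc (g0 - δ) (g1 + δ)) with hQd
  have hQc : IsCompact Q := cyl_compact hE.cthickening _ _ _ _ _ _
  obtain ⟨C, hC⟩ := hQc.exists_bound_of_continuousOn (f := c) fun x hx =>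
    (hQ x hx).1.continuousAt.continuousWithinAt
  have hsub : strip {x | x - ℓ x • e ∈ thickening δ E₀} ℓ (Icc (t - δ) (t + δ))
      (Icc (g0 - δ) (g1 + δ)) ⊆ Q :=
    cyl_mono (thickening_subset_cthickening _ _) subset_rfl subset_rfl
  obtain ⟨p, q, hp, hq, -, -, hpq, -⟩ := split_lin (t0 := t - δ) (t1 := t + δ) (g0 := g0 - δ)
    (g1 := g1 + δ) (p := t - δ / 2) (q := t + δ / 2) (u := c) (by linarith) (by linarith)
    (by linarith) (by linarith) he (isOpen_base δ) (cyl_inv he) (abs_nonneg C)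
    (fun x hx => (hQ x (hsub hx)).1) (fun x hx => (hC x (hsub hx)).trans (le_abs_self C))
    (Z := ∅) (by simp) (by simp)
  refine ⟨fun x => if (ℓ x).re ≤ t then σ' x - S x (p x) else σ'' x - S x (q x), fun x hx => ?_⟩
  have hx0 : x - ℓ x • e ∈ thickening δ E₀ := self_subset_thickening hδ _ hx.1
  have hxg : (ℓ x).im ∈ Ioo (g0 - δ) (g1 + δ) := ⟨by linarith [hx.2.2.1], by linarith [hx.2.2.2]⟩
  have hgl := glue (u := fun x => (ℓ x).re) (by fun_prop) (t := t) (x := x)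
    (f := fun x => σ' x - S x (p x)) (g := fun x => σ'' x - S x (q x)) fun hxt => by
      filter_upwards [(isOpen_strip (isOpen_base δ) ℓ isOpen_Ioo isOpen_Ioo).mem_nhds
        (show x ∈ strip _ ℓ (Ioo (t - δ) (t + δ)) _ from
          ⟨hx0, ⟨by linarith, by linarith⟩, hxg⟩)] with y hy
      have h1 := (hQ y (hsub (strip_mono Ioo_subset_Icc_self Ioo_subset_Icc_self hy))).2
      rw [← hpq y hy, map_sub] at h1
      rw [sub_eq_sub_iff_sub_eq_sub, h1]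
  have fin : ∀ (σ : V → W) (r : V → Λ) (τ : V → W), (Hol σ (𝓝 x) ∧ ∀ᶠ y in 𝓝 x, σ y ∈ T y) →
      Hol r (𝓝 x) → (∀ᶠ y in 𝓝 x, τ y = σ y - S y (r y)) →
      Hol τ (𝓝 x) ∧ ∀ᶠ y in 𝓝 x, τ y ∈ T y := fun σ r τ h1 h2 h3 => by
    refine ⟨(h1.1.sub ((hS x hx).1.app h2)).congr (h3.mono fun y hy => hy.symm), ?_⟩
    filter_upwards [h1.2, h3, (hS x hx).2] with y h4 h5 h6
    rw [hT y _ h4, h5]
    simpa using h6.1 (r y)
  rcases le_total (ℓ x).re t with hxt | hxt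
  · exact fin σ' p _ (h' x ⟨hx.1, ⟨hx.2.1.1, hxt⟩, hx.2.2⟩)
      (Hol.of_on (isOpen_strip (isOpen_base δ) ℓ isOpen_Iio isOpen_Ioo)
        ⟨hx0, show (ℓ x).re < _ by linarith, hxg⟩ hp) (hgl.1 hxt)
  · exact fin σ'' q _ (h'' x ⟨hx.1, ⟨hxt, hx.2.1.2⟩, hx.2.2⟩)
      (Hol.of_on (isOpen_strip (isOpen_base δ) ℓ isOpen_Ioi isOpen_Ioo)
        ⟨hx0, show _ < (ℓ x).re by linarith, hxg⟩ hq) (hgl.2 hxt)

theorem cyl_loc (hE : IsCompact E₀) {P : V → Prop}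
    (hP : ∀ x ∈ cyl E₀ ℓ e (Icc t t) (Icc g0 g1), ∀ᶠ y in 𝓝 x, P y) :
    ∃ δ > 0, ∀ u v, t - δ < u → v < t + δ → ∀ x ∈ cyl E₀ ℓ e (Icc u v) (Icc g0 g1), P x := by
  obtain ⟨δ, hδ, h⟩ := cyl_thick hE hP
  exact ⟨δ, hδ, fun u v hu hv x hx => h x (cyl_mono (self_subset_cthickening _)
    (Icc_subset_Icc hu.le hv.le) (Icc_subset_Icc (by linarith) (by linarith)) hx)⟩

end merge

/-- Oka's syzygy theorem. -/
theorem Cub.syz {E : Set V} (h : Cub E) : Syz1 E ∧ Syz3 E := by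
  induction h with
  | sub h =>
    rcases h.eq_empty_or_singleton with rfl | ⟨x, rfl⟩
    · exact ⟨fun W _ _ _ R _ => ⟨ℂ, _, _, inferInstance, fun _ => 0, by simp⟩,
        fun W _ _ _ R T _ _ _ => ⟨fun _ => 0, by simp⟩⟩
    · exact ⟨fun W _ _ _ R h => by simpa [LocFG] using h x rfl,
        fun W _ _ _ R T _ _ h => by simpa using h x rfl⟩
  | step ℓ e E₀ a b g0 g1 he hE hc hab hg _ ih =>
    have hsub : ∀ u v, a ≤ u → v ≤ b →
        cyl E₀ ℓ e (Icc u v) (Icc g0 g1) ⊆ cyl E₀ ℓ e (Icc a b) (Icc g0 g1) :=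
      fun u v hu hv => cyl_mono subset_rfl (Icc_subset_Icc hu hv) subset_rfl
    have h1 : Syz1 (cyl E₀ ℓ e (Icc a b) (Icc g0 g1)) := fun W _ _ _ R hR => by
      refine real_ind (P := fun u v => ∃ (Λ : Type) (_ : NormedAddCommGroup Λ) (_ : NormedSpace ℂ Λ)
        (_ : FiniteDimensional ℂ Λ) (S : V → Λ →L[ℂ] W),
        ∀ x ∈ cyl E₀ ℓ e (Icc u v) (Icc g0 g1), GenNear R S x) hab (fun t ht => ?_) ?_
      · obtain ⟨Λ, _, _, _, S, hS⟩ := (ih t ht).1 W R fun x hx => hR x (hsub t t ht.1 ht.2 hx)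
        obtain ⟨δ, hδ, h⟩ := cyl_loc hE fun x hx => (hS x hx).ev
        exact ⟨δ, hδ, fun u v _ _ _ hu hv => ⟨Λ, _, _, inferInstance, S, h u v hu hv⟩⟩
      · rintro u v w hu huv hvw hw ⟨Λ, _, _, _, S, hS⟩ ⟨Λ', _, _, _, S', hS'⟩
        exact ⟨Λ × Λ', _, _, inferInstance,
          merge1 he hE hc hg huv hvw (ih v ⟨hu.trans huv, hvw.trans hw⟩).2 hS hS'⟩
    refine ⟨h1, fun W _ _ _ R T hR hT hloc => ?_⟩
    obtain ⟨Λ, _, _, _, S, hS⟩ := h1 W R hR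
    refine real_ind (P := fun u v => ∃ σ : V → W, ∀ x ∈ cyl E₀ ℓ e (Icc u v) (Icc g0 g1),
      Hol σ (𝓝 x) ∧ ∀ᶠ y in 𝓝 x, σ y ∈ T y) hab (fun t ht => ?_) ?_
    · obtain ⟨σ, hσ⟩ := (ih t ht).2 W R T (fun x hx => hR x (hsub t t ht.1 ht.2 hx)) hT
        fun x hx => hloc x (hsub t t ht.1 ht.2 hx)
      obtain ⟨δ, hδ, h⟩ := cyl_loc hE fun x hx =>
        (hσ x hx).1.eventually_nhds.and (hσ x hx).2.eventually_nhds
      exact ⟨δ, hδ, fun u v _ _ _ hu hv => ⟨σ, h u v hu hv⟩⟩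
    · rintro u v w hu huv hvw hw ⟨σ, hσ⟩ ⟨σ', hσ'⟩
      exact merge3 he hE hg huv hvw (ih v ⟨hu.trans huv, hvw.trans hw⟩).2 hT
        (fun x hx => hS x (hsub u w hu hw hx)) hσ hσ'

end Pool.Agent.P.MP_e711b0_an
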