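import Pool.Agent.P.MP_e711b0_an.Cap

/-! The base and the fibre of an Oka bundle are Oka. -/

namespace Pool.Agent.P.MP_e711b0_an

open Set Filter Metric Topology Complex
open scoped Manifold

set_option linter.unusedSectionVars false

variable {V : Type} [NormedAddCommGroup V] [InnerProductSpace ℂ V] [FiniteDimensional ℂ V]

variable (V) in
/-- The convex approximation property for maps from `V`. -/
def CAP (F : Type) [NormedAddCommGroup F] [NormedSpace ℂ F] (M : Type) [TopologicalSpace M]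
    [ChartedSpace F M] : Prop :=
  ∀ (K U : Set V) (f : V → M) (W : Set (V × M)), IsCompact K → Convex ℝ K → IsOpen U → K ⊆ U →
    MDifferentiableOn 𝓘(ℂ, V) 𝓘(ℂ, F) f U → IsOpen W → (∀ z ∈ K, (z, f z) ∈ W) →
    ∃ g : V → M, MDifferentiable 𝓘(ℂ, V) 𝓘(ℂ, F) g ∧ ∀ z ∈ K, (z, g z) ∈ W

variable (V) in
/-- One step of the approximation. -/
def Step (F : Type) [NormedAddCommGroup F] [NormedSpace ℂ F] (M : Type) [TopologicalSpace M]
    [ChartedSpace F M] : Prop :=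
  ∀ (K K' : Set V) (f : V → M) (W : Set (V × M)), IsCompact K → Convex ℝ K → K.Nonempty →
    IsCompact K' → K ⊆ K' → (∀ z ∈ K, ∀ᶠ x in 𝓝 z, MD F f x) → IsOpen W → (∀ z ∈ K, (z, f z) ∈ W) →
    ∃ g : V → M, (∀ z ∈ K', ∀ᶠ x in 𝓝 z, MD F g x) ∧ ∀ z ∈ K, (z, g z) ∈ W

variable {F : Type} [NormedAddCommGroup F] [NormedSpace ℂ F] [FiniteDimensional ℂ F]

theorem md_of_limit {Y : Type} [MetricSpace Y] [ChartedSpace F Y] [IsManifold 𝓘(ℂ, F) 1 Y]
    {f : ℕ → V → Y} {g : V → Y} {O : Set V} (hO : IsOpen O) (hf : ∀ n, ∀ z ∈ O, MD F (f n) z)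
    (h : TendstoUniformlyOn f g atTop O) {z : V} (hz : z ∈ O) : MD F g z := by
  have : CompleteSpace F := FiniteDimensional.complete ℂ F
  have : ProperSpace F := FiniteDimensional.proper ℂ F
  have : LocallyCompactSpace Y := ChartedSpace.locallyCompactSpace F Y
  have hc : ContinuousAt g z := (h.continuousOn (Frequently.of_forall fun n x hx =>
    (hf n x hx).cont.continuousWithinAt)).continuousAt (hO.mem_nhds hz)
  obtain ⟨C, hC, hCs, hCc⟩ := local_compact_nhds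
    ((chartAt F (g z)).open_source.mem_nhds (mem_chart_source F (g z)))
  obtain ⟨r, hr, hrC⟩ := Metric.mem_nhds_iff.mp hC
  obtain ⟨N, hN, hNo, hzN⟩ := _root_.eventually_nhds_iff.mp (Eventually.and (hO.mem_nhds hz)
    (hc.eventually (ball_mem_nhds (g z) (half_pos hr))))
  obtain ⟨m, hm⟩ := eventually_atTop.mp (Metric.tendstoUniformlyOn_iff.mp h _ (half_pos hr))
  have hin : ∀ n, ∀ x ∈ N, f (n + m) x ∈ C := fun n x hx => hrC (by
    have h1 := hm (n + m) (Nat.le_add_left _ _) x (hN x hx).1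
    have h2 : dist (g x) (g z) < r / 2 := (hN x hx).2
    rw [mem_ball]
    linarith [dist_triangle_left (f (n + m) x) (g z) (g x)])
  have h1 : TendstoUniformlyOn (fun n => f (n + m)) g atTop N := fun u hu =>
    (tendsto_add_atTop_nat m).eventually ((h.mono fun x hx => (hN x hx).1) u hu)
  have h2 := differentiableOn_of_tendsto hNo
    (fun n x hx => (chart_D (hf _ x (hN x hx).1) (hCs (hin n x hx))).1.differentiableWithinAt)
    (UniformContinuousOn.comp_tendstoUniformlyOn_eventually (Eventually.of_forall hin)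
      (fun x hx => hrC (ball_subset_ball (half_le_self hr.le) (hN x hx).2))
      (hCc.uniformContinuousOn_of_continuous ((continuousOn_extChartAt (I := 𝓘(ℂ, F)) (g z)).mono
        (by simpa using hCs))) h1)
  exact mdifferentiableAt_iff_target.mpr ⟨hc, mdifferentiableAt_iff_differentiableAt.mpr
    (h2.differentiableAt (hNo.mem_nhds hzN))⟩

theorem cap_of_step_metric {Y : Type} [MetricSpace Y] [ChartedSpace F Y] [IsManifold 𝓘(ℂ, F) 1 Y]
    [Nonempty Y] (hs : Step V F Y) : CAP V F Y := by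
  have : ProperSpace F := FiniteDimensional.proper ℂ F
  have : ProperSpace V := FiniteDimensional.proper ℂ V
  have : LocallyCompactSpace Y := ChartedSpace.locallyCompactSpace F Y
  intro K U f W hK hKc hU hKU hf hW hfW
  rcases K.eq_empty_or_nonempty with rfl | hKn
  · exact ⟨fun _ => Classical.arbitrary Y, mdifferentiable_const, by simp⟩
  obtain ⟨R, hR0, hR⟩ := hK.isBounded.exists_pos_norm_le
  set Ks : ℕ → Set V := fun n => Nat.casesOn n K fun n => closedBall 0 (R + n) with hKs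
  have hKs1 : ∀ n, IsCompact (Ks n) ∧ Convex ℝ (Ks n) ∧ (Ks n).Nonempty ∧ Ks n ⊆ Ks (n + 1) := by
    rintro (_ | n)
    · exact ⟨hK, hKc, hKn, fun z hz => by simpa [hKs] using hR z hz⟩
    · exact ⟨isCompact_closedBall _ _, convex_closedBall _ _, ⟨0, mem_closedBall_self (by positivity)⟩,
        closedBall_subset_closedBall (by simp)⟩
  have hmono : ∀ n k, Ks n ⊆ Ks (n + k) := fun n k =>
    monotone_nat_of_le_succ (fun n => (hKs1 n).2.2.2) (Nat.le_add_right n k)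
  have hcth : ∀ n (f : V → Y), (∀ z ∈ Ks n, ∀ᶠ x in 𝓝 z, MD F f x) → ∀ δ > 0, ∃ δ', 0 < δ' ∧
      δ' ≤ δ ∧ IsCompact (cthickening (2 * δ') (f '' Ks n)) := fun n f hf δ hδ => by
    obtain ⟨r, hr, hc⟩ := ((hKs1 n).1.image_of_continuousOn fun z hz =>
      (hf z hz).self_of_nhds.cont.continuousWithinAt).exists_isCompact_cthickening
    exact ⟨min δ (r / 2), by positivity, min_le_left _ _, hc.of_isClosed_subset isClosed_cthickening
      (cthickening_mono (by linarith [min_le_right δ (r / 2)]) _)⟩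
  have hf0 : ∀ z ∈ Ks 0, ∀ᶠ x in 𝓝 z, MD F f x := fun z hz =>
    Filter.mem_of_superset (hU.mem_nhds (hKU hz)) fun x hx => hf.mdifferentiableAt (hU.mem_nhds hx)
  obtain ⟨r, hr, hrW⟩ := (hK.image_of_continuousOn (f := fun z => (z, f z)) fun z hz =>
    (continuousAt_id.prodMk (hf0 z hz).self_of_nhds.cont).continuousWithinAt
      ).exists_cthickening_subset_open hW (by rintro _ ⟨z, hz, rfl⟩; exact hfW z hz)
  obtain ⟨δ₀, h1, h2, h3⟩ := hcth 0 f hf0 _ (half_pos hr)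
  obtain ⟨s, hs0, hs1⟩ := exists_seq_dep (α := (V → Y) × ℝ)
    (fun n a => (∀ z ∈ Ks n, ∀ᶠ x in 𝓝 z, MD F a.1 x) ∧ 0 < a.2 ∧
      IsCompact (cthickening (2 * a.2) (a.1 '' Ks n)))
    (fun n a b => b.2 ≤ a.2 / 2 ∧ ∀ z ∈ Ks n, dist (b.1 z) (a.1 z) < a.2) (f, δ₀) ⟨hf0, h1, h3⟩ (by
      rintro n ⟨u, δ⟩ ⟨h4, h5, -⟩
      obtain ⟨g, h6, h7⟩ := hs (Ks n) (Ks (n + 1)) u
        {p | (∀ᶠ x in 𝓝 p.1, MD F u x) ∧ dist p.2 (u p.1) < δ} (hKs1 n).1 (hKs1 n).2.1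
        (hKs1 n).2.2.1 (hKs1 (n + 1)).1 (hKs1 n).2.2.2 h4 (isOpen_iff_mem_nhds.mpr fun p hp =>
          Eventually.and ((continuous_fst.tendsto p).eventually hp.1.eventually_nhds)
            ((continuousAt_snd.dist (hp.1.self_of_nhds.cont.comp continuousAt_fst)).eventually_lt
              continuousAt_const hp.2)) fun z hz => ⟨h4 z hz, by simpa using h5⟩
      obtain ⟨δ', h8, h9, h10⟩ := hcth (n + 1) g h6 _ (half_pos h5)
      exact ⟨(g, δ'), ⟨h6, h8, h10⟩, h9, fun z hz => (h7 z hz).2⟩)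
  have hd : ∀ n k, ∀ z ∈ Ks n, dist ((s (k + n)).1 z) ((s n).1 z) ≤ 2 * (s n).2 - 2 * (s (k + n)).2 :=
    fun n k z hz => by
      induction k with
      | zero => simp
      | succ k ih =>
        rw [Nat.add_right_comm]
        linarith [dist_triangle ((s (k + n + 1)).1 z) ((s (k + n)).1 z) ((s n).1 z),
          (hs1 (k + n)).2.1, (hs1 (k + n)).2.2 z (add_comm n k ▸ hmono n k hz)]
  have hd' : ∀ n k, ∀ z ∈ Ks n, dist ((s (k + n)).1 z) ((s n).1 z) ≤ 2 * (s n).2 :=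
    fun n k z hz => by linarith [hd n k z hz, (hs1 (k + n)).1.2.1]
  have hδ : Tendsto (fun n => 2 * (s n).2) atTop (𝓝 0) := by
    have h4 : ∀ n, 2 * (s n).2 ≤ 2 * δ₀ / 2 ^ n := fun n => by
      induction n with
      | zero => simp [hs0]
      | succ n ih =>
        rw [pow_succ, ← div_div]
        linarith [(hs1 n).2.1]
    exact squeeze_zero (fun n => by linarith [(hs1 n).1.2.1]) h4
      (tendsto_const_nhds.div_atTop (tendsto_pow_atTop_atTop_of_one_lt one_lt_two))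
  have hex : ∀ z : V, ∃ n : ℕ, z ∈ ball (0 : V) (R + n) := fun z => by
    obtain ⟨n, hn⟩ := exists_nat_gt ‖z‖
    exact ⟨n, by rw [mem_ball_zero_iff]; linarith⟩
  have hlim : ∀ z, ∃ y, Tendsto (fun m => (s m).1 z) atTop (𝓝 y) := fun z => by
    obtain ⟨n, hn⟩ := hex z
    have hz : z ∈ Ks (n + 1) := ball_subset_closedBall hn
    obtain ⟨y, -, hy⟩ := cauchySeq_tendsto_of_isComplete (hs1 (n + 1)).1.2.2.isComplete
      (u := fun k => (s (k + (n + 1))).1 z)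
      (fun k => mem_cthickening_of_dist_le _ _ _ _ ⟨z, hz, rfl⟩ (hd' _ k z hz))
      (Metric.cauchySeq_iff'.mpr fun ε hε => by
        obtain ⟨N, hN⟩ := (((tendsto_add_atTop_iff_nat (n + 1)).mpr hδ).eventually
          (gt_mem_nhds hε)).exists
        refine ⟨N, fun k hk => ?_⟩
        obtain ⟨j, rfl⟩ := Nat.exists_eq_add_of_le' hk
        rw [add_assoc]
        exact (hd' _ j z (add_comm (n + 1) N ▸ hmono _ N hz)).trans_lt hN)
    exact ⟨y, (tendsto_add_atTop_iff_nat _).mp hy⟩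
  choose g hg using hlim
  have hgd : ∀ n, ∀ z ∈ Ks n, dist (g z) ((s n).1 z) ≤ 2 * (s n).2 := fun n z hz =>
    le_of_tendsto' (((tendsto_add_atTop_iff_nat n).mpr (hg z)).dist tendsto_const_nhds)
      fun k => hd' n k z hz
  refine ⟨g, fun z => ?_, fun z hz => hrW (mem_cthickening_of_dist_le _ _ _ _ ⟨z, hz, rfl⟩ ?_)⟩
  · obtain ⟨n, hn⟩ := hex z
    have hsub : ∀ k, ball (0 : V) (R + n) ⊆ Ks (k + (n + 1)) := fun k =>
      ball_subset_closedBall.trans (add_comm (n + 1) k ▸ hmono (n + 1) k)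
    refine md_of_limit (F := F) (f := fun k => (s (k + (n + 1))).1) isOpen_ball
      (fun k x hx => ((hs1 _).1.1 x (hsub k hx)).self_of_nhds)
      (Metric.tendstoUniformlyOn_iff.mpr fun ε hε => ?_) hn
    filter_upwards [((tendsto_add_atTop_iff_nat (n + 1)).mpr hδ).eventually (gt_mem_nhds hε)] with
      k hk x hx using (hgd _ x (hsub k hx)).trans_lt hk
  · have := hgd 0 z hz
    rw [hs0] at this
    rw [Prod.dist_eq, dist_self]
    exact max_le hr.le (by linarith)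

theorem cap_of_step {Y : Type} [TopologicalSpace Y] [T2Space Y] [SecondCountableTopology Y]
    [ChartedSpace F Y] [IsManifold 𝓘(ℂ, F) 1 Y] [Nonempty Y] (hs : Step V F Y) : CAP V F Y := by
  have : ProperSpace F := FiniteDimensional.proper ℂ F
  have : LocallyCompactSpace Y := ChartedSpace.locallyCompactSpace F Y
  have := TopologicalSpace.metrizableSpace_of_t3_secondCountable Y
  let _ := TopologicalSpace.metrizableSpaceMetric Y
  exact cap_of_step_metric hs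

variable {FE FB : Type} [NormedAddCommGroup FE] [NormedSpace ℂ FE] [NormedAddCommGroup FB]
  [NormedSpace ℂ FB] {E B Y : Type} [TopologicalSpace E] [ChartedSpace FE E] [TopologicalSpace B]
  [ChartedSpace FB B] [TopologicalSpace Y] [ChartedSpace F Y] [IsManifold 𝓘(ℂ, F) 1 Y]

variable (F FE FB) in
/-- Chosen local trivialisations of a holomorphic fibre bundle. -/
structure Triv (π : E → B) (U : B → Set B) (φ : B → E → B × Y) (ψ : B → B × Y → E) : Prop where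
  hπ : MDifferentiable 𝓘(ℂ, FE) 𝓘(ℂ, FB) π
  op : ∀ b, IsOpen (U b)
  mem : ∀ b, b ∈ U b
  dφ : ∀ b, MDifferentiableOn 𝓘(ℂ, FE) (𝓘(ℂ, FB).prod 𝓘(ℂ, F)) (φ b) (π ⁻¹' U b)
  dψ : ∀ b, MDifferentiableOn (𝓘(ℂ, FB).prod 𝓘(ℂ, F)) 𝓘(ℂ, FE) (ψ b) (U b ×ˢ univ)
  left : ∀ b, ∀ e ∈ π ⁻¹' U b, ψ b (φ b e) = e ∧ (φ b e).1 = π e
  right : ∀ b, ∀ x ∈ U b ×ˢ (univ : Set Y), π (ψ b x) = x.1 ∧ φ b (ψ b x) = x

variable {π : E → B} {U : B → Set B} {φ : B → E → B × Y} {ψ : B → B × Y → E}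

theorem Triv.back (h : Triv F FE FB π U φ ψ) {b : B} {e : E} (he : π e ∈ U b) :
    ψ b (π e, (φ b e).2) = e := by
  rw [← (h.left b e he).2]
  exact (h.left b e he).1

theorem Triv.proj (h : Triv F FE FB π U φ ψ) {b x : B} (hx : x ∈ U b) (y : Y) :
    π (ψ b (x, y)) = x := (h.right b (x, y) ⟨hx, trivial⟩).1

theorem Triv.fib (h : Triv F FE FB π U φ ψ) {b x : B} (hx : x ∈ U b) (y : Y) :
    (φ b (ψ b (x, y))).2 = y := congrArg Prod.snd (h.right b (x, y) ⟨hx, trivial⟩).2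

theorem Triv.back' (h : Triv F FE FB π U φ ψ) {a b x : B} (ha : x ∈ U a) (hb : x ∈ U b) (y : Y) :
    ψ b (x, (φ b (ψ a (x, y))).2) = ψ a (x, y) := by
  have := h.back (b := b) (e := ψ a (x, y)) (by rwa [h.proj ha])
  rwa [h.proj ha] at this

theorem Triv.mdφ (h : Triv F FE FB π U φ ψ) {b : B} {e : E} (he : π e ∈ U b) :
    MDifferentiableAt 𝓘(ℂ, FE) 𝓘(ℂ, F) (fun e => (φ b e).2) e :=
  ((h.dφ b).mdifferentiableAt (((h.op b).preimage h.hπ.continuous).mem_nhds he)).snd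

theorem Triv.mdψ (h : Triv F FE FB π U φ ψ) {b x : B} (hx : x ∈ U b) (y : Y) :
    MDifferentiableAt (𝓘(ℂ, FB).prod 𝓘(ℂ, F)) 𝓘(ℂ, FE) (ψ b) (x, y) :=
  (h.dψ b).mdifferentiableAt (((h.op b).prod isOpen_univ).mem_nhds ⟨hx, trivial⟩)

theorem Triv.md2 (h : Triv F FE FB π U φ ψ) {X : Type} [NormedAddCommGroup X] [NormedSpace ℂ X]
    {Φ : X → B} {x : X} (hΦ : MD FB Φ x) {a b : B} (ha : Φ x ∈ U a) (hb : Φ x ∈ U b) (y : Y)
    {k : X → Y → Y} (hk : ∀ c, Φ c ∈ U a → Φ c ∈ U b → ∀ y, k c y = (φ b (ψ a (Φ c, y))).2) :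
    MD2 F k x y := by
  have h1 : MDifferentiableAt (𝓘(ℂ, X).prod 𝓘(ℂ, F)) 𝓘(ℂ, FE)
      (fun p : X × Y => ψ a (Φ p.1, p.2)) (x, y) :=
    (h.mdψ ha y).comp (f := fun p : X × Y => (Φ p.1, p.2)) (x, y)
      ((MDifferentiableAt.comp (f := Prod.fst) (g := Φ) (x, y) hΦ mdifferentiableAt_fst).prodMk
        mdifferentiableAt_snd)
  refine ((h.mdφ (b := b) (by rwa [h.proj ha])).comp (x, y) h1).congr_of_eventuallyEq ?_
  filter_upwards [(continuous_fst.tendsto (x, y)).eventually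
    (hΦ.cont.eventually (((h.op a).inter (h.op b)).mem_nhds ⟨ha, hb⟩))] with p hp
  exact hk _ hp.1 hp.2 _

open Classical in
/-- The pullback bundle. -/
noncomputable def Triv.bun (h : Triv F FE FB π U φ ψ) {X : Type} [NormedAddCommGroup X]
    [NormedSpace ℂ X] {Φ : X → B} {O : Set X} (hO : IsOpen O) (hΦ : ∀ x ∈ O, MD FB Φ x) :
    Bun F X Y E B where
  Ω b := O ∩ Φ ⁻¹' U b
  ψ b x y := ψ b (Φ x, y)
  φ b _ e := (φ b e).2
  op b := ContinuousOn.isOpen_inter_preimage (fun x hx => (hΦ x hx).cont.continuousWithinAt) hO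
    (h.op b)
  inv _ _ hx y := h.fib hx.2 y
  tr a b x ha hb := by
    have hev : ∀ᶠ c in 𝓝 x, c ∈ O ∧ Φ c ∈ U a ∧ Φ c ∈ U b := Eventually.and (hO.mem_nhds ha.1)
      ((hΦ x ha.1).cont.eventually (((h.op a).inter (h.op b)).mem_nhds ⟨ha.2, hb.2⟩))
    refine ⟨fun c => if hc : Φ c ∈ U a ∧ Φ c ∈ U b then
      ⟨fun y => (φ b (ψ a (Φ c, y))).2, fun y => (φ a (ψ b (Φ c, y))).2,
        fun y => by simp only [h.back' hc.1 hc.2, h.fib hc.1],
        fun y => by simp only [h.back' hc.2 hc.1, h.fib hc.2]⟩ else 1,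
      hev.mono fun c hc y => ⟨h.md2 (hΦ c hc.1) hc.2.1 hc.2.2 y fun c h1 h2 y => ?_,
        h.md2 (hΦ c hc.1) hc.2.2 hc.2.1 y fun c h1 h2 y => ?_⟩, hev.mono fun c hc y => ?_⟩
    · beta_reduce
      rw [dif_pos ⟨h1, h2⟩]
      rfl
    · beta_reduce
      rw [dif_pos ⟨h2, h1⟩]
      rfl
    · beta_reduce
      rw [dif_pos hc.2]
      exact (h.back' hc.2.1 hc.2.2 y).symm

theorem Triv.lift (h : Triv F FE FB π U φ ψ) {Φ : V × ℂ → B} {O : Set (V × ℂ)} (hO : IsOpen O)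
    (hΦ : ∀ x ∈ O, MD FB Φ x) {K T : Set V} (hK : IsCompact K) (hKc : Convex ℝ K)
    (hKn : K.Nonempty) (hT : Poly T) (hKT : K ⊆ T) (hTO : ∀ z ∈ T, ∀ s ∈ Icc (0 : ℝ) 1, (z, (s : ℂ)) ∈ O)
    {b₀ : B} (hb₀ : ∀ z ∈ K, ∀ s ∈ Icc (0 : ℝ) 1, Φ (z, s) ∈ U b₀) {G : V → E}
    (hG : ∀ z ∈ T, ∀ᶠ x in 𝓝 z, MD FE G x ∧ π (G x) = Φ (x, 0)) {W : Set (V × Y)} (hW : IsOpen W)
    (hGW : ∀ z ∈ K, (z, (φ b₀ (G z)).2) ∈ W) :
    ∃ G' : V → E, (∀ z ∈ T, ∀ᶠ x in 𝓝 z, MD FE G' x ∧ π (G' x) = Φ (x, 1)) ∧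
      ∀ z ∈ K, (z, (φ b₀ (G' z)).2) ∈ W := by
  have ht : ∀ (s : ℂ) (z : V), Tendsto (fun x : V => (x, s)) (𝓝 z) (𝓝 (z, s)) := fun s z =>
    (by fun_prop : Continuous fun x : V => (x, s)).tendsto z
  obtain ⟨G', h1, h2⟩ := transport (B := h.bun hO hΦ) hK hKc hKn hT hKT (α₀ := b₀)
    (fun z hz s hs => ⟨hTO z (hKT hz) s hs, hb₀ z hz s hs⟩)
    (fun z hz s hs => ⟨Φ (z, s), hTO z hz s hs, h.mem _⟩) (G := G) (fun z hz => by
      have h0 : (z, (0 : ℂ)) ∈ (h.bun hO hΦ).Ω (Φ (z, 0)) := ⟨hTO z hz 0 ⟨le_rfl, zero_le_one⟩, h.mem _⟩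
      refine ⟨Φ (z, 0), fun x => (φ (Φ (z, 0)) (G x)).2, h0, ?_⟩
      filter_upwards [hG z hz, (ht 0 z).eventually (((h.bun hO hΦ).op _).mem_nhds h0)] with x h1 h2
      have h3 : π (G x) ∈ U (Φ (z, 0)) := h1.2 ▸ h2.2
      refine ⟨?_, (h.mdφ h3).comp x h1.1⟩
      have := (h.back h3).symm
      rwa [h1.2] at this) hW hGW
  refine ⟨G', fun z hz => ?_, h2⟩
  obtain ⟨a, f, h3, h4⟩ := h1 z hz
  filter_upwards [h4.eventually_nhds, (ht 1 z).eventually (((h.bun hO hΦ).op _).mem_nhds h3)] with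
    x h5 h6
  refine ⟨MD.congr ?_ (h5.mono fun _ h => h.1), h5.self_of_nhds.1 ▸ h.proj h6.2 _⟩
  exact (h.mdψ h6.2 (f x)).comp (f := fun x => (Φ (x, 1), f x)) x
    ((MD.comp (ρ := fun x : V => (x, (1 : ℂ))) (hΦ _ h6.1) (by fun_prop)).prodMk h5.self_of_nhds.2)

theorem cap_ev {K : Set V} (hE : CAP V FE E) (hK : IsCompact K) (hKc : Convex ℝ K) {G : V → E}
    (hG : ∀ z ∈ K, ∀ᶠ x in 𝓝 z, MD FE G x) {W : Set (V × E)} (hW : IsOpen W)
    (hGW : ∀ z ∈ K, (z, G z) ∈ W) :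
    ∃ g : V → E, MDifferentiable 𝓘(ℂ, V) 𝓘(ℂ, FE) g ∧ ∀ z ∈ K, (z, g z) ∈ W :=
  hE K _ G W hK hKc isOpen_setOfPred_eventually_nhds hG
    (fun _ hz => MDifferentiableAt.mdifferentiableWithinAt hz.self_of_nhds) hW hGW

theorem Triv.cap_base (h : Triv F FE FB π U φ ψ) [Nonempty E] (hE : CAP V FE E) : CAP V FB B := by
  obtain ⟨e₀⟩ := ‹Nonempty E›
  intro K O f W hK hKc hO hKO hf hW hfW
  rcases K.eq_empty_or_nonempty with rfl | ⟨z₀, hz₀⟩
  · exact ⟨fun _ => π e₀, mdifferentiable_const, by simp⟩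
  have hρ : Differentiable ℂ fun x : V × ℂ => z₀ + x.2 • (x.1 - z₀) := by fun_prop
  have hO' := hO.preimage hρ.continuous
  obtain ⟨T, hT, hKT, hTO⟩ := poly_between hK hKc ⟨z₀, hz₀⟩
    (O := {z | ∀ s ∈ Icc (0 : ℝ) 1, z₀ + (s : ℂ) • (z - z₀) ∈ O})
    (isOpen_iff_mem_nhds.mpr fun z hz => isCompact_Icc.eventually_forall_of_forall_eventually
      (P := fun z (s : ℝ) => z₀ + (s : ℂ) • (z - z₀) ∈ O) fun s hs =>
      (hO.preimage (f := fun x : V × ℝ => z₀ + (x.2 : ℂ) • (x.1 - z₀)) (by fun_prop)).mem_nhds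
        (hz s hs)) fun z hz s hs => hKO (by simpa using hKc.add_smul_sub_mem hz₀ hz hs)
  obtain ⟨G, h1, -⟩ := h.lift (Φ := fun x => f (z₀ + x.2 • (x.1 - z₀))) hO'
    (fun x hx => MD.comp (f := f) (hf.mdifferentiableAt (hO.mem_nhds hx)) (hρ x))
    isCompact_singleton (convex_singleton z₀) (singleton_nonempty _) hT
    (singleton_subset_iff.mpr (hKT hz₀)) hTO (b₀ := f z₀) (by simp [h.mem])
    (G := fun _ => ψ (f z₀) (f z₀, (φ (π e₀) e₀).2))
    (fun z _ => Eventually.of_forall fun x => ⟨MD.const _ _, by simp [h.proj (h.mem _)]⟩)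
    isOpen_univ fun _ _ => trivial
  obtain ⟨g, h2, h3⟩ := cap_ev hE hK hKc (fun z hz => (h1 z (hKT hz)).mono fun _ h => h.1)
    (W := {p | (p.1, π p.2) ∈ W})
    (hW.preimage (continuous_fst.prodMk (h.hπ.continuous.comp continuous_snd))) fun z hz => by
      simpa [(h1 z (hKT hz)).self_of_nhds.2] using hfW z hz
  exact ⟨π ∘ g, h.hπ.comp h2, h3⟩

theorem Triv.step_fibre (h : Triv F FE FB π U φ ψ) [Nonempty E] (hE : CAP V FE E) : Step V F Y := by
  obtain ⟨e₀⟩ := ‹Nonempty E›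
  rintro K K' f W hK hKc ⟨z₀, hz₀⟩ hK' hKK hf hW hfW
  have hb := h.mem (π e₀)
  obtain ⟨g, h2, h3⟩ := cap_ev hE hK hKc (G := fun z => ψ (π e₀) (π e₀, f z))
    (fun z hz => (hf z hz).mono fun x hx => (h.mdψ hb (f x)).comp (f := fun x => (π e₀, f x)) x
      (mdifferentiableAt_const.prodMk hx))
    (W := {p | π p.2 ∈ U (π e₀) ∧ (p.1, (φ (π e₀) p.2).2) ∈ W})
    (isOpen_iff_mem_nhds.mpr fun p hp => Eventually.and
      (((h.op _).preimage (h.hπ.continuous.comp continuous_snd)).mem_nhds hp.1)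
      ((continuousAt_fst.prodMk ((h.mdφ hp.1).continuousAt.comp continuousAt_snd)).eventually
        (hW.mem_nhds hp.2))) fun z hz => by
      simpa [h.proj hb, h.fib hb, hb] using hfW z hz
  obtain ⟨T, hT, hKT⟩ := exists_poly hK'
  have hρ : Differentiable ℂ fun x : V × ℂ => z₀ + (1 - x.2) • (x.1 - z₀) := by fun_prop
  obtain ⟨G, h4, h5⟩ := h.lift (Φ := fun x => π (g (z₀ + (1 - x.2) • (x.1 - z₀)))) isOpen_univ
    (fun x _ => MD.comp (f := π ∘ g) (h.hπ.comp h2 _) (hρ x)) hK hKc ⟨z₀, hz₀⟩ hT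
    (hKK.trans hKT) (fun _ _ _ _ => trivial) (b₀ := π e₀) (fun z hz s hs => (h3 _ (by
      simpa [← Complex.coe_smul] using hKc.add_smul_sub_mem hz₀ hz (t := 1 - s)
        ⟨by linarith [hs.2], by linarith [hs.1]⟩)).1) (G := g)
    (fun z _ => Eventually.of_forall fun x => ⟨h2 x, by simp⟩) hW fun z hz => (h3 z hz).2
  refine ⟨fun z => (φ (π e₀) (G z)).2, fun z hz => (h4 z (hKT hz)).mono fun x hx =>
    (h.mdφ ?_).comp x hx.1, h5⟩
  simpa [hx.2] using (h3 z₀ hz₀).1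

end Pool.Agent.P.MP_e711b0_an
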