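import Pool.Agent.P.MP_e711b0_an.ODE

/-! Holomorphic families of automorphisms of a complex manifold and their vector fields. -/

namespace Pool.Agent.P.MP_e711b0_an

open Set Filter Metric Topology Complex
open scoped Manifold

set_option linter.unusedSectionVars false

variable {V Z Γ Γ' Θ Θ' : Type} [NormedAddCommGroup V] [NormedSpace ℂ V] [NormedAddCommGroup Z]
  [NormedSpace ℂ Z] [NormedAddCommGroup Γ] [NormedSpace ℂ Γ] [NormedAddCommGroup Γ']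
  [NormedSpace ℂ Γ'] [NormedAddCommGroup Θ] [NormedSpace ℂ Θ] [NormedAddCommGroup Θ']
  [NormedSpace ℂ Θ']
variable (F : Type) [NormedAddCommGroup F] [NormedSpace ℂ F] {Y : Type} [TopologicalSpace Y]
  [ChartedSpace F Y]

/-- Differentiability of a map into the manifold. -/
def MD (f : V → Y) (x : V) : Prop := MDifferentiableAt 𝓘(ℂ, V) 𝓘(ℂ, F) f x

/-- The derivative of a map into the manifold. -/
noncomputable def D (f : V → Y) (x : V) : V →L[ℂ] F := mfderiv 𝓘(ℂ, V) 𝓘(ℂ, F) f x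

/-- Joint differentiability of a family of self-maps. -/
def MD2 (h : Γ → Y → Y) (c : Γ) (y : Y) : Prop :=
  MDifferentiableAt (𝓘(ℂ, Γ).prod 𝓘(ℂ, F)) 𝓘(ℂ, F) (fun p : Γ × Y => h p.1 p.2) (c, y)

/-- The derivative of a self-map. -/
noncomputable def Ad (σ : Y → Y) (y : Y) : F →L[ℂ] F := mfderiv 𝓘(ℂ, F) 𝓘(ℂ, F) σ y

/-- The derivative of a chart. -/
noncomputable def Mc (y₀ y : Y) : F →L[ℂ] F := mfderiv 𝓘(ℂ, F) 𝓘(ℂ, F) (extChartAt 𝓘(ℂ, F) y₀) y

/-- A family of automorphisms, holomorphic at a parameter. -/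
def FamP (h : Γ → Equiv.Perm Y) (c : Γ) : Prop :=
  ∀ y, MD2 F (fun c y => h c y) c y ∧ MD2 F (fun c y => (h c)⁻¹ y) c y

/-- A family of automorphisms, holomorphic near a parameter. -/
def FamAt (h : Γ → Equiv.Perm Y) (c : Γ) : Prop := ∀ᶠ c' in 𝓝 c, FamP F h c'

/-- The derivative of a family in the parameter. -/
noncomputable def Pd (h : Γ → Equiv.Perm Y) (c : Γ) (y : Y) : Γ →L[ℂ] F := D F (fun c => h c y) c

variable {F}

theorem MD.const (y : Y) (x : V) : MD F (fun _ => y) x := mdifferentiableAt_const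

theorem MD.cont {f : V → Y} {x : V} (h : MD F f x) : ContinuousAt f x :=
  MDifferentiableAt.continuousAt h

theorem MD.congr {f g : V → Y} {x : V} (h : MD F f x) (h' : ∀ᶠ y in 𝓝 x, g y = f y) : MD F g x :=
  MDifferentiableAt.congr_of_eventuallyEq h h'

theorem MD.comp {f : V → Y} {ρ : Z → V} {z : Z} (h : MD F f (ρ z)) (hρ : DifferentiableAt ℂ ρ z) :
    MD F (fun z => f (ρ z)) z :=
  MDifferentiableAt.comp z h (mdifferentiableAt_iff_differentiableAt.mpr hρ)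

theorem D_const (y : Y) (x : V) : D F (fun _ => y) x = 0 := mfderiv_const

theorem D_congr {f g : V → Y} {x : V} (h : ∀ᶠ y in 𝓝 x, f y = g y) : D F f x = D F g x :=
  Filter.EventuallyEq.mfderiv_eq h

theorem D_comp {f : V → Y} {ρ : Z → V} {z : Z} (h : MD F f (ρ z)) (hρ : DifferentiableAt ℂ ρ z)
    (v : Z) : D F (fun z => f (ρ z)) z v = D F f (ρ z) (fderiv ℂ ρ z v) := by
  have := mfderiv_comp_apply z h (mdifferentiableAt_iff_differentiableAt.mpr hρ) v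
  rw [mfderiv_eq_fderiv] at this
  exact this

theorem MD2.comp {h : Γ → Y → Y} {u : V → Γ} {G : V → Y} {x : V} (hh : MD2 F h (u x) (G x))
    (hu : DifferentiableAt ℂ u x) (hG : MD F G x) : MD F (fun x => h (u x) (G x)) x :=
  MDifferentiableAt.comp (f := fun x => (u x, G x)) x hh
    ((mdifferentiableAt_iff_differentiableAt.mpr hu).prodMk hG)

theorem MD2.comp2 {h : Γ → Y → Y} {u : Γ' → Γ} {k : Γ' → Y → Y} {c : Γ'} {y : Y}
    (hh : MD2 F h (u c) (k c y)) (hu : DifferentiableAt ℂ u c) (hk : MD2 F k c y) :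
    MD2 F (fun c y => h (u c) (k c y)) c y :=
  MDifferentiableAt.comp (f := fun p : Γ' × Y => (u p.1, k p.1 p.2)) (c, y) hh
    ((MDifferentiableAt.comp (c, y) (mdifferentiableAt_iff_differentiableAt.mpr hu)
      mdifferentiableAt_fst).prodMk hk)

theorem MD2.id (c : Γ) (y : Y) : MD2 F (fun _ y => y) c y := mdifferentiableAt_snd

theorem MD2.left {h : Γ → Y → Y} {c : Γ} {y : Y} (hh : MD2 F h c y) : MD F (fun c => h c y) c :=
  MD2.comp (u := fun c => c) (G := fun _ => y) hh differentiableAt_id (MD.const _ _)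

theorem MD2.right {h : Γ → Y → Y} {c : Γ} {y : Y} (hh : MD2 F h c y) :
    MDifferentiableAt 𝓘(ℂ, F) 𝓘(ℂ, F) (h c) y :=
  MDifferentiableAt.comp (f := fun y => (c, y)) y hh
    (mdifferentiableAt_const.prodMk mdifferentiableAt_id)

theorem D_Ad {σ : Y → Y} {G : V → Y} {x : V} (hσ : MDifferentiableAt 𝓘(ℂ, F) 𝓘(ℂ, F) σ (G x))
    (hG : MD F G x) (v : V) : D F (fun x => σ (G x)) x v = Ad F σ (G x) (D F G x v) :=
  mfderiv_comp_apply x hσ hG v

theorem CH {h : Γ → Equiv.Perm Y} {u : V → Γ} {G : V → Y} {x : V} (hh : FamP F h (u x))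
    (hu : DifferentiableAt ℂ u x) (hG : MD F G x) (v : V) : D F (fun x => h (u x) (G x)) x v =
      Ad F (h (u x)) (G x) (D F G x v) + Pd F h (u x) (G x) (fderiv ℂ u x v) := by
  have hu' := mdifferentiableAt_iff_differentiableAt.mpr hu
  have := mfderiv_comp_apply (f := fun x => (u x, G x)) x (hh (G x)).1 (hu'.prodMk hG) v
  rw [mfderiv_prod_eq_add_apply (hh (G x)).1, hu'.mfderiv_prod hG, mfderiv_eq_fderiv,
    add_comm] at this
  exact this

theorem Ad_one (y : Y) (v : F) : Ad F id y v = v := by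
  have : Ad F id y = ContinuousLinearMap.id ℂ F := mfderiv_id
  rw [this]; rfl

theorem pinv (σ : Equiv.Perm Y) (y : Y) : σ⁻¹ (σ y) = y := by simp

theorem FamP.inv {h : Γ → Equiv.Perm Y} {c : Γ} (hh : FamP F h c) :
    FamP F (fun c => (h c)⁻¹) c := fun y => ⟨(hh y).2, by simpa only [inv_inv] using (hh y).1⟩

theorem FamP.mul {h k : Γ → Equiv.Perm Y} {c : Γ} (hh : FamP F h c) (hk : FamP F k c) :
    FamP F (fun c => h c * k c) c := fun y =>
  ⟨MD2.comp2 (h := fun c y => h c y) (u := fun c => c) (k := fun c y => k c y) (hh _).1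
    differentiableAt_id (hk y).1, by
    simp only [mul_inv_rev]
    exact MD2.comp2 (h := fun c y => (k c)⁻¹ y) (u := fun c => c) (k := fun c y => (h c)⁻¹ y)
      (hk _).2 differentiableAt_id (hh y).2⟩

theorem FamP.comp {h : Γ → Equiv.Perm Y} {u : Γ' → Γ} {c : Γ'} (hh : FamP F h (u c))
    (hu : DifferentiableAt ℂ u c) : FamP F (fun c => h (u c)) c := fun y =>
  ⟨MD2.comp2 (h := fun c y => h c y) (k := fun _ y => y) (hh y).1 hu (MD2.id _ _),
    MD2.comp2 (h := fun c y => (h c)⁻¹ y) (k := fun _ y => y) (hh y).2 hu (MD2.id _ _)⟩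

theorem FamP.one (c : Γ) : FamP F (fun _ => (1 : Equiv.Perm Y)) c := fun _ =>
  ⟨MD2.id _ _, MD2.id _ _⟩

theorem FamP.md {h : Γ → Equiv.Perm Y} {u : V → Γ} {G : V → Y} {x : V} (hh : FamP F h (u x))
    (hu : DifferentiableAt ℂ u x) (hG : MD F G x) : MD F (fun x => h (u x) (G x)) x :=
  (hh _).1.comp hu hG

theorem FamP.cancel {h : Γ → Equiv.Perm Y} {c : Γ} (hh : FamP F h c) (y : Y) (v : F) :
    Ad F ⇑(h c)⁻¹ (h c y) (Ad F (h c) y v) = v := by
  have : Ad F (⇑(h c)⁻¹ ∘ h c) y v = Ad F ⇑(h c)⁻¹ (h c y) (Ad F (h c) y v) :=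
    mfderiv_comp_apply y (hh (h c y)).2.right (hh y).1.right v
  have h1 : (⇑(h c)⁻¹ ∘ h c) = id := by
    funext y; simp
  rw [← this, h1, Ad_one]

theorem FamP.cancel' {h : Γ → Equiv.Perm Y} {c : Γ} (hh : FamP F h c) (y : Y) (v : F) :
    Ad F (h c) y (Ad F ⇑(h c)⁻¹ (h c y) v) = v := by
  simpa using hh.inv.cancel (h c y) v

theorem FamAt.inv {h : Γ → Equiv.Perm Y} {c : Γ} (hh : FamAt F h c) :
    FamAt F (fun c => (h c)⁻¹) c := hh.mono fun _ h => h.inv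

theorem FamAt.mul {h k : Γ → Equiv.Perm Y} {c : Γ} (hh : FamAt F h c) (hk : FamAt F k c) :
    FamAt F (fun c => h c * k c) c := (hh.and hk).mono fun _ h => h.1.mul h.2

theorem FamAt.comp {h : Γ → Equiv.Perm Y} {u : Γ' → Γ} {c : Γ'} (hh : FamAt F h (u c))
    (hu : Hol u (𝓝 c)) : FamAt F (fun c => h (u c)) c :=
  ((hu.tendsto.eventually hh).and hu).mono fun _ h => h.1.comp h.2

theorem FamAt.one (c : Γ) : FamAt F (fun _ => (1 : Equiv.Perm Y)) c :=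
  Eventually.of_forall fun _ => FamP.one _

theorem FamAt.self {h : Γ → Equiv.Perm Y} {c : Γ} (hh : FamAt F h c) : FamP F h c :=
  hh.self_of_nhds

theorem FamAt.ev {h : Γ → Equiv.Perm Y} {c : Γ} (hh : FamAt F h c) : ∀ᶠ c' in 𝓝 c, FamAt F h c' :=
  hh.eventually_nhds

theorem Pd_comp {h : Γ → Equiv.Perm Y} {u : V → Γ} {x : V} (hh : FamP F h (u x))
    (hu : DifferentiableAt ℂ u x) (y : Y) (v : V) :
    D F (fun x => h (u x) y) x v = Pd F h (u x) y (fderiv ℂ u x v) :=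
  D_comp (f := fun c => h c y) (hh y).1.left hu v

theorem fderiv_line (c v : Γ) : fderiv ℂ (fun t : ℂ => c + t • v) 0 1 = v := by
  have := (((hasDerivAt_id (0 : ℂ)).smul_const v).const_add c).hasFDerivAt.fderiv
  simp only [id] at this
  simp [this]

variable (F) in
/-- `u` is a holomorphic family of infinitesimal automorphisms along `G`. -/
def InD (G : V → Y) (u : V → F) (x₀ : V) : Prop :=
  ∃ k : V × ℂ → Equiv.Perm Y, FamAt F k (x₀, 0) ∧
    ∀ᶠ x in 𝓝 x₀, k (x, 0) = 1 ∧ u x = D F (fun t => k (x, t) (G x)) 0 1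

theorem tendsto_mk0 (x : V) : Tendsto (fun x : V => (x, (0 : ℂ))) (𝓝 x) (𝓝 (x, 0)) :=
  (by fun_prop : Continuous fun x : V => (x, (0 : ℂ))).tendsto x

theorem InD.congr {G G' : V → Y} {u u' : V → F} {x₀ : V} (h : InD F G u x₀)
    (h' : ∀ᶠ x in 𝓝 x₀, G' x = G x ∧ u' x = u x) : InD F G' u' x₀ := by
  obtain ⟨k, h1, h2⟩ := h
  refine ⟨k, h1, ?_⟩
  filter_upwards [h2, h'] with x h3 h4
  simpa only [h4.1, h4.2] using h3

theorem InD.add {G : V → Y} {u u' : V → F} {x₀ : V} (h : InD F G u x₀) (h' : InD F G u' x₀) :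
    InD F G (fun x => u x + u' x) x₀ := by
  obtain ⟨k, h1, h2⟩ := h
  obtain ⟨k', h3, h4⟩ := h'
  refine ⟨fun p => k' p * k p, h3.mul h1, ?_⟩
  filter_upwards [h2, h4, (tendsto_mk0 x₀).eventually h1, (tendsto_mk0 x₀).eventually h3] with
    x e1 e2 e3 e4
  refine ⟨by simp [e1.1, e2.1], ?_⟩
  have hu : DifferentiableAt ℂ (fun t : ℂ => (x, t)) 0 := by fun_prop
  have := CH (u := fun t : ℂ => (x, t)) (G := fun t => k (x, t) (G x)) e4 hu
    (e3.md hu (MD.const _ _)) 1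
  simp only [e1.1, e2.1, Equiv.Perm.coe_one, id, Ad_one] at this
  rw [e1.2, e2.2, Pd_comp (u := fun t : ℂ => (x, t)) e4 hu, ← this]
  rfl

theorem InD.conj {G : V → Y} {u : V → F} {x₀ : V} (h : InD F G u x₀) {g : V → Equiv.Perm Y}
    (hg : FamAt F g x₀) : InD F (fun x => g x (G x)) (fun x => Ad F (g x) (G x) (u x)) x₀ := by
  obtain ⟨k, h1, h2⟩ := h
  have hg' : FamAt F (fun p : V × ℂ => g p.1) (x₀, 0) :=
    FamAt.comp hg (Hol.of_diff differentiable_fst _)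
  refine ⟨fun p => g p.1 * (k p * (g p.1)⁻¹), hg'.mul (h1.mul hg'.inv), ?_⟩
  filter_upwards [h2, (tendsto_mk0 x₀).eventually h1, hg] with x e1 e2 e3
  refine ⟨by simp [e1.1], ?_⟩
  have hu : DifferentiableAt ℂ (fun t : ℂ => (x, t)) 0 := by fun_prop
  have := D_Ad (G := fun t => k (x, t) (G x)) (e3 _).1.right
    (e2.md (u := fun t : ℂ => (x, t)) hu (MD.const _ _)) 1
  simp only [e1.1, Equiv.Perm.coe_one, id] at this
  simp only [Equiv.Perm.mul_apply, pinv, this, e1.2]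

theorem InD.fam (G : V → Y) {g : Γ → Equiv.Perm Y} {c v : V → Γ} {x₀ : V} (hg : FamAt F g (c x₀))
    (hc : Hol c (𝓝 x₀)) (hv : Hol v (𝓝 x₀)) :
    InD F (fun x => g (c x) (G x)) (fun x => Pd F g (c x) (G x) (v x)) x₀ := by
  have hc' : Hol (fun p : V × ℂ => c p.1) (𝓝 (x₀, 0)) := hc.comp (Hol.of_diff differentiable_fst _)
  have hv' : Hol (fun p : V × ℂ => v p.1) (𝓝 (x₀, 0)) := hv.comp (Hol.of_diff differentiable_fst _)
  refine ⟨fun p => g (c p.1 + p.2 • v p.1) * (g (c p.1))⁻¹,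
    (FamAt.comp (by simpa using hg) (hc'.add ((Hol.of_diff differentiable_snd _).smul hv'))).mul
      (FamAt.comp (u := fun p : V × ℂ => c p.1) hg hc').inv, ?_⟩
  filter_upwards [hc.tendsto.eventually hg] with x e1
  refine ⟨by simp, ?_⟩
  have := Pd_comp (h := g) (u := fun t : ℂ => c x + t • v x) (x := 0) (by simpa using e1)
    (by fun_prop) (G x) 1
  simp only [Equiv.Perm.mul_apply, pinv, this, fderiv_line, zero_smul,
    add_zero]

variable (F) in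
/-- `J` dominates the infinitesimal automorphisms along `G`. -/
def Dom (G : V → Y) (J : V → Θ →L[ℂ] F) (x₀ : V) : Prop :=
  ∀ (Z : Type) [NormedAddCommGroup Z] [NormedSpace ℂ Z] (ρ : Z → V) (z₀ : Z) (u : Z → F),
    Hol ρ (𝓝 z₀) → ρ z₀ = x₀ → InD F (fun z => G (ρ z)) u z₀ →
    ∃ c : Z → Θ, Hol c (𝓝 z₀) ∧ ∀ᶠ z in 𝓝 z₀, J (ρ z) (c z) = u z

variable (F) in
/-- The range of `J` consists of infinitesimal automorphisms along `G`. -/
def Rng (G : V → Y) (J : V → Θ →L[ℂ] F) (x₀ : V) : Prop :=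
  ∀ (Z : Type) [NormedAddCommGroup Z] [NormedSpace ℂ Z] (ρ : Z → V) (z₀ : Z) (w : Z → Θ),
    Hol ρ (𝓝 z₀) → ρ z₀ = x₀ → Hol w (𝓝 z₀) →
    InD F (fun z => G (ρ z)) (fun z => J (ρ z) (w z)) z₀

theorem Dom.comp {G : V → Y} {J : V → Θ →L[ℂ] F} {ρ : Z → V} {z₀ : Z} (h : Dom F G J (ρ z₀))
    (hρ : Hol ρ (𝓝 z₀)) : Dom F (fun z => G (ρ z)) (fun z => J (ρ z)) z₀ := by
  rintro Z' _ _ σ z u hσ rfl hu
  exact h Z' (fun z => ρ (σ z)) z u (hρ.comp hσ) rfl hu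

theorem Dom.mono {G G' : V → Y} {J : V → Θ →L[ℂ] F} {J' : V → Θ' →L[ℂ] F} {x₀ : V}
    (h : Dom F G J x₀) {L : V → Θ →L[ℂ] Θ'} (hL : Hol L (𝓝 x₀))
    (h' : ∀ᶠ x in 𝓝 x₀, G x = G' x ∧ ∀ c, J' x (L x c) = J x c) : Dom F G' J' x₀ := by
  rintro Z _ _ ρ z u hρ rfl hu
  obtain ⟨c, hc, hc'⟩ := h Z ρ z u hρ rfl
    (hu.congr ((hρ.tendsto.eventually h').mono fun z hz => ⟨hz.1, rfl⟩))
  refine ⟨fun z => L (ρ z) (c z), (hL.comp hρ).app hc, ?_⟩
  filter_upwards [hc', hρ.tendsto.eventually h'] with z h1 h2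
  rw [h2.2, h1]

theorem Dom.act {G : V → Y} {J : V → Θ →L[ℂ] F} {x₀ : V} (h : Dom F G J x₀)
    {g : V → Equiv.Perm Y} (hg : FamAt F g x₀) :
    Dom F (fun x => g x (G x)) (fun x => (Ad F (g x) (G x)).comp (J x)) x₀ := by
  rintro Z _ _ ρ z u hρ rfl hu
  obtain ⟨c, hc, hc'⟩ := h Z ρ z _ hρ rfl ((hu.conj (hg.comp hρ).inv).congr
    (Eventually.of_forall fun z => ⟨by simp, rfl⟩))
  refine ⟨c, hc, ?_⟩
  filter_upwards [hc', hρ.tendsto.eventually hg] with z h1 h2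
  rw [ContinuousLinearMap.comp_apply, h1, h2.cancel']

theorem Dom.solve {G : V → Y} {J : V → Θ →L[ℂ] F} {x₀ : V} (h : Dom F G J x₀) {u : V → F}
    (hu : InD F G u x₀) : ∃ c : V → Θ, Hol c (𝓝 x₀) ∧ ∀ᶠ x in 𝓝 x₀, J x (c x) = u x :=
  h V id x₀ u (Hol.of_diff differentiable_id _) rfl hu

theorem Dom.add [FiniteDimensional ℂ Γ] {G : V → Y} {g : Γ → Equiv.Perm Y} {x₀ : V}
    (hg : FamAt F g 0) (hg0 : g 0 = 1) (h : ∀ᶠ x in 𝓝 x₀, Dom F G (fun x => Pd F g 0 (G x)) x) :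
    ∀ᶠ p in 𝓝 (x₀, (0 : Γ)), Dom F (fun p => g p.2 (G p.1)) (fun p => Pd F g p.2 (G p.1)) p := by
  have : CompleteSpace Γ := FiniteDimensional.complete ℂ Γ
  have hfst : ∀ p : V × Γ, Hol Prod.fst (𝓝 p) := fun p => Hol.of_diff differentiable_fst _
  have hsnd : ∀ p : V × Γ, Hol Prod.snd (𝓝 p) := fun p => Hol.of_diff differentiable_snd _
  have hg' : FamAt F (fun p : V × Γ => g p.2) (x₀, 0) := FamAt.comp hg (hsnd _)
  obtain ⟨M, hM, hM'⟩ := exists_op (J := fun p : V × Γ => Pd F g 0 (G p.1)) (ι := id)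
    (u := fun p : V × Γ => (Ad F ⇑(g p.2)⁻¹ (g p.2 (G p.1))).comp (Pd F g p.2 (G p.1)))
    (l := 𝓝 (x₀, 0)) (l' := 𝓝 (x₀, 0)) fun v =>
      (Dom.comp (ρ := Prod.fst) h.self_of_nhds (hfst _)).solve
        (((InD.fam (fun p : V × Γ => G p.1) hg (hsnd _) (Hol.const v _)).conj hg'.inv).congr
          (Eventually.of_forall fun p => ⟨by simp, rfl⟩))
  have h0 : Hol (fun p : V × Γ => (p.1, (0 : Γ))) (𝓝 (x₀, 0)) := Hol.of_diff (by fun_prop) _
  obtain ⟨L, hL, hL'⟩ := hol_inv (a := fun p => M p - M (p.1, 0)) (hM.sub (Hol.comp (g := fun p : V × Γ => (p.1, (0 : Γ))) hM h0))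
    (by simp)
  filter_upwards [(hfst _).tendsto.eventually h, hg'.ev, hL.eventually_nhds,
    (hL'.and (hM'.and ((h0.tendsto.eventually hM').and hg'))).eventually_nhds] with p h1 h2 h3 h4
  refine ((Dom.comp (ρ := Prod.fst) h1 (hfst _)).act h2).mono h3 (h4.mono fun q hq => ⟨rfl, fun c => ?_⟩)
  have e1 := hq.2.1 (L q c)
  have e2 := hq.2.2.1 (L q c)
  have e3 := congrArg (Pd F g 0 (G q.1)) (hq.1 c)
  simp only [id, ContinuousLinearMap.comp_apply, hg0, inv_one, Ad_one, Equiv.Perm.coe_one] at e1 e2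
  rw [map_add, sub_apply, map_sub, e1, e2, add_sub_cancel] at e3
  rw [ContinuousLinearMap.comp_apply, ← e3, FamP.cancel' hq.2.2.2]

theorem Rng.solve {G : V → Y} {J : V → Θ →L[ℂ] F} {x₀ : V} (h : Rng F G J x₀) (v : Θ) :
    InD F G (fun x => J x v) x₀ :=
  h V id x₀ (fun _ => v) (Hol.of_diff differentiable_id _) rfl (Hol.const _ _)

theorem Rng.comp {G : V → Y} {J : V → Θ →L[ℂ] F} {ρ : Z → V} {z₀ : Z} (h : Rng F G J (ρ z₀))
    (hρ : Hol ρ (𝓝 z₀)) {G' : Z → Y} {J' : Z → Θ' →L[ℂ] F} {L : Z → Θ' →L[ℂ] Θ} (hL : Hol L (𝓝 z₀))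
    (h' : ∀ᶠ z in 𝓝 z₀, G' z = G (ρ z) ∧ ∀ c, J' z c = J (ρ z) (L z c)) : Rng F G' J' z₀ := by
  rintro Z' _ _ σ z w hσ rfl hw
  exact (h Z' (fun z => ρ (σ z)) z _ (hρ.comp hσ) rfl ((hL.comp hσ).app hw)).congr
    ((hσ.tendsto.eventually h').mono fun z hz => ⟨hz.1, hz.2 _⟩)

theorem Rng.act {G : V → Y} {x₀ : V} {L : Θ →L[ℂ] V} (hG : ∀ᶠ x in 𝓝 x₀, MD F G x)
    (h : Rng F G (fun x => (D F G x).comp L) x₀) {g : V → Equiv.Perm Y} (hg : FamAt F g x₀) :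
    Rng F (fun x => g x (G x)) (fun x => (D F (fun x => g x (G x)) x).comp L) x₀ := by
  rintro Z _ _ ρ z w hρ rfl hw
  refine (((h Z ρ z w hρ rfl hw).conj (hg.comp hρ)).add (InD.fam (fun z => G (ρ z)) hg hρ
    ((Hol.const L _).app hw))).congr ?_
  filter_upwards [hρ.tendsto.eventually hG, hρ.tendsto.eventually hg] with z h1 h2
  refine ⟨rfl, ?_⟩
  simpa using CH (u := fun x => x) h2 differentiableAt_id h1 (L (w z))

theorem Rng.zero {G : V → Y} {J : V → Θ →L[ℂ] F} {x₀ : V} (h : ∀ᶠ x in 𝓝 x₀, ∀ c, J x c = 0) :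
    Rng F G J x₀ := by
  rintro Z _ _ ρ z w hρ rfl -
  refine ⟨fun _ => 1, FamAt.one _, (hρ.tendsto.eventually h).mono fun z hz => ⟨rfl, ?_⟩⟩
  simp [hz, D_const]

variable [IsManifold 𝓘(ℂ, F) 1 Y]

theorem Mc_inj {y₀ y : Y} (h : y ∈ (chartAt F y₀).source) : Function.Injective (Mc F y₀ y) := by
  obtain ⟨e, he⟩ := isInvertible_mfderiv_extChartAt (I := 𝓘(ℂ, F)) (x := y₀) (y := y)
    (by simpa using h)
  unfold Mc
  rw [← he]
  exact e.injective

theorem chart_D {H : V → Y} {x : V} {y₀ : Y} (hH : MD F H x) (h : H x ∈ (chartAt F y₀).source) :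
    DifferentiableAt ℂ (fun x => extChartAt 𝓘(ℂ, F) y₀ (H x)) x ∧
      ∀ v, fderiv ℂ (fun x => extChartAt 𝓘(ℂ, F) y₀ (H x)) x v = Mc F y₀ (H x) (D F H x v) := by
  have h1 := mdifferentiableAt_extChartAt (I := 𝓘(ℂ, F)) h
  refine ⟨mdifferentiableAt_iff_differentiableAt.mp (h1.comp x hH), fun v => ?_⟩
  have := mfderiv_comp_apply x h1 hH v
  rw [mfderiv_eq_fderiv] at this
  exact this

theorem chart_ev {H : V → Y} {x : V} {y₀ : Y} (hH : ∀ᶠ y in 𝓝 x, MD F H y)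
    (h : H x ∈ (chartAt F y₀).source) : ∀ᶠ y in 𝓝 x, MD F H y ∧ H y ∈ (chartAt F y₀).source :=
  hH.and (hH.self_of_nhds.cont.eventually ((chartAt F y₀).open_source.mem_nhds h))

theorem const_path {H : V → Y} {γ γ' : ℝ → V} (h : ∀ r ∈ Icc (0 : ℝ) 1,
    HasDerivAt γ (γ' r) r ∧ MD F H (γ r) ∧ D F H (γ r) (γ' r) = 0) : H (γ 1) = H (γ 0) := by
  refine real_ind (P := fun u v => H (γ v) = H (γ u)) zero_le_one (fun t ht => ?_)
    fun u v w _ _ _ _ h1 h2 => h2.trans h1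
  obtain ⟨δ, hδ, hb⟩ := Metric.mem_nhds_iff.mp
    (((h t ht).2.1.cont.comp (h t ht).1.continuousAt).eventually
      ((chartAt F (H (γ t))).open_source.mem_nhds (mem_chart_source F _)))
  refine ⟨δ, hδ, fun u v hu huv hv h1 h2 => ?_⟩
  have hs : ∀ r ∈ Icc u v, H (γ r) ∈ (chartAt F (H (γ t))).source := fun r hr =>
    hb (by rw [mem_ball, Real.dist_eq, abs_lt]; constructor <;> linarith [hr.1, hr.2])
  have := norm_image_sub_le_of_norm_deriv_le_segment' (C := 0) (f' := fun _ => 0)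
    (f := fun r => extChartAt 𝓘(ℂ, F) (H (γ t)) (H (γ r))) (a := u) (b := v) (fun r hr => by
      have h3 := h r ⟨hu.trans hr.1, hr.2.trans hv⟩
      have h4 := chart_D h3.2.1 (hs r hr)
      have h5 := hasDerivAt_curve h4.1 h3.1
      rw [h4.2, h3.2.2, map_zero] at h5
      exact h5.hasDerivWithinAt) (fun _ _ => by simp) v ⟨huv, le_rfl⟩
  rw [zero_mul, norm_le_zero_iff, sub_eq_zero] at this
  exact (extChartAt 𝓘(ℂ, F) (H (γ t))).injOn (by simpa using hs v ⟨huv, le_rfl⟩)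
    (by simpa using hs u ⟨le_rfl, huv⟩) this

variable [FiniteDimensional ℂ F]

theorem hol_D {H : V → Y} {x : V} {y₀ : Y} (hH : ∀ᶠ y in 𝓝 x, MD F H y)
    (h : H x ∈ (chartAt F y₀).source) (v : V) :
    Hol (fun x => Mc F y₀ (H x) (D F H x v)) (𝓝 x) := by
  have : CompleteSpace F := FiniteDimensional.complete ℂ F
  have h1 := (chart_ev hH h).mono fun y hy => chart_D hy.1 hy.2
  exact (Hol.fderiv_apply (h1.mono fun y hy => hy.1) v).congr (h1.mono fun y hy => hy.2 v)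

theorem holKer_D [FiniteDimensional ℂ Θ] {H : V → Y} {σ : Z → V} {z : Z} (hσ : Hol σ (𝓝 z))
    (hH : ∀ᶠ y in 𝓝 (σ z), MD F H y) (L : Θ →L[ℂ] V) {J : Z → Θ →L[ℂ] F}
    (hJ : ∀ᶠ y in 𝓝 z, ∀ c, J y c = D F H (σ y) (L c)) : HolKer J z := by
  refine ⟨fun y => (Mc F (H (σ z)) (H (σ y))).comp ((D F H (σ y)).comp L),
    Hol.clm_of_apply fun c => (hol_D hH (mem_chart_source F _) (L c)).comp hσ, ?_⟩
  filter_upwards [hJ, hσ.tendsto.eventually (chart_ev hH (mem_chart_source F _))] with y h1 h2 c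
  rw [h1]
  exact (map_eq_zero_iff _ (Mc_inj h2.2)).symm

theorem hol_vec {k : V × ℂ → Equiv.Perm Y} {G : V → Y} {x : V} {y₀ : Y} (hk : FamAt F k (x, 0))
    (hk0 : ∀ᶠ y in 𝓝 x, k (y, 0) = 1) (hG : ∀ᶠ y in 𝓝 x, MD F G y)
    (h : G x ∈ (chartAt F y₀).source) :
    Hol (fun x => Mc F y₀ (G x) (D F (fun t => k (x, t) (G x)) 0 1)) (𝓝 x) := by
  have h1 : ∀ᶠ p in 𝓝 (x, (0 : ℂ)), MD F (fun p => k p (G p.1)) p := by
    filter_upwards [hk, (continuous_fst.tendsto (x, (0 : ℂ))).eventually hG] with p h1 h2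
    exact h1.md differentiableAt_id (h2.comp differentiableAt_fst)
  refine ((hol_D (y₀ := y₀) h1 (by simpa [hk0.self_of_nhds] using h) (0, 1)).comp
    (g := fun y => (y, (0 : ℂ))) (Hol.of_diff (by fun_prop) _)).congr ?_
  filter_upwards [hk0, (tendsto_mk0 x).eventually h1] with y h2 h3
  have := D_comp (ρ := fun t : ℂ => (y, 0) + t • ((0 : V), (1 : ℂ))) (z := 0)
    (f := fun p => k p (G p.1)) (by simpa using h3) (by fun_prop) 1
  rw [fderiv_line] at this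
  simp only [Prod.smul_mk, smul_zero, smul_eq_mul, mul_one, Prod.mk_add_mk, add_zero,
    zero_add] at this
  simp only [h2, this, Equiv.Perm.coe_one, id]

theorem fam_prod {g : Γ → Equiv.Perm Y} {g' : Γ' → Equiv.Perm Y} (hg : FamAt F g 0) (h0 : g 0 = 1)
    (hg' : FamAt F g' 0) (h0' : g' 0 = 1) :
    FamAt F (fun c : Γ × Γ' => g c.1 * g' c.2) 0 ∧
      (∀ y v, Pd F (fun c : Γ × Γ' => g c.1 * g' c.2) 0 y (v, 0) = Pd F g 0 y v) ∧
      ∀ y v, Pd F (fun c : Γ × Γ' => g c.1 * g' c.2) 0 y (0, v) = Pd F g' 0 y v := by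
  have h1 : FamAt F (fun c : Γ × Γ' => g c.1 * g' c.2) 0 :=
    (FamAt.comp (u := Prod.fst) hg (Hol.of_diff differentiable_fst _)).mul
      (FamAt.comp (u := Prod.snd) hg' (Hol.of_diff differentiable_snd _))
  refine ⟨h1, fun y v => ?_, fun y v => ?_⟩
  · have := Pd_comp (u := ContinuousLinearMap.inl ℂ Γ Γ') (x := 0) h1.self (by fun_prop) y v
    rw [map_zero] at this
    simpa [h0', Pd] using this.symm
  · have := Pd_comp (u := ContinuousLinearMap.inr ℂ Γ Γ') (x := 0) h1.self (by fun_prop) y v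
    rw [map_zero] at this
    simpa [h0, Pd] using this.symm

theorem fam_finset {ι : Type} (k : ι → ℂ → Equiv.Perm Y) (hk : ∀ i, FamAt F (k i) 0 ∧ k i 0 = 1)
    (J : Finset ι) : ∃ (Γ : Type) (_ : NormedAddCommGroup Γ) (_ : NormedSpace ℂ Γ)
      (_ : FiniteDimensional ℂ Γ) (g : Γ → Equiv.Perm Y), FamAt F g 0 ∧ g 0 = 1 ∧
      ∀ i ∈ J, ∃ v, ∀ y, Pd F g 0 y v = Pd F (k i) 0 y 1 := by
  classical
  induction J using Finset.induction_on with
  | empty => exact ⟨ℂ, _, _, inferInstance, fun _ => 1, FamAt.one _, rfl, by simp⟩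
  | insert i J _ ih =>
    obtain ⟨Γ, _, _, _, g, h1, h2, h3⟩ := ih
    obtain ⟨h4, h5, h6⟩ := fam_prod (hk i).1 (hk i).2 h1 h2
    refine ⟨ℂ × Γ, _, _, inferInstance, _, h4, by simp [h2, (hk i).2], fun j hj => ?_⟩
    rcases Finset.mem_insert.mp hj with rfl | hj
    · exact ⟨_, fun y => h5 y 1⟩
    · obtain ⟨v, hv⟩ := h3 j hj
      exact ⟨_, fun y => (h6 y v).trans (hv y)⟩

variable [FiniteDimensional ℂ V]

theorem gen_loc {G : V → Y} {x₀ : V} (hG : ∀ᶠ y in 𝓝 x₀, MD F G y) :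
    ∃ (Γ : Type) (_ : NormedAddCommGroup Γ) (_ : NormedSpace ℂ Γ)
      (_ : FiniteDimensional ℂ Γ) (g : Γ → Equiv.Perm Y), FamAt F g 0 ∧ g 0 = 1 ∧
      ∀ᶠ x in 𝓝 x₀, Dom F G (fun x => Pd F g 0 (G x)) x := by
  obtain ⟨U, hU, hUo, hx₀⟩ := _root_.eventually_nhds_iff.mp (chart_ev hG (mem_chart_source F _))
  have hUe : ∀ x ∈ U, ∀ᶠ y in 𝓝 x, MD F G y := fun x hx =>
    Filter.mem_of_superset (hUo.mem_nhds hx) fun y hy => (hU y hy).1
  let ι := {k : ℂ → Equiv.Perm Y // FamAt F k 0 ∧ k 0 = 1}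
  obtain ⟨J, U', hU', hx', hsub, H⟩ := uniform_noether x₀ ι
    (fun k x => Mc F (G x₀) (G x) (Pd F k.1 0 (G x) 1)) U hUo hx₀ fun k x hx =>
      (hol_vec (k := fun p => k.1 p.2) (FamAt.comp k.2.1 (Hol.of_diff differentiable_snd _))
        (Eventually.of_forall fun _ => k.2.2) (hUe x hx)
        (hU x hx).2).self_of_nhds.differentiableWithinAt
  obtain ⟨Γ, _, _, _, g, h1, h2, h3⟩ := fam_finset (fun k : ι => k.1) (fun k => k.2) J
  choose! v hv using h3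
  refine ⟨Γ, _, _, inferInstance, g, h1, h2, ?_⟩
  filter_upwards [hU'.mem_nhds hx'] with x hx
  rintro Z _ _ ρ z u hρ rfl ⟨k, hk, hk'⟩
  obtain ⟨O, hO, hOo, hz⟩ := _root_.eventually_nhds_iff.mp
    (((tendsto_mk0 z).eventually hk.ev).and hk'.eventually_nhds)
  obtain ⟨a, ha, ha'⟩ := H Z O
    (fun p => Mc F (G x₀) (G p.2) (D F (fun t => k (p.1, t) (G p.2)) 0 1)) hOo
    (fun p hp => (hol_vec (k := fun q : (Z × V) × ℂ => k (q.1.1, q.2)) (G := fun p => G p.2)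
      (FamAt.comp (hO _ hp.1).1 (Hol.of_diff (by fun_prop) _))
      (((continuous_fst.tendsto p).eventually (hO _ hp.1).2).mono fun _ h => h.1)
      (((continuous_snd.tendsto p).eventually (hUe _ hp.2)).mono fun _ h =>
        h.comp differentiableAt_snd) (hU _ hp.2).2).self_of_nhds.differentiableWithinAt)
    fun c hc => ⟨⟨fun t => k (c, t), FamAt.comp (u := fun t => (c, t)) (hO c hc).1
      (Hol.of_diff (by fun_prop) _), (hO c hc).2.self_of_nhds.1⟩, fun _ _ => rfl⟩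
  have hm : ∀ᶠ z' in 𝓝 z, (z', ρ z') ∈ O ×ˢ U' :=
    Eventually.and (hOo.mem_nhds hz) (hρ.tendsto.eventually (hU'.mem_nhds hx))
  refine ⟨fun z => ∑ i ∈ J, a i (z, ρ z) • v i, ?_, ?_⟩
  · filter_upwards [hm, hρ] with z h4 h5
    exact DifferentiableAt.fun_sum fun i _ => (((ha i).differentiableAt
      ((hOo.prod hU').mem_nhds h4)).comp z (differentiableAt_id.prodMk h5)).smul_const _
  · filter_upwards [hm, hk'] with z h4 h5
    refine Mc_inj (hU _ (hsub h4.2)).2 ?_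
    rw [h5.2, map_sum, map_sum]
    refine Eq.trans ?_ (ha' _ h4).symm
    exact Finset.sum_congr rfl fun i hi => by rw [map_smul, map_smul, hv i hi]

variable (F) in
/-- `g` is a family through the identity that dominates along `G` near `K`. -/
def GenOn (g : Γ → Equiv.Perm Y) (G : V → Y) (K : Set V) : Prop :=
  FamAt F g 0 ∧ g 0 = 1 ∧ ∀ x₀ ∈ K, ∀ᶠ x in 𝓝 x₀, Dom F G (fun x => Pd F g 0 (G x)) x

theorem GenOn.prod [FiniteDimensional ℂ Z] {g : Γ → Equiv.Perm Y} {g' : Γ' → Equiv.Perm Y}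
    {G : V → Y} {G' : Z → Y} {K : Set V} {K' : Set Z} (h : GenOn F g G K) (h' : GenOn F g' G' K') :
    GenOn F (fun c : Γ × Γ' => g c.1 * g' c.2) G K ∧
      GenOn F (fun c : Γ × Γ' => g c.1 * g' c.2) G' K' := by
  obtain ⟨h1, h2, h3⟩ := fam_prod h.1 h.2.1 h'.1 h'.2.1
  have h0 : g (0 : Γ × Γ').1 * g' (0 : Γ × Γ').2 = 1 := by simp [h.2.1, h'.2.1]
  exact ⟨⟨h1, h0, fun x hx => (h.2.2 x hx).mono fun y hy => hy.mono
      (Hol.const (ContinuousLinearMap.inl ℂ Γ Γ') _)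
      (Eventually.of_forall fun z => ⟨rfl, fun c => h2 _ c⟩)⟩,
    ⟨h1, h0, fun x hx => (h'.2.2 x hx).mono fun y hy => hy.mono
      (Hol.const (ContinuousLinearMap.inr ℂ Γ Γ') _)
      (Eventually.of_forall fun z => ⟨rfl, fun c => h3 _ c⟩)⟩⟩

theorem gen_compact {G : V → Y} {K : Set V} (hK : IsCompact K)
    (hG : ∀ x ∈ K, ∀ᶠ y in 𝓝 x, MD F G y) :
    ∃ (Γ : Type) (_ : NormedAddCommGroup Γ) (_ : NormedSpace ℂ Γ)
      (_ : FiniteDimensional ℂ Γ) (g : Γ → Equiv.Perm Y), GenOn F g G K := by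
  refine hK.induction_on (p := fun K => ∃ (Γ : Type) (_ : NormedAddCommGroup Γ)
    (_ : NormedSpace ℂ Γ) (_ : FiniteDimensional ℂ Γ) (g : Γ → Equiv.Perm Y), GenOn F g G K)
    ⟨ℂ, _, _, inferInstance, fun _ => 1, FamAt.one _, rfl, by simp⟩ ?_ ?_ fun x hx => ?_
  · rintro s t hst ⟨Γ, _, _, _, g, hg⟩
    exact ⟨Γ, _, _, inferInstance, g, hg.1, hg.2.1, fun x hx => hg.2.2 x (hst hx)⟩
  · rintro s t ⟨Γ, _, _, _, g, hg⟩ ⟨Γ', _, _, _, g', hg'⟩
    obtain ⟨h1, h2⟩ := hg.prod hg'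
    exact ⟨Γ × Γ', _, _, inferInstance, _, h1.1, h1.2.1, fun x hx => hx.elim (h1.2.2 x) (h2.2.2 x)⟩
  · obtain ⟨Γ, _, _, _, g, h1, h2, h3⟩ := gen_loc (hG x hx)
    exact ⟨_, mem_nhdsWithin_of_mem_nhds h3.eventually_nhds,
      Γ, _, _, inferInstance, g, h1, h2, fun y hy => hy⟩

end Pool.Agent.P.MP_e711b0_an
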