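import Pool.Agent.P.MP_e711b0_an.Weier

/-! A uniform Noether lemma for families of holomorphic maps. -/

namespace Pool.Agent.P.MP_e711b0_an

open Set Filter Metric Topology Complex

set_option linter.unusedSectionVars false

variable {V V' W W' Γ : Type} [NormedAddCommGroup V] [NormedSpace ℂ V] [NormedAddCommGroup V']
  [NormedSpace ℂ V'] [NormedAddCommGroup W] [NormedSpace ℂ W] [NormedAddCommGroup W']
  [NormedSpace ℂ W'] [NormedAddCommGroup Γ] [NormedSpace ℂ Γ] {ι : Type}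

/-- `G` is a combination of the `s i`, `i ∈ J`, with coefficients holomorphic on `O`. -/
def InSpan (J : Finset ι) (s : ι → V → W) (G : Γ × V → W) (O : Set (Γ × V)) : Prop :=
  ∃ a : ι → Γ × V → ℂ, (∀ i, DifferentiableOn ℂ (a i) O) ∧ ∀ p ∈ O, G p = ∑ i ∈ J, a i p • s i p.2

namespace InSpan
variable {J J' : Finset ι} {s : ι → V → W} {G G' : Γ × V → W} {O : Set (Γ × V)}

theorem zero : InSpan J s (fun _ => 0) O :=
  ⟨fun _ _ => 0, fun _ => differentiableOn_const _, fun _ _ => by simp⟩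

theorem congr (h : InSpan J s G O) (h' : ∀ p ∈ O, G' p = G p) : InSpan J s G' O := by
  obtain ⟨a, h1, h2⟩ := h
  exact ⟨a, h1, fun p hp => (h' p hp).trans (h2 p hp)⟩

theorem add (h : InSpan J s G O) (h' : InSpan J s G' O) : InSpan J s (fun p => G p + G' p) O := by
  obtain ⟨a, h1, h2⟩ := h
  obtain ⟨b, h3, h4⟩ := h'
  exact ⟨fun i p => a i p + b i p, fun i => (h1 i).add (h3 i), fun p hp => by
    simp only [h2 p hp, h4 p hp, add_smul, Finset.sum_add_distrib]⟩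

theorem smul (h : InSpan J s G O) {c : Γ × V → ℂ} (hc : DifferentiableOn ℂ c O) :
    InSpan J s (fun p => c p • G p) O := by
  obtain ⟨a, h1, h2⟩ := h
  exact ⟨fun i p => c p * a i p, fun i => hc.mul (h1 i), fun p hp => by
    simp only [h2 p hp, Finset.smul_sum, smul_smul]⟩

theorem single {i : ι} (hi : i ∈ J) : InSpan J s (fun p => s i p.2) O := by
  classical
  refine ⟨fun j _ => if j = i then 1 else 0, fun _ => differentiableOn_const _, fun p _ => ?_⟩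
  simp [hi]

theorem sum {κ : Type} {T : Finset κ} {F : κ → Γ × V → W} (h : ∀ k ∈ T, InSpan J s (F k) O) :
    InSpan J s (fun p => ∑ k ∈ T, F k p) O := by
  classical
  induction T using Finset.induction_on with
  | empty => simpa using zero
  | insert k T hk ih =>
    simp only [Finset.sum_insert hk]
    exact (h k (Finset.mem_insert_self _ _)).add
      (ih fun k' hk' => h k' (Finset.mem_insert_of_mem hk'))

theorem comb {T : Finset ι} (hT : T ⊆ J) {a : ι → Γ × V → ℂ}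
    (ha : ∀ i, DifferentiableOn ℂ (a i) O) : InSpan J s (fun p => ∑ i ∈ T, a i p • s i p.2) O :=
  sum fun i hi => (single (hT hi)).smul (ha i)

end InSpan

/-- The conclusion of the uniform Noether lemma. -/
def UConc (s : ι → V → W) (x₀ : V) (U : Set V) : Prop :=
  ∃ (J : Finset ι) (U' : Set V), IsOpen U' ∧ x₀ ∈ U' ∧ U' ⊆ U ∧
    ∀ (Γ : Type) [NormedAddCommGroup Γ] [NormedSpace ℂ Γ] (O : Set Γ) (G : Γ × V → W), IsOpen O →
      DifferentiableOn ℂ G (O ×ˢ U) → (∀ c ∈ O, ∃ i, ∀ x ∈ U, G (c, x) = s i x) →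
      InSpan J s G (O ×ˢ U')

/-- The uniform Noether lemma at a point. -/
def UAt (W : Type) [NormedAddCommGroup W] [NormedSpace ℂ W] (x₀ : V) : Prop :=
  ∀ (ι : Type) (s : ι → V → W) (U : Set V), IsOpen U → x₀ ∈ U →
    (∀ i, DifferentiableOn ℂ (s i) U) → UConc s x₀ U

theorem UConc.transport {s : ι → V → W} {U : Set V} {e : V' → V} {e' : V → V'} {y₀ : V'}
    (he : Differentiable ℂ e) (he' : Differentiable ℂ e') (h1 : ∀ x, e (e' x) = x)
    (h2 : ∀ y, e' (e y) = y) (h : UConc (fun i y => s i (e y)) y₀ (e ⁻¹' U)) :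
    UConc s (e y₀) U := by
  obtain ⟨J, U', hU', hy, hsub, H⟩ := h
  refine ⟨J, e' ⁻¹' U', hU'.preimage he'.continuous, by simpa [h2] using hy,
    fun x hx => by simpa [h1] using hsub hx, fun Γ _ _ O G hO hG hGs => ?_⟩
  obtain ⟨a, ha, hG'⟩ := H Γ O (fun p => G (p.1, e p.2)) hO
    (hG.comp (f := fun p : Γ × V' => (p.1, e p.2))
      (differentiable_fst.prodMk (he.comp differentiable_snd)).differentiableOn
      fun p hp => ⟨hp.1, hp.2⟩)
    (fun c hc => by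
      obtain ⟨i, hi⟩ := hGs c hc
      exact ⟨i, fun y hy => hi _ hy⟩)
  refine ⟨fun i p => a i (p.1, e' p.2), fun i => (ha i).comp (f := fun p : Γ × V => (p.1, e' p.2))
    (differentiable_fst.prodMk (he'.comp differentiable_snd)).differentiableOn
    fun p hp => ⟨hp.1, hp.2⟩, fun p hp => ?_⟩
  simpa [h1] using hG' (p.1, e' p.2) ⟨hp.1, hp.2⟩

theorem UAt.equiv {x₀ : V} (e : W ≃L[ℂ] W') (h : UAt W' x₀) : UAt W x₀ := by
  intro ι s U hU hx hs
  obtain ⟨J, U', hU', hy, hsub, H⟩ := h ι (fun i x => e (s i x)) U hU hx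
    fun i => e.differentiable.comp_differentiableOn (hs i)
  refine ⟨J, U', hU', hy, hsub, fun Γ _ _ O G hO hG hGs => ?_⟩
  obtain ⟨a, ha, hG'⟩ := H Γ O (fun p => e (G p)) hO (e.differentiable.comp_differentiableOn hG)
    (fun c hc => by
      obtain ⟨i, hi⟩ := hGs c hc
      exact ⟨i, fun y hy => by rw [hi _ hy]⟩)
  refine ⟨a, ha, fun p hp => e.injective ?_⟩
  simpa using hG' p hp

theorem UAt.of_subsingleton [Subsingleton W] {x₀ : V} : UAt W x₀ := fun _ _ U hU hx _ =>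
  ⟨∅, U, hU, hx, subset_rfl, fun _ _ _ _ _ _ _ _ => InSpan.zero.congr fun _ _ => Subsingleton.elim _ _⟩

theorem UAt.prod {x₀ : V} (h : UAt W x₀) (h' : UAt W' x₀) : UAt (W × W') x₀ := by
  classical
  intro ι s U hU hx hs
  obtain ⟨J, U₁, hU₁, hx₁, hsub₁, H₁⟩ := h ι (fun i x => (s i x).1) U hU hx fun i => (hs i).fst
  let κ := {q : ι × (ι → V → ℂ) // (∀ j, DifferentiableOn ℂ (q.2 j) U₁) ∧
    ∀ x ∈ U₁, (s q.1 x).1 = ∑ j ∈ J, q.2 j x • (s j x).1}
  let t : κ → V → W' := fun q x => (s q.1.1 x).2 - ∑ j ∈ J, q.1.2 j x • (s j x).2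
  obtain ⟨T, U₂, hU₂, hx₂, hsub₂, H₂⟩ := h' κ t U₁ hU₁ hx₁ fun q =>
    ((hs _).snd.mono hsub₁).sub (DifferentiableOn.fun_sum fun j _ =>
      (q.2.1 j).smul ((hs j).snd.mono hsub₁))
  refine ⟨J ∪ T.image fun q => q.1.1, U₂, hU₂, hx₂, hsub₂.trans hsub₁,
    fun Γ _ _ O G hO hG hGs => ?_⟩
  obtain ⟨a, ha, hGa⟩ := H₁ Γ O (fun p => (G p).1) hO hG.fst fun c hc => by
    obtain ⟨i, hi⟩ := hGs c hc
    exact ⟨i, fun y hy => by rw [hi _ hy]⟩
  obtain ⟨b, hb, hGb⟩ := H₂ Γ O (fun p => (G p).2 - ∑ j ∈ J, a j p • (s j p.2).2) hO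
    ((hG.snd.mono (prod_mono subset_rfl hsub₁)).sub (DifferentiableOn.fun_sum fun j _ =>
      (ha j).smul ((hs j).snd.comp differentiable_snd.differentiableOn fun p hp => hsub₁ hp.2)))
    (fun c hc => by
      obtain ⟨i, hi⟩ := hGs c hc
      refine ⟨⟨(i, fun j x => a j (c, x)), fun j => (ha j).comp (f := fun x => (c, x))
        (by fun_prop) fun x hx => ⟨hc, hx⟩, fun x hx => ?_⟩, fun x hx => ?_⟩
      · simpa [hi x (hsub₁ hx)] using hGa (c, x) ⟨hc, hx⟩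
      · simp [t, hi x (hsub₁ hx)])
  have hsub : O ×ˢ U₂ ⊆ O ×ˢ U₁ := prod_mono subset_rfl hsub₂
  have key := (InSpan.comb (s := s) (O := O ×ˢ U₂) (J := J ∪ T.image fun q => q.1.1)
    Finset.subset_union_left fun j => (ha j).mono hsub).add
    (InSpan.sum (T := T) (F := fun q p => b q p • (s q.1.1 p.2 +
      ∑ j ∈ J, (fun j (p : Γ × V) => - q.1.2 j p.2) j p • s j p.2)) fun q hq =>
      ((InSpan.single (Finset.mem_union_right _ (Finset.mem_image_of_mem _ hq))).add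
        (InSpan.comb Finset.subset_union_left fun j =>
          ((q.2.1 j).comp differentiable_snd.differentiableOn fun p hp => hsub₂ hp.2).neg)).smul
        (hb q))
  refine key.congr fun p hp => ?_
  apply Prod.ext
  · simp only [Prod.fst_add, Prod.fst_sum, Prod.smul_fst, neg_smul, Finset.sum_neg_distrib,
      Prod.fst_neg]
    have h0 : (G p).1 = ∑ i ∈ J, a i p • (s i p.2).1 := hGa p (hsub hp)
    rw [h0, Finset.sum_eq_zero (s := T), add_zero]
    intro q _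
    rw [q.2.2 p.2 (hsub₂ hp.2)]
    simp
  · have := hGb p hp
    simp only [Prod.snd_add, Prod.snd_sum, Prod.smul_snd, neg_smul, Finset.sum_neg_distrib,
      Prod.snd_neg]
    rw [sub_eq_iff_eq_add.mp this, add_comm]
    simp [t, sub_eq_add_neg]

theorem UAt.all {x₀ : V} (h : UAt ℂ x₀) (W : Type) [NormedAddCommGroup W] [NormedSpace ℂ W]
    [FiniteDimensional ℂ W] : UAt W x₀ := by
  have key : ∀ p : ℕ, UAt (Fin p → ℂ) x₀ := fun p => by
    induction p with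
    | zero => exact UAt.of_subsingleton
    | succ p ih =>
      exact (h.prod ih).equiv (ContinuousLinearEquiv.ofFinrankEq (by simp [add_comm]))
  exact (key (Module.finrank ℂ W)).equiv (ContinuousLinearEquiv.ofFinrankEq (by simp))

theorem uconc_main [FiniteDimensional ℂ V'] (IH : ∀ k, UAt (Fin k → ℂ) (0 : V'))
    {s : ι → V' × ℂ → ℂ} {U : Set (V' × ℂ)} (hU : IsOpen U) (hx : (0 : V' × ℂ) ∈ U)
    (hs : ∀ i, DifferentiableOn ℂ (s i) U) {i₀ : ι} (hne : ¬ ∀ᶠ t in 𝓝 (0 : ℂ), s i₀ (0, t) = 0) :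
    UConc s 0 U := by
  classical
  obtain ⟨k, φ, e, hφ, hφk, hφ0, he, he0, hfe⟩ := weierstrass_prep (Hol.of_on hU hx (hs i₀)) hne
  have hU' : ∀ᶠ p in 𝓝 (0 : V' × ℂ), p ∈ U := hU.mem_nhds hx
  obtain ⟨δ, hδ, hball⟩ := Metric.mem_nhds_iff.mp (hU'.and
    (he.and ((he.self_of_nhds.continuousAt.eventually_ne he0).and hfe)))
  set ρ := δ / 2 with hρ
  have hρ0 : 0 < ρ := by positivity
  have hsph : ∀ ζ ∈ sphere (0 : ℂ) ρ, pl k (φ 0) ζ ≠ 0 := fun ζ hζ => by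
    rw [pl_zero_coeff (hφk 0) hφ0]
    refine pow_ne_zero _ ?_
    rintro rfl
    simp at hζ
    exact hρ0.ne hζ
  have hφ' : ∀ᶠ z in 𝓝 (0 : V'), ∀ l ∈ Finset.range (k + 1), DifferentiableAt ℂ (fun z => φ z l) z :=
    (Finset.eventually_all _).mpr fun l _ => hφ l
  set ψ : V' → ℕ → ℂ := fun z l => if l ≤ k then φ z l else 0 with hψ
  have hpl : ∀ z w, pl k (ψ z) w = pl k (φ z) w := fun z w =>
    Finset.sum_congr rfl fun l hl => by
      simp [hψ, Nat.lt_succ_iff.mp (Finset.mem_range.mp hl)]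
  obtain ⟨U₁, hU₁, hU₁o, hU₁0⟩ := _root_.eventually_nhds_iff.mp (hφ'.and
    ((circle_ne (fun l => (hφ l).self_of_nhds.continuousAt) hsph).and (ball_mem_nhds (0 : V') hδ)))
  have hψd : ∀ z ∈ U₁, ∀ l, DifferentiableAt ℂ (fun z => ψ z l) z := fun z hz l => by
    simp only [hψ]
    split_ifs with h
    · exact (hU₁ z hz).1 l (Finset.mem_range.mpr (Nat.lt_succ_of_le h))
    · exact differentiableAt_const _
  have hψ0 : ∀ z ∈ U₁, ∀ ζ ∈ sphere (0 : ℂ) ρ, pl k (ψ z) ζ ≠ 0 := fun z hz ζ hζ => by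
    rw [hpl]; exact (hU₁ z hz).2.1 ζ hζ
  have hin : ∀ z ∈ U₁, ∀ ζ ∈ closedBall (0 : ℂ) ρ, (z, ζ) ∈ ball (0 : V' × ℂ) δ := fun z hz ζ hζ => by
    rw [← Prod.mk_zero_zero, ← ball_prod_same]
    exact ⟨(hU₁ z hz).2.2, closedBall_subset_ball (by linarith) hζ⟩
  have hrem : ∀ (Γ : Type) [NormedAddCommGroup Γ] [NormedSpace ℂ Γ] (O : Set Γ)
      (G : Γ × (V' × ℂ) → ℂ), IsOpen O → DifferentiableOn ℂ G (O ×ˢ U) →
      DifferentiableOn ℂ (fun q : Γ × V' => fun l : Fin k => cr 0 ρ (pl k (ψ q.2))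
        fun ζ => G (q.1, q.2, ζ) * dl k (ψ q.2) ζ l) (O ×ˢ U₁) ∧
      DifferentiableOn ℂ (fun p : Γ × (V' × ℂ) => cq 0 ρ (pl k (ψ p.2.1))
        (fun ζ => G (p.1, p.2.1, ζ)) p.2.2) (O ×ˢ (U₁ ×ˢ ball 0 ρ)) := by
    intro Γ _ _ O G hO hG
    have h1 : ∀ q ∈ O ×ˢ U₁, ∀ ζ : ℂ, ∀ l,
        DifferentiableAt ℂ (fun p : (Γ × V') × ℂ => ψ p.1.2 l) (q, ζ) := fun q hq ζ l =>
      (hψd q.2 hq.2 l).comp (q, ζ) (f := fun p : (Γ × V') × ℂ => p.1.2) (by fun_prop)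
    have h2 : ∀ q ∈ O ×ˢ U₁, ∀ ζ ∈ sphere (0 : ℂ) ρ,
        DifferentiableAt ℂ (fun p : (Γ × V') × ℂ => G (p.1.1, p.1.2, p.2)) (q, ζ) :=
      fun q hq ζ hζ => (hG.differentiableAt ((hO.prod hU).mem_nhds
        ⟨hq.1, (hball (hin q.2 hq.2 ζ (sphere_subset_closedBall hζ))).1⟩)).comp (q, ζ)
        (f := fun p : (Γ × V') × ℂ => (p.1.1, p.1.2, p.2)) (by fun_prop)
    constructor
    · refine differentiableOn_pi.mpr fun l => ?_
      exact cr_diffOn (P := fun q : Γ × V' => pl k (ψ q.2))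
        (a := fun q ζ => G (q.1, q.2, ζ) * dl k (ψ q.2) ζ l) hρ0.le (hO.prod hU₁o)
        (fun q hq ζ _ => pl_diffAt (h1 q hq ζ) differentiableAt_snd) (fun q hq => hψ0 _ hq.2)
        fun q hq ζ hζ => (h2 q hq ζ hζ).mul (dl_diffAt (h1 q hq ζ) differentiableAt_snd l)
    · exact (cq_diffOn (P := fun q : Γ × V' => pl k (ψ q.2))
        (a := fun q ζ => G (q.1, q.2, ζ)) hρ0.le (hO.prod hU₁o)
        (fun q hq ζ _ => pl_diffAt (h1 q hq ζ) differentiableAt_snd) (fun q hq => hψ0 _ hq.2)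
        h2).comp (f := fun p : Γ × (V' × ℂ) => ((p.1, p.2.1), p.2.2)) (by fun_prop)
        fun p hp => ⟨⟨hp.1, hp.2.1⟩, hp.2.2⟩
  have hsU : ∀ i, DifferentiableOn ℂ (fun p : ℂ × (V' × ℂ) => s i p.2) (univ ×ˢ U) := fun i =>
    (hs i).comp differentiable_snd.differentiableOn fun p hp => hp.2
  obtain ⟨J, U₂, hU₂, hx₂, hsub₂, H⟩ := IH k ι
    (fun i z l => cr 0 ρ (pl k (ψ z)) fun ζ => s i (z, ζ) * dl k (ψ z) ζ l) U₁ hU₁o hU₁0
    fun i => (hrem ℂ univ _ isOpen_univ (hsU i)).1.comp (f := fun z => ((0 : ℂ), z)) (by fun_prop)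
      fun z hz => ⟨trivial, hz⟩
  have hsub : U₂ ×ˢ ball (0 : ℂ) ρ ⊆ ball 0 δ := fun p hp =>
    hin p.1 (hsub₂ hp.1) p.2 (ball_subset_closedBall hp.2)
  refine ⟨insert i₀ J, U₂ ×ˢ ball 0 ρ, hU₂.prod isOpen_ball, ⟨hx₂, mem_ball_self hρ0⟩,
    fun p hp => (hball (hsub hp)).1, fun Γ _ _ O G hO hG hGs => ?_⟩
  obtain ⟨a, ha, hGa⟩ := H Γ O _ hO (hrem Γ O G hO hG).1 fun c hc => by
    obtain ⟨i, hi⟩ := hGs c hc
    refine ⟨i, fun z hz => funext fun l => cr_congr hρ0.le fun ζ hζ => ?_⟩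
    rw [hi _ (hball (hin z hz ζ (sphere_subset_closedBall hζ))).1]
  have ha' : ∀ i, DifferentiableOn ℂ (fun p : Γ × (V' × ℂ) => a i (p.1, p.2.1))
      (O ×ˢ (U₂ ×ˢ ball 0 ρ)) := fun i =>
    (ha i).comp (f := fun p : Γ × (V' × ℂ) => (p.1, p.2.1)) (by fun_prop) fun p hp => ⟨hp.1, hp.2.1⟩
  have hq : DifferentiableOn ℂ (fun p : Γ × (V' × ℂ) =>
      (cq 0 ρ (pl k (ψ p.2.1)) (fun ζ => G (p.1, p.2.1, ζ)) p.2.2 -
        ∑ i ∈ J, a i (p.1, p.2.1) * cq 0 ρ (pl k (ψ p.2.1)) (fun ζ => s i (p.2.1, ζ)) p.2.2) /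
        e p.2) (O ×ˢ (U₂ ×ˢ ball 0 ρ)) := by
    have h1 := (hrem Γ O G hO hG).2.mono (prod_mono subset_rfl (prod_mono hsub₂ subset_rfl))
    have h2 : ∀ i, DifferentiableOn ℂ (fun p : Γ × (V' × ℂ) =>
        cq 0 ρ (pl k (ψ p.2.1)) (fun ζ => s i (p.2.1, ζ)) p.2.2) (O ×ˢ (U₂ ×ˢ ball 0 ρ)) := fun i =>
      (hrem ℂ univ _ isOpen_univ (hsU i)).2.comp (f := fun p : Γ × (V' × ℂ) => ((0 : ℂ), p.2))
        (by fun_prop) fun p hp => ⟨trivial, hsub₂ hp.2.1, hp.2.2⟩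
    have h3 := h1.sub (DifferentiableOn.fun_sum (u := J) fun i _ => (ha' i).mul (h2 i))
    intro p hp
    have h4 : DifferentiableAt ℂ (fun p : Γ × (V' × ℂ) => e p.2) p :=
      (hball (hsub hp.2)).2.1.comp p differentiableAt_snd
    exact (diffAt_div (h3.differentiableAt ((hO.prod (hU₂.prod isOpen_ball)).mem_nhds hp)) h4
      (hball (hsub hp.2)).2.2.1).differentiableWithinAt
  refine ((InSpan.comb (Finset.subset_insert i₀ J) ha').add
    ((InSpan.single (Finset.mem_insert_self i₀ J)).smul hq)).congr ?_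
  rintro ⟨c, z, w⟩ ⟨hc, hz, hw⟩
  have hz1 := hsub₂ hz
  have hd : ∀ ζ ∈ closedBall (0 : ℂ) ρ, (z, ζ) ∈ U := fun ζ hζ => (hball (hin z hz1 ζ hζ)).1
  have e1 := cd_div (a := fun ζ => G (c, z, ζ)) hw (hψ0 z hz1) fun ζ hζ =>
    ((hG.differentiableAt (x := (c, z, ζ)) ((hO.prod hU).mem_nhds ⟨hc, hd ζ hζ⟩)).comp ζ
      (f := fun ζ => (c, z, ζ)) (by fun_prop)).differentiableWithinAt
  have e2 := fun i => cd_div (a := fun ζ => s i (z, ζ)) hw (hψ0 z hz1) fun ζ hζ =>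
    (((hs i).differentiableAt (hU.mem_nhds (hd ζ hζ))).comp ζ
      (f := fun ζ => (z, ζ)) (by fun_prop)).differentiableWithinAt
  have e3 := hGa (c, z) ⟨hc, hz⟩
  have e4 := (hball (hsub (a := (z, w)) ⟨hz, hw⟩)).2.2
  have e5 : ∑ l ∈ Finset.range k, w ^ l * cr 0 ρ (pl k (ψ z)) (fun ζ => G (c, z, ζ) * dl k (ψ z) ζ l)
      = ∑ i ∈ J, a i (c, z) * ∑ l ∈ Finset.range k,
        w ^ l * cr 0 ρ (pl k (ψ z)) (fun ζ => s i (z, ζ) * dl k (ψ z) ζ l) := by
    simp only [Finset.mul_sum]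
    rw [Finset.sum_comm]
    refine Finset.sum_congr rfl fun l hl => ?_
    have := congrFun e3 ⟨l, Finset.mem_range.mp hl⟩
    simp only [Finset.sum_apply, Pi.smul_apply, smul_eq_mul] at this
    rw [this, Finset.mul_sum]
    exact Finset.sum_congr rfl fun i _ => by ring
  simp only [smul_eq_mul] at e1 e2 e4 ⊢
  rw [e4.2, ← hpl, e1, e5]
  have e6 : ∑ i ∈ J, a i (c, z) * s i (z, w) = (∑ i ∈ J, a i (c, z) *
      cq 0 ρ (pl k (ψ z)) (fun ζ => s i (z, ζ)) w) * pl k (ψ z) w + ∑ i ∈ J, a i (c, z) *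
      ∑ l ∈ Finset.range k, w ^ l * cr 0 ρ (pl k (ψ z)) (fun ζ => s i (z, ζ) * dl k (ψ z) ζ l) := by
    rw [Finset.sum_mul, ← Finset.sum_add_distrib]
    refine Finset.sum_congr rfl fun i _ => ?_
    rw [e2 i]; ring
  rw [e6]
  have := e4.1
  field_simp
  ring

theorem exists_split [FiniteDimensional ℂ V] {v : V} (hv : v ≠ 0) :
    ∃ (V' : Type) (_ : NormedAddCommGroup V') (_ : NormedSpace ℂ V') (_ : FiniteDimensional ℂ V'),
      Module.finrank ℂ V' + 1 = Module.finrank ℂ V ∧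
      ∃ e : (V' × ℂ) ≃L[ℂ] V, ∀ t, e (0, t) = t • v := by
  obtain ⟨g, -, hg⟩ := exists_dual_vector ℂ v (norm_ne_zero_iff.mpr hv)
  have hn : (‖v‖ : ℂ) ≠ 0 := by exact_mod_cast norm_ne_zero_iff.mpr hv
  set ℓ : V →L[ℂ] ℂ := (‖v‖ : ℂ)⁻¹ • g with hℓ
  have hℓv : ℓ v = 1 := by
    simp only [hℓ, smul_apply, hg, smul_eq_mul]
    exact inv_mul_cancel₀ hn
  let e : (ℓ.ker × ℂ) ≃ₗ[ℂ] V :=
    { toFun := fun p => p.1 + p.2 • v
      map_add' := fun p q => by simp [add_smul]; abel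
      map_smul' := fun a p => by simp [smul_smul]
      invFun := fun x => (⟨x - ℓ x • v, by simp [hℓv]⟩, ℓ x)
      left_inv := fun p => by
        have : ℓ p.1 = 0 := p.1.2
        ext <;> simp [hℓv, this]
      right_inv := fun x => by simp }
  refine ⟨ℓ.ker, inferInstance, inferInstance, inferInstance, ?_, e.toContinuousLinearEquiv,
    fun t => by simp [e]⟩
  rw [← e.finrank_eq]
  simp

theorem uAt_all : ∀ (n : ℕ) (V : Type) [NormedAddCommGroup V] [NormedSpace ℂ V]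
    [FiniteDimensional ℂ V], Module.finrank ℂ V = n → ∀ x₀ : V, UAt ℂ x₀ := by
  intro n
  induction n using Nat.strong_induction_on with
  | _ n IH =>
  intro V _ _ _ hn x₀ ι s U hU hx hs
  by_cases hA : ∃ i, s i x₀ ≠ 0
  · obtain ⟨i, hi⟩ := hA
    have ho : IsOpen (U ∩ s i ⁻¹' {0}ᶜ) :=
      (hs i).continuousOn.isOpen_inter_preimage hU isOpen_compl_singleton
    refine ⟨{i}, _, ho, ⟨hx, hi⟩, inter_subset_left, fun Γ _ _ O G hO hG _ => ?_⟩
    have h1 : DifferentiableOn ℂ (fun p : Γ × V => G p / s i p.2) (O ×ˢ (U ∩ s i ⁻¹' {0}ᶜ)) :=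
      fun p hp => (diffAt_div (hG.differentiableAt ((hO.prod hU).mem_nhds ⟨hp.1, hp.2.1⟩))
        (((hs i).differentiableAt (hU.mem_nhds hp.2.1)).comp p differentiableAt_snd)
        hp.2.2).differentiableWithinAt
    refine ((InSpan.single (Finset.mem_singleton_self i)).smul h1).congr fun p hp => ?_
    have : s i p.2 ≠ 0 := hp.2.2
    simp only [smul_eq_mul]
    field_simp
  by_cases hB : ∃ i v, ¬ ∀ᶠ t in 𝓝 (0 : ℂ), s i (x₀ + t • v) = 0
  · obtain ⟨i, v, hv⟩ := hB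
    have hv0 : v ≠ 0 := by
      rintro rfl
      push Not at hA
      simp [hA i] at hv
    obtain ⟨V', _, _, _, hdim, e, he⟩ := exists_split hv0
    have h1 := UConc.transport (s := s) (U := U) (e := fun p => x₀ + e p)
      (e' := fun x => e.symm (x - x₀)) (y₀ := 0) (by fun_prop) (by fun_prop) (by simp) (by simp)
      (uconc_main (i₀ := i) (fun k => (IH _ (by omega) V' rfl 0).all _)
        (hU.preimage (by fun_prop)) (by simpa using hx)
        (fun j => (hs j).comp (by fun_prop) fun p hp => hp) (by simpa [he] using hv))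
    simpa using h1
  · push Not at hB
    obtain ⟨r, hr, hball⟩ := Metric.isOpen_iff.mp hU x₀ hx
    refine ⟨∅, ball x₀ r, isOpen_ball, mem_ball_self hr, hball, fun Γ _ _ O G _ _ hGs => ?_⟩
    refine InSpan.zero.congr fun p hp => ?_
    obtain ⟨i, hi⟩ := hGs p.1 hp.1
    rw [← eq_zero_of_lines ((hs i).mono hball) (hB i) p.2 hp.2]
    exact hi _ (hball hp.2)

/-- The uniform Noether lemma. -/
theorem uniform_noether [FiniteDimensional ℂ V] [FiniteDimensional ℂ W] (x₀ : V) : UAt W x₀ :=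
  (uAt_all _ V rfl x₀).all W

end Pool.Agent.P.MP_e711b0_an
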