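import Pool.Agent.P.MP_e711b0_an.Div

/-! Holomorphic ordinary differential equations with parameters and the tracking lemma. -/

namespace Pool.Agent.P.MP_e711b0_an

open Set Filter Metric Topology Complex

set_option linter.unusedSectionVars false

variable {P H Θ Γ : Type} [NormedAddCommGroup P] [NormedSpace ℂ P] [NormedAddCommGroup H]
  [NormedSpace ℂ H] [NormedAddCommGroup Θ] [NormedSpace ℂ Θ] [NormedAddCommGroup Γ]
  [NormedSpace ℂ Γ]

theorem hode [CompleteSpace H] {O : Set P} (hO : IsOpen O) {θ₀ : P → H}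
    (h0 : DifferentiableOn ℂ θ₀ O) {Φ : P × ℂ × H → H} {δ M : ℝ} (hM : 0 < M) (hδ : 16 * M ≤ δ)
    (hΦ : ∀ v ∈ O, ∀ r ∈ ball (0 : ℂ) 2, ∀ θ ∈ ball (θ₀ v) δ,
      DifferentiableAt ℂ Φ (v, r, θ) ∧ ‖Φ (v, r, θ)‖ ≤ M) :
    ∃ Ξ : P × ℂ → H, DifferentiableOn ℂ Ξ (O ×ˢ ball 0 2) ∧ ∀ v ∈ O, Ξ (v, 0) = θ₀ v ∧
      ∀ r : ℝ, r ∈ Icc (0 : ℝ) 1 → Ξ (v, r) ∈ ball (θ₀ v) δ ∧
        HasDerivAt (fun s : ℝ => Ξ (v, s)) (Φ (v, r, Ξ (v, r))) r := by
  set U : Set (P × ℂ) := O ×ˢ ball 0 2 with hU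
  have hUo : IsOpen U := hO.prod isOpen_ball
  set T : (P × ℂ → H) → P × ℂ → H := fun Ξ x =>
    θ₀ x.1 + x.2 • ∫ t in (0 : ℝ)..1, Φ (x.1, x.2 * t, Ξ (x.1, x.2 * t)) with hT
  set G : (P × ℂ → H) → Prop := fun Ξ => DifferentiableOn ℂ Ξ U ∧ ∀ x ∈ U, ‖Ξ x - θ₀ x.1‖ ≤ 2 * M
    with hG
  have hmem : ∀ x ∈ U, ∀ t ∈ uIcc (0 : ℝ) 1, (x.1, x.2 * t) ∈ U := fun x hx t ht => by
    rw [uIcc_of_le zero_le_one] at ht
    refine ⟨hx.1, ?_⟩
    have h1 : ‖x.2‖ < 2 := by simpa using hx.2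
    simp only [mem_ball, dist_zero_right, norm_mul, Complex.norm_real, Real.norm_of_nonneg ht.1]
    nlinarith [ht.1, ht.2, norm_nonneg x.2]
  have hball : ∀ Ξ, G Ξ → ∀ x ∈ U, Ξ x ∈ ball (θ₀ x.1) δ := fun Ξ hΞ x hx => by
    rw [mem_ball, dist_eq_norm]
    linarith [hΞ.2 x hx]
  have hd : ∀ Ξ, G Ξ → DifferentiableOn ℂ (fun x : P × ℂ => Φ (x.1, x.2, Ξ x)) U := fun Ξ hΞ x hx =>
    ((hΦ x.1 hx.1 x.2 hx.2 _ (hball Ξ hΞ x hx)).1.comp x (f := fun x : P × ℂ => (x.1, x.2, Ξ x))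
      (differentiableAt_fst.prodMk (differentiableAt_snd.prodMk
        (hΞ.1.differentiableAt (hUo.mem_nhds hx))))).differentiableWithinAt
  have hint : ∀ Ξ, G Ξ → ∀ x ∈ U, IntervalIntegrable
      (fun t : ℝ => Φ (x.1, x.2 * t, Ξ (x.1, x.2 * t))) MeasureTheory.volume 0 1 := fun Ξ hΞ x hx =>
    ((hd Ξ hΞ).continuousOn.comp (f := fun t : ℝ => (x.1, x.2 * t)) (by fun_prop)
      (hmem x hx)).intervalIntegrable
  have hn2 : ∀ x ∈ U, ‖x.2‖ ≤ 2 := fun x hx => le_of_lt (by simpa using hx.2)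
  have hGT : ∀ Ξ, G Ξ → G (T Ξ) := fun Ξ hΞ => by
    constructor
    · have := differentiableOn_path_integral (a := 0) (b := 1)
        (h := fun z : (P × ℂ) × ℂ => Φ (z.1.1, z.1.2 * z.2, Ξ (z.1.1, z.1.2 * z.2)))
        (γ := fun t : ℝ => (t : ℂ)) (γ' := fun _ => 1) hUo continuous_ofReal continuous_const
        fun x hx t ht => ((hd Ξ hΞ).differentiableAt (hUo.mem_nhds (hmem x hx t ht))).comp
          (x, (t : ℂ)) (f := fun z : (P × ℂ) × ℂ => (z.1.1, z.1.2 * z.2)) (by fun_prop)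
      simp only [one_smul] at this
      exact (h0.comp differentiable_fst.differentiableOn fun x hx => hx.1).add
        (differentiable_snd.differentiableOn.smul this)
    · intro x hx
      simp only [hT, add_sub_cancel_left, norm_smul]
      refine mul_le_mul (hn2 x hx) ((intervalIntegral.norm_integral_le_of_norm_le_const (C := M)
        fun t ht => ?_).trans (by simp)) (norm_nonneg _) zero_le_two
      have := hmem x hx t (uIoc_subset_uIcc ht)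
      exact (hΦ _ this.1 _ this.2 _ (hball Ξ hΞ _ this)).2
  have hlip : ∀ Ξ Ξ' m, G Ξ → G Ξ' → (∀ x ∈ U, ‖Ξ x - Ξ' x‖ ≤ m) →
      ∀ x ∈ U, ‖T Ξ x - T Ξ' x‖ ≤ m / 2 := fun Ξ Ξ' m h1 h2 hm x hx => by
    have hm0 : 0 ≤ m := (norm_nonneg _).trans (hm x hx)
    simp only [hT, add_sub_add_left_eq_sub, ← smul_sub, norm_smul]
    rw [← intervalIntegral.integral_sub (hint Ξ h1 x hx) (hint Ξ' h2 x hx)]
    refine (mul_le_mul (d := m / 4) (hn2 x hx)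
      ((intervalIntegral.norm_integral_le_of_norm_le_const (C := m / 4)
      fun t ht => ?_).trans (by simp)) (norm_nonneg _) zero_le_two).trans (le_of_eq (by ring))
    have hy := hmem x hx t (uIoc_subset_uIcc ht)
    set y := (x.1, x.2 * (t : ℂ)) with hyd
    have hsub : ball (Ξ' y) (δ / 2) ⊆ ball (θ₀ x.1) δ := ball_subset_ball' (by
      rw [dist_eq_norm]
      linarith [h2.2 y hy])
    have h3 : ‖Ξ y - Ξ' y‖ ≤ 4 * M := by
      have := norm_sub_le_norm_sub_add_norm_sub (Ξ y) (θ₀ y.1) (Ξ' y)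
      rw [norm_sub_rev (θ₀ y.1)] at this
      linarith [h1.2 y hy, h2.2 y hy]
    have := sub_bound (f := fun θ => Φ (x.1, x.2 * t, θ)) (c := Ξ' y) (z := Ξ y) (r := δ / 2)
      (M := M) (fun θ hθ => ((hΦ _ hy.1 _ hy.2 θ (hsub hθ)).1.comp θ
        (f := fun θ => (x.1, x.2 * (t : ℂ), θ)) (by fun_prop)).differentiableWithinAt)
      (fun θ hθ => (hΦ _ hy.1 _ hy.2 θ (hsub hθ)).2) (by
        rw [mem_ball, dist_eq_norm]
        linarith)
    refine this.trans ((mul_le_mul (b := 1 / 4) ?_ (hm y hy) (norm_nonneg _) (by norm_num)).trans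
      (le_of_eq (by ring)))
    rw [div_le_iff₀ (by linarith)]
    linarith
  set F : ℕ → P × ℂ → H := fun n => T^[n] fun x => θ₀ x.1 with hF
  have hFs : ∀ n, F (n + 1) = T (F n) := fun n => Function.iterate_succ_apply' _ _ _
  have hFG : ∀ n, G (F n) := fun n => by
    induction n with
    | zero => exact ⟨h0.comp differentiable_fst.differentiableOn fun x hx => hx.1,
        fun x _ => by simp [hF, hM.le]⟩
    | succ n ih => rw [hFs]; exact hGT _ ih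
  have hFd : ∀ n, ∀ x ∈ U, ‖F (n + 1) x - F n x‖ ≤ 2 * M / 2 ^ n := fun n => by
    induction n with
    | zero => exact fun x hx => by simpa [hF] using (hFG 1).2 x hx
    | succ n ih =>
      intro x hx
      have := hlip _ _ _ (hFG _) (hFG _) ih x hx
      rwa [← hFs, ← hFs, div_div, ← pow_succ] at this
  obtain ⟨Ξ, hΞ⟩ := geo_limit hFd
  have hΞG : G Ξ := ⟨differentiableOn_of_tendsto hUo (fun n => (hFG n).1) hΞ, fun x hx =>
    le_of_tendsto' ((hΞ.tendsto_at hx).sub_const _).norm fun n => (hFG n).2 x hx⟩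
  have hfix : ∀ x ∈ U, Ξ x = T Ξ x := fun x hx => by
    refine tendsto_nhds_unique ((hΞ.tendsto_at hx).comp (tendsto_add_atTop_nat 1)) ?_
    refine Metric.tendsto_nhds.mpr fun ε hε => ?_
    filter_upwards [Metric.tendstoUniformlyOn_iff.mp hΞ ε hε] with n hn
    have := hlip (F n) Ξ ε (hFG n) hΞG (fun y hy => by
      rw [← dist_eq_norm, dist_comm]; exact (hn y hy).le) x hx
    simp only [Function.comp, hFs, dist_eq_norm]
    linarith
  refine ⟨Ξ, hΞG.1, fun v hv => ⟨?_, fun r hr => ?_⟩⟩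
  · rw [hfix (v, 0) ⟨hv, by simp⟩]
    simp [hT]
  have hin : ∀ s : ℝ, s ∈ Ioo (-2 : ℝ) 2 → (v, (s : ℂ)) ∈ U := fun s hs =>
    ⟨hv, by simpa [abs_lt] using hs⟩
  have hr' : r ∈ Ioo (-2 : ℝ) 2 := ⟨by linarith [hr.1], by linarith [hr.2]⟩
  refine ⟨hball Ξ hΞG _ (hin r hr'), ?_⟩
  have hc : ContinuousOn (fun s : ℝ => Φ (v, s, Ξ (v, s))) (Ioo (-2) 2) :=
    (hd Ξ hΞG).continuousOn.comp (f := fun s : ℝ => (v, (s : ℂ))) (by fun_prop) hin
  have h1 := (intervalIntegral.integral_hasDerivAt_right (a := 0)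
    (hc.mono (ordConnected_Ioo.uIcc_subset ⟨by norm_num, by norm_num⟩ hr')).intervalIntegrable
    (hc.stronglyMeasurableAtFilter isOpen_Ioo r hr')
    (hc.continuousAt (isOpen_Ioo.mem_nhds hr'))).const_add (θ₀ v)
  refine h1.congr_of_eventuallyEq ?_
  filter_upwards [isOpen_Ioo.mem_nhds hr'] with s hs
  have := intervalIntegral.smul_integral_comp_mul_left (a := 0) (b := 1)
    (fun s : ℝ => Φ (v, s, Ξ (v, s))) s
  rw [mul_zero, mul_one] at this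
  rw [hfix _ (hin s hs), ← this]
  simp [hT]

theorem norm_zero_mk (x : Θ) : ‖((0 : ℂ), x)‖ = ‖x‖ := by simp

/-- The vector field used to follow one Euler step. -/
noncomputable def fld (a : P × (ℂ × Θ) → (ℂ × Θ) →L[ℂ] Γ) (Λ : (P × (ℂ × Θ)) × Γ → Γ →L[ℂ] Θ)
    (w : P) (c : Γ) (d : ℂ × Θ) (r : ℂ) (η : ℂ × Θ) : ℂ × Θ :=
  d + (0, Λ ((w, η), r • c) c - Λ ((w, η), 0) (a (w, η) d))

theorem one_step [CompleteSpace Θ] {O : Set P} (hO : IsOpen O) {S : Set (ℂ × Θ)} {ρ M : ℝ}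
    (hρ : 0 < ρ) (hM : 0 < M) {a : P × (ℂ × Θ) → (ℂ × Θ) →L[ℂ] Γ}
    {Λ : (P × (ℂ × Θ)) × Γ → Γ →L[ℂ] Θ}
    (ha : ∀ w ∈ O, ∀ η ∈ thickening ρ S, DifferentiableAt ℂ a (w, η) ∧ ‖a (w, η)‖ ≤ M)
    (hΛ : ∀ w ∈ O, ∀ η ∈ thickening ρ S, ∀ c ∈ ball (0 : Γ) ρ,
      DifferentiableAt ℂ Λ ((w, η), c) ∧ ‖Λ ((w, η), c)‖ ≤ M)
    {Rel : P → Γ → ℂ × Θ → ℂ × Θ → Prop}
    (hR : ∀ w ∈ O, ∀ (c : Γ) (d : ℂ × Θ) (η : ℝ → ℂ × Θ), ‖c‖ < ρ →
      (∀ r ∈ Icc (0 : ℝ) 1, η r ∈ thickening ρ S ∧ HasDerivAt η (fld a Λ w c d r (η r)) r) →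
      Rel w c (η 0) (η 1)) :
    ∃ s > 0, ∃ C > 0, ∃ St : (P × (ℂ × Θ)) × Γ × (ℂ × Θ) → ℂ × Θ,
      ∀ w ∈ O, ∀ η₀ ∈ S, ∀ η c d, ‖η - η₀‖ < ρ / 2 → ‖c‖ < s → ‖d‖ < s →
        DifferentiableAt ℂ St ((w, η), c, d) ∧ (St ((w, η), c, d)).1 = η.1 + d.1 ∧
        Rel w c η (St ((w, η), c, d)) ∧ ‖St ((w, η), c, d) - η - d‖ ≤
          C * (‖c‖ ^ 2 + ‖c - a (w, η₀) d‖ + (‖η - η₀‖ + ‖c‖ + ‖d‖) * ‖d‖) := by
  set A := 1 + M + M ^ 2 with hA
  have hA1 : 1 ≤ A := by nlinarith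
  set s := ρ / (32 * A) with hs
  have hs0 : 0 < s := by positivity
  have hsA : s * A = ρ / 32 := by rw [hs]; field_simp
  have hsρ : s ≤ ρ / 32 := by nlinarith
  have hfb : ∀ w ∈ O, ∀ η ∈ thickening ρ S, ∀ (c : Γ) (d : ℂ × Θ) (r : ℂ), ‖r • c‖ < ρ →
      ‖fld a Λ w c d r η‖ ≤ ‖d‖ + M * ‖c‖ + M * (M * ‖d‖) := fun w hw η hη c d r hr => by
    refine (norm_add_le _ _).trans ?_
    rw [norm_zero_mk, add_assoc]
    refine add_le_add_right ((norm_sub_le _ _).trans (add_le_add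
      (((Λ _).le_opNorm _).trans (mul_le_mul_of_nonneg_right
        (hΛ w hw η hη _ (by simpa using hr)).2 (norm_nonneg _)))
      (((Λ _).le_opNorm _).trans (mul_le_mul (hΛ w hw η hη _ (mem_ball_self hρ)).2
        (((a _).le_opNorm _).trans (mul_le_mul_of_nonneg_right (ha w hw η hη).2 (norm_nonneg _)))
        (norm_nonneg _) hM.le)))) _
  have hth : ∀ η ∈ thickening (ρ / 2) S, ball η (ρ / 2) ⊆ thickening ρ S := fun η hη θ hθ => by
    obtain ⟨z, hz, h1⟩ := mem_thickening_iff.mp hη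
    exact mem_thickening_iff.mpr ⟨z, hz, by linarith [dist_triangle θ η z, mem_ball.mp hθ]⟩
  have hUo : IsOpen ((O ×ˢ thickening (ρ / 2) S) ×ˢ (ball (0 : Γ) s ×ˢ ball (0 : ℂ × Θ) s)) :=
    (hO.prod isOpen_thickening).prod (isOpen_ball.prod isOpen_ball)
  obtain ⟨Ξ, hΞ, hΞ'⟩ := hode hUo (θ₀ := fun v => v.1.2) (by fun_prop)
    (Φ := fun x => fld a Λ x.1.1.1 x.1.2.1 x.1.2.2 x.2.1 x.2.2) (δ := ρ / 2) (M := ρ / 32)
    (by positivity) (by linarith) (by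
      rintro ⟨⟨w, η⟩, c, d⟩ ⟨⟨hw, hη⟩, hc, hd⟩ r hr θ hθ
      have hc' : ‖c‖ < s := by simpa using hc
      have hd' : ‖d‖ < s := by simpa using hd
      have hr' : ‖r‖ < 2 := by simpa using hr
      have hrc : ‖r • c‖ < ρ := by
        rw [norm_smul]
        nlinarith [norm_nonneg r, norm_nonneg c]
      have hθ' := hth η hη hθ
      constructor
      · have h1 := (ha w hw θ hθ').1
        have h2 := (hΛ w hw θ hθ' _ (by simpa using hrc)).1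
        have h3 := (hΛ w hw θ hθ' _ (mem_ball_self hρ)).1
        have k1 := h1.comp (((w, η), c, d), r, θ)
          (f := fun x : ((P × (ℂ × Θ)) × Γ × (ℂ × Θ)) × ℂ × ℂ × Θ => (x.1.1.1, x.2.2)) (by fun_prop)
        have k2 := h2.comp (((w, η), c, d), r, θ)
          (f := fun x : ((P × (ℂ × Θ)) × Γ × (ℂ × Θ)) × ℂ × ℂ × Θ =>
            ((x.1.1.1, x.2.2), x.2.1 • x.1.2.1)) (by fun_prop)
        have k3 := h3.comp (((w, η), c, d), r, θ)
          (f := fun x : ((P × (ℂ × Θ)) × Γ × (ℂ × Θ)) × ℂ × ℂ × Θ =>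
            ((x.1.1.1, x.2.2), (0 : Γ))) (by fun_prop)
        exact DifferentiableAt.add (by fun_prop) ((differentiableAt_const _).prodMk
          ((k2.clm_apply (by fun_prop)).sub (k3.clm_apply (k1.clm_apply (by fun_prop)))))
      · refine (hfb w hw θ hθ' c d r hrc).trans ?_
        rw [← hsA, hA]
        nlinarith [mul_pos hM hM])
  refine ⟨s, hs0, 2 * M / ρ + M + 2 * M ^ 2 / ρ * A, by positivity, fun v => Ξ (v, 1),
    fun w hw η₀ hη₀ η c d hη hc hd => ?_⟩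
  have hη' : η ∈ thickening (ρ / 2) S := mem_thickening_iff.mpr ⟨η₀, hη₀, by rwa [dist_eq_norm]⟩
  have hv : ((w, η), c, d) ∈ (O ×ˢ thickening (ρ / 2) S) ×ˢ (ball (0 : Γ) s ×ˢ ball (0 : ℂ × Θ) s) :=
    ⟨⟨hw, hη'⟩, by simpa using hc, by simpa using hd⟩
  obtain ⟨h0, h1⟩ := hΞ' _ hv
  set ξ : ℝ → ℂ × Θ := fun r => Ξ (((w, η), c, d), r) with hξ
  have hξ0 : ξ 0 = η := by simpa [hξ] using h0
  have hξ1 : Ξ (((w, η), c, d), 1) = ξ 1 := by simp [hξ]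
  have hξm : ∀ r ∈ Icc (0 : ℝ) 1, ξ r ∈ thickening ρ S := fun r hr => hth η hη' (h1 r hr).1
  have hξd : ∀ r ∈ Icc (0 : ℝ) 1, HasDerivAt ξ (fld a Λ w c d r (ξ r)) r := fun r hr => (h1 r hr).2
  have hrc : ∀ r ∈ Icc (0 : ℝ) 1, ‖(r : ℂ) • c‖ ≤ ‖c‖ := fun r hr => by
    rw [norm_smul, Complex.norm_real, Real.norm_of_nonneg hr.1]
    nlinarith [hr.1, hr.2, norm_nonneg c]
  have hcρ : ‖c‖ < ρ := by linarith
  have hlin : ∀ r : ℝ, HasDerivAt (fun r : ℝ => (r : ℂ) • d) d r := fun r => by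
    simpa using hasDerivAt_line 0 d r
  refine ⟨(hΞ.differentiableAt ((hUo.prod isOpen_ball).mem_nhds ⟨hv, by simp⟩)).comp _
    (f := fun v => (v, (1 : ℂ))) (by fun_prop), ?_, ?_, ?_⟩
  · have := norm_image_sub_le_of_norm_deriv_le_segment_01' (f := fun r => (ξ r - (r : ℂ) • d).1)
      (C := 0) (fun r hr => ((ContinuousLinearMap.fst ℝ ℂ Θ).hasFDerivAt.comp_hasDerivAt r
        ((hξd r hr).sub (hlin r))).hasDerivWithinAt) fun r _ => by simp [fld]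
    simp only [hξ1]
    simp only [hξ0, norm_le_zero_iff, sub_eq_zero] at this
    simpa [sub_eq_iff_eq_add] using this
  · simpa only [hξ1, hξ0] using hR w hw c d ξ hcρ fun r hr => ⟨hξm r hr, hξd r hr⟩
  have hN : ∀ r ∈ Icc (0 : ℝ) 1, ‖ξ r - η‖ ≤ A * (‖c‖ + ‖d‖) := fun r hr => by
    have := norm_image_sub_le_of_norm_deriv_le_segment' (f := ξ) (a := 0) (b := 1)
      (C := A * (‖c‖ + ‖d‖)) (fun r hr => (hξd r hr).hasDerivWithinAt) (fun r hr =>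
        (hfb w hw _ (hξm r (Ico_subset_Icc_self hr)) c d r
          ((hrc r (Ico_subset_Icc_self hr)).trans_lt hcρ)).trans (by
          rw [hA]
          nlinarith [norm_nonneg c, norm_nonneg d, mul_pos hM hM])) r hr
    rw [hξ0] at this
    refine this.trans ?_
    have : 0 ≤ A * (‖c‖ + ‖d‖) := by positivity
    nlinarith [hr.1, hr.2]
  have := norm_image_sub_le_of_norm_deriv_le_segment_01' (f := fun r => ξ r - (r : ℂ) • d)
    (C := (2 * M / ρ + M + 2 * M ^ 2 / ρ * A) *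
      (‖c‖ ^ 2 + ‖c - a (w, η₀) d‖ + (‖η - η₀‖ + ‖c‖ + ‖d‖) * ‖d‖))
    (fun r hr => ((hξd r hr).sub (hlin r)).hasDerivWithinAt) fun r hr => ?_
  · simp only [hξ1]
    simpa [hξ0, sub_right_comm] using this
  have hr' := Ico_subset_Icc_self hr
  have hm := hξm r hr'
  have e1 : ‖Λ ((w, ξ r), (r : ℂ) • c) - Λ ((w, ξ r), 0)‖ ≤ 2 * M / ρ * ‖c‖ := by
    have := sub_bound (f := fun c => Λ ((w, ξ r), c)) (c := 0) (z := (r : ℂ) • c) (r := ρ) (M := M)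
      (fun c hc => ((hΛ w hw _ hm c hc).1.comp c (f := fun c => ((w, ξ r), c))
        (by fun_prop)).differentiableWithinAt) (fun c hc => (hΛ w hw _ hm c hc).2)
      (by simpa using (hrc r hr').trans_lt hcρ)
    rw [sub_zero] at this
    exact this.trans (mul_le_mul_of_nonneg_left (hrc r hr') (by positivity))
  have e0 : ‖ξ r - η₀‖ ≤ ‖η - η₀‖ + A * (‖c‖ + ‖d‖) := by
    linarith [norm_sub_le_norm_sub_add_norm_sub (ξ r) η η₀, hN r hr']
  have e2 : ‖a (w, ξ r) - a (w, η₀)‖ ≤ 2 * M / ρ * (A * (‖η - η₀‖ + ‖c‖ + ‖d‖)) := by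
    have hsub : ball η₀ ρ ⊆ thickening ρ S := ball_subset_thickening hη₀ ρ
    refine (sub_bound (f := fun θ => a (w, θ)) (c := η₀) (z := ξ r) (r := ρ) (M := M)
      (fun θ hθ => ((ha w hw θ (hsub hθ)).1.comp θ (f := fun θ => (w, θ))
        (by fun_prop)).differentiableWithinAt) (fun θ hθ => (ha w hw θ (hsub hθ)).2) ?_).trans
      (mul_le_mul_of_nonneg_left (e0.trans ?_) (by positivity))
    · rw [mem_ball, dist_eq_norm]
      nlinarith
    · nlinarith [norm_nonneg (η - η₀)]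
  have e3 : fld a Λ w c d r (ξ r) - d = (0, (Λ ((w, ξ r), (r : ℂ) • c) - Λ ((w, ξ r), 0)) c +
      Λ ((w, ξ r), 0) ((c - a (w, η₀) d) - (a (w, ξ r) - a (w, η₀)) d)) := by
    simp [fld]
  rw [e3, norm_zero_mk]
  have e4 := ((Λ ((w, ξ r), (r : ℂ) • c) - Λ ((w, ξ r), 0)).le_opNorm c).trans
    (mul_le_mul_of_nonneg_right e1 (norm_nonneg c))
  have e5 := ((Λ ((w, ξ r), 0)).le_opNorm ((c - a (w, η₀) d) - (a (w, ξ r) - a (w, η₀)) d)).trans
    (mul_le_mul (hΛ w hw _ hm _ (mem_ball_self hρ)).2 ((norm_sub_le _ _).trans (add_le_add_right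
      (((a (w, ξ r) - a (w, η₀)).le_opNorm d).trans (mul_le_mul_of_nonneg_right e2 (norm_nonneg d)))
      _)) (norm_nonneg _) hM.le)
  refine (norm_add_le _ _).trans ((add_le_add e4 e5).trans ?_)
  have p1 : 0 ≤ 2 * M / ρ := by positivity
  have p2 : 0 ≤ 2 * M ^ 2 / ρ * A := by positivity
  have p3 : 0 ≤ ‖c‖ ^ 2 := by positivity
  have p4 : 0 ≤ ‖c - a (w, η₀) d‖ := norm_nonneg _
  have p5 : 0 ≤ (‖η - η₀‖ + ‖c‖ + ‖d‖) * ‖d‖ := by positivity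
  have e6 : 2 * M / ρ * ‖c‖ * ‖c‖ + M * (‖c - a (w, η₀) d‖ +
      2 * M / ρ * (A * (‖η - η₀‖ + ‖c‖ + ‖d‖)) * ‖d‖) = 2 * M / ρ * ‖c‖ ^ 2 +
      M * ‖c - a (w, η₀) d‖ + 2 * M ^ 2 / ρ * A * ((‖η - η₀‖ + ‖c‖ + ‖d‖) * ‖d‖) := by ring
  rw [e6]
  nlinarith [mul_nonneg p1 p4, mul_nonneg p1 p5, mul_nonneg hM.le p3, mul_nonneg hM.le p5,
    mul_nonneg p2 p3, mul_nonneg p2 p4]

/-- Euler products. -/
def eul {Y X : Type} (g : Γ → Equiv.Perm Y) (cs : ℕ → X → Γ) : ℕ → X → Equiv.Perm Y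
  | 0, _ => 1
  | k + 1, x => g (cs k x) * eul g cs k x

theorem track [FiniteDimensional ℂ Θ] {O : Set P} (hO : IsOpen O) {S : Set (ℂ × Θ)} {ρ M R : ℝ}
    (hρ : 0 < ρ) (hM : 0 < M) (hSc : Convex ℝ S) (hS0 : 0 ∈ S)
    (hSR : ∀ η ∈ S, ‖η‖ ≤ R) {a : P × (ℂ × Θ) → (ℂ × Θ) →L[ℂ] Γ}
    {Λ : (P × (ℂ × Θ)) × Γ → Γ →L[ℂ] Θ}
    (ha : ∀ w ∈ O, ∀ η ∈ thickening ρ S, DifferentiableAt ℂ a (w, η) ∧ ‖a (w, η)‖ ≤ M)
    (hΛ : ∀ w ∈ O, ∀ η ∈ thickening ρ S, ∀ c ∈ ball (0 : Γ) ρ,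
      DifferentiableAt ℂ Λ ((w, η), c) ∧ ‖Λ ((w, η), c)‖ ≤ M)
    (hrunge : ∀ ε > 0, ∃ a' : P × (ℂ × Θ) → (ℂ × Θ) →L[ℂ] Γ, Differentiable ℂ a' ∧
      ∀ w ∈ O, ∀ η ∈ S, ‖a' (w, η) - a (w, η)‖ ≤ ε)
    {Y : Type} {f : P → ℂ × Θ → Y} {g : Γ → Equiv.Perm Y} {Z : Set P}
    (hR : ∀ w ∈ O, ∀ (c : Γ) (d : ℂ × Θ) (η : ℝ → ℂ × Θ), ‖c‖ < ρ →
      (∀ r ∈ Icc (0 : ℝ) 1, η r ∈ thickening ρ S ∧ HasDerivAt η (fld a Λ w c d r (η r)) r) →
      w ∈ Z → f w (η 1) = g c (f w (η 0)))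
    {Q : Set P} (hQ : IsCompact Q) {ε σ : ℝ} (hε : 0 < ε) (hσ : 0 < σ) :
    ∃ (κ : ℝ) (m : ℕ) (cs : ℕ → P × (ℂ × Θ) → Γ) (γ : (P × (ℂ × Θ)) × Γ → Θ), 0 < κ ∧ κ < σ ∧
      (∀ k, Differentiable ℂ (cs k)) ∧ (∀ k w, cs k (w, 0) = 0) ∧
      (∀ k < m, ∀ w ∈ Q, ∀ η ∈ S, ‖cs k (w, η)‖ < σ) ∧ (∀ w ∈ O, γ ((w, 0), 0) = 0) ∧
      ∀ w ∈ O, ∀ η ∈ S, ∀ c ∈ ball (0 : Γ) 1, DifferentiableAt ℂ γ ((w, η), c) ∧
        ‖γ ((w, η), c) - η.2‖ ≤ ε ∧
        (w ∈ Z → f w (η.1, γ ((w, η), c)) = eul g cs m (w, η) (g ((κ : ℂ) • c) (f w 0))) := by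
  have : CompleteSpace Θ := FiniteDimensional.complete ℂ Θ
  have : ProperSpace (ℂ × Θ) := FiniteDimensional.proper ℂ _
  obtain ⟨s, hs, C, hC, St, hSt⟩ := one_step hO hρ hM ha hΛ
    (Rel := fun w c η η' => w ∈ Z → f w η' = g c (f w η)) hR
  have hR0 : 0 ≤ R := by simpa using hSR 0 hS0
  set A := (M + 2) * (R + 1) with hA
  have hA0 : 0 < A := by positivity
  set E := Real.exp (C * A) with hE
  have hE0 : 0 < E := Real.exp_pos _
  set ε₀ := min ε (ρ / 4) with hε₀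
  have hε₀0 : 0 < ε₀ := by positivity
  set κ := min (min 1 (min s σ / 2)) (ε₀ / (6 * C * E)) with hκ
  have hκ0 : 0 < κ := by positivity
  have hκ1 : κ ≤ 1 := (min_le_left _ _).trans (min_le_left _ _)
  have hκ2 : κ ≤ min s σ / 2 := (min_le_left _ _).trans (min_le_right _ _)
  have hκ3 : 2 * C * κ * E ≤ ε₀ / 3 := by
    have := (le_div_iff₀ (by positivity)).mp (min_le_right _ _ : κ ≤ _)
    linarith
  set ε' := min 1 (ε₀ / (3 * C * A * E)) with hε'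
  have hε'0 : 0 < ε' := by positivity
  have hε'3 : C * A * ε' * E ≤ ε₀ / 3 := by
    have := (le_div_iff₀ (by positivity)).mp (min_le_right _ _ : ε' ≤ _)
    linarith
  obtain ⟨a', ha', haa⟩ := hrunge ε' hε'0
  obtain ⟨B, hB⟩ := (hQ.prod (isCompact_closedBall (0 : ℂ × Θ) R)).exists_bound_of_continuousOn
    ha'.continuous.continuousOn
  obtain ⟨m, hm1, hm2, hm3, hm4⟩ : ∃ m : ℕ, 1 ≤ m ∧ A / m < s ∧ A / m < ε₀ / (9 * C * A * E) ∧
      (|B| * R) / m < σ := ((eventually_ge_atTop 1).and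
    (((tendsto_const_div_atTop_nhds_zero_nat A).eventually (gt_mem_nhds hs)).and
    (((tendsto_const_div_atTop_nhds_zero_nat A).eventually (gt_mem_nhds (by positivity))).and
    ((tendsto_const_div_atTop_nhds_zero_nat _).eventually (gt_mem_nhds hσ))))).exists
  have hm0 : (0 : ℝ) < m := by exact_mod_cast hm1
  set u := A / m with hu
  have hu0 : 0 < u := by positivity
  have hum : u * m = A := by rw [hu]; field_simp
  have hu3 : C * A * (3 * u) * E ≤ ε₀ / 3 := by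
    have := (lt_div_iff₀ (by positivity)).mp hm3
    linarith
  set cs : ℕ → P × (ℂ × Θ) → Γ := fun k x =>
    a' (x.1, ((k / m : ℝ) : ℂ) • x.2) (((1 / m : ℝ) : ℂ) • x.2) with hcs
  have hcsd : ∀ k, Differentiable ℂ (cs k) := fun k =>
    (ha'.comp (f := fun x : P × (ℂ × Θ) => (x.1, ((k / m : ℝ) : ℂ) • x.2))
      (by fun_prop)).clm_apply (by fun_prop)
  have hkS : ∀ k ≤ m, ∀ η ∈ S, ((k / m : ℝ) : ℂ) • η ∈ S := fun k hk η hη => by
    rw [Complex.coe_smul]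
    exact hSc.smul_mem_of_zero_mem hS0 hη ⟨by positivity, (div_le_one hm0).mpr (by exact_mod_cast hk)⟩
  have hdn : ∀ η ∈ S, ‖((1 / m : ℝ) : ℂ) • η‖ ≤ R / m := fun η hη => by
    rw [norm_smul, Complex.norm_real, Real.norm_of_nonneg (by positivity), one_div, ← div_eq_inv_mul]
    exact div_le_div_of_nonneg_right (hSR η hη) hm0.le
  have hRu : (M + 1) * (R / m) ≤ u := by
    rw [hu, ← mul_div_assoc]
    exact div_le_div_of_nonneg_right (by rw [hA]; nlinarith) hm0.le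
  have hRm : 0 ≤ R / m := by positivity
  set ξ : ℕ → (P × (ℂ × Θ)) × Γ → ℂ × Θ := fun k => Nat.rec
    (fun x => St ((x.1.1, 0), (κ : ℂ) • x.2, 0))
    (fun k ξ x => St ((x.1.1, ξ x), cs k x.1, ((1 / m : ℝ) : ℂ) • x.1.2)) k with hξ
  have hξ0 : ∀ x, ξ 0 x = St ((x.1.1, 0), (κ : ℂ) • x.2, 0) := fun _ => rfl
  have hξs : ∀ k x, ξ (k + 1) x = St ((x.1.1, ξ k x), cs k x.1, ((1 / m : ℝ) : ℂ) • x.1.2) :=
    fun _ _ => rfl
  have hq : ∀ k ≤ m, (1 + C * u) ^ k * (2 * C * κ + k * (C * u * (3 * u + ε'))) ≤ ε₀ := by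
    intro k hk
    have h1 : (1 + C * u) ^ k ≤ E := by
      refine (pow_le_pow_right₀ (by nlinarith) hk).trans ((pow_le_pow_left₀ (by positivity)
        (by simpa [add_comm] using Real.add_one_le_exp (C * u)) m).trans (le_of_eq ?_))
      rw [← Real.exp_nat_mul, hE, ← hum]
      ring_nf
    have h2 : k * (C * u * (3 * u + ε')) ≤ C * A * (3 * u + ε') := by
      have : (k : ℝ) ≤ m := by exact_mod_cast hk
      calc k * (C * u * (3 * u + ε')) ≤ m * (C * u * (3 * u + ε')) :=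
            mul_le_mul_of_nonneg_right this (by positivity)
        _ = _ := by rw [← hum]; ring
    refine (mul_le_mul h1 (add_le_add_right h2 _) (by positivity) hE0.le).trans ?_
    nlinarith
  have key : ∀ k ≤ m, ∀ w ∈ O, ∀ η ∈ S, ∀ c ∈ ball (0 : Γ) 1, DifferentiableAt ℂ (ξ k) ((w, η), c) ∧
      ‖ξ k ((w, η), c) - ((k / m : ℝ) : ℂ) • η‖ ≤
        (1 + C * u) ^ k * (2 * C * κ + k * (C * u * (3 * u + ε'))) ∧
      (ξ k ((w, η), c)).1 = (((k / m : ℝ) : ℂ) • η).1 ∧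
      (w ∈ Z → f w (ξ k ((w, η), c)) = eul g cs k (w, η) (g ((κ : ℂ) • c) (f w 0))) ∧
      (η = 0 → c = 0 → ξ k ((w, η), c) = 0) := by
    intro k hk w hw η hη c hc
    induction k with
    | zero =>
      have hc' : ‖(κ : ℂ) • c‖ ≤ κ := by
        rw [norm_smul, Complex.norm_real, Real.norm_of_nonneg hκ0.le]
        exact mul_le_of_le_one_right hκ0.le (le_of_lt (by simpa using hc))
      obtain ⟨h1, h2, h3, h4⟩ := hSt w hw 0 hS0 0 ((κ : ℂ) • c) 0 (by simpa using hρ)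
        (by linarith [min_le_left s σ]) (by simpa using hs)
      simp only [sub_zero, map_zero, norm_zero, mul_zero, add_zero] at h4
      refine ⟨h1.comp ((w, η), c) (f := fun x : (P × (ℂ × Θ)) × Γ =>
        ((x.1.1, (0 : ℂ × Θ)), (κ : ℂ) • x.2, (0 : ℂ × Θ))) (by fun_prop), ?_, by simpa [hξ0] using h2,
        h3, fun _ h5 => by simpa [hξ0, h5] using h4⟩
      simp only [hξ0, Nat.cast_zero, zero_div, ofReal_zero, zero_smul, sub_zero, pow_zero, one_mul,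
        zero_mul, add_zero]
      refine h4.trans ?_
      have := norm_nonneg ((κ : ℂ) • c)
      have h6 : ‖(κ : ℂ) • c‖ ^ 2 ≤ κ := by nlinarith
      nlinarith
    | succ k ih =>
      obtain ⟨i1, i2, i3, i4, i5⟩ := ih (Nat.le_of_succ_le hk)
      have hk' := Nat.le_of_succ_le hk
      have hη₀ := hkS k hk' η hη
      have hd := hdn η hη
      have hτ : ‖cs k (w, η) - a (w, ((k / m : ℝ) : ℂ) • η) (((1 / m : ℝ) : ℂ) • η)‖ ≤
          ε' * ‖((1 / m : ℝ) : ℂ) • η‖ :=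
        ((a' _ - a _).le_opNorm _).trans (mul_le_mul_of_nonneg_right (haa w hw _ hη₀) (norm_nonneg _))
      have hc1 : ‖cs k (w, η)‖ ≤ u := by
        have h1 := ((a (w, ((k / m : ℝ) : ℂ) • η)).le_opNorm (((1 / m : ℝ) : ℂ) • η)).trans
          (mul_le_mul (ha w hw _ (self_subset_thickening hρ _ hη₀)).2 hd (norm_nonneg _) hM.le)
        have h2 := norm_le_norm_add_norm_sub' (cs k (w, η))
          (a (w, ((k / m : ℝ) : ℂ) • η) (((1 / m : ℝ) : ℂ) • η))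
        have h3 := mul_le_mul (min_le_left _ _ : ε' ≤ 1) hd (norm_nonneg _) zero_le_one
        linarith
      have hd1 : ‖((1 / m : ℝ) : ℂ) • η‖ ≤ u := by nlinarith
      obtain ⟨h1, h2, h3, h4⟩ := hSt w hw _ hη₀ (ξ k ((w, η), c)) (cs k (w, η))
        (((1 / m : ℝ) : ℂ) • η) (by linarith [hq k hk', min_le_right ε (ρ / 4)])
        (hc1.trans_lt hm2) (hd1.trans_lt hm2)
      have hsum : (((k + 1 : ℕ) / m : ℝ) : ℂ) • η = ((k / m : ℝ) : ℂ) • η + ((1 / m : ℝ) : ℂ) • η := by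
        rw [← add_smul]
        push_cast
        rw [add_div]
      refine ⟨h1.comp ((w, η), c) (f := fun x : (P × (ℂ × Θ)) × Γ =>
        ((x.1.1, ξ k x), cs k x.1, ((1 / m : ℝ) : ℂ) • x.1.2))
        ((differentiableAt_fst.fst.prodMk i1).prodMk
          ((((hcsd k) _).comp _ differentiableAt_fst).prodMk (by fun_prop))), ?_,
        by rw [hξs, h2, i3, hsum, Prod.fst_add], fun hZ => by rw [hξs, h3 hZ, i4 hZ]; rfl,
        fun h5 h6 => ?_⟩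
      · rw [hξs, hsum]
        set e := ‖ξ k ((w, η), c) - ((k / m : ℝ) : ℂ) • η‖ with he
        have he0 : 0 ≤ e := norm_nonneg _
        have h5 := norm_add_le (St ((w, ξ k ((w, η), c)), cs k (w, η), ((1 / m : ℝ) : ℂ) • η) -
          ξ k ((w, η), c) - ((1 / m : ℝ) : ℂ) • η) (ξ k ((w, η), c) - ((k / m : ℝ) : ℂ) • η)
        have h6 : ‖cs k (w, η)‖ ^ 2 + ‖cs k (w, η) - a (w, ((k / m : ℝ) : ℂ) • η)
            (((1 / m : ℝ) : ℂ) • η)‖ + (e + ‖cs k (w, η)‖ + ‖((1 / m : ℝ) : ℂ) • η‖) *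
            ‖((1 / m : ℝ) : ℂ) • η‖ ≤ u * u + ε' * u + (e + u + u) * u :=
          add_le_add (add_le_add (by nlinarith [norm_nonneg (cs k (w, η))])
            (hτ.trans (mul_le_mul_of_nonneg_left hd1 hε'0.le)))
            (mul_le_mul (by linarith) hd1 (norm_nonneg _) (by positivity))
        have h7 := mul_le_mul_of_nonneg_left h6 hC.le
        have h8 : (1 : ℝ) ≤ (1 + C * u) ^ (k + 1) := one_le_pow₀ (by nlinarith)
        have h9 := mul_le_mul_of_nonneg_left i2 (by positivity : 0 ≤ 1 + C * u)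
        have h10 := mul_le_mul_of_nonneg_right h8 (by positivity : 0 ≤ C * u * (3 * u + ε'))
        refine le_trans (le_of_eq ?_) (h5.trans ((add_le_add (h4.trans h7) he.symm.le).trans ?_))
        · congr 1
          abel
        · rw [Nat.cast_succ]
          rw [pow_succ] at h10 ⊢
          linarith
      · have h7 := i5 h5 h6
        subst h5
        simpa [hξs, h7, hcs] using h4
  refine ⟨κ, m, cs, fun x => (ξ m x).2, hκ0, by linarith [min_le_right s σ], hcsd,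
    fun k w => by simp [hcs], fun k hk w hw η hη => ?_, fun w hw => ?_, fun w hw η hη c hc => ?_⟩
  · refine (((a' _).le_opNorm _).trans (mul_le_mul ((hB _ ⟨hw, by
      simpa using hSR _ (hkS k hk.le η hη)⟩).trans (le_abs_self B)) (hdn η hη) (norm_nonneg _)
      (abs_nonneg B))).trans_lt (by rwa [← mul_div_assoc])
  · simp [(key m le_rfl w hw 0 hS0 0 (mem_ball_self one_pos)).2.2.2.2 rfl rfl]
  · obtain ⟨h1, h2, h3, h4, -⟩ := key m le_rfl w hw η hη c hc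
    simp only [div_self hm0.ne', ofReal_one, one_smul] at h2 h3
    refine ⟨h1.snd, (norm_snd_le (ξ m ((w, η), c) - η)).trans
      (h2.trans ((hq m le_rfl).trans (min_le_left _ _))), fun hZ => ?_⟩
    rw [← h4 hZ, ← h3]

end Pool.Agent.P.MP_e711b0_an
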