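import Pool.Agent.P.MP_e711b0_an.Basic

/-! Contour integrals over rectangles. -/

namespace Pool.Agent.P.MP_e711b0_an

open Set Filter Metric Topology Complex

set_option linter.unusedSectionVars false

variable {V W Z : Type*} [NormedAddCommGroup V] [NormedSpace ℂ V] [NormedAddCommGroup W]
  [NormedSpace ℂ W] [CompleteSpace W] [NormedAddCommGroup Z] [NormedSpace ℂ Z]

/-- Integral over the boundary of a rectangle. -/
noncomputable def RI (t0 t1 g0 g1 : ℝ) (f : ℂ → W) : W :=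
  (∫ x : ℝ in t0..t1, f (x + g0 * I)) - (∫ x : ℝ in t0..t1, f (x + g1 * I)) +
    I • (∫ y : ℝ in g0..g1, f (t1 + y * I)) - I • (∫ y : ℝ in g0..g1, f (t0 + y * I))

/-- The boundary of a rectangle. -/
def Bd (t0 t1 g0 g1 : ℝ) : Set ℂ :=
  {ζ | ζ.re ∈ Icc t0 t1 ∧ ζ.im ∈ Icc g0 g1 ∧ (ζ.re = t0 ∨ ζ.re = t1 ∨ ζ.im = g0 ∨ ζ.im = g1)}

variable {t0 t1 g0 g1 : ℝ}

theorem bd1 (hg : g0 ≤ g1) {x : ℝ} (hx : x ∈ Icc t0 t1) : (x + g0 * I : ℂ) ∈ Bd t0 t1 g0 g1 := by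
  simp [Bd, hx.1, hx.2, hg]

theorem bd2 (hg : g0 ≤ g1) {x : ℝ} (hx : x ∈ Icc t0 t1) : (x + g1 * I : ℂ) ∈ Bd t0 t1 g0 g1 := by
  simp [Bd, hx.1, hx.2, hg]

theorem bd3 (ht : t0 ≤ t1) {y : ℝ} (hy : y ∈ Icc g0 g1) : (t1 + y * I : ℂ) ∈ Bd t0 t1 g0 g1 := by
  simp [Bd, hy.1, hy.2, ht]

theorem bd4 (ht : t0 ≤ t1) {y : ℝ} (hy : y ∈ Icc g0 g1) : (t0 + y * I : ℂ) ∈ Bd t0 t1 g0 g1 := by
  simp [Bd, hy.1, hy.2, ht]

theorem RI_norm_le (ht : t0 ≤ t1) (hg : g0 ≤ g1) {f : ℂ → W} {C : ℝ}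
    (h : ∀ ζ ∈ Bd t0 t1 g0 g1, ‖f ζ‖ ≤ C) :
    ‖RI t0 t1 g0 g1 f‖ ≤ 2 * ((t1 - t0) + (g1 - g0)) * C := by
  have e1 : ‖∫ x : ℝ in t0..t1, f (x + g0 * I)‖ ≤ C * |t1 - t0| :=
    intervalIntegral.norm_integral_le_of_norm_le_const fun x hx =>
      h _ (bd1 hg (by rw [uIoc_of_le ht] at hx; exact Ioc_subset_Icc_self hx))
  have e2 : ‖∫ x : ℝ in t0..t1, f (x + g1 * I)‖ ≤ C * |t1 - t0| :=
    intervalIntegral.norm_integral_le_of_norm_le_const fun x hx =>
      h _ (bd2 hg (by rw [uIoc_of_le ht] at hx; exact Ioc_subset_Icc_self hx))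
  have e3 : ‖∫ y : ℝ in g0..g1, f (t1 + y * I)‖ ≤ C * |g1 - g0| :=
    intervalIntegral.norm_integral_le_of_norm_le_const fun x hx =>
      h _ (bd3 ht (by rw [uIoc_of_le hg] at hx; exact Ioc_subset_Icc_self hx))
  have e4 : ‖∫ y : ℝ in g0..g1, f (t0 + y * I)‖ ≤ C * |g1 - g0| :=
    intervalIntegral.norm_integral_le_of_norm_le_const fun x hx =>
      h _ (bd4 ht (by rw [uIoc_of_le hg] at hx; exact Ioc_subset_Icc_self hx))
  rw [abs_of_nonneg (sub_nonneg.mpr ht)] at e1 e2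
  rw [abs_of_nonneg (sub_nonneg.mpr hg)] at e3 e4
  unfold RI
  refine (norm_sub_le _ _).trans ?_
  refine (add_le_add_left (norm_add_le _ _) _).trans ?_
  have := norm_sub_le (∫ x : ℝ in t0..t1, f (x + g0 * I)) (∫ x : ℝ in t0..t1, f (x + g1 * I))
  simp only [norm_smul, norm_I, one_mul]
  nlinarith

theorem RI_congr (ht : t0 ≤ t1) (hg : g0 ≤ g1) {f g : ℂ → W}
    (h : ∀ ζ ∈ Bd t0 t1 g0 g1, f ζ = g ζ) : RI t0 t1 g0 g1 f = RI t0 t1 g0 g1 g := by
  unfold RI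
  rw [intervalIntegral.integral_congr (g := fun x : ℝ => g (x + g0 * I))
      fun x hx => h _ (bd1 hg (by rwa [uIcc_of_le ht] at hx)),
    intervalIntegral.integral_congr (f := fun x : ℝ => f (x + g1 * I))
      (g := fun x : ℝ => g (x + g1 * I)) fun x hx => h _ (bd2 hg (by rwa [uIcc_of_le ht] at hx)),
    intervalIntegral.integral_congr (f := fun y : ℝ => f (t1 + y * I))
      (g := fun y : ℝ => g (t1 + y * I)) fun x hx => h _ (bd3 ht (by rwa [uIcc_of_le hg] at hx)),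
    intervalIntegral.integral_congr (f := fun y : ℝ => f (t0 + y * I))
      (g := fun y : ℝ => g (t0 + y * I)) fun x hx => h _ (bd4 ht (by rwa [uIcc_of_le hg] at hx))]

theorem RI_add (ht : t0 ≤ t1) (hg : g0 ≤ g1) {f g : ℂ → W}
    (hf : ContinuousOn f (Bd t0 t1 g0 g1)) (hg' : ContinuousOn g (Bd t0 t1 g0 g1)) :
    RI t0 t1 g0 g1 (fun ζ => f ζ + g ζ) = RI t0 t1 g0 g1 f + RI t0 t1 g0 g1 g := by
  have i1 : ∀ u : ℂ → W, ContinuousOn u (Bd t0 t1 g0 g1) →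
      IntervalIntegrable (fun x : ℝ => u (x + g0 * I)) MeasureTheory.volume t0 t1 := fun u hu =>
    (hu.comp (by fun_prop) fun x hx => bd1 hg hx).intervalIntegrable_of_Icc ht
  have i2 : ∀ u : ℂ → W, ContinuousOn u (Bd t0 t1 g0 g1) →
      IntervalIntegrable (fun x : ℝ => u (x + g1 * I)) MeasureTheory.volume t0 t1 := fun u hu =>
    (hu.comp (by fun_prop) fun x hx => bd2 hg hx).intervalIntegrable_of_Icc ht
  have i3 : ∀ u : ℂ → W, ContinuousOn u (Bd t0 t1 g0 g1) →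
      IntervalIntegrable (fun y : ℝ => u (t1 + y * I)) MeasureTheory.volume g0 g1 := fun u hu =>
    (hu.comp (by fun_prop) fun x hx => bd3 ht hx).intervalIntegrable_of_Icc hg
  have i4 : ∀ u : ℂ → W, ContinuousOn u (Bd t0 t1 g0 g1) →
      IntervalIntegrable (fun y : ℝ => u (t0 + y * I)) MeasureTheory.volume g0 g1 := fun u hu =>
    (hu.comp (by fun_prop) fun x hx => bd4 ht hx).intervalIntegrable_of_Icc hg
  unfold RI
  rw [intervalIntegral.integral_add (i1 f hf) (i1 g hg'),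
    intervalIntegral.integral_add (i2 f hf) (i2 g hg'),
    intervalIntegral.integral_add (i3 f hf) (i3 g hg'),
    intervalIntegral.integral_add (i4 f hf) (i4 g hg')]
  simp only [smul_add]
  abel

theorem RI_smul (c : ℂ) (f : ℂ → W) :
    RI t0 t1 g0 g1 (fun ζ => c • f ζ) = c • RI t0 t1 g0 g1 f := by
  unfold RI
  simp only [intervalIntegral.integral_smul, smul_add, smul_sub, smul_comm I c]

theorem RI_smul_const (φ : ℂ → ℂ) (w : W) :
    RI t0 t1 g0 g1 (fun ζ => φ ζ • w) = RI t0 t1 g0 g1 φ • w := by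
  unfold RI
  simp only [intervalIntegral.integral_smul_const, add_smul, sub_smul, smul_assoc]

theorem RI_zero (ht : t0 ≤ t1) (hg : g0 ≤ g1) {f : ℂ → W}
    (hf : DifferentiableOn ℂ f (Icc t0 t1 ×ℂ Icc g0 g1)) : RI t0 t1 g0 g1 f = 0 := by
  have := integral_boundary_rect_eq_zero_of_differentiableOn f ⟨t0, g0⟩ ⟨t1, g1⟩
    (by simpa [uIcc_of_le ht, uIcc_of_le hg] using hf)
  simpa [RI] using this

theorem RI_inv {z : ℂ} (h1 : t0 < z.re) (h2 : z.re < t1) (h3 : g0 < z.im) (h4 : z.im < g1) :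
    RI t0 t1 g0 g1 (fun ζ => (ζ - z)⁻¹) = 2 * Real.pi * I := by
  have hor : ∀ g : ℝ, g ≠ z.im → ∫ x : ℝ in t0..t1, ((x : ℂ) + g * I - z)⁻¹ =
      log (t1 + g * I - z) - log (t0 + g * I - z) := by
    intro g hg
    have hne : ∀ x : ℝ, ((x : ℂ) + g * I - z) ∈ slitPlane := fun x => by
      right; simpa [sub_eq_zero] using hg
    refine intervalIntegral.integral_eq_sub_of_hasDerivAt
      (f := fun x : ℝ => log (x + g * I - z)) (fun x _ => ?_) ?_
    · have h5 : HasDerivAt (fun x : ℝ => (x : ℂ) + g * I - z) 1 x := by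
        simpa using ((Complex.ofRealCLM.hasDerivAt (x := x)).add_const (g * I : ℂ)).sub_const z
      simpa using h5.clog_real (hne x)
    · exact (Continuous.inv₀ (by fun_prop) fun x => slitPlane_ne_zero (hne x)).intervalIntegrable _ _
  have ver : ∀ (t : ℝ) (σ : ℂ), σ ≠ 0 → (∀ y : ℝ, σ * ((t : ℂ) + y * I - z) ∈ slitPlane) →
      I • ∫ y : ℝ in g0..g1, ((t : ℂ) + y * I - z)⁻¹ =
      log (σ * (t + g1 * I - z)) - log (σ * (t + g0 * I - z)) := by
    intro t σ hσ hne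
    rw [← intervalIntegral.integral_smul]
    have hne' : ∀ y : ℝ, ((t : ℂ) + y * I - z) ≠ 0 := fun y h => by
      have := slitPlane_ne_zero (hne y)
      simp [h] at this
    refine intervalIntegral.integral_eq_sub_of_hasDerivAt
      (f := fun y : ℝ => log (σ * (t + y * I - z))) (fun y _ => ?_) ?_
    · have h5 : HasDerivAt (fun y : ℝ => σ * ((t : ℂ) + y * I - z)) (σ * I) y := by
        simpa using ((((Complex.ofRealCLM.hasDerivAt (x := y)).mul_const I).const_add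
          (t : ℂ)).sub_const z).const_mul σ
      refine (h5.clog_real (hne y)).congr_deriv ?_
      have := hne' y
      simp only [smul_eq_mul]
      field_simp
    · exact ((Continuous.inv₀ (by fun_prop) hne').const_smul I).intervalIntegrable _ _
  unfold RI
  rw [hor g0 h3.ne, hor g1 h4.ne', ver t1 1 one_ne_zero (fun y => by left; simpa using h2),
    ver t0 (-1) (by norm_num) (fun y => by left; simpa using h1)]
  simp only [one_mul, neg_one_mul]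
  have k1 : log (-((t0 : ℂ) + g1 * I - z)) = log ((t0 : ℂ) + g1 * I - z) - Real.pi * I := by
    apply Complex.ext
    · simp only [log_re, norm_neg]; simp [log_re]
    · simp only [log_im]
      rw [arg_neg_eq_arg_sub_pi_of_im_pos (by simpa using h4)]
      simp [log_im]
  have k2 : log (-((t0 : ℂ) + g0 * I - z)) = log ((t0 : ℂ) + g0 * I - z) + Real.pi * I := by
    apply Complex.ext
    · simp only [log_re, norm_neg]; simp [log_re]
    · simp only [log_im]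
      rw [arg_neg_eq_arg_add_pi_of_im_neg (by simpa using h3)]
      simp [log_im]
  rw [k1, k2]
  ring

theorem Bd_ne {z ζ : ℂ} (h1 : t0 < z.re) (h2 : z.re < t1) (h3 : g0 < z.im) (h4 : z.im < g1)
    (hζ : ζ ∈ Bd t0 t1 g0 g1) : ζ ≠ z := by
  rintro rfl
  rcases hζ.2.2 with h | h | h | h <;> linarith

theorem Bd_subset : Bd t0 t1 g0 g1 ⊆ Icc t0 t1 ×ℂ Icc g0 g1 := fun _ h => ⟨h.1, h.2.1⟩

theorem RI_cauchy {z : ℂ} (h1 : t0 < z.re) (h2 : z.re < t1) (h3 : g0 < z.im) (h4 : z.im < g1)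
    {u : ℂ → W} (hu : DifferentiableOn ℂ u (Icc t0 t1 ×ℂ Icc g0 g1)) :
    RI t0 t1 g0 g1 (fun ζ => (ζ - z)⁻¹ • u ζ) = (2 * Real.pi * I : ℂ) • u z := by
  have ht : t0 ≤ t1 := (h1.trans h2).le
  have hg : g0 ≤ g1 := (h3.trans h4).le
  have hn : Icc t0 t1 ×ℂ Icc g0 g1 ∈ 𝓝 z := by
    have ho : IsOpen (Ioo t0 t1 ×ℂ Ioo g0 g1) := isOpen_Ioo.reProdIm isOpen_Ioo
    exact mem_of_superset (ho.mem_nhds ⟨⟨h1, h2⟩, ⟨h3, h4⟩⟩)
      fun w hw => ⟨Ioo_subset_Icc_self hw.1, Ioo_subset_Icc_self hw.2⟩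
  have hd := (Complex.differentiableOn_dslope hn).mpr hu
  rw [RI_congr ht hg (g := fun ζ => dslope u z ζ + (ζ - z)⁻¹ • u z) (fun ζ hζ => by
    rw [dslope_of_ne _ (Bd_ne h1 h2 h3 h4 hζ), slope_def_module, smul_sub]
    abel)]
  rw [RI_add ht hg (hd.continuousOn.mono Bd_subset), RI_zero ht hg hd, RI_smul_const,
    RI_inv h1 h2 h3 h4, zero_add]
  refine ContinuousOn.smul (ContinuousOn.inv₀ (by fun_prop) fun ζ hζ => ?_) continuousOn_const
  exact sub_ne_zero.mpr (Bd_ne h1 h2 h3 h4 hζ)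

theorem differentiableOn_RI (ht : t0 ≤ t1) (hg : g0 ≤ g1) {Φ : Z → ℂ → W} {O : Set Z}
    (hO : IsOpen O) (hc : ContinuousOn (fun p : Z × ℂ => Φ p.1 p.2) (O ×ˢ Bd t0 t1 g0 g1))
    (hd : ∀ ζ ∈ Bd t0 t1 g0 g1, DifferentiableOn ℂ (fun z => Φ z ζ) O) :
    DifferentiableOn ℂ (fun z => RI t0 t1 g0 g1 (Φ z)) O := by
  have key : ∀ (a b : ℝ) (γ : ℝ → ℂ), a ≤ b → Continuous γ → (∀ t ∈ Icc a b, γ t ∈ Bd t0 t1 g0 g1) →
      DifferentiableOn ℂ (fun z => ∫ t in a..b, Φ z (γ t)) O := fun a b γ hab hγ hm =>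
    differentiableOn_integral (Φ := fun z t => Φ z (γ t)) hO
      (hc.comp (f := fun p : Z × ℝ => (p.1, γ p.2)) (by fun_prop)
        fun p hp => ⟨hp.1, hm _ (by have := hp.2; rwa [uIcc_of_le hab] at this)⟩)
      fun t ht => hd _ (hm _ (by rwa [uIcc_of_le hab] at ht))
  unfold RI
  exact (((key _ _ (fun x => x + g0 * I) ht (by fun_prop) fun x hx => bd1 hg hx).sub
    (key _ _ (fun x => x + g1 * I) ht (by fun_prop) fun x hx => bd2 hg hx)).add
    ((key _ _ (fun y => t1 + y * I) hg (by fun_prop) fun x hx => bd3 ht hx).const_smul I)).sub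
    ((key _ _ (fun y => t0 + y * I) hg (by fun_prop) fun x hx => bd4 ht hx).const_smul I)

end Pool.Agent.P.MP_e711b0_an
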